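import Pool.Agent.Run7.h480.AGraph

/-! Scalar-block elements of the incidence algebra. -/

set_option linter.unusedSectionVars false
set_option linter.unusedSimpArgs false

namespace Run7.h480.Anosov

open Matrix

variable {n : ℕ} {G : SimpleGraph (Fin n)} {K : Type*} [Field K]

/-- inverse of an element of `Inc` that is invertible as a matrix. -/
theorem Inc.exists_inv {x : Matrix (Fin n) (Fin n) K} (hx : x ∈ Inc G K) (hu : IsUnit x) :
    ∃ y ∈ Inc G K, x * y = 1 ∧ y * x = 1 := by
  let L : Inc G K →ₗ[K] Inc G K := LinearMap.mulLeft K (⟨x, hx⟩ : Inc G K)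
  have hinj : Function.Injective L := by
    intro a b hab
    have h1 : x * (a : Matrix (Fin n) (Fin n) K) = x * b := congrArg Subtype.val hab
    exact Subtype.ext (hu.mul_left_cancel h1)
  have hsurj : Function.Surjective L := LinearMap.injective_iff_surjective.mp hinj
  obtain ⟨y, hy⟩ := hsurj 1
  have h1 : x * (y : Matrix (Fin n) (Fin n) K) = 1 := congrArg Subtype.val hy
  exact ⟨y, y.2, h1, mul_eq_one_comm.mp h1⟩

theorem inc_mul_apply {x y : Matrix (Fin n) (Fin n) K} (hx : x ∈ Inc G K) (hy : y ∈ Inc G K)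
    {α β : Fin n} (h : Eqv G α β) (f : Fin n → K) (hf : ∀ γ, Eqv G γ α → x α γ * y γ β = f γ)
    (hf' : ∀ γ, ¬ Eqv G γ α → f γ = 0) :
    (x * y) α β = ∑ γ, f γ := by
  rw [mul_apply]
  refine Finset.sum_congr rfl fun γ _ => ?_
  by_cases h1 : Eqv G γ α
  · exact hf γ h1
  · rw [hf' γ h1]
    by_cases h2 : Le G α γ
    · by_cases h3 : Le G γ β
      · exact absurd ⟨h3.trans h.2, h2⟩ h1
      · rw [hy γ β h3, mul_zero]
    · rw [hx α γ h2, zero_mul]

variable (G K) in
/-- Elements of the incidence algebra with scalar diagonal blocks. -/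
def SB : Subalgebra K (Matrix (Fin n) (Fin n) K) where
  carrier := {x | x ∈ Inc G K ∧ ∀ α β, Eqv G α β → (α ≠ β → x α β = 0) ∧ x α α = x β β}
  mul_mem' := by
    rintro x y ⟨hx, hx'⟩ ⟨hy, hy'⟩
    have key : ∀ α β, Eqv G α β → (x * y) α β = if α = β then x α α * y α α else 0 := by
      intro α β h
      rw [inc_mul_apply hx hy h (fun γ => if γ = α then (if α = β then x α α * y α α else 0) else 0)]
      · simp
      · intro γ hγ
        by_cases h1 : γ = α
        · subst h1
          simp only [if_true]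
          split_ifs with h2
          · subst h2; rfl
          · rw [(hy' γ β h).1 h2, mul_zero]
        · rw [if_neg h1, (hx' α γ hγ.symm).1 (Ne.symm h1), zero_mul]
      · intro γ hγ
        rw [if_neg]
        rintro rfl
        exact hγ (Eqv.refl _)
    refine ⟨(Inc G K).mul_mem hx hy, fun α β h => ⟨fun hne => ?_, ?_⟩⟩
    · rw [key α β h, if_neg hne]
    · rw [key α α (Eqv.refl _), key β β (Eqv.refl _), if_pos rfl, if_pos rfl, (hx' α β h).2,
        (hy' α β h).2]
  add_mem' := by
    rintro x y ⟨hx, hx'⟩ ⟨hy, hy'⟩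
    refine ⟨(Inc G K).add_mem hx hy, fun α β h => ⟨fun hne => ?_, ?_⟩⟩
    · rw [Matrix.add_apply, (hx' α β h).1 hne, (hy' α β h).1 hne, add_zero]
    · rw [Matrix.add_apply, Matrix.add_apply, (hx' α β h).2, (hy' α β h).2]
  algebraMap_mem' := by
    intro r
    refine ⟨(Inc G K).algebraMap_mem r, fun α β h => ⟨fun hne => ?_, ?_⟩⟩
    · rw [Matrix.algebraMap_matrix_apply, if_neg hne]
    · rw [Matrix.algebraMap_matrix_apply, Matrix.algebraMap_matrix_apply, if_pos rfl, if_pos rfl]

theorem mem_sb {x : Matrix (Fin n) (Fin n) K} :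
    x ∈ SB G K ↔ x ∈ Inc G K ∧ ∀ α β, Eqv G α β → (α ≠ β → x α β = 0) ∧ x α α = x β β := Iff.rfl

theorem sb_mul_diag {x y : Matrix (Fin n) (Fin n) K} (hx : x ∈ SB G K) (hy : y ∈ SB G K)
    (α : Fin n) : (x * y) α α = x α α * y α α := by
  rw [inc_mul_apply hx.1 hy.1 (Eqv.refl α) (fun γ => if γ = α then x α α * y α α else 0)]
  · simp
  · intro γ hγ
    by_cases h1 : γ = α
    · subst h1; simp
    · rw [if_neg h1, (hx.2 α γ hγ.symm).1 (Ne.symm h1), zero_mul]
  · intro γ hγ
    rw [if_neg]
    rintro rfl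
    exact hγ (Eqv.refl _)

/-- The block scalar at `α`. -/
def chi (α : Fin n) : SB G K →ₐ[K] K where
  toFun x := x.1 α α
  map_one' := by simp
  map_mul' x y := sb_mul_diag x.2 y.2 α
  map_zero' := by simp
  map_add' x y := by simp
  commutes' r := by
    change (algebraMap K (Matrix (Fin n) (Fin n) K) r) α α = _
    rw [Matrix.algebraMap_matrix_apply, if_pos rfl]

theorem sb_aeval_coe {x : Matrix (Fin n) (Fin n) K} (hx : x ∈ SB G K) (p : Polynomial K) :
    ((Polynomial.aeval (⟨x, hx⟩ : SB G K) p : SB G K) : Matrix (Fin n) (Fin n) K)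
      = Polynomial.aeval x p := by
  have := Polynomial.aeval_algHom_apply (SB G K).val (⟨x, hx⟩ : SB G K) p
  exact this.symm

theorem aeval_mem_sb {x : Matrix (Fin n) (Fin n) K} (hx : x ∈ SB G K) (p : Polynomial K) :
    Polynomial.aeval x p ∈ SB G K := by
  have := (Polynomial.aeval (⟨x, hx⟩ : SB G K) p).2
  rwa [sb_aeval_coe] at this

theorem aeval_sb_diag {x : Matrix (Fin n) (Fin n) K} (hx : x ∈ SB G K) (p : Polynomial K)
    (α : Fin n) : (Polynomial.aeval x p) α α = p.eval (x α α) := by
  have h1 : chi (K := K) α (Polynomial.aeval (⟨x, hx⟩ : SB G K) p) = p.eval (x α α) := by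
    rw [← Polynomial.aeval_algHom_apply]
    rfl
  rw [← h1]
  change _ = ((Polynomial.aeval (⟨x, hx⟩ : SB G K) p) : Matrix (Fin n) (Fin n) K) α α
  rw [sb_aeval_coe]

theorem isUnit_of_sb {x : Matrix (Fin n) (Fin n) K} (hx : x ∈ SB G K) (h : ∀ α, x α α ≠ 0) :
    IsUnit x := by
  classical
  rw [Matrix.isUnit_iff_isUnit_det, isUnit_iff_ne_zero]
  intro hdet
  obtain ⟨v, hv, hxv⟩ := Matrix.exists_mulVec_eq_zero_iff.mpr hdet
  obtain ⟨i, hi⟩ := Function.ne_iff.mp hv
  let S : Finset (Fin n) := Finset.univ.filter (fun a => v a ≠ 0)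
  have hS : S.Nonempty := ⟨i, by simpa [S] using hi⟩
  let r : Fin n → ℕ := fun a => (Finset.univ.filter (fun b => Le G b a)).card
  obtain ⟨α, hα, hmax⟩ := Finset.exists_max_image S r hS
  have h1 : (x *ᵥ v) α = x α α * v α := by
    rw [mulVec, dotProduct, Finset.sum_eq_single α]
    · intro β _ hβ
      by_cases hv : v β = 0
      · rw [hv, mul_zero]
      · by_cases hle : Le G α β
        · by_cases hle' : Le G β α
          · rw [(hx.2 α β ⟨hle, hle'⟩).1 (Ne.symm hβ), zero_mul]
          · exfalso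
            have h2 : r β ≤ r α := hmax β (by simpa [S] using hv)
            have h3 : r α < r β := by
              apply Finset.card_lt_card
              refine ⟨fun b hb => ?_, fun hsub => ?_⟩
              · simp only [Finset.mem_filter, Finset.mem_univ, true_and] at hb ⊢
                exact hb.trans hle
              · have := hsub (show β ∈ Finset.univ.filter (fun b => Le G b β) by
                  simp [Le.refl])
                simp only [Finset.mem_filter, Finset.mem_univ, true_and] at this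
                exact hle' this
            omega
        · rw [hx.1 α β hle, zero_mul]
    · simp
  rw [hxv] at h1
  have hα' : v α ≠ 0 := by simpa [S] using hα
  exact mul_ne_zero (h α) hα' h1.symm

end Run7.h480.Anosov
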