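import Mathlib

/-! Construction of a rational matrix commuting with a given semisimple one. -/

set_option linter.unusedSectionVars false
set_option linter.unusedSimpArgs false

namespace Run7.h480.Anosov

noncomputable section

open Polynomial

theorem aeval_intertwine {K V W : Type*} [Field K] [AddCommGroup V] [Module K V] [AddCommGroup W]
    [Module K W] (j : V →ₗ[K] W) (s₁ : Module.End K V) (s : Module.End K W)
    (h : ∀ v, j (s₁ v) = s (j v)) (p : K[X]) (v : V) : j (aeval s₁ p v) = aeval s p (j v) := by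
  induction p using Polynomial.induction_on generalizing v with
  | C a => simp
  | add p q hp hq => simp [hp, hq]
  | monomial n a ih =>
    have e1 : ∀ (x : Module.End K V) , aeval x (C a * X ^ (n + 1) : K[X]) = aeval x (C a * X ^ n) * x := by
      intro x; rw [pow_succ, ← mul_assoc, map_mul, aeval_X]
    have e2 : ∀ (x : Module.End K W) , aeval x (C a * X ^ (n + 1) : K[X]) = aeval x (C a * X ^ n) * x := by
      intro x; rw [pow_succ, ← mul_assoc, map_mul, aeval_X]
    rw [e1, e2, Module.End.mul_apply, Module.End.mul_apply, ih, h]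

/-- An endomorphism annihilated by a monic polynomial of degree the dimension. -/
theorem exists_end_root {E V : Type*} [Field E] [AddCommGroup V] [Module E V]
    [FiniteDimensional E V] (p : E[X]) (hp : p.Monic) (hd : p.natDegree = Module.finrank E V) :
    ∃ A : Module.End E V, aeval A p = 0 := by
  let pb := AdjoinRoot.powerBasis' hp
  have hfr : Module.finrank E (AdjoinRoot p) = Module.finrank E V := by
    rw [pb.finrank, ← hd]
    exact AdjoinRoot.powerBasis'_dim hp
  have : Module.Finite E (AdjoinRoot p) := pb.finite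
  let e : AdjoinRoot p ≃ₗ[E] V := LinearEquiv.ofFinrankEq _ _ hfr
  let m : Module.End E (AdjoinRoot p) := LinearMap.mulLeft E (AdjoinRoot.root p)
  refine ⟨e.toLinearMap ∘ₗ m ∘ₗ e.symm.toLinearMap, ?_⟩
  ext v
  have h1 := aeval_intertwine e.symm.toLinearMap (e.toLinearMap ∘ₗ m ∘ₗ e.symm.toLinearMap) m
    (fun v => by simp) p v
  have h2 : aeval m p = 0 := by
    have h3 := Polynomial.aeval_algHom_apply (Algebra.lmul E (AdjoinRoot p)) (AdjoinRoot.root p) p
    have h4 : aeval (AdjoinRoot.root p) p = 0 := by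
      rw [AdjoinRoot.aeval_eq, AdjoinRoot.mk_self]
    rw [h4, map_zero] at h3
    exact h3
  rw [h2] at h1
  have h5 : e.symm ((aeval (e.toLinearMap ∘ₗ m ∘ₗ e.symm.toLinearMap)) p v) = 0 := h1
  simpa using h5

/-- The property of the pair `(s, A)` at `c`. -/
def QQ (V : Type) [AddCommGroup V] [Module ℚ V] (s A : Module.End ℚ V) (c : ℝ) : Prop :=
  ∃ k : ℕ,
    (∀ (T : Type) [Fintype T] (φ : T → V →ₗ[ℚ] ℝ), (∀ t v, φ t (s v) = c * φ t v) →
      LinearIndependent ℝ φ → Fintype.card T ≤ k) ∧
    (k = 2 → ∀ φ : V →ₗ[ℚ] ℝ, (∀ v, φ (s v) = c * φ v) → ∀ v, φ (A (A v) - s (A v) + v) = 0) ∧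
    (3 ≤ k → ∀ φ : V →ₗ[ℚ] ℝ, (∀ v, φ (s v) = c * φ v) →
      ∀ v, φ (aeval A (X ^ k - C 5 * X ^ (k - 1) + 1 : ℚ[X]) v) = 0)

theorem QQ.transfer {V V₁ : Type} [AddCommGroup V] [Module ℚ V] [AddCommGroup V₁] [Module ℚ V₁]
    {s A : Module.End ℚ V} {s₁ A₁ : Module.End ℚ V₁} {c : ℝ} (j : V₁ →ₗ[ℚ] V) (p : V →ₗ[ℚ] V₁)
    (hjs : ∀ v, j (s₁ v) = s (j v)) (hps : ∀ v, p (s v) = s₁ (p v)) (hpA : ∀ v, p (A v) = A₁ (p v))
    (h : ∀ φ : V →ₗ[ℚ] ℝ, (∀ v, φ (s v) = c * φ v) → ∀ v, φ v = φ (j (p v)))
    (hQ : QQ V₁ s₁ A₁ c) : QQ V s A c := by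
  obtain ⟨k, hk1, hk2, hk3⟩ := hQ
  have hrest : ∀ φ : V →ₗ[ℚ] ℝ, (∀ v, φ (s v) = c * φ v) →
      ∀ v, (φ ∘ₗ j) (s₁ v) = c * (φ ∘ₗ j) v := by
    intro φ hφ v
    simp only [LinearMap.comp_apply, hjs, hφ]
  refine ⟨k, ?_, ?_, ?_⟩
  · intro T _ φ hφ hli
    apply hk1 T (fun t => φ t ∘ₗ j) (fun t => hrest _ (hφ t))
    rw [Fintype.linearIndependent_iff] at hli ⊢
    intro g hg
    apply hli g
    ext v
    have h1 := LinearMap.congr_fun hg (p v)
    simp only [LinearMap.sum_apply, LinearMap.smul_apply, LinearMap.comp_apply,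
      LinearMap.zero_apply] at h1 ⊢
    rw [← h1]
    exact Finset.sum_congr rfl fun t _ => by rw [h (φ t) (hφ t) v]
  · intro h2 φ hφ v
    rw [h φ hφ, ← hk2 h2 (φ ∘ₗ j) (hrest φ hφ) (p v)]
    simp only [LinearMap.comp_apply, map_add, map_sub, hpA, hps]
  · intro h2 φ hφ v
    rw [h φ hφ, ← hk3 h2 (φ ∘ₗ j) (hrest φ hφ) (p v), LinearMap.comp_apply,
      aeval_intertwine p A A₁ hpA]

/-- The field case. -/
theorem field_case (i : ℚ[X]) (hi : Irreducible i) (V : Type) [AddCommGroup V] [Module ℚ V]
    [FiniteDimensional ℚ V] (s : Module.End ℚ V) (hs : aeval s i = 0) :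
    ∃ A : Module.End ℚ V, Commute A s ∧ ∀ c : ℝ, QQ V s A c := by
  classical
  have : Fact (Irreducible i) := ⟨hi⟩
  let E := AdjoinRoot i
  let φ : AdjoinRoot i →ₐ[ℚ] Module.End ℚ V :=
    Ideal.Quotient.liftₐ (Ideal.span {i}) (aeval s) (by
      intro a ha
      rw [Ideal.mem_span_singleton] at ha
      obtain ⟨b, rfl⟩ := ha
      rw [map_mul, hs, zero_mul])
  have hφmk : ∀ p : ℚ[X], φ (AdjoinRoot.mk i p) = aeval s p := fun p => rfl
  let _ : Module (AdjoinRoot i) V := Module.compHom V φ.toRingHom
  have hsmul : ∀ (x : AdjoinRoot i) (v : V), x • v = φ x v := fun x v => rfl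
  have : IsScalarTower ℚ (AdjoinRoot i) V := ⟨fun q x v => by
    rw [hsmul, hsmul, map_smul]; rfl⟩
  have : Module.Finite (AdjoinRoot i) V := Module.Finite.of_restrictScalars_finite ℚ _ V
  set k := Module.finrank (AdjoinRoot i) V with hk
  let b := Module.finBasis (AdjoinRoot i) V
  have hbound : ∀ (c : ℝ) (T : Type) [Fintype T] (φ : T → V →ₗ[ℚ] ℝ),
      (∀ t v, φ t (s v) = c * φ t v) → LinearIndependent ℝ φ → Fintype.card T ≤ k := by
    intro c T _ ψ hψ hli
    have hz : ∀ χ : V →ₗ[ℚ] ℝ, (∀ v, χ (s v) = c * χ v) → (∀ j, χ (b j) = 0) → χ = 0 := by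
      intro χ hχ hb
      have h1 : ∀ (p : ℚ[X]) (v : V), χ (aeval s p v) = aeval c p * χ v := by
        intro p v
        induction p using Polynomial.induction_on generalizing v with
        | C a =>
          simp only [aeval_C, Module.algebraMap_end_apply, map_smul]
          rw [Algebra.smul_def]
        | add p q hp hq => simp only [map_add, LinearMap.add_apply, hp, hq, add_mul]
        | monomial n a ih =>
          have e1 : aeval s (C a * X ^ (n + 1) : ℚ[X]) = aeval s (C a * X ^ n) * s := by
            rw [pow_succ, ← mul_assoc, map_mul, aeval_X]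
          have e2 : aeval c (C a * X ^ (n + 1) : ℚ[X]) = aeval c (C a * X ^ n) * c := by
            rw [pow_succ, ← mul_assoc, map_mul, aeval_X]
          rw [e1, e2, Module.End.mul_apply, ih, hχ, mul_assoc]
      ext v
      rw [← b.sum_repr v, map_sum, LinearMap.zero_apply]
      refine Finset.sum_eq_zero fun j _ => ?_
      obtain ⟨p, hp⟩ := AdjoinRoot.mk_surjective (b.repr v j)
      rw [← hp, hsmul, hφmk, h1, hb, mul_zero]
    have hli2 : LinearIndependent ℝ (fun (t : T) (j : Fin k) => ψ t (b j)) := by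
      rw [Fintype.linearIndependent_iff] at hli ⊢
      intro g hg
      apply hli g
      apply hz
      · intro v
        simp only [LinearMap.sum_apply, LinearMap.smul_apply, hψ, smul_eq_mul, Finset.mul_sum]
        exact Finset.sum_congr rfl fun t _ => by ring
      · intro j
        have := congrFun hg j
        simpa using this
    have := hli2.fintype_card_le_finrank
    simpa using this
  by_cases hk2 : 2 ≤ k
  · -- polynomial
    obtain ⟨q, hqdeg, hq2, hq3⟩ : ∃ q : (AdjoinRoot i)[X], q.degree < k ∧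
        (k = 2 → q = - C (AdjoinRoot.root i) * X + 1) ∧
        (3 ≤ k → q = - C 5 * X ^ (k - 1) + 1) := by
      by_cases h2 : k = 2
      · refine ⟨- C (AdjoinRoot.root i) * X + 1, ?_, fun _ => rfl, fun h => by omega⟩
        rw [h2]
        refine lt_of_le_of_lt (b := (1 : WithBot ℕ)) ?_ (by norm_num)
        compute_degree
      · refine ⟨- C 5 * X ^ (k - 1) + 1, ?_, fun h => absurd h h2, fun _ => rfl⟩
        refine lt_of_le_of_lt (b := ((k - 1 : ℕ) : WithBot ℕ)) ?_ (by
          exact_mod_cast (by omega : k - 1 < k))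
        compute_degree
        exact le_rfl
    have hmonic : (X ^ k + q).Monic := monic_X_pow_add hqdeg
    have hnd : (X ^ k + q).natDegree = k := by
      have h1 : (X ^ k + q).degree = (k : WithBot ℕ) := by
        rw [degree_add_eq_left_of_degree_lt, degree_X_pow]
        rwa [degree_X_pow]
      exact natDegree_eq_of_degree_eq_some h1
    obtain ⟨A, hA⟩ := exists_end_root (V := V) (X ^ k + q) hmonic (hnd.trans hk)
    let A' : Module.End ℚ V := A.restrictScalars ℚ
    have hroot : ∀ v : V, (AdjoinRoot.root i) • v = s v := by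
      intro v
      rw [hsmul]
      have := hφmk X
      rw [aeval_X] at this
      exact congrArg (fun f => f v) this
    refine ⟨A', ?_, fun c => ⟨k, fun T _ => hbound c T, fun h2 χ _ v => ?_, fun h3 χ _ v => ?_⟩⟩
    · ext v
      change A (s v) = s (A v)
      rw [← hroot, map_smul, hroot]
    · have h1 : aeval A (X ^ k + q) v = 0 := by rw [hA]; rfl
      rw [hq2 h2, h2] at h1
      have h4 : A (A v) - s (A v) + v = 0 := by
        rw [← hroot, ← h1]
        simp [pow_two, sub_eq_add_neg, add_assoc]
      change χ (A (A v) - s (A v) + v) = 0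
      rw [h4, map_zero]
    · have h1 : aeval A (X ^ k + q) v = 0 := by rw [hA]; rfl
      rw [hq3 h3] at h1
      have h5 : aeval A' (X ^ k - C 5 * X ^ (k - 1) + 1 : ℚ[X]) v = 0 := by
        rw [← h1]
        have e1 : ∀ (m : ℕ) (v : V), (A' ^ m) v = (A ^ m) v := by
          intro m
          induction m with
          | zero => intro v; rfl
          | succ m ih => intro v; rw [pow_succ, pow_succ]; exact ih (A v)
        simp only [map_add, map_sub, map_mul, map_pow, aeval_X, aeval_C, map_one, map_neg,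
          LinearMap.add_apply, LinearMap.sub_apply, Module.End.mul_apply, LinearMap.neg_apply,
          Module.algebraMap_end_apply, Module.End.one_apply, e1]
        have e2 : ∀ w : V, (5 : AdjoinRoot i) • w = (5 : ℚ) • w := by
          intro w
          rw [← algebraMap_smul (AdjoinRoot i) (5 : ℚ) w, map_ofNat]
        rw [e2]
        abel
      rw [h5, map_zero]
  · refine ⟨0, Commute.zero_left _, fun c => ⟨k, fun T _ => hbound c T, fun h => ?_, fun h => ?_⟩⟩ <;>
      omega

/-- The general construction. -/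
theorem exists_A_aux (μ : ℚ[X]) : Squarefree μ → ∀ (V : Type) [AddCommGroup V] [Module ℚ V]
    [FiniteDimensional ℚ V] (s : Module.End ℚ V), aeval s μ = 0 →
    ∃ A : Module.End ℚ V, Commute A s ∧ ∀ c : ℝ, QQ V s A c := by
  induction μ using WfDvdMonoid.induction_on_irreducible with
  | zero => intro h; exact absurd h not_squarefree_zero
  | unit u hu =>
    intro _ V _ _ _ s hs
    have h1 : ∀ v : V, v = 0 := by
      intro v
      have h2 : IsUnit (aeval s u) := hu.map (aeval s)
      rw [hs] at h2
      have h3 : (0 : Module.End ℚ V) = 1 := isUnit_zero_iff.mp h2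
      have := congrArg (fun f => f v) h3
      exact this.symm
    refine ⟨0, Commute.zero_left _, fun c => ⟨0, ?_, fun h => by omega, fun h => by omega⟩⟩
    intro T _ φ _ hli
    by_contra hT
    have hT' : 0 < Fintype.card T := by omega
    obtain ⟨t⟩ := Fintype.card_pos_iff.mp hT'
    apply hli.ne_zero t
    ext v
    rw [h1 v]; simp
  | mul a i ha hi ih =>
    intro hsq V _ _ _ s hs
    obtain ⟨hrel, hsqi, hsqa⟩ := squarefree_mul_iff.mp hsq
    have hcop : IsCoprime i a := hrel.isCoprime
    let V₁ := LinearMap.ker (aeval s i)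
    let V₂ := LinearMap.ker (aeval s a)
    have hcompl : IsCompl V₁ V₂ := by
      refine ⟨Polynomial.disjoint_ker_aeval_of_isCoprime s hcop, ?_⟩
      rw [codisjoint_iff, Polynomial.sup_ker_aeval_eq_ker_aeval_mul_of_coprime s hcop, hs]
      exact LinearMap.ker_zero
    have hcomm : ∀ (p : ℚ[X]) (v : V), aeval s p (s v) = s (aeval s p v) := by
      intro p v
      have : Commute (aeval s p) s := (Algebra.commute_of_mem_adjoin_self
        (Polynomial.aeval_mem_adjoin_singleton ℚ s)).symm
      exact congrArg (fun f => f v) this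
    have hm1 : ∀ v ∈ V₁, s v ∈ V₁ := by
      intro v hv
      rw [LinearMap.mem_ker] at hv ⊢
      rw [hcomm, hv, map_zero]
    have hm2 : ∀ v ∈ V₂, s v ∈ V₂ := by
      intro v hv
      rw [LinearMap.mem_ker] at hv ⊢
      rw [hcomm, hv, map_zero]
    let s₁ : Module.End ℚ V₁ := s.restrict hm1
    let s₂ : Module.End ℚ V₂ := s.restrict hm2
    have hs1 : aeval s₁ i = 0 := by
      ext v
      have h1 := aeval_intertwine V₁.subtype s₁ s (fun v => rfl) i v
      change V₁.subtype (aeval s₁ i v) = _
      rw [h1]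
      exact LinearMap.mem_ker.mp v.2
    have hs2 : aeval s₂ a = 0 := by
      ext v
      have h1 := aeval_intertwine V₂.subtype s₂ s (fun v => rfl) a v
      change V₂.subtype (aeval s₂ a v) = _
      rw [h1]
      exact LinearMap.mem_ker.mp v.2
    obtain ⟨A₁, hA₁, hQ₁⟩ := field_case i hi V₁ s₁ hs1
    obtain ⟨A₂, hA₂, hQ₂⟩ := ih hsqa V₂ s₂ hs2
    let e := Submodule.prodEquivOfIsCompl V₁ V₂ hcompl
    have he : ∀ x : V₁ × V₂, e x = x.1 + x.2 := fun x => Submodule.coe_prodEquivOfIsCompl' V₁ V₂ hcompl x
    let A : Module.End ℚ V := e.toLinearMap ∘ₗ (A₁.prodMap A₂) ∘ₗ e.symm.toLinearMap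
    have hAe : ∀ x : V₁ × V₂, A (e x) = e (A₁ x.1, A₂ x.2) := by
      intro x
      simp only [A, LinearMap.comp_apply, LinearEquiv.coe_coe, LinearEquiv.symm_apply_apply,
        LinearMap.prodMap_apply]
    have hse : ∀ x : V₁ × V₂, s (e x) = e (s₁ x.1, s₂ x.2) := by
      intro x
      rw [he, he, map_add]; rfl
    refine ⟨A, ?_, fun c => ?_⟩
    · ext v
      obtain ⟨x, rfl⟩ := e.surjective v
      rw [Module.End.mul_apply, Module.End.mul_apply, hse, hAe, hAe, hse]
      congr 1
      ext1
      · exact congrArg (fun f => f x.1) hA₁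
      · exact congrArg (fun f => f x.2) hA₂
    · -- functional evaluated on polynomials in s
      have hpoly : ∀ φ : V →ₗ[ℚ] ℝ, (∀ v, φ (s v) = c * φ v) → ∀ (p : ℚ[X]) (v : V),
          φ (aeval s p v) = aeval c p * φ v := by
        intro χ hχ p v
        induction p using Polynomial.induction_on generalizing v with
        | C a =>
          simp only [aeval_C, Module.algebraMap_end_apply, map_smul]
          rw [Algebra.smul_def]
        | add p q hp hq => simp only [map_add, LinearMap.add_apply, hp, hq, add_mul]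
        | monomial n a ih =>
          have e1 : aeval s (C a * X ^ (n + 1) : ℚ[X]) = aeval s (C a * X ^ n) * s := by
            rw [pow_succ, ← mul_assoc, map_mul, aeval_X]
          have e2 : aeval c (C a * X ^ (n + 1) : ℚ[X]) = aeval c (C a * X ^ n) * c := by
            rw [pow_succ, ← mul_assoc, map_mul, aeval_X]
          rw [e1, e2, Module.End.mul_apply, ih, hχ, mul_assoc]
      by_cases hc : aeval c i = 0
      · -- functionals vanish on V₂
        have hvan : ∀ φ : V →ₗ[ℚ] ℝ, (∀ v, φ (s v) = c * φ v) → ∀ y : V₂, φ y = 0 := by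
          intro φ hφ y
          obtain ⟨u, w, huw⟩ := hcop
          have h1 : (y : V) = aeval s i (aeval s u y) + aeval s w (aeval s a y) := by
            have := congrArg (fun p => aeval s p (y : V)) huw
            simp only [map_add, map_mul, map_one, LinearMap.add_apply, Module.End.mul_apply,
              Module.End.one_apply] at this
            have hc2 : aeval s i (aeval s u (y : V)) = aeval s u (aeval s i (y : V)) := by
              rw [← Module.End.mul_apply, ← Module.End.mul_apply, ← map_mul, ← map_mul, mul_comm]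
            rw [hc2]
            exact this.symm
          have h2 : aeval s a (y : V) = 0 := LinearMap.mem_ker.mp y.2
          rw [h1, h2, map_zero, add_zero, hpoly φ hφ, hc, zero_mul]
        refine QQ.transfer V₁.subtype (LinearMap.fst ℚ V₁ V₂ ∘ₗ e.symm.toLinearMap)
          (fun v => rfl) ?_ ?_ ?_ (hQ₁ c)
        · intro v
          obtain ⟨x, rfl⟩ := e.surjective v
          rw [hse]; simp
        · intro v
          obtain ⟨x, rfl⟩ := e.surjective v
          rw [hAe]; simp
        · intro φ hφ v
          obtain ⟨x, rfl⟩ := e.surjective v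
          rw [he, map_add, hvan φ hφ, add_zero]
          simp [← he]
      · have hvan : ∀ φ : V →ₗ[ℚ] ℝ, (∀ v, φ (s v) = c * φ v) → ∀ y : V₁, φ y = 0 := by
          intro φ hφ y
          have h1 := hpoly φ hφ i y
          have h2 : aeval s i (y : V) = 0 := LinearMap.mem_ker.mp y.2
          rw [h2, map_zero] at h1
          exact (mul_eq_zero.mp h1.symm).resolve_left hc
        refine QQ.transfer V₂.subtype (LinearMap.snd ℚ V₁ V₂ ∘ₗ e.symm.toLinearMap)
          (fun v => rfl) ?_ ?_ ?_ (hQ₂ c)
        · intro v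
          obtain ⟨x, rfl⟩ := e.surjective v
          rw [hse]; simp
        · intro v
          obtain ⟨x, rfl⟩ := e.surjective v
          rw [hAe]; simp
        · intro φ hφ v
          obtain ⟨x, rfl⟩ := e.surjective v
          rw [he, map_add, hvan φ hφ, zero_add]
          simp [← he]

end

end Run7.h480.Anosov
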