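import Mathlib

/-! Estimates for the roots of the two families of polynomials. -/

set_option linter.unusedSectionVars false
set_option linter.unusedSimpArgs false

namespace Run7.h480.Anosov

noncomputable section

/-- Good complex numbers: algebraic units off the unit circle. -/
def Good (z : ℂ) : Prop := z ≠ 0 ∧ IsIntegral ℤ z ∧ IsIntegral ℤ z⁻¹ ∧ ‖z‖ ≠ 1

def R2 (c : ℝ) (r : ℂ) : Prop := r ^ 2 - c * r + 1 = 0

def R3 (r : ℂ) : Prop := ∃ k : ℕ, 3 ≤ k ∧ r ^ k - 5 * r ^ (k - 1) + 1 = 0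

theorem R2.norm {c : ℝ} {r : ℂ} (hc : 8 ≤ c) (h : R2 c r) : 7 ≤ ‖r‖ ∨ ‖r‖ ≤ 1 / 7 := by
  have h1 : r * (c - r) = 1 := by
    have : r ^ 2 - c * r + 1 = 0 := h
    linear_combination -this
  have h2 : ‖r‖ * ‖(c : ℂ) - r‖ = 1 := by rw [← norm_mul, h1, norm_one]
  have h3 : ‖(c : ℂ)‖ = c := by rw [Complex.norm_real, Real.norm_of_nonneg (by linarith)]
  have h4 : ‖(c : ℂ)‖ ≤ ‖(c : ℂ) - r‖ + ‖r‖ := by
    calc ‖(c : ℂ)‖ = ‖((c : ℂ) - r) + r‖ := by rw [sub_add_cancel]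
      _ ≤ _ := norm_add_le _ _
  rw [h3] at h4
  have h5 := norm_nonneg r
  have h6 := norm_nonneg ((c : ℂ) - r)
  by_cases h7 : 1 ≤ ‖r‖
  · left
    nlinarith
  · right
    push Not at h7
    nlinarith

theorem R3.norm {r : ℂ} (h : R3 r) :
    (4 ≤ ‖r‖ ∧ ‖r‖ ≤ 6) ∨ (1 / 6 ≤ ‖r‖ ^ 2 ∧ ‖r‖ < 1) := by
  obtain ⟨k, hk, h⟩ := h
  obtain ⟨m, rfl⟩ : ∃ m, k = m + 3 := ⟨k - 3, by omega⟩
  rw [show m + 3 - 1 = m + 2 from rfl] at h
  have h1 : r ^ (m + 2) * (5 - r) = 1 := by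
    linear_combination -h
  have h2 : ‖r‖ ^ (m + 2) * ‖(5 : ℂ) - r‖ = 1 := by rw [← norm_pow, ← norm_mul, h1, norm_one]
  have h3 : ‖(5 : ℂ)‖ = 5 := by norm_num
  have h4 : ‖(5 : ℂ)‖ ≤ ‖(5 : ℂ) - r‖ + ‖r‖ := by
    calc ‖(5 : ℂ)‖ = ‖((5 : ℂ) - r) + r‖ := by rw [sub_add_cancel]
      _ ≤ _ := norm_add_le _ _
  have h4' : ‖r‖ ≤ ‖(5 : ℂ) - r‖ + ‖(5 : ℂ)‖ := by
    calc ‖r‖ = ‖(5 : ℂ) - ((5 : ℂ) - r)‖ := by rw [sub_sub_cancel]
      _ ≤ ‖(5 : ℂ)‖ + ‖(5 : ℂ) - r‖ := norm_sub_le _ _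
      _ = _ := add_comm _ _
  have h4'' : ‖(5 : ℂ) - r‖ ≤ ‖(5 : ℂ)‖ + ‖r‖ := norm_sub_le _ _
  rw [h3] at h4 h4' h4''
  have h5 := norm_nonneg r
  have h6 := norm_nonneg ((5 : ℂ) - r)
  by_cases h7 : 1 ≤ ‖r‖
  · left
    have h8 : 1 ≤ ‖r‖ ^ (m + 2) := one_le_pow₀ h7
    have h9 : ‖(5 : ℂ) - r‖ ≤ 1 := by nlinarith
    constructor <;> linarith
  · right
    push Not at h7
    refine ⟨?_, h7⟩
    have h8 : ‖r‖ ^ (m + 2) ≤ ‖r‖ ^ 2 := pow_le_pow_of_le_one h5 h7.le (by omega)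
    have h9 : 0 ≤ ‖r‖ ^ (m + 2) := by positivity
    have h10 : ‖(5 : ℂ) - r‖ ≤ 6 := by linarith
    nlinarith

theorem R2.pos {c : ℝ} {r : ℂ} (hc : 8 ≤ c) (h : R2 c r) : ∃ x : ℝ, 0 < x ∧ r = x ∧
    x ^ 2 + 1 = c * x := by
  have h0 : r ^ 2 - c * r + 1 = 0 := h
  have hre := congrArg Complex.re h0
  have him := congrArg Complex.im h0
  simp [pow_two, Complex.mul_re, Complex.mul_im] at hre him
  have him' : r.im * (2 * r.re - c) = 0 := by linarith
  rcases mul_eq_zero.mp him' with h1 | h1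
  · rw [h1] at hre
    refine ⟨r.re, ?_, ?_, by nlinarith⟩
    · by_contra hn
      push Not at hn
      nlinarith
    · apply Complex.ext <;> simp [h1]
  · exfalso
    have h2 : r.re = c / 2 := by linarith
    rw [h2] at hre
    nlinarith [sq_nonneg r.im]

theorem R2_pair {c c' : ℝ} {r r' : ℂ} (hc : 8 ≤ c) (hc' : 8 ≤ c') (h : R2 c r) (h' : R2 c' r')
    (hn : ‖r * r'‖ = 1) : c = c' := by
  obtain ⟨x, hx, rfl, hx2⟩ := h.pos hc
  obtain ⟨y, hy, rfl, hy2⟩ := h'.pos hc'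
  have h1 : x * y = 1 := by
    rw [← Complex.ofReal_mul, Complex.norm_real, Real.norm_of_nonneg (by positivity)] at hn
    exact hn
  have h2 : c * (x * y) = (x ^ 2 + 1) * y := by rw [hx2]; ring
  have h3 : c' * (x * y) = (y ^ 2 + 1) * x := by rw [hy2]; ring
  rw [h1] at h2 h3
  have h4 : (x ^ 2 + 1) * y = x * (x * y) + y := by ring
  have h5 : (y ^ 2 + 1) * x = y * (x * y) + x := by ring
  rw [h4, h1] at h2
  rw [h5, h1] at h3
  linarith

theorem R2.ne {c : ℝ} {r : ℂ} (hc : 8 ≤ c) (h : R2 c r) : ‖r‖ ≠ 1 := by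
  rcases h.norm hc with h | h
  · intro h1; rw [h1] at h; norm_num at h
  · intro h1; rw [h1] at h; norm_num at h

theorem R3.ne {r : ℂ} (h : R3 r) : ‖r‖ ≠ 1 := by
  rcases h.norm with h | h
  · intro h1; rw [h1] at h; norm_num at h
  · intro h1; rw [h1] at h; norm_num at h

theorem R33 {r r' : ℂ} (h : R3 r) (h' : R3 r') : ‖r * r'‖ ≠ 1 := by
  rw [norm_mul]
  have h0 := norm_nonneg r
  have h0' := norm_nonneg r'
  rcases h.norm with h | h <;> rcases h'.norm with h' | h'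
  · nlinarith
  · intro h1
    have : (‖r‖ * ‖r'‖) ^ 2 = 1 := by rw [h1]; norm_num
    nlinarith [mul_nonneg (sq_nonneg ‖r‖) (sq_nonneg ‖r'‖), h.1, h'.1, mul_le_mul h.1 h.1 (by norm_num) h0]
  · intro h1
    have : (‖r‖ * ‖r'‖) ^ 2 = 1 := by rw [h1]; norm_num
    nlinarith [mul_nonneg (sq_nonneg ‖r‖) (sq_nonneg ‖r'‖), h.1, h'.1, mul_le_mul h'.1 h'.1 (by norm_num) h0']
  · nlinarith [h.2, h'.2]

theorem R23 {c : ℝ} (hc : 8 ≤ c) {r r' : ℂ} (h : R2 c r) (h' : R3 r') : ‖r * r'‖ ≠ 1 := by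
  rw [norm_mul]
  have h0 := norm_nonneg r
  have h0' := norm_nonneg r'
  rcases h.norm hc with h | h <;> rcases h'.norm with h' | h'
  · nlinarith
  · intro h1
    have : (‖r‖ * ‖r'‖) ^ 2 = 1 := by rw [h1]; norm_num
    nlinarith [mul_nonneg (sq_nonneg ‖r‖) (sq_nonneg ‖r'‖), h, h'.1, mul_le_mul h h (by norm_num) h0]
  · nlinarith [h'.1, h'.2]
  · nlinarith [h'.2]

theorem R2.integral {c : ℝ} {r : ℂ} (hc : IsIntegral ℤ c) (h : R2 c r) :
    IsIntegral ℤ r ∧ IsIntegral ℤ r⁻¹ := by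
  have h0 : r ^ 2 - c * r + 1 = 0 := h
  have hr0 : r ≠ 0 := by
    rintro rfl
    norm_num at h0
  have hcC : IsIntegral ℤ (c : ℂ) := hc.map (Complex.ofRealHom.toIntAlgHom)
  -- r satisfies a monic polynomial over the integral closure
  let S := integralClosure ℤ ℂ
  let c' : S := ⟨(c : ℂ), hcC⟩
  have key : ∀ x : ℂ, x ^ 2 - c * x + 1 = 0 → IsIntegral ℤ x := by
    intro x hx
    have h1 : IsIntegral S x := by
      refine ⟨Polynomial.X ^ 2 + (Polynomial.C (-c') * Polynomial.X + 1), ?_, ?_⟩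
      · apply Polynomial.monic_X_pow_add
        refine lt_of_le_of_lt (b := (1 : WithBot ℕ)) ?_ (by norm_num)
        compute_degree
      · simp only [Polynomial.eval₂_add, Polynomial.eval₂_mul, Polynomial.eval₂_pow,
          Polynomial.eval₂_X, Polynomial.eval₂_C, Polynomial.eval₂_one]
        have h2 : (algebraMap S ℂ) (-c') = -(c : ℂ) := rfl
        rw [h2]
        linear_combination hx
    exact isIntegral_trans (R := ℤ) (A := S) x h1
  refine ⟨key r h0, key r⁻¹ ?_⟩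
  field_simp
  linear_combination h0

theorem R3.integral {r : ℂ} (h : R3 r) : IsIntegral ℤ r ∧ IsIntegral ℤ r⁻¹ := by
  obtain ⟨k, hk, h⟩ := h
  obtain ⟨m, rfl⟩ : ∃ m, k = m + 3 := ⟨k - 3, by omega⟩
  rw [show m + 3 - 1 = m + 2 from rfl] at h
  have h1 : IsIntegral ℤ r := by
    refine ⟨Polynomial.X ^ (m + 3) + (-(5 * Polynomial.X ^ (m + 2)) + 1), ?_, ?_⟩
    · apply Polynomial.monic_X_pow_add
      refine lt_of_le_of_lt (b := ((m + 2 : ℕ) : WithBot ℕ)) ?_ (by exact_mod_cast Nat.lt_succ_self _)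
      compute_degree
      exact le_rfl
    · simp only [Polynomial.eval₂_add, Polynomial.eval₂_mul, Polynomial.eval₂_pow,
          Polynomial.eval₂_X, Polynomial.eval₂_neg, Polynomial.eval₂_one, Polynomial.eval₂_ofNat]
      linear_combination h
  refine ⟨h1, ?_⟩
  have hr0 : r ≠ 0 := by
    rintro rfl
    simp at h
  have h2 : r⁻¹ = -(r ^ (m + 2) - 5 * r ^ (m + 1)) := by
    rw [inv_eq_iff_eq_inv, eq_comm]
    apply inv_eq_of_mul_eq_one_left
    linear_combination -h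
  rw [h2]
  exact ((h1.pow _).sub ((isIntegral_algebraMap (x := (5 : ℤ))).mul (h1.pow _))).neg

/-- Integrality of a rational polynomial all of whose complex roots are good. -/
theorem int_of_good {p : Polynomial ℚ} (hp : p.Monic)
    (h : ∀ z : ℂ, (p.map (algebraMap ℚ ℂ)).IsRoot z → Good z) :
    ∃ q : Polynomial ℤ, q.map (Int.castRingHom ℚ) = p ∧ (q.coeff 0 = 1 ∨ q.coeff 0 = -1) ∧
      ∀ z : ℂ, (q.map (Int.castRingHom ℂ)).IsRoot z → ‖z‖ ≠ 1 := by
  have hint : ∀ (a : ℚ), IsIntegral ℤ (algebraMap ℚ ℂ a) → ∃ b : ℤ, (b : ℚ) = a := by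
    intro a ha
    have h1 : IsIntegral ℤ a := (isIntegral_algebraMap_iff (algebraMap ℚ ℂ).injective).mp ha
    exact IsIntegrallyClosed.isIntegral_iff.mp h1
  have hpC : (p.map (algebraMap ℚ ℂ)).Monic := hp.map _
  have hne := hpC.ne_zero
  have hroots : ∀ z ∈ (p.map (algebraMap ℚ ℂ)).roots, Good z := fun z hz =>
    h z ((Polynomial.mem_roots hne).mp hz)
  have hsplit : p.map (algebraMap ℚ ℂ)
      = ((p.map (algebraMap ℚ ℂ)).roots.map (fun a => Polynomial.X - Polynomial.C a)).prod :=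
    (IsAlgClosed.splits (p.map (algebraMap ℚ ℂ))).eq_prod_roots_of_monic hpC
  -- coefficients are integral
  have hlift : p.map (algebraMap ℚ ℂ) ∈ Polynomial.lifts (algebraMap (integralClosure ℤ ℂ) ℂ) := by
    rw [hsplit]
    apply Subsemiring.multiset_prod_mem
    intro f hf
    obtain ⟨a, ha, rfl⟩ := Multiset.mem_map.mp hf
    refine ⟨Polynomial.X - Polynomial.C ⟨a, (hroots a ha).2.1⟩, ?_⟩
    rw [Polynomial.coe_mapRingHom, Polynomial.map_sub, Polynomial.map_X, Polynomial.map_C]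
    rfl
  have hcoef : ∀ k, ∃ b : ℤ, (b : ℚ) = p.coeff k := by
    intro k
    apply hint
    rw [Polynomial.lifts_iff_coeff_lifts] at hlift
    obtain ⟨⟨a, ha⟩, ha'⟩ := hlift k
    rw [Polynomial.coeff_map] at ha'
    rw [← ha']
    exact ha
  have hq : p ∈ Polynomial.lifts (Int.castRingHom ℚ) := by
    rw [Polynomial.lifts_iff_coeff_lifts]
    intro k
    obtain ⟨b, hb⟩ := hcoef k
    exact ⟨b, hb⟩
  obtain ⟨q, hq⟩ := hq
  rw [Polynomial.coe_mapRingHom] at hq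
  refine ⟨q, hq, ?_, ?_⟩
  · -- constant coefficient
    have h0 : algebraMap ℚ ℂ (p.coeff 0) = ((p.map (algebraMap ℚ ℂ)).roots.map (fun a => -a)).prod := by
      rw [← Polynomial.coeff_map, Polynomial.coeff_zero_eq_eval_zero]
      conv_lhs => rw [hsplit]
      rw [Polynomial.eval_multiset_prod, Multiset.map_map]
      congr 1
      apply Multiset.map_congr rfl
      intro a _
      simp
    have hinv : IsIntegral ℤ (algebraMap ℚ ℂ (p.coeff 0))⁻¹ := by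
      rw [h0, ← Multiset.prod_map_inv']
      apply IsIntegral.multiset_prod
      intro x hx
      obtain ⟨a', ha', rfl⟩ := Multiset.mem_map.mp hx
      obtain ⟨a, ha, rfl⟩ := Multiset.mem_map.mp ha'
      rw [inv_neg]
      exact (hroots a ha).2.2.1.neg
    rw [← map_inv₀] at hinv
    obtain ⟨b, hb⟩ := hint _ hinv
    have hp0 : p.coeff 0 ≠ 0 := by
      intro h1
      have h2 : (p.map (algebraMap ℚ ℂ)).IsRoot 0 := by
        rw [Polynomial.IsRoot.def, ← Polynomial.coeff_zero_eq_eval_zero, Polynomial.coeff_map, h1,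
          map_zero]
      exact (h 0 h2).1 rfl
    have h3 : ((q.coeff 0 * b : ℤ) : ℚ) = 1 := by
      push_cast
      rw [hb]
      have h4 : ((q.coeff 0 : ℤ) : ℚ) = p.coeff 0 := by
        rw [← hq, Polynomial.coeff_map]; rfl
      rw [h4, mul_inv_cancel₀ hp0]
    have h5 : q.coeff 0 * b = 1 := by exact_mod_cast h3
    exact Int.isUnit_iff.mp (IsUnit.of_mul_eq_one _ h5)
  · intro z hz
    apply (h z _).2.2.2
    rw [← hq, Polynomial.map_map]
    have e : (algebraMap ℚ ℂ).comp (Int.castRingHom ℚ) = Int.castRingHom ℂ :=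
      RingHom.ext_int _ _
    rw [e]
    exact hz

end

end Run7.h480.Anosov
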