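import Pool.Agent.Run7.h480.ANData
import Pool.Agent.Run7.h480.AConstr
import Pool.Agent.Run7.h480.AEst

/-! The core theorem. -/

set_option linter.unusedSectionVars false
set_option linter.unusedSimpArgs false

namespace Run7.h480.Anosov

noncomputable section

open Matrix Polynomial

variable {n : ℕ} {G : SimpleGraph (Fin n)} {ι κ : Type} [Fintype ι] [DecidableEq ι] [Fintype κ]

namespace NData

variable (N : NData G ι κ)

theorem Q_mul_s : N.Q * toR N.s = Matrix.diagonal N.c * N.Q := by
  rw [← N.hs]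
  calc N.Q * toR N.s = N.Q * toR N.s * (N.P * N.Q) := by rw [N.hPQ, Matrix.mul_one]
    _ = _ := by simp only [Matrix.mul_assoc]

/-- The row functionals. -/
def row (α : Fin n) : (ι → ℚ) →ₗ[ℚ] ℝ where
  toFun v := ∑ j, N.Q α j * (v j : ℝ)
  map_add' v w := by
    rw [← Finset.sum_add_distrib]
    refine Finset.sum_congr rfl fun j _ => ?_
    simp only [Pi.add_apply]; push_cast; ring
  map_smul' a v := by
    rw [RingHom.id_apply, Rat.smul_def, Finset.mul_sum]
    refine Finset.sum_congr rfl fun j _ => ?_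
    simp only [Pi.smul_apply, smul_eq_mul]; push_cast; ring

theorem row_apply (α : Fin n) (v : ι → ℚ) : N.row α v = ∑ j, N.Q α j * (v j : ℝ) := rfl

theorem row_mulVec (α : Fin n) (x : Matrix ι ι ℚ) (v : ι → ℚ) :
    N.row α (x *ᵥ v) = ∑ j, (N.Q * toR x) α j * (v j : ℝ) := by
  simp only [row_apply, Matrix.mulVec, dotProduct, Matrix.mul_apply, Finset.sum_mul]
  rw [Finset.sum_comm]
  refine Finset.sum_congr rfl fun i _ => ?_
  rw [Rat.cast_sum, Finset.mul_sum]
  refine Finset.sum_congr rfl fun j _ => ?_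
  simp only [Matrix.map_apply, eq_ratCast]
  push_cast
  ring

theorem row_s (α : Fin n) (v : ι → ℚ) :
    N.row α (Matrix.toLin' N.s v) = N.c α * N.row α v := by
  rw [Matrix.toLin'_apply, row_mulVec, Q_mul_s, row_apply, Finset.mul_sum]
  refine Finset.sum_congr rfl fun j _ => ?_
  rw [Matrix.diagonal_mul]; ring

theorem row_zero {α : Fin n} {x : Matrix ι ι ℚ} (h : ∀ v, N.row α (x *ᵥ v) = 0) (γ : Fin n) :
    (N.rho x) α γ = 0 := by
  have h1 : ∀ j, (N.Q * toR x) α j = 0 := by
    intro j
    have := h (Pi.single j 1)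
    rw [row_mulVec, Finset.sum_eq_single j] at this
    · simpa using this
    · intro i _ hi; rw [Pi.single_eq_of_ne hi]; simp
    · simp
  rw [RData.rho_apply, RData.cj_def, Matrix.mul_apply]
  exact Finset.sum_eq_zero fun j _ => by rw [h1, zero_mul]

theorem row_li : LinearIndependent ℝ N.row := by
  rw [Fintype.linearIndependent_iff]
  intro g hg
  have h1 : g ᵥ* N.Q = 0 := by
    ext j
    have := LinearMap.congr_fun hg (Pi.single j 1)
    simp only [LinearMap.sum_apply, LinearMap.smul_apply, row_apply, smul_eq_mul,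
      LinearMap.zero_apply] at this
    rw [Matrix.vecMul, dotProduct, Pi.zero_apply, ← this]
    refine Finset.sum_congr rfl fun i _ => ?_
    rw [Finset.sum_eq_single j]
    · simp
    · intro i _ hi; rw [Pi.single_eq_of_ne hi]; simp
    · simp
  have h2 : g = (g ᵥ* N.Q) ᵥ* N.P := by
    rw [Matrix.vecMul_vecMul, N.hQP, Matrix.vecMul_one]
  rw [h1, Matrix.zero_vecMul] at h2
  intro i
  rw [h2]; rfl

/-- The relation satisfied by the rows of `A'`. -/
def Rel (A' : Matrix (Fin n) (Fin n) ℝ) (α : Fin n) : Prop :=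
  ((cls G α).card = 2 ∧ ∀ β, Eqv G β α → ∀ γ, (A' * A' - N.c α • A' + 1) β γ = 0) ∨
  ∃ k, 3 ≤ k ∧ ∀ β, Eqv G β α → ∀ γ, (A' ^ k - (5 : ℝ) • A' ^ (k - 1) + 1) β γ = 0

theorem exists_A (K1 : ∀ α, 2 ≤ (cls G α).card) :
    ∃ A : Matrix ι ι ℚ, (∀ β α, ¬ Eqv G β α → N.rho A β α = 0) ∧ ∀ α, N.Rel (N.rho A) α := by
  obtain ⟨μ, hsq, hμ⟩ := N.hss
  have hμ' : aeval (Matrix.toLin' N.s) μ = 0 := by
    have h1 := Polynomial.aeval_algHom_apply (Matrix.toLinAlgEquiv' (R := ℚ) (n := ι)).toAlgHom
      N.s μ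
    rw [hμ, map_zero] at h1
    exact h1
  obtain ⟨A, hA, hQ⟩ := exists_A_aux μ hsq (ι → ℚ) (Matrix.toLin' N.s) hμ'
  let Am : Matrix ι ι ℚ := LinearMap.toMatrix' A
  have hAm : ∀ v, Am *ᵥ v = A v := by
    intro v
    rw [← Matrix.toLin'_apply, Matrix.toLin'_toMatrix']
  have hcomm : Am * N.s = N.s * Am := by
    apply Matrix.toLin'.injective
    rw [Matrix.toLin'_mul, Matrix.toLin'_mul, Matrix.toLin'_toMatrix']
    exact hA
  refine ⟨Am, ?_, ?_⟩
  · intro β α h
    have h1 : N.rho Am * Matrix.diagonal N.c = Matrix.diagonal N.c * N.rho Am := by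
      have h2 : N.rho N.s = Matrix.diagonal N.c := N.hs
      rw [← h2, ← map_mul, ← map_mul, hcomm]
    have h2 := congrFun (congrFun h1 β) α
    rw [Matrix.mul_diagonal, Matrix.diagonal_mul] at h2
    have h3 : N.rho Am β α * (N.c α - N.c β) = 0 := by linarith
    rcases mul_eq_zero.mp h3 with h4 | h4
    · exact h4
    · exact absurd ((N.hc β α).mp (sub_eq_zero.mp h4).symm) h
  · intro α
    obtain ⟨k, hk1, hk2, hk3⟩ := hQ (N.c α)
    have hcβ : ∀ β, Eqv G β α → N.c β = N.c α := fun β h => (N.hc β α).mpr h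
    have hφ : ∀ β, Eqv G β α → ∀ v, N.row β (Matrix.toLin' N.s v) = N.c α * N.row β v := by
      intro β h v
      rw [row_s, hcβ β h]
    have hcard : (cls G α).card ≤ k := by
      have := hk1 {β // β ∈ cls G α} (fun β => N.row β.1)
        (fun β v => hφ β.1 (mem_cls.mp β.2) v)
        (N.row_li.comp _ Subtype.val_injective)
      rwa [Fintype.card_coe] at this
    have hK := K1 α
    rcases Nat.lt_or_ge k 3 with hk | hk
    · have hk' : k = 2 := by omega
      left
      refine ⟨by omega, fun β hβ γ => ?_⟩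
      have h1 : ∀ v, N.row β ((Am * Am - N.s * Am + 1) *ᵥ v) = 0 := by
        intro v
        have := hk2 hk' (N.row β) (hφ β hβ) v
        rw [← this]
        congr 1
        rw [Matrix.add_mulVec, Matrix.sub_mulVec, ← Matrix.mulVec_mulVec, ← Matrix.mulVec_mulVec,
          Matrix.one_mulVec, hAm, hAm, Matrix.toLin'_apply]
      have h2 := N.row_zero h1 γ
      have h3 : N.rho N.s = Matrix.diagonal N.c := N.hs
      rw [map_add, map_sub, map_mul, map_mul, map_one, h3] at h2
      rw [← h2, Matrix.add_apply, Matrix.add_apply, Matrix.sub_apply, Matrix.sub_apply,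
        Matrix.smul_apply, Matrix.diagonal_mul, hcβ β hβ]
      rfl
    · right
      refine ⟨k, hk, fun β hβ γ => ?_⟩
      have h1 : ∀ v, N.row β ((Am ^ k - (5 : ℚ) • Am ^ (k - 1) + 1) *ᵥ v) = 0 := by
        intro v
        have := hk3 hk (N.row β) (hφ β hβ) v
        rw [← this]
        congr 1
        have hAm' : A = Matrix.toLinAlgEquiv' Am := by
          change A = Matrix.toLin' (LinearMap.toMatrix' A)
          rw [Matrix.toLin'_toMatrix']
        have h5 : aeval A (X ^ k - C 5 * X ^ (k - 1) + 1 : ℚ[X])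
            = Matrix.toLinAlgEquiv' (Am ^ k - (5 : ℚ) • Am ^ (k - 1) + 1) := by
          rw [hAm']
          simp only [map_add, map_sub, map_mul, map_pow, aeval_X, aeval_C, map_one, map_smul]
          rw [Algebra.smul_def]
        rw [h5]
        rfl
      have h2 := N.row_zero h1 γ
      rw [map_add, map_sub, map_smul, map_pow, map_pow, map_one] at h2
      rw [← h2, Matrix.add_apply, Matrix.add_apply, Matrix.sub_apply, Matrix.sub_apply,
        Matrix.smul_apply, Matrix.smul_apply, Rat.smul_def]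
      norm_num

end NData

end

end Run7.h480.Anosov
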