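import Pool.Agent.Run7.h480.ACore

/-! The core theorem, eigenvalue analysis. -/

set_option linter.unusedSectionVars false
set_option linter.unusedSimpArgs false

namespace Run7.h480.Anosov

noncomputable section

open Matrix Polynomial

variable {n : ℕ} {G : SimpleGraph (Fin n)} {ι κ : Type} [Fintype ι] [DecidableEq ι] [Fintype κ]
  [DecidableEq κ]

/-- complexification of a real matrix -/
abbrev toC {ι₁ ι₂ : Type} (x : Matrix ι₁ ι₂ ℝ) : Matrix ι₁ ι₂ ℂ := x.map Complex.ofRealHom

namespace NData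

variable (N : NData G ι κ)

/-- Root condition at `α`. -/
def RootAt (α : Fin n) (r : ℂ) : Prop := ((cls G α).card = 2 ∧ R2 (N.c α) r) ∨ R3 r

theorem vecMul_pow {x : Matrix (Fin n) (Fin n) ℂ} {y : Fin n → ℂ} {r : ℂ} (h : y ᵥ* x = r • y)
    (k : ℕ) : y ᵥ* (x ^ k) = r ^ k • y := by
  induction k with
  | zero => simp
  | succ k ih => rw [pow_succ, ← Matrix.vecMul_vecMul, ih, Matrix.smul_vecMul, h, smul_smul, pow_succ]

theorem rootAt_of_eig {A' : Matrix (Fin n) (Fin n) ℝ} {α : Fin n} (hA : N.Rel A' α)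
    {y : Fin n → ℂ} (hy : y ≠ 0) (hsupp : ∀ γ, ¬ Eqv G γ α → y γ = 0) {r : ℂ}
    (h : y ᵥ* toC A' = r • y) : N.RootAt α r := by
  obtain ⟨i, hi⟩ := Function.ne_iff.mp hy
  have key : ∀ M : Matrix (Fin n) (Fin n) ℂ, (∀ β, Eqv G β α → ∀ γ, M β γ = 0) →
      y ᵥ* M = 0 := by
    intro M hM
    ext j
    rw [Matrix.vecMul, dotProduct, Pi.zero_apply]
    refine Finset.sum_eq_zero fun β _ => ?_
    by_cases hβ : Eqv G β α
    · rw [hM β hβ, mul_zero]
    · rw [hsupp β hβ, zero_mul]
  rcases hA with ⟨hc, hA⟩ | ⟨k, hk, hA⟩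
  · left
    refine ⟨hc, ?_⟩
    have h1 : y ᵥ* (toC A' * toC A' - (N.c α : ℂ) • toC A' + 1) = 0 := by
      apply key
      intro β hβ γ
      have := congrArg (Complex.ofRealHom) (hA β hβ γ)
      rw [map_zero] at this
      rw [← this]
      have e : toC (A' * A' - N.c α • A' + 1) = toC A' * toC A' - (N.c α : ℂ) • toC A' + 1 := by
        rw [toC, Matrix.map_add _ (map_add Complex.ofRealHom),
          Matrix.map_sub _ (map_sub Complex.ofRealHom), Matrix.map_mul,
          Matrix.map_one _ (map_zero _) (map_one _)]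
        congr 2
        ext i j; simp
      rw [← e]; rfl
    rw [Matrix.vecMul_add, Matrix.vecMul_sub, ← Matrix.vecMul_vecMul, h, Matrix.vecMul_one,
      Matrix.vecMul_smul, Matrix.smul_vecMul, h] at h1
    have h2 := congrFun h1 i
    simp only [Pi.add_apply, Pi.sub_apply, Pi.smul_apply, smul_eq_mul, Pi.zero_apply] at h2
    have h3 : (r ^ 2 - N.c α * r + 1) * y i = 0 := by rw [← h2]; ring
    exact (mul_eq_zero.mp h3).resolve_right hi
  · right
    refine ⟨k, hk, ?_⟩
    have h1 : y ᵥ* ((toC A') ^ k - (5 : ℂ) • (toC A') ^ (k - 1) + 1) = 0 := by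
      apply key
      intro β hβ γ
      have := congrArg (Complex.ofRealHom) (hA β hβ γ)
      rw [map_zero] at this
      rw [← this]
      have e : toC (A' ^ k - (5 : ℝ) • A' ^ (k - 1) + 1)
          = (toC A') ^ k - (5 : ℂ) • (toC A') ^ (k - 1) + 1 := by
        rw [toC, Matrix.map_add _ (map_add Complex.ofRealHom),
          Matrix.map_sub _ (map_sub Complex.ofRealHom),
          Matrix.map_one _ (map_zero _) (map_one _)]
        have e1 : ∀ m, (A' ^ m).map Complex.ofRealHom = (toC A') ^ m := fun m =>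
          map_pow (Complex.ofRealHom.mapMatrix) A' m
        rw [e1]
        congr 2
        rw [← e1]
        ext i j; simp
      rw [← e]; rfl
    rw [Matrix.vecMul_add, Matrix.vecMul_sub, Matrix.vecMul_one, Matrix.vecMul_smul,
      vecMul_pow h, vecMul_pow h] at h1
    have h2 := congrFun h1 i
    simp only [Pi.add_apply, Pi.sub_apply, Pi.smul_apply, smul_eq_mul, Pi.zero_apply] at h2
    have h3 : (r ^ k - 5 * r ^ (k - 1) + 1) * y i = 0 := by rw [← h2]; ring
    exact (mul_eq_zero.mp h3).resolve_right hi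

theorem RootAt.ne_zero {α : Fin n} {r : ℂ} (h : N.RootAt α r) : r ≠ 0 := by
  rintro rfl
  rcases h with ⟨_, h⟩ | ⟨k, hk, h⟩
  · have : (0 : ℂ) ^ 2 - N.c α * 0 + 1 = 0 := h
    norm_num at this
  · rw [zero_pow (by omega), zero_pow (by omega)] at h
    norm_num at h

theorem RootAt.good {α : Fin n} {r : ℂ} (h : N.RootAt α r) : Good r := by
  refine ⟨RootAt.ne_zero N h, ?_⟩
  rcases h with ⟨_, h⟩ | h
  · exact ⟨(h.integral (N.hint α)).1, (h.integral (N.hint α)).2, h.ne (N.hbig α)⟩
  · exact ⟨h.integral.1, h.integral.2, h.ne⟩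

theorem RootAt.pair (K2 : ∀ α β, (cls G α).card = 2 → Eqv G α β → ¬ G.Adj α β) {α β : Fin n}
    (hadj : G.Adj α β) {r r' : ℂ} (h : N.RootAt α r) (h' : N.RootAt β r') : Good (r * r') := by
  have g := RootAt.good N h
  have g' := RootAt.good N h'
  refine ⟨mul_ne_zero g.1 g'.1, g.2.1.mul g'.2.1, by rw [mul_inv]; exact g.2.2.1.mul g'.2.2.1, ?_⟩
  rcases h with ⟨hc, h⟩ | h <;> rcases h' with ⟨hc', h'⟩ | h'
  · intro h1
    have h2 := R2_pair (N.hbig α) (N.hbig β) h h' h1
    exact K2 α β hc ((N.hc α β).mp h2) hadj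
  · exact R23 (N.hbig α) h h'
  · rw [mul_comm]; exact R23 (N.hbig β) h' h
  · exact R33 h h'

variable {N}

/-- Left eigenvectors of `A'`. -/
theorem good_of_vec {A' : Matrix (Fin n) (Fin n) ℝ} (hblk : ∀ β α, ¬ Eqv G β α → A' β α = 0)
    (hA : ∀ α, N.Rel A' α) {w : Fin n → ℂ} (hw : w ≠ 0) {z : ℂ} (h : w ᵥ* toC A' = z • w) :
    Good z := by
  classical
  obtain ⟨α, hα⟩ := Function.ne_iff.mp hw
  let y : Fin n → ℂ := fun γ => if Eqv G γ α then w γ else 0
  have hy : y ≠ 0 := by
    intro h0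
    apply hα
    have := congrFun h0 α
    simpa [y, Eqv.refl] using this
  refine RootAt.good N (N.rootAt_of_eig (hA α) hy (fun γ hγ => by simp [y, hγ]) (r := z) ?_)
  ext j
  rw [Matrix.vecMul, dotProduct, Pi.smul_apply, smul_eq_mul]
  by_cases hj : Eqv G j α
  · have h1 := congrFun h j
    rw [Matrix.vecMul, dotProduct, Pi.smul_apply, smul_eq_mul] at h1
    simp only [y, if_pos hj]
    rw [← h1]
    refine Finset.sum_congr rfl fun i _ => ?_
    by_cases hi : Eqv G i α
    · simp only [if_pos hi]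
    · have : A' i j = 0 := hblk i j (fun h' => hi (h'.trans hj))
      simp [this]
  · simp only [y, if_neg hj, mul_zero]
    refine Finset.sum_eq_zero fun i _ => ?_
    by_cases hi : Eqv G i α
    · have : A' i j = 0 := hblk i j (fun h' => hj (h'.symm.trans hi))
      simp [this]
    · simp [hi]

theorem good_of_form (K2 : ∀ α β, (cls G α).card = 2 → Eqv G α β → ¬ G.Adj α β)
    {A' : Matrix (Fin n) (Fin n) ℝ} (hblk : ∀ β α, ¬ Eqv G β α → A' β α = 0)
    (hA : ∀ α, N.Rel A' α) {X₀ : Matrix (Fin n) (Fin n) ℂ} (hX₀ : X₀ ≠ 0)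
    (hphi : ∀ i j, ¬ G.Adj i j → X₀ i j = 0) {z : ℂ}
    (h : (toC A')ᵀ * X₀ * toC A' = z • X₀) : Good z := by
  classical
  obtain ⟨α, β, hαβ⟩ : ∃ α β, X₀ α β ≠ 0 := by
    by_contra hcon
    push Not at hcon
    exact hX₀ (by ext i j; simp [hcon])
  have hadj : G.Adj α β := by
    by_contra hn
    exact hαβ (hphi α β hn)
  -- restriction to the block
  let X : Matrix (Fin n) (Fin n) ℂ :=
    Matrix.of fun i j => if Eqv G i α ∧ Eqv G j β then X₀ i j else 0
  have hXne : X ≠ 0 := by
    intro h0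
    apply hαβ
    have := congrFun (congrFun h0 α) β
    simpa [X, Eqv.refl] using this
  have hentry : ∀ (Y : Matrix (Fin n) (Fin n) ℂ) (i j : Fin n),
      ((toC A')ᵀ * Y * toC A') i j = ∑ l, ∑ k, (A' k i : ℂ) * Y k l * (A' l j : ℂ) := by
    intro Y i j
    simp only [Matrix.mul_apply, Finset.sum_mul, Matrix.transpose_apply, Matrix.map_apply]
    rfl
  have hXeq : (toC A')ᵀ * X * toC A' = z • X := by
    ext i j
    rw [hentry, Matrix.smul_apply, smul_eq_mul]
    by_cases hij : Eqv G i α ∧ Eqv G j β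
    · have h1 := congrFun (congrFun h i) j
      rw [hentry, Matrix.smul_apply, smul_eq_mul] at h1
      have h2 : X i j = X₀ i j := by simp [X, hij]
      rw [h2, ← h1]
      refine Finset.sum_congr rfl fun l _ => Finset.sum_congr rfl fun k _ => ?_
      by_cases hk : Eqv G k α
      · by_cases hl : Eqv G l β
        · simp [X, hk, hl]
        · have : A' l j = 0 := hblk l j (fun h' => hl (h'.trans hij.2))
          simp [this]
      · have : A' k i = 0 := hblk k i (fun h' => hk (h'.trans hij.1))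
        simp [this]
    · have h2 : X i j = 0 := by simp only [X, Matrix.of_apply, if_neg hij]
      rw [h2, mul_zero]
      refine Finset.sum_eq_zero fun l _ => Finset.sum_eq_zero fun k _ => ?_
      by_cases hkl : Eqv G k α ∧ Eqv G l β
      · rw [not_and_or] at hij
        rcases hij with hi | hj
        · have : A' k i = 0 := hblk k i (fun h' => hi (h'.symm.trans hkl.1))
          simp [this]
        · have : A' l j = 0 := hblk l j (fun h' => hj (h'.symm.trans hkl.2))
          simp [this]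
      · simp only [X, Matrix.of_apply, if_neg hkl, mul_zero, zero_mul]
  -- the space of such matrices
  let S : Submodule ℂ (Matrix (Fin n) (Fin n) ℂ) :=
    { carrier := {Y | (∀ i j, ¬ (Eqv G i α ∧ Eqv G j β) → Y i j = 0) ∧
        (toC A')ᵀ * Y * toC A' = z • Y}
      zero_mem' := by simp
      add_mem' := by
        rintro Y Z ⟨h1, h2⟩ ⟨h3, h4⟩
        refine ⟨fun i j hij => ?_, ?_⟩
        · rw [Matrix.add_apply, h1 i j hij, h3 i j hij, add_zero]
        · rw [Matrix.mul_add, Matrix.add_mul, h2, h4, smul_add]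
      smul_mem' := by
        rintro c Y ⟨h1, h2⟩
        refine ⟨fun i j hij => ?_, ?_⟩
        · rw [Matrix.smul_apply, h1 i j hij, smul_zero]
        · rw [Matrix.mul_smul, Matrix.smul_mul, h2, smul_comm] }
  have hL : ∀ Y ∈ S, LinearMap.mulLeft ℂ (toC A')ᵀ Y ∈ S := by
    rintro Y ⟨h1, h2⟩
    refine ⟨fun i j hij => ?_, ?_⟩
    · rw [LinearMap.mulLeft_apply, Matrix.mul_apply]
      refine Finset.sum_eq_zero fun k _ => ?_
      by_cases hkj : Eqv G k α ∧ Eqv G j β
      · have : A' k i = 0 := hblk k i (fun h' => hij ⟨h'.symm.trans hkj.1, hkj.2⟩)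
        simp [this]
      · rw [h1 k j hkj, mul_zero]
    · rw [LinearMap.mulLeft_apply]
      calc (toC A')ᵀ * ((toC A')ᵀ * Y) * toC A' = (toC A')ᵀ * ((toC A')ᵀ * Y * toC A') := by
            simp only [Matrix.mul_assoc]
        _ = _ := by rw [h2, Matrix.mul_smul]
  let L : Module.End ℂ S := (LinearMap.mulLeft ℂ (toC A')ᵀ).restrict hL
  have hXS : X ∈ S := ⟨fun i j hij => by simp only [X, Matrix.of_apply, if_neg hij], hXeq⟩
  have : Nontrivial S := ⟨⟨⟨X, hXS⟩, 0, fun h0 => hXne (congrArg Subtype.val h0)⟩⟩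
  obtain ⟨r, hr⟩ := Module.End.exists_eigenvalue L
  obtain ⟨Y, hY⟩ := hr.exists_hasEigenvector
  have hY0 : (Y : Matrix (Fin n) (Fin n) ℂ) ≠ 0 := fun h0 => hY.2 (Subtype.ext h0)
  have hYr : (toC A')ᵀ * (Y : Matrix (Fin n) (Fin n) ℂ) = r • (Y : Matrix (Fin n) (Fin n) ℂ) :=
    congrArg Subtype.val hY.apply_eq_smul
  obtain ⟨i, j, hij⟩ : ∃ i j, (Y : Matrix (Fin n) (Fin n) ℂ) i j ≠ 0 := by
    by_contra hcon
    push Not at hcon
    exact hY0 (by ext i j; simp [hcon])
  have hij' : Eqv G i α ∧ Eqv G j β := by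
    by_contra hn
    exact hij (Y.2.1 i j hn)
  -- columns
  have hroot1 : N.RootAt α r := by
    refine N.rootAt_of_eig (hA α) (y := fun k => (Y : Matrix (Fin n) (Fin n) ℂ) k j) ?_ ?_ ?_
    · intro h0; exact hij (congrFun h0 i)
    · intro γ hγ; exact Y.2.1 γ j (fun h' => hγ h'.1)
    · ext l
      have := congrFun (congrFun hYr l) j
      rw [Matrix.mul_apply, Matrix.smul_apply] at this
      rw [Matrix.vecMul, dotProduct, Pi.smul_apply, ← this]
      refine Finset.sum_congr rfl fun k _ => ?_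
      rw [Matrix.transpose_apply, mul_comm]
  have hr0 := RootAt.ne_zero N hroot1
  have hYz : (Y : Matrix (Fin n) (Fin n) ℂ) * toC A' = (z / r) • (Y : Matrix (Fin n) (Fin n) ℂ) := by
    have h1 := Y.2.2
    rw [hYr, Matrix.smul_mul] at h1
    have h2 : (Y : Matrix (Fin n) (Fin n) ℂ) * toC A'
        = r⁻¹ • (r • ((Y : Matrix (Fin n) (Fin n) ℂ) * toC A')) := by
      rw [smul_smul, inv_mul_cancel₀ hr0, one_smul]
    rw [h2, h1, smul_smul]
    congr 1
    field_simp
  have hroot2 : N.RootAt β (z / r) := by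
    refine N.rootAt_of_eig (hA β) (y := fun k => (Y : Matrix (Fin n) (Fin n) ℂ) i k) ?_ ?_ ?_
    · intro h0; exact hij (congrFun h0 j)
    · intro γ hγ; exact Y.2.1 i γ (fun h' => hγ h'.2)
    · ext l
      have := congrFun (congrFun hYz i) l
      rw [Matrix.mul_apply, Matrix.smul_apply] at this
      rw [Matrix.vecMul, dotProduct, Pi.smul_apply, ← this]
  have := RootAt.pair N K2 hadj hroot1 hroot2
  rwa [mul_div_cancel₀ _ hr0] at this

end NData

end

end Run7.h480.Anosov
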