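import Pool.Agent.Run7.h480.ACore2

/-! The core theorem, assembly. -/

set_option linter.unusedSectionVars false
set_option linter.unusedSimpArgs false

namespace Run7.h480.Anosov

noncomputable section

open Matrix Polynomial

variable {n : ℕ} {G : SimpleGraph (Fin n)} {ι κ : Type} [Fintype ι] [DecidableEq ι] [Fintype κ]
  [DecidableEq κ]

/-- Complex roots of the characteristic polynomial have left eigenvectors. -/
theorem exists_left_eig {ν : Type} [Fintype ν] [DecidableEq ν] (M : Matrix ν ν ℚ) {z : ℂ}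
    (hz : (M.charpoly.map (algebraMap ℚ ℂ)).IsRoot z) :
    ∃ v : ν → ℂ, v ≠ 0 ∧ v ᵥ* (M.map (algebraMap ℚ ℂ)) = z • v := by
  rw [← Matrix.charpoly_map, IsRoot.def, Matrix.eval_charpoly] at hz
  obtain ⟨v, hv, hv0⟩ := Matrix.exists_vecMul_eq_zero_iff.mpr hz
  refine ⟨v, hv, ?_⟩
  rw [Matrix.vecMul_sub, sub_eq_zero] at hv0
  rw [← hv0]
  ext i
  simp [Matrix.scalar_apply, Matrix.vecMul_diagonal, mul_comm]

namespace NData

variable (N : NData G ι κ)

theorem exists_B {A : Matrix ι ι ℚ} (hA : N.rho A ∈ Inc G ℝ) :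
    ∃ B : Matrix κ κ ℚ, ∀ k, Aᵀ * N.Ω k * A = ∑ l, B k l • N.Ω l := by
  obtain ⟨π, hπ⟩ := LinearMap.exists_leftInverse_of_injective (Algebra.linearMap ℚ ℝ)
    (LinearMap.ker_eq_bot.mpr (algebraMap ℚ ℝ).injective)
  have hπ' : ∀ q : ℚ, π (algebraMap ℚ ℝ q) = q := fun q => LinearMap.congr_fun hπ q
  have h1 : ∀ k, ∃ t : κ → ℝ, Om ℝ N.Ω t = toR (Aᵀ * N.Ω k * A) := by
    intro k
    have h2 : toR (Aᵀ * N.Ω k * A) ∈ N.OmS := by
      rw [N.mem_OmS]
      have h3 := Inc.phi hA (N.mem_OmS.mp (N.toR_Ω_mem k))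
      convert h3 using 1
      rw [N.rho_apply, N.cj_def]
      have h4 : toR (Aᵀ * N.Ω k * A) = (toR A)ᵀ * toR (N.Ω k) * toR A := by
        rw [toR, Matrix.map_mul, Matrix.map_mul, Matrix.transpose_map]
      rw [h4, Matrix.transpose_mul, Matrix.transpose_mul]
      have h5 : (N.P * N.Q)ᵀ = 1 := by rw [N.hPQ, Matrix.transpose_one]
      calc N.Pᵀ * ((toR A)ᵀ * toR (N.Ω k) * toR A) * N.P
          = N.Pᵀ * (toR A)ᵀ * (N.P * N.Q)ᵀ * toR (N.Ω k) * (N.P * N.Q) * (toR A * N.P) := by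
            rw [h5, N.hPQ, Matrix.mul_one, Matrix.mul_one]; simp only [Matrix.mul_assoc]
        _ = _ := by rw [Matrix.transpose_mul]; simp only [Matrix.mul_assoc]
    exact h2
  choose t ht using h1
  refine ⟨Matrix.of fun k l => π (t k l), fun k => ?_⟩
  ext i j
  have h2 := congrArg π (congrFun (congrFun (ht k) i) j)
  have h3 : π (toR (Aᵀ * N.Ω k * A) i j) = (Aᵀ * N.Ω k * A) i j := hπ' _
  rw [h3, Om_apply_apply, map_sum] at h2
  rw [← h2, Matrix.sum_apply]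
  refine Finset.sum_congr rfl fun l _ => ?_
  rw [mul_comm, ← Algebra.smul_def, map_smul, Matrix.smul_apply, Matrix.of_apply, smul_eq_mul,
    smul_eq_mul, mul_comm]

theorem core (K1 : ∀ α, 2 ≤ (cls G α).card)
    (K2 : ∀ α β, (cls G α).card = 2 → Eqv G α β → ¬ G.Adj α β)
    (hli : ∀ t : κ → ℂ, Om ℂ N.Ω t = 0 → t = 0) :
    ∃ (A : Matrix ι ι ℚ) (B : Matrix κ κ ℚ), (∀ k, Aᵀ * N.Ω k * A = ∑ l, B k l • N.Ω l) ∧
      (∀ z : ℂ, (A.charpoly.map (algebraMap ℚ ℂ)).IsRoot z → Good z) ∧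
      (∀ z : ℂ, (B.charpoly.map (algebraMap ℚ ℂ)).IsRoot z → Good z) := by
  obtain ⟨A, hblk, hrel⟩ := N.exists_A K1
  have hAinc : N.rho A ∈ Inc G ℝ := fun β α h => hblk β α (fun h' => h h'.1)
  obtain ⟨B, hB⟩ := N.exists_B hAinc
  -- complexified data
  have hPQ : toC N.P * toC N.Q = 1 := by
    rw [toC, toC, ← Matrix.map_mul, N.hPQ, Matrix.map_one _ (map_zero _) (map_one _)]
  have hQP : toC N.Q * toC N.P = 1 := by
    rw [toC, toC, ← Matrix.map_mul, N.hQP, Matrix.map_one _ (map_zero _) (map_one _)]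
  have hRC : ∀ x : Matrix ι ι ℚ, toC (toR x) = x.map (algebraMap ℚ ℂ) := by
    intro x; ext i j; simp
  have hA' : toC (N.rho A) = toC N.Q * A.map (algebraMap ℚ ℂ) * toC N.P := by
    rw [N.rho_apply, N.cj_def, toC, Matrix.map_mul, Matrix.map_mul, ← hRC]
  refine ⟨A, B, hB, fun z hz => ?_, fun z hz => ?_⟩
  · obtain ⟨v, hv, hvz⟩ := exists_left_eig A hz
    refine good_of_vec hblk hrel (w := v ᵥ* toC N.P) ?_ ?_
    · intro h0
      apply hv
      calc v = (v ᵥ* toC N.P) ᵥ* toC N.Q := by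
            rw [Matrix.vecMul_vecMul, hPQ, Matrix.vecMul_one]
        _ = 0 := by rw [h0, Matrix.zero_vecMul]
    · rw [hA', Matrix.vecMul_vecMul]
      have h1 : toC N.P * (toC N.Q * A.map (algebraMap ℚ ℂ) * toC N.P)
          = A.map (algebraMap ℚ ℂ) * toC N.P := by
        calc _ = (toC N.P * toC N.Q) * A.map (algebraMap ℚ ℂ) * toC N.P := by
              simp only [Matrix.mul_assoc]
          _ = _ := by rw [hPQ, Matrix.one_mul]
      rw [h1, ← Matrix.vecMul_vecMul, hvz, Matrix.smul_vecMul]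
  · obtain ⟨t, ht, htz⟩ := exists_left_eig B hz
    let Ω₀ : Matrix ι ι ℂ := Om ℂ N.Ω t
    have hΩ₀ : Ω₀ ≠ 0 := fun h0 => ht (hli t h0)
    have hΩA : (A.map (algebraMap ℚ ℂ))ᵀ * Ω₀ * A.map (algebraMap ℚ ℂ) = z • Ω₀ := by
      have h1 : ∀ k, (A.map (algebraMap ℚ ℂ))ᵀ * (N.Ω k).map (algebraMap ℚ ℂ)
          * A.map (algebraMap ℚ ℂ) = ∑ l, (algebraMap ℚ ℂ (B k l)) • (N.Ω l).map (algebraMap ℚ ℂ) := by
        intro k
        have h2 := congrArg (fun M : Matrix ι ι ℚ => M.map (algebraMap ℚ ℂ)) (hB k)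
        simp only [Matrix.map_mul] at h2
        rw [Matrix.transpose_map] at h2
        rw [h2]
        ext i j
        simp [Matrix.sum_apply]
      have h2 : (A.map (algebraMap ℚ ℂ))ᵀ * Ω₀ * A.map (algebraMap ℚ ℂ)
          = ∑ k, t k • ∑ l, (algebraMap ℚ ℂ (B k l)) • (N.Ω l).map (algebraMap ℚ ℂ) := by
        change (A.map (algebraMap ℚ ℂ))ᵀ * Om ℂ N.Ω t * A.map (algebraMap ℚ ℂ) = _
        rw [Om_apply, Matrix.mul_sum, Matrix.sum_mul]
        refine Finset.sum_congr rfl fun k _ => ?_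
        rw [Matrix.mul_smul, Matrix.smul_mul, h1]
      rw [h2]
      change _ = z • Om ℂ N.Ω t
      rw [Om_apply, Finset.smul_sum]
      simp only [Finset.smul_sum, smul_smul]
      rw [Finset.sum_comm]
      refine Finset.sum_congr rfl fun l _ => ?_
      rw [← Finset.sum_smul]
      congr 1
      have := congrFun htz l
      rw [Matrix.vecMul, dotProduct, Pi.smul_apply, smul_eq_mul] at this
      rw [← this]
      rfl
    refine good_of_form K2 hblk hrel (X₀ := (toC N.P)ᵀ * Ω₀ * toC N.P) ?_ ?_ ?_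
    · intro h0
      apply hΩ₀
      have h5 : (toC N.P * toC N.Q)ᵀ = 1 := by rw [hPQ, Matrix.transpose_one]
      calc Ω₀ = (toC N.P * toC N.Q)ᵀ * Ω₀ * (toC N.P * toC N.Q) := by
            rw [h5, hPQ, Matrix.mul_one, Matrix.one_mul]
        _ = (toC N.Q)ᵀ * ((toC N.P)ᵀ * Ω₀ * toC N.P) * toC N.Q := by
            rw [Matrix.transpose_mul]; simp only [Matrix.mul_assoc]
        _ = 0 := by rw [h0]; simp
    · intro i j hij
      have h1 : (toC N.P)ᵀ * Ω₀ * toC N.P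
          = ∑ k, t k • toC (N.Pᵀ * toR (N.Ω k) * N.P) := by
        change (toC N.P)ᵀ * Om ℂ N.Ω t * toC N.P = _
        rw [Om_apply, Matrix.mul_sum, Matrix.sum_mul]
        refine Finset.sum_congr rfl fun k _ => ?_
        rw [Matrix.mul_smul, Matrix.smul_mul]
        congr 1
        change _ = (N.Pᵀ * toR (N.Ω k) * N.P).map Complex.ofRealHom
        rw [Matrix.map_mul, Matrix.map_mul, ← hRC, Matrix.transpose_map]
      rw [h1, Matrix.sum_apply]
      refine Finset.sum_eq_zero fun k _ => ?_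
      have h2 := (N.mem_OmS.mp (N.toR_Ω_mem k)).2 i j hij
      have h3 : toC (N.Pᵀ * toR (N.Ω k) * N.P) i j = 0 := by
        change Complex.ofRealHom ((N.Pᵀ * toR (N.Ω k) * N.P) i j) = 0
        rw [h2, map_zero]
      rw [Matrix.smul_apply, h3, smul_zero]
    · rw [hA']
      have h5 : (toC N.Q)ᵀ * (toC N.P)ᵀ = 1 := by
        rw [← Matrix.transpose_mul, hPQ, Matrix.transpose_one]
      calc (toC N.Q * A.map (algebraMap ℚ ℂ) * toC N.P)ᵀ * ((toC N.P)ᵀ * Ω₀ * toC N.P)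
            * (toC N.Q * A.map (algebraMap ℚ ℂ) * toC N.P)
          = (toC N.P)ᵀ * (A.map (algebraMap ℚ ℂ))ᵀ * ((toC N.Q)ᵀ * (toC N.P)ᵀ) * Ω₀
            * (toC N.P * toC N.Q) * (A.map (algebraMap ℚ ℂ) * toC N.P) := by
            rw [Matrix.transpose_mul, Matrix.transpose_mul]; simp only [Matrix.mul_assoc]
        _ = (toC N.P)ᵀ * ((A.map (algebraMap ℚ ℂ))ᵀ * Ω₀ * A.map (algebraMap ℚ ℂ)) * toC N.P := by
            rw [h5, hPQ, Matrix.mul_one, Matrix.mul_one]; simp only [Matrix.mul_assoc]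
        _ = z • ((toC N.P)ᵀ * Ω₀ * toC N.P) := by
            rw [hΩA, Matrix.mul_smul, Matrix.smul_mul]

end NData

end

end Run7.h480.Anosov
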