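import Pool.Agent.Run7.h480.ANormal

/-! Rational structure on the incidence algebra coming from a rational form. -/

set_option linter.unusedSectionVars false
set_option linter.unusedSimpArgs false

namespace Run7.h480.Anosov

noncomputable section

open Matrix

variable {n : ℕ} {G : SimpleGraph (Fin n)} {ι κ : Type} [Fintype ι] [DecidableEq ι] [Fintype κ]

/-- Base change of a rational matrix. -/
abbrev toR (x : Matrix ι ι ℚ) : Matrix ι ι ℝ := x.map (algebraMap ℚ ℝ)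

/-- Linear combination of the structure matrices. -/
def Om (K : Type*) [Field K] [Algebra ℚ K] (Ω : κ → Matrix ι ι ℚ) :
    (κ → K) →ₗ[K] Matrix ι ι K where
  toFun t := ∑ k, t k • (Ω k).map (algebraMap ℚ K)
  map_add' s t := by simp [add_smul, Finset.sum_add_distrib]
  map_smul' c t := by simp [mul_smul, Finset.smul_sum]

theorem Om_apply (K : Type*) [Field K] [Algebra ℚ K] (Ω : κ → Matrix ι ι ℚ) (t : κ → K) :
    Om K Ω t = ∑ k, t k • (Ω k).map (algebraMap ℚ K) := rfl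

theorem Om_apply_apply (K : Type*) [Field K] [Algebra ℚ K] (Ω : κ → Matrix ι ι ℚ) (t : κ → K)
    (i j : ι) : Om K Ω t i j = ∑ k, t k * algebraMap ℚ K (Ω k i j) := by
  rw [Om_apply, Matrix.sum_apply]
  simp

/-- The data of a rational form of the real graph algebra, in matrix terms. -/
structure RData (G : SimpleGraph (Fin n)) (ι κ : Type) [Fintype ι] [DecidableEq ι]
    [Fintype κ] where
  Ω : κ → Matrix ι ι ℚ
  P : Matrix ι (Fin n) ℝ
  Q : Matrix (Fin n) ι ℝ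
  hPQ : P * Q = 1
  hQP : Q * P = 1
  H1 : ∀ t : κ → ℝ, Pᵀ * Om ℝ Ω t * P ∈ Phi G ℝ
  H2 : ∀ Ω' ∈ Phi G ℝ, ∃ t : κ → ℝ, Pᵀ * Om ℝ Ω t * P = Ω'

/-- A real matrix lies in an `ℝ`-subspace as soon as all its rational slices do. -/
theorem span_expand {ι' : Type} [Fintype ι'] {X : Matrix ι ι' ℝ}
    (S : Submodule ℝ (Matrix ι ι' ℝ))
    (h : ∀ π : ℝ →ₗ[ℚ] ℚ, (X.map π).map (algebraMap ℚ ℝ) ∈ S) : X ∈ S := by
  classical
  let τ := Module.Basis.ofVectorSpace ℚ ℝ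
  let F : Finset (Module.Basis.ofVectorSpaceIndex ℚ ℝ) :=
    Finset.univ.biUnion fun i => Finset.univ.biUnion fun j => (τ.repr (X i j)).support
  have hX : X = ∑ l ∈ F, (τ l) • (X.map (τ.coord l)).map (algebraMap ℚ ℝ) := by
    ext i j
    rw [Matrix.sum_apply]
    have h1 : X i j = ∑ l ∈ F, (τ.repr (X i j) l) • τ l := by
      conv_lhs => rw [← τ.linearCombination_repr (X i j)]
      rw [Finsupp.linearCombination_apply, Finsupp.sum]
      apply Finset.sum_subset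
      · intro l hl
        simp only [F, Finset.mem_biUnion, Finset.mem_univ, true_and]
        exact ⟨i, j, hl⟩
      · intro l _ hl
        rw [Finsupp.notMem_support_iff.mp hl, zero_smul]
    conv_lhs => rw [h1]
    refine Finset.sum_congr rfl fun l _ => ?_
    simp only [Matrix.smul_apply, Matrix.map_apply, smul_eq_mul, Module.Basis.coord_apply]
    rw [Algebra.smul_def, mul_comm]
  rw [hX]
  exact S.sum_mem fun l _ => S.smul_mem _ (h _)

variable (R : RData G ι κ)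

namespace RData

/-- conjugation -/
def cj (X : Matrix ι ι ℝ) : Matrix (Fin n) (Fin n) ℝ := R.Q * X * R.P

theorem cj_def (X : Matrix ι ι ℝ) : R.cj X = R.Q * X * R.P := rfl

theorem cj_mul (X Y : Matrix ι ι ℝ) : R.cj (X * Y) = R.cj X * R.cj Y := by
  simp only [cj]
  calc R.Q * (X * Y) * R.P = R.Q * X * (1 : Matrix ι ι ℝ) * (Y * R.P) := by simp only [Matrix.mul_assoc, Matrix.mul_one, Matrix.one_mul]
    _ = _ := by rw [← R.hPQ]; simp only [Matrix.mul_assoc]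

theorem cj_one : R.cj 1 = 1 := by simp [cj, R.hQP]

theorem cj_add (X Y : Matrix ι ι ℝ) : R.cj (X + Y) = R.cj X + R.cj Y := by
  simp [cj, Matrix.mul_add, Matrix.add_mul]

theorem cj_sub (X Y : Matrix ι ι ℝ) : R.cj (X - Y) = R.cj X - R.cj Y := by
  simp [cj, Matrix.mul_sub, Matrix.sub_mul]

theorem cj_smul (c : ℝ) (X : Matrix ι ι ℝ) : R.cj (c • X) = c • R.cj X := by
  simp [cj]

/-- the inverse of `cj` -/
def jc (x : Matrix (Fin n) (Fin n) ℝ) : Matrix ι ι ℝ := R.P * x * R.Q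

theorem cj_jc (x : Matrix (Fin n) (Fin n) ℝ) : R.cj (R.jc x) = x := by
  simp only [cj, jc]
  calc R.Q * (R.P * x * R.Q) * R.P = (R.Q * R.P) * x * (R.Q * R.P) := by
        simp only [Matrix.mul_assoc]
    _ = x := by rw [R.hQP]; simp

theorem jc_cj (x : Matrix ι ι ℝ) : R.jc (R.cj x) = x := by
  simp only [cj, jc]
  calc R.P * (R.Q * x * R.P) * R.Q = (R.P * R.Q) * x * (R.P * R.Q) := by
        simp only [Matrix.mul_assoc]
    _ = x := by rw [R.hPQ]; simp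

/-- `cj` as an algebra homomorphism. -/
def cjHom : Matrix ι ι ℝ →ₐ[ℝ] Matrix (Fin n) (Fin n) ℝ :=
  AlgHom.ofLinearMap
    { toFun := R.cj
      map_add' := R.cj_add
      map_smul' := R.cj_smul } R.cj_one R.cj_mul

theorem cjHom_apply (X : Matrix ι ι ℝ) : R.cjHom X = R.cj X := rfl

/-- rational matrices into real `n × n` matrices. -/
noncomputable def rho : Matrix ι ι ℚ →ₐ[ℚ] Matrix (Fin n) (Fin n) ℝ :=
  (R.cjHom.restrictScalars ℚ).comp (Algebra.ofId ℚ ℝ).mapMatrix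

theorem rho_apply (x : Matrix ι ι ℚ) : R.rho x = R.cj (toR x) := rfl

theorem trace_cj (X : Matrix ι ι ℝ) : (R.cj X).trace = X.trace := by
  rw [cj, Matrix.trace_mul_comm, ← Matrix.mul_assoc, R.hPQ, Matrix.one_mul]

/-- The span of the structure matrices. -/
def OmS : Submodule ℝ (Matrix ι ι ℝ) := LinearMap.range (Om ℝ R.Ω)

theorem mem_OmS {Y : Matrix ι ι ℝ} : Y ∈ R.OmS ↔ R.Pᵀ * Y * R.P ∈ Phi G ℝ := by
  constructor
  · rintro ⟨t, rfl⟩
    exact R.H1 t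
  · intro h
    obtain ⟨t, ht⟩ := R.H2 _ h
    refine ⟨t, ?_⟩
    have hc : ∀ Z : Matrix ι ι ℝ, R.Qᵀ * (R.Pᵀ * Z * R.P) * R.Q = Z := by
      intro Z
      calc R.Qᵀ * (R.Pᵀ * Z * R.P) * R.Q = (R.Qᵀ * R.Pᵀ) * Z * (R.P * R.Q) := by
            simp only [Matrix.mul_assoc]
        _ = Z := by rw [← Matrix.transpose_mul, R.hPQ]; simp
    rw [← hc (Om ℝ R.Ω t), ht, hc]

theorem toR_Ω_mem (k : κ) : toR (R.Ω k) ∈ R.OmS := by
  classical
  refine ⟨Pi.single k 1, ?_⟩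
  rw [Om_apply, Finset.sum_eq_single k]
  · simp
  · intro l _ hl
    rw [Pi.single_eq_of_ne hl, zero_smul]
  · simp

theorem conj_der (X Y : Matrix ι ι ℝ) :
    R.Pᵀ * (Xᵀ * Y + Y * X) * R.P = (R.cj X)ᵀ * (R.Pᵀ * Y * R.P) + (R.Pᵀ * Y * R.P) * R.cj X := by
  simp only [cj, Matrix.transpose_mul, Matrix.mul_add, Matrix.add_mul]
  congr 1
  · calc R.Pᵀ * (Xᵀ * Y) * R.P = R.Pᵀ * Xᵀ * (1 : Matrix ι ι ℝ) * (Y * R.P) := by simp only [Matrix.mul_assoc, Matrix.mul_one, Matrix.one_mul]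
      _ = R.Pᵀ * Xᵀ * (R.P * R.Q)ᵀ * (Y * R.P) := by rw [R.hPQ, Matrix.transpose_one]
      _ = _ := by rw [Matrix.transpose_mul]; simp only [Matrix.mul_assoc]
  · calc R.Pᵀ * (Y * X) * R.P = R.Pᵀ * Y * (1 : Matrix ι ι ℝ) * (X * R.P) := by simp only [Matrix.mul_assoc, Matrix.mul_one, Matrix.one_mul]
      _ = R.Pᵀ * Y * (R.P * R.Q) * (X * R.P) := by rw [R.hPQ]
      _ = _ := by simp only [Matrix.mul_assoc]

theorem cj_mem_inc_iff {X : Matrix ι ι ℝ} :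
    R.cj X ∈ Inc G ℝ ↔ ∀ k, Xᵀ * toR (R.Ω k) + toR (R.Ω k) * X ∈ R.OmS := by
  constructor
  · intro h k
    rw [mem_OmS, conj_der]
    exact Inc.der h (R.mem_OmS.mp (R.toR_Ω_mem k))
  · intro h
    apply mem_inc_of_der
    intro Ω' hΩ'
    obtain ⟨t, ht⟩ := R.H2 Ω' hΩ'
    rw [← ht, ← conj_der, ← mem_OmS, Om_apply]
    have : Xᵀ * (∑ k, t k • toR (R.Ω k)) + (∑ k, t k • toR (R.Ω k)) * X
        = ∑ k, t k • (Xᵀ * toR (R.Ω k) + toR (R.Ω k) * X) := by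
      simp [Matrix.mul_sum, Matrix.sum_mul, Finset.sum_add_distrib, smul_add]
    rw [this]
    exact Submodule.sum_mem _ fun k _ => Submodule.smul_mem _ _ (h k)

theorem map_pi_mul {ι₁ ι₂ ι₃ : Type} [Fintype ι₂] (π : ℝ →ₗ[ℚ] ℚ) (A : Matrix ι₁ ι₂ ℚ)
    (X : Matrix ι₂ ι₃ ℝ) : (A.map (algebraMap ℚ ℝ) * X).map π = A * X.map π := by
  ext i j
  simp only [Matrix.map_apply, Matrix.mul_apply, map_sum]
  refine Finset.sum_congr rfl fun l _ => ?_
  rw [← Algebra.smul_def, map_smul, smul_eq_mul]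

theorem map_pi_mul' {ι₁ ι₂ ι₃ : Type} [Fintype ι₂] (π : ℝ →ₗ[ℚ] ℚ) (A : Matrix ι₂ ι₃ ℚ)
    (X : Matrix ι₁ ι₂ ℝ) : (X * A.map (algebraMap ℚ ℝ)).map π = X.map π * A := by
  ext i j
  simp only [Matrix.map_apply, Matrix.mul_apply, map_sum]
  refine Finset.sum_congr rfl fun l _ => ?_
  rw [mul_comm, ← Algebra.smul_def, map_smul, smul_eq_mul, mul_comm]

theorem map_pi_om (π : ℝ →ₗ[ℚ] ℚ) (t : κ → ℝ) :
    ((Om ℝ R.Ω t).map π).map (algebraMap ℚ ℝ) = Om ℝ R.Ω (fun k => algebraMap ℚ ℝ (π (t k))) := by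
  ext i j
  simp only [Matrix.map_apply, Om_apply_apply, map_sum]
  refine Finset.sum_congr rfl fun l _ => ?_
  rw [← map_mul]
  congr 1
  rw [mul_comm, ← Algebra.smul_def, map_smul, smul_eq_mul, mul_comm]

theorem slice_mem_inc {X : Matrix ι ι ℝ} (h : R.cj X ∈ Inc G ℝ) (π : ℝ →ₗ[ℚ] ℚ) :
    R.rho (X.map π) ∈ Inc G ℝ := by
  rw [rho_apply, cj_mem_inc_iff]
  intro k
  obtain ⟨t, ht⟩ := R.cj_mem_inc_iff.mp h k
  have h1 : (toR (X.map π))ᵀ * toR (R.Ω k) + toR (R.Ω k) * toR (X.map π)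
      = ((Om ℝ R.Ω t).map π).map (algebraMap ℚ ℝ) := by
    rw [ht]
    have e1 : (Xᵀ * toR (R.Ω k) + toR (R.Ω k) * X).map π
        = (X.map π)ᵀ * R.Ω k + R.Ω k * X.map π := by
      rw [← map_pi_mul π (R.Ω k) X, ← Matrix.transpose_map, ← map_pi_mul' π (R.Ω k) Xᵀ]
      exact Matrix.map_add _ (map_add π) _ _
    rw [e1]
    rw [Matrix.map_add _ (map_add (algebraMap ℚ ℝ)), Matrix.map_mul, Matrix.map_mul,
      Matrix.transpose_map]
  rw [h1, map_pi_om]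
  exact ⟨_, rfl⟩

/-- The rational form of the incidence algebra. -/
noncomputable def DQ : Subalgebra ℚ (Matrix ι ι ℚ) := ((Inc G ℝ).restrictScalars ℚ).comap R.rho

theorem mem_DQ {x : Matrix ι ι ℚ} : x ∈ R.DQ ↔ R.rho x ∈ Inc G ℝ := Iff.rfl

/-- rational elements with scalar blocks, described by linear equations. -/
noncomputable def CQ : Submodule ℚ (Matrix ι ι ℚ) where
  carrier := {x | x ∈ R.DQ ∧ ∀ y ∈ R.DQ, ∀ z ∈ R.DQ, (x * (y * z - z * y)).trace = 0}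
  zero_mem' := ⟨R.DQ.zero_mem, by simp⟩
  add_mem' := by
    rintro a b ⟨h1, h2⟩ ⟨h3, h4⟩
    refine ⟨R.DQ.add_mem h1 h3, fun y hy z hz => ?_⟩
    rw [Matrix.add_mul, Matrix.trace_add, h2 y hy z hz, h4 y hy z hz, add_zero]
  smul_mem' := by
    rintro c a ⟨h1, h2⟩
    refine ⟨R.DQ.smul_mem h1 c, fun y hy z hz => ?_⟩
    rw [Matrix.smul_mul, Matrix.trace_smul, h2 y hy z hz, smul_zero]

theorem trace_map_pi (π : ℝ →ₗ[ℚ] ℚ) (X : Matrix ι ι ℝ) : (X.map π).trace = π X.trace := by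
  simp [Matrix.trace]

theorem slice_mem_CQ {X : Matrix ι ι ℝ} (h : R.cj X ∈ Inc G ℝ)
    (h' : ∀ y ∈ Inc G ℝ, ∀ z ∈ Inc G ℝ, (R.cj X * (y * z - z * y)).trace = 0)
    (π : ℝ →ₗ[ℚ] ℚ) : X.map π ∈ R.CQ := by
  refine ⟨R.slice_mem_inc h π, fun y hy z hz => ?_⟩
  rw [← map_pi_mul' π, trace_map_pi]
  have h1 := h' (R.rho y) hy (R.rho z) hz
  have h2 : R.rho y * R.rho z - R.rho z * R.rho y = R.cj (toR (y * z - z * y)) := by
    rw [← map_mul, ← map_mul, ← map_sub]; rfl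
  rw [h2, ← cj_mul, trace_cj] at h1
  rw [show (y * z - z * y).map (algebraMap ℚ ℝ) = toR (y * z - z * y) from rfl, h1, map_zero]

end RData

end

end Run7.h480.Anosov
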