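import Pool.Agent.Run7.h480.AGraph

/-! Lie algebras with a graph basis. -/

set_option linter.unusedSectionVars false
set_option linter.unusedSimpArgs false

namespace Run7.h480.Anosov

noncomputable section

open Matrix

/-- Bracket formula when the second part of the basis is central. -/
theorem bracket_formula {K L I J : Type*} [Field K] [LieRing L] [LieAlgebra K L] [Fintype I]
    [Fintype J] (b : Module.Basis (I ⊕ J) K L) (hc : ∀ j k, ⁅b (Sum.inr j), b k⁆ = 0) (x y : L) :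
    ⁅x, y⁆ = ∑ i, ∑ j, (b.repr x (Sum.inl i) * b.repr y (Sum.inl j)) •
      ⁅b (Sum.inl i), b (Sum.inl j)⁆ := by
  have hc' : ∀ j (z : L), ⁅b (Sum.inr j), z⁆ = 0 := by
    intro j z
    rw [← b.sum_repr z, lie_sum]
    exact Finset.sum_eq_zero fun k _ => by rw [lie_smul, hc, smul_zero]
  have hc'' : ∀ j (z : L), ⁅z, b (Sum.inr j)⁆ = 0 := by
    intro j z
    rw [← lie_skew, hc', neg_zero]
  conv_lhs => rw [← b.sum_repr x, ← b.sum_repr y]
  rw [Fintype.sum_sum_type, Fintype.sum_sum_type]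
  simp only [add_lie, lie_add, sum_lie, lie_sum, smul_lie, lie_smul, hc', hc'', smul_zero,
    Finset.sum_const_zero, add_zero, mul_smul, Finset.smul_sum]
  rw [Finset.sum_comm]
  refine Finset.sum_congr rfl fun i _ => Finset.sum_congr rfl fun j _ => ?_
  rw [smul_comm]

variable {n : ℕ}

/-- `b` is a graph basis. -/
structure IsGB (G : SimpleGraph (Fin n)) (K L : Type*) [Field K] [LieRing L] [LieAlgebra K L]
    (b : Module.Basis (Fin n ⊕ G.edgeSet) K L) : Prop where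
  g1 : ∀ (i j : Fin n) (h : G.Adj i j), i < j →
    ⁅b (Sum.inl i), b (Sum.inl j)⁆ = b (Sum.inr ⟨s(i, j), G.mem_edgeSet.mpr h⟩)
  g2 : ∀ i j : Fin n, ¬ G.Adj i j → ⁅b (Sum.inl i), b (Sum.inl j)⁆ = 0
  g3 : ∀ (e : G.edgeSet) (k : Fin n ⊕ G.edgeSet), ⁅b (Sum.inr e), b k⁆ = 0

namespace IsGB

variable {G : SimpleGraph (Fin n)} {K L : Type*} [Field K] [LieRing L] [LieAlgebra K L]
    {b : Module.Basis (Fin n ⊕ G.edgeSet) K L} (hb : IsGB G K L b) [Fintype G.edgeSet]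

include hb

theorem bracket (x y : L) : ⁅x, y⁆ = ∑ i, ∑ j, (b.repr x (Sum.inl i) * b.repr y (Sum.inl j)) •
      ⁅b (Sum.inl i), b (Sum.inl j)⁆ := bracket_formula b hb.g3 x y

theorem repr_bb (i j k : Fin n) : b.repr ⁅b (Sum.inl i), b (Sum.inl j)⁆ (Sum.inl k) = 0 := by
  by_cases h : G.Adj i j
  · rcases lt_or_gt_of_ne h.ne with hij | hij
    · rw [hb.g1 i j h hij, b.repr_self, Finsupp.single_apply, if_neg (by simp)]
    · rw [← lie_skew, hb.g1 j i h.symm hij, map_neg, b.repr_self, Finsupp.neg_apply,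
        Finsupp.single_apply, if_neg (by simp), neg_zero]
  · rw [hb.g2 i j h]; simp

theorem repr_lie (x y : L) (k : Fin n) : b.repr ⁅x, y⁆ (Sum.inl k) = 0 := by
  rw [hb.bracket x y, map_sum, Finsupp.finsetSum_apply]
  refine Finset.sum_eq_zero fun i _ => ?_
  rw [map_sum, Finsupp.finsetSum_apply]
  refine Finset.sum_eq_zero fun j _ => ?_
  rw [map_smul, Finsupp.smul_apply, hb.repr_bb, smul_zero]

theorem lie_lie (x y z : L) : ⁅⁅x, y⁆, z⁆ = 0 := by
  rw [hb.bracket ⁅x, y⁆ z]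
  refine Finset.sum_eq_zero fun i _ => Finset.sum_eq_zero fun j _ => ?_
  rw [hb.repr_lie, zero_mul, zero_smul]

omit [Fintype G.edgeSet] in
theorem gen (e : G.edgeSet) : ∃ x y : L, b (Sum.inr e) = ⁅x, y⁆ := by
  obtain ⟨e, he⟩ := e
  induction e using Sym2.ind with
  | _ i j =>
    have h : G.Adj i j := he
    rcases lt_or_gt_of_ne h.ne with hij | hij
    · exact ⟨_, _, (hb.g1 i j h hij).symm⟩
    · refine ⟨b (Sum.inl j), b (Sum.inl i), ?_⟩
      rw [hb.g1 j i h.symm hij]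
      congr 2
      exact Subtype.ext (Sym2.eq_swap)

omit [Fintype G.edgeSet] in
theorem phi (τ : L →ₗ[K] K) :
    (Matrix.of fun i j => τ ⁅b (Sum.inl i), b (Sum.inl j)⁆) ∈ Phi G K := by
  refine ⟨fun i j => ?_, fun i j h => ?_⟩
  · simp only [Matrix.of_apply]
    rw [← lie_skew, map_neg]
  · simp only [Matrix.of_apply]
    rw [hb.g2 i j h, map_zero]

omit [Fintype G.edgeSet] in
theorem phi_surj {Ω : Matrix (Fin n) (Fin n) K} (hΩ : Ω ∈ Phi G K) :
    ∃ τ : L →ₗ[K] K, ∀ i j, τ ⁅b (Sum.inl i), b (Sum.inl j)⁆ = Ω i j := by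
  classical
  have h1 : ∀ e : G.edgeSet, ∃ i j : Fin n, i < j ∧ e.1 = s(i, j) := by
    rintro ⟨e, he⟩
    induction e using Sym2.ind with
    | _ i j =>
      have h : G.Adj i j := he
      rcases lt_or_gt_of_ne h.ne with hij | hij
      · exact ⟨i, j, hij, rfl⟩
      · exact ⟨j, i, hij, Sym2.eq_swap⟩
  choose p q hpq heq using h1
  let τ : L →ₗ[K] K := b.constr K (Sum.elim (fun _ => 0) (fun e => Ω (p e) (q e)))
  have hτ : ∀ (i j : Fin n) (h : G.Adj i j), i < j →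
      τ (b (Sum.inr ⟨s(i, j), G.mem_edgeSet.mpr h⟩)) = Ω i j := by
    intro i j h hij
    rw [Module.Basis.constr_basis, Sum.elim_inr]
    have h2 := heq ⟨s(i, j), G.mem_edgeSet.mpr h⟩
    have h3 := hpq ⟨s(i, j), G.mem_edgeSet.mpr h⟩
    set p' := p ⟨s(i, j), G.mem_edgeSet.mpr h⟩
    set q' := q ⟨s(i, j), G.mem_edgeSet.mpr h⟩
    rcases Sym2.eq_iff.mp h2 with ⟨h4, h5⟩ | ⟨h4, h5⟩
    · rw [← h4, ← h5]
    · rw [← h4, ← h5] at h3
      exact absurd h3 (lt_asymm hij)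
  refine ⟨τ, fun i j => ?_⟩
  by_cases h : G.Adj i j
  · rcases lt_or_gt_of_ne h.ne with hij | hij
    · rw [hb.g1 i j h hij, hτ i j h hij]
    · rw [← lie_skew, hb.g1 j i h.symm hij, map_neg, hτ j i h.symm hij, hΩ.1 j i]
  · rw [hb.g2 i j h, map_zero, hΩ.2 i j h]

end IsGB

end

end Run7.h480.Anosov
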