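import Mathlib

/-! Vicinal preorder of a finite graph, the space of alternating matrices supported on the edges,
and the incidence algebra of the preorder. -/

set_option linter.unusedSectionVars false
set_option linter.unusedSimpArgs false

namespace Run7.h480.Anosov

open Matrix

variable {n : ℕ} (G : SimpleGraph (Fin n))

/-- `Le G β α`: every neighbour of `β` is a neighbour of `α` or equal to `α`. -/
def Le (β α : Fin n) : Prop := ∀ γ, G.Adj β γ → G.Adj α γ ∨ γ = α

theorem Le.refl (α : Fin n) : Le G α α := fun _ h => Or.inl h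

variable {G}

theorem Le.trans {γ β α : Fin n} (h1 : Le G γ β) (h2 : Le G β α) : Le G γ α := by
  intro x hx
  rcases h1 x hx with h | rfl
  · exact h2 x h
  · -- x = β, γ ~ β
    rcases h2 γ hx.symm with h | rfl
    · -- α ~ γ
      rcases h1 α h.symm with h' | h'
      · exact Or.inl h'.symm
      · exact Or.inr h'.symm
    · exact Or.inl hx

theorem Le.nonadj {α β α' β' : Fin n} (h : ¬ G.Adj α β) (hne : α ≠ β) (h1 : Le G α' α)
    (h2 : Le G β' β) : ¬ G.Adj α' β' := by
  intro hadj
  rcases h1 β' hadj with h3 | h3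
  · rcases h2 α h3.symm with h4 | h4
    · exact h h4.symm
    · exact hne h4
  · subst h3
    rcases h2 α' hadj.symm with h4 | h4
    · rcases h1 β h4.symm with h5 | h5
      · exact h h5
      · exact hne h5.symm
    · subst h4
      exact h hadj.symm

variable (G)

/-- The vicinal classes. -/
def Eqv (α β : Fin n) : Prop := Le G α β ∧ Le G β α

variable {G}

theorem Eqv.refl (α : Fin n) : Eqv G α α := ⟨Le.refl G α, Le.refl G α⟩
theorem Eqv.symm {α β : Fin n} (h : Eqv G α β) : Eqv G β α := ⟨h.2, h.1⟩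
theorem Eqv.trans {α β γ : Fin n} (h : Eqv G α β) (h' : Eqv G β γ) : Eqv G α γ :=
  ⟨h.1.trans h'.1, h'.2.trans h.2⟩

open Classical in
/-- The class of `α` as a finset. -/
noncomputable def cls (G : SimpleGraph (Fin n)) (α : Fin n) : Finset (Fin n) :=
  Finset.univ.filter (fun β => Eqv G β α)

theorem mem_cls {α β : Fin n} : β ∈ cls G α ↔ Eqv G β α := by simp [cls]

variable (G)

/-- Alternating matrices supported on the edges of `G`. -/
def Phi (K : Type*) [Field K] : Submodule K (Matrix (Fin n) (Fin n) K) where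
  carrier := {Ω | (∀ i j, Ω j i = - Ω i j) ∧ ∀ i j, ¬ G.Adj i j → Ω i j = 0}
  zero_mem' := by simp
  add_mem' := by
    rintro a b ⟨h1, h2⟩ ⟨h3, h4⟩
    refine ⟨fun i j => ?_, fun i j h => ?_⟩
    · simp only [Matrix.add_apply, h1 i j, h3 i j]; ring
    · simp only [Matrix.add_apply, h2 i j h, h4 i j h]; ring
  smul_mem' := by
    rintro c a ⟨h1, h2⟩
    refine ⟨fun i j => ?_, fun i j h => ?_⟩
    · simp only [Matrix.smul_apply, h1 i j, smul_eq_mul]; ring
    · simp only [Matrix.smul_apply, h2 i j h, smul_eq_mul]; ring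

/-- The incidence algebra of the vicinal preorder. -/
def Inc (K : Type*) [Field K] : Subalgebra K (Matrix (Fin n) (Fin n) K) where
  carrier := {x | ∀ β α, ¬ Le G β α → x β α = 0}
  mul_mem' := by
    intro x y hx hy β α h
    rw [mul_apply]
    refine Finset.sum_eq_zero fun γ _ => ?_
    by_cases h1 : Le G β γ
    · have h2 : ¬ Le G γ α := fun h2 => h (h1.trans h2)
      rw [hy γ α h2, mul_zero]
    · rw [hx β γ h1, zero_mul]
  add_mem' := by
    intro x y hx hy β α h
    rw [Matrix.add_apply, hx β α h, hy β α h, add_zero]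
  algebraMap_mem' := by
    intro r β α h
    rw [Matrix.algebraMap_matrix_apply]
    rw [if_neg]
    rintro rfl
    exact h (Le.refl G _)

variable {G}
variable {K : Type*} [Field K] [CharZero K]

theorem mem_phi {Ω : Matrix (Fin n) (Fin n) K} :
    Ω ∈ Phi G K ↔ (∀ i j, Ω j i = - Ω i j) ∧ ∀ i j, ¬ G.Adj i j → Ω i j = 0 := Iff.rfl

theorem mem_inc {x : Matrix (Fin n) (Fin n) K} :
    x ∈ Inc G K ↔ ∀ β α, ¬ Le G β α → x β α = 0 := Iff.rfl

theorem transpose_of_mem_phi {Ω : Matrix (Fin n) (Fin n) K} (h : Ω ∈ Phi G K) : Ωᵀ = - Ω := by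
  ext i j
  simp [h.1 i j]

theorem phi_diag {Ω : Matrix (Fin n) (Fin n) K} (h : Ω ∈ Phi G K) (i : Fin n) : Ω i i = 0 :=
  h.2 i i (G.irrefl)

theorem Inc.phi {x Ω : Matrix (Fin n) (Fin n) K} (hx : x ∈ Inc G K) (hΩ : Ω ∈ Phi G K) :
    xᵀ * Ω * x ∈ Phi G K := by
  have hanti : (xᵀ * Ω * x)ᵀ = - (xᵀ * Ω * x) := by
    rw [transpose_mul, transpose_mul, transpose_transpose, transpose_of_mem_phi hΩ]
    simp [Matrix.mul_assoc]
  refine ⟨fun i j => ?_, fun i j h => ?_⟩
  · have := congrFun (congrFun hanti i) j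
    simpa using this
  · by_cases hij : i = j
    · subst hij
      -- alternating
      rw [Matrix.mul_assoc, mul_apply]
      simp only [transpose_apply, mul_apply, Finset.mul_sum]
      have key : ∑ a, ∑ b, x a i * (Ω a b * x b i) = - ∑ a, ∑ b, x a i * (Ω a b * x b i) := by
        conv_lhs => rw [Finset.sum_comm]
        rw [← Finset.sum_neg_distrib]
        refine Finset.sum_congr rfl fun a _ => ?_
        rw [← Finset.sum_neg_distrib]
        refine Finset.sum_congr rfl fun b _ => ?_
        rw [hΩ.1 a b]; ring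
      exact self_eq_neg.mp key
    · rw [Matrix.mul_assoc, mul_apply]
      refine Finset.sum_eq_zero fun a _ => ?_
      rw [transpose_apply]
      by_cases ha : Le G a i
      · have : (Ω * x) a j = 0 := by
          rw [mul_apply]
          refine Finset.sum_eq_zero fun b _ => ?_
          by_cases hb : Le G b j
          · rw [hΩ.2 a b (Le.nonadj h hij ha hb), zero_mul]
          · rw [hx b j hb, mul_zero]
        rw [this, mul_zero]
      · rw [hx a i ha, zero_mul]



theorem Inc.der {x Ω : Matrix (Fin n) (Fin n) K} (hx : x ∈ Inc G K) (hΩ : Ω ∈ Phi G K) :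
    xᵀ * Ω + Ω * x ∈ Phi G K := by
  have hanti : (xᵀ * Ω + Ω * x)ᵀ = - (xᵀ * Ω + Ω * x) := by
    rw [transpose_add, transpose_mul, transpose_mul, transpose_transpose, transpose_of_mem_phi hΩ]
    simp [add_comm]
  have h1 : ∀ i j, (xᵀ * Ω + Ω * x) j i = - (xᵀ * Ω + Ω * x) i j := fun i j => by
    have := congrFun (congrFun hanti i) j
    simpa using this
  refine ⟨h1, fun i j h => ?_⟩
  by_cases hij : i = j
  · subst hij
    exact self_eq_neg.mp (h1 i i)
  · rw [Matrix.add_apply, mul_apply, mul_apply]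
    have e1 : ∑ a, xᵀ i a * Ω a j = 0 := by
      refine Finset.sum_eq_zero fun a _ => ?_
      rw [transpose_apply]
      by_cases ha : Le G a i
      · rw [hΩ.2 a j (Le.nonadj h hij ha (Le.refl G j)), mul_zero]
      · rw [hx a i ha, zero_mul]
    have e2 : ∑ a, Ω i a * x a j = 0 := by
      refine Finset.sum_eq_zero fun a _ => ?_
      by_cases ha : Le G a j
      · rw [hΩ.2 i a (Le.nonadj h hij (Le.refl G i) ha), zero_mul]
      · rw [hx a j ha, mul_zero]
    rw [e1, e2, add_zero]

theorem mem_inc_of_der {x : Matrix (Fin n) (Fin n) K}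
    (h : ∀ Ω ∈ Phi G K, xᵀ * Ω + Ω * x ∈ Phi G K) : x ∈ Inc G K := by
  intro β α hβα
  by_contra hne
  apply hβα
  intro γ hγ
  by_contra hcon
  push Not at hcon
  obtain ⟨hαγ, hγα⟩ := hcon
  have hαβ : α ≠ β := by
    rintro rfl
    exact hαγ hγ
  have hβγ : β ≠ γ := hγ.ne
  -- test form
  let Ω : Matrix (Fin n) (Fin n) K := Matrix.single β γ 1 - Matrix.single γ β 1
  have hΩ : Ω ∈ Phi G K := by
    refine ⟨fun i j => ?_, fun i j hij => ?_⟩
    · simp only [Ω, Matrix.sub_apply, Matrix.single_apply]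
      split_ifs <;> simp_all
    · simp only [Ω, Matrix.sub_apply, Matrix.single_apply]
      have h1 : ¬ (β = i ∧ γ = j) := by rintro ⟨rfl, rfl⟩; exact hij hγ
      have h2 : ¬ (γ = i ∧ β = j) := by rintro ⟨rfl, rfl⟩; exact hij hγ.symm
      simp [h1, h2]
  have h3 := (h Ω hΩ).2 α γ hαγ
  apply hne
  have e1 : (xᵀ * Ω) α γ = x β α := by
    simp only [Ω, Matrix.mul_sub, Matrix.sub_apply]
    simp [Matrix.mul_apply, Matrix.single_apply, hβγ, Finset.sum_ite_eq]
  have e2 : (Ω * x) α γ = 0 := by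
    simp only [Ω, Matrix.sub_mul, Matrix.sub_apply]
    simp [Matrix.mul_apply, Matrix.single_apply, hαβ, hγα, Ne.symm hαβ]
  rw [Matrix.add_apply, e1, e2, add_zero] at h3
  exact h3

end Run7.h480.Anosov
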