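import Pool.Agent.Run7.h480.AGB
import Pool.Agent.Run7.h480.ACore3

/-! Rational forms: from the Lie algebra to matrices and back. -/

set_option linter.unusedSectionVars false
set_option linter.unusedSimpArgs false

open scoped TensorProduct

namespace Run7.h480.Anosov

noncomputable section

open Matrix

/-- An adapted basis. -/
theorem exists_adapted (M : Type) [LieRing M] [LieAlgebra ℚ M] [FiniteDimensional ℚ M] :
    ∃ (n' m : ℕ) (c : Module.Basis (Fin n' ⊕ Fin m) ℚ M),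
      (∀ x y : M, ∀ i, c.repr ⁅x, y⁆ (Sum.inl i) = 0) ∧
      (∀ k, c (Sum.inr k) ∈ Submodule.span ℚ {z : M | ∃ x y : M, ⁅x, y⁆ = z}) := by
  let W : Submodule ℚ M := Submodule.span ℚ {z : M | ∃ x y : M, ⁅x, y⁆ = z}
  obtain ⟨U, hU⟩ := W.exists_isCompl
  have hU' : IsCompl U W := hU.symm
  let e := Submodule.prodEquivOfIsCompl U W hU'
  let bU := Module.finBasis ℚ U
  let bW := Module.finBasis ℚ W
  let c : Module.Basis (Fin _ ⊕ Fin _) ℚ M := (bU.prod bW).map e
  refine ⟨_, _, c, ?_, ?_⟩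
  · intro x y i
    have h1 : ⁅x, y⁆ = e (0, ⟨⁅x, y⁆, Submodule.subset_span ⟨x, y, rfl⟩⟩) := by
      rw [Submodule.coe_prodEquivOfIsCompl' U W hU']
      simp
    rw [h1]
    simp [c]
  · intro k
    have h1 : c (Sum.inr k) = (bW k : M) := by
      simp only [c, Module.Basis.map_apply]
      rw [Submodule.coe_prodEquivOfIsCompl' U W hU']
      simp
    rw [h1]
    exact (bW k).2

variable {n : ℕ} {G : SimpleGraph (Fin n)} {M : Type} [LieRing M] [LieAlgebra ℚ M]
  [FiniteDimensional ℚ M] {n' m : ℕ}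

section

variable (c : Module.Basis (Fin n' ⊕ Fin m) ℚ M)
  (b : Module.Basis (Fin n ⊕ G.edgeSet) ℝ (ℝ ⊗[ℚ] M))

/-- structure matrices -/
def sMat (k : Fin m) : Matrix (Fin n') (Fin n') ℚ :=
  Matrix.of fun i j => c.repr ⁅c (Sum.inl i), c (Sum.inl j)⁆ (Sum.inr k)

/-- the base-changed basis -/
abbrev cR : Module.Basis (Fin n' ⊕ Fin m) ℝ (ℝ ⊗[ℚ] M) := c.baseChange ℝ

def PMat : Matrix (Fin n') (Fin n) ℝ := Matrix.of fun j i => (cR c).repr (b (Sum.inl i)) (Sum.inl j)

def QMat : Matrix (Fin n) (Fin n') ℝ := Matrix.of fun i j => b.repr ((cR c) (Sum.inl j)) (Sum.inl i)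

theorem tmul_inj {x : M} (h : (1 : ℝ) ⊗ₜ[ℚ] x = 0) : x = 0 := by
  let c := Module.finBasis ℚ M
  apply c.repr.injective
  ext i
  have h1 := congrArg (fun z => (c.baseChange ℝ).repr z i) h
  simp only [Module.Basis.baseChange_repr_tmul, map_zero, Finsupp.zero_apply] at h1
  rw [Algebra.smul_def, mul_one] at h1
  rw [map_zero, Finsupp.zero_apply]
  exact (map_eq_zero (algebraMap ℚ ℝ)).mp h1

theorem lie_tmul (x y : M) : ⁅(1 : ℝ) ⊗ₜ[ℚ] x, (1 : ℝ) ⊗ₜ[ℚ] y⁆ = (1 : ℝ) ⊗ₜ[ℚ] ⁅x, y⁆ := by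
  rw [LieAlgebra.ExtendScalars.bracket_tmul, mul_one]

variable [Fintype G.edgeSet] {c b} (hb : IsGB G ℝ (ℝ ⊗[ℚ] M) b)
  (hc1 : ∀ x y : M, ∀ i, c.repr ⁅x, y⁆ (Sum.inl i) = 0)
  (hc2 : ∀ k, c (Sum.inr k) ∈ Submodule.span ℚ {z : M | ∃ x y : M, ⁅x, y⁆ = z})

include hb in
theorem two_step (x y z : M) : ⁅⁅x, y⁆, z⁆ = 0 := by
  apply tmul_inj
  rw [← lie_tmul, ← lie_tmul, hb.lie_lie]

include hb hc2 in
theorem central_inr (k : Fin m) (z : M) : ⁅c (Sum.inr k), z⁆ = 0 := by
  have h1 : ∀ w ∈ Submodule.span ℚ {z : M | ∃ x y : M, ⁅x, y⁆ = z}, ⁅w, z⁆ = 0 := by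
    intro w hw
    induction hw using Submodule.span_induction with
    | mem w hw =>
      obtain ⟨x, y, rfl⟩ := hw
      exact two_step hb x y z
    | zero => exact zero_lie z
    | add a b _ _ ha hb => rw [add_lie, ha, hb, add_zero]
    | smul q a _ ha => rw [smul_lie, ha, smul_zero]
  exact h1 _ (hc2 k)

include hb hc2 in
theorem centralR_inr (k : Fin m) (z : Fin n' ⊕ Fin m) :
    ⁅(cR c) (Sum.inr k), (cR c) z⁆ = 0 := by
  rw [Module.Basis.baseChange_apply, Module.Basis.baseChange_apply, lie_tmul,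
    central_inr hb hc2, TensorProduct.tmul_zero]

include hb hc1 hc2 in
theorem reprR_lie (X Y : ℝ ⊗[ℚ] M) (i : Fin n') : (cR c).repr ⁅X, Y⁆ (Sum.inl i) = 0 := by
  rw [bracket_formula (cR c) (centralR_inr hb hc2) X Y, map_sum, Finsupp.finsetSum_apply]
  refine Finset.sum_eq_zero fun a _ => ?_
  rw [map_sum, Finsupp.finsetSum_apply]
  refine Finset.sum_eq_zero fun a' _ => ?_
  rw [map_smul, Finsupp.smul_apply, Module.Basis.baseChange_apply, Module.Basis.baseChange_apply,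
    lie_tmul, Module.Basis.baseChange_repr_tmul, hc1, zero_smul, smul_zero]

include hb hc2 in
theorem repr_cR_inr (k : Fin m) (i : Fin n) : b.repr ((cR c) (Sum.inr k)) (Sum.inl i) = 0 := by
  rw [Module.Basis.baseChange_apply]
  have h1 : ∀ w ∈ Submodule.span ℚ {z : M | ∃ x y : M, ⁅x, y⁆ = z},
      b.repr ((1 : ℝ) ⊗ₜ[ℚ] w) (Sum.inl i) = 0 := by
    intro w hw
    induction hw using Submodule.span_induction with
    | mem w hw =>
      obtain ⟨x, y, rfl⟩ := hw
      rw [← lie_tmul, hb.repr_lie]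
    | zero => simp
    | add a b _ _ ha hb => rw [TensorProduct.tmul_add, map_add, Finsupp.add_apply, ha, hb, add_zero]
    | smul q a _ ha =>
      have : (1 : ℝ) ⊗ₜ[ℚ] (q • a) = (algebraMap ℚ ℝ q) • ((1 : ℝ) ⊗ₜ[ℚ] a) := by
        rw [TensorProduct.tmul_smul, algebraMap_smul]
      rw [this, map_smul, Finsupp.smul_apply, ha, smul_zero]
  exact h1 _ (hc2 k)

include hb hc1 hc2 in
theorem PQ_one : PMat c b * QMat c b = 1 := by
  ext j k
  rw [Matrix.mul_apply]
  have h1 : (cR c).repr ((cR c) (Sum.inl k)) (Sum.inl j)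
      = ∑ i, PMat c b j i * QMat c b i k := by
    conv_lhs => rw [← b.sum_repr ((cR c) (Sum.inl k))]
    rw [map_sum, Finsupp.finsetSum_apply, Fintype.sum_sum_type]
    have h2 : ∀ e : G.edgeSet, (cR c).repr (b (Sum.inr e)) (Sum.inl j) = 0 := by
      intro e
      obtain ⟨x, y, hxy⟩ := hb.gen e
      rw [hxy, reprR_lie hb hc1 hc2]
    rw [Finset.sum_eq_zero (s := (Finset.univ : Finset G.edgeSet)), add_zero]
    · refine Finset.sum_congr rfl fun i _ => ?_
      rw [map_smul, Finsupp.smul_apply, smul_eq_mul, mul_comm]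
      rfl
    · intro e _
      rw [map_smul, Finsupp.smul_apply, h2, smul_zero]
  rw [← h1, Module.Basis.repr_self, Finsupp.single_apply, Matrix.one_apply]
  by_cases h : j = k
  · subst h; simp
  · rw [if_neg h, if_neg (fun h' => h (Sum.inl.inj h').symm)]

include hb hc1 hc2 in
theorem QP_one : QMat c b * PMat c b = 1 := by
  ext j k
  rw [Matrix.mul_apply]
  have h1 : b.repr (b (Sum.inl k)) (Sum.inl j)
      = ∑ i, QMat c b j i * PMat c b i k := by
    conv_lhs => rw [← (cR c).sum_repr (b (Sum.inl k))]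
    rw [map_sum, Finsupp.finsetSum_apply, Fintype.sum_sum_type]
    rw [Finset.sum_eq_zero (s := (Finset.univ : Finset (Fin m))), add_zero]
    · refine Finset.sum_congr rfl fun i _ => ?_
      rw [map_smul, Finsupp.smul_apply, smul_eq_mul, mul_comm]
      rfl
    · intro e _
      rw [map_smul, Finsupp.smul_apply, repr_cR_inr hb hc2, smul_zero]
  rw [← h1, Module.Basis.repr_self, Finsupp.single_apply, Matrix.one_apply]
  by_cases h : j = k
  · subst h; simp
  · rw [if_neg h, if_neg (fun h' => h (Sum.inl.inj h').symm)]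

include hc1 in
theorem bracket_c (i j : Fin n') : ⁅c (Sum.inl i), c (Sum.inl j)⁆
    = ∑ k, sMat c k i j • c (Sum.inr k) := by
  conv_lhs => rw [← c.sum_repr ⁅c (Sum.inl i), c (Sum.inl j)⁆]
  rw [Fintype.sum_sum_type]
  simp only [hc1, zero_smul, Finset.sum_const_zero, zero_add]
  rfl

include hb hc1 hc2 in
theorem om_formula (τ : (ℝ ⊗[ℚ] M) →ₗ[ℝ] ℝ) :
    (PMat c b)ᵀ * Om ℝ (sMat c) (fun k => τ ((cR c) (Sum.inr k))) * PMat c b
      = Matrix.of fun i j => τ ⁅b (Sum.inl i), b (Sum.inl j)⁆ := by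
  have h1 : ∀ i j, Om ℝ (sMat c) (fun k => τ ((cR c) (Sum.inr k))) i j
      = τ ⁅(cR c) (Sum.inl i), (cR c) (Sum.inl j)⁆ := by
    intro i j
    rw [Om_apply_apply, Module.Basis.baseChange_apply, Module.Basis.baseChange_apply, lie_tmul,
      bracket_c hc1, TensorProduct.tmul_sum, map_sum]
    refine Finset.sum_congr rfl fun k _ => ?_
    rw [TensorProduct.tmul_smul, ← algebraMap_smul ℝ (sMat c k i j), map_smul, smul_eq_mul,
      mul_comm, Module.Basis.baseChange_apply]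
  ext i j
  rw [Matrix.of_apply, bracket_formula (cR c) (centralR_inr hb hc2), map_sum, Matrix.mul_apply]
  simp only [Matrix.mul_apply, map_sum, map_smul, h1, Matrix.transpose_apply, Finset.sum_mul]
  rw [Finset.sum_comm]
  refine Finset.sum_congr rfl fun a _ => Finset.sum_congr rfl fun a' _ => ?_
  simp only [PMat, Matrix.of_apply, smul_eq_mul]
  ring

/-- The matrix data of a rational form. -/
def mkRData (hb : IsGB G ℝ (ℝ ⊗[ℚ] M) b)
    (hc1 : ∀ x y : M, ∀ i, c.repr ⁅x, y⁆ (Sum.inl i) = 0)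
    (hc2 : ∀ k, c (Sum.inr k) ∈ Submodule.span ℚ {z : M | ∃ x y : M, ⁅x, y⁆ = z}) :
    RData G (Fin n') (Fin m) where
  Ω := sMat c
  P := PMat c b
  Q := QMat c b
  hPQ := PQ_one hb hc1 hc2
  hQP := QP_one hb hc1 hc2
  H1 := by
    intro t
    let τ : (ℝ ⊗[ℚ] M) →ₗ[ℝ] ℝ := (cR c).constr ℝ (Sum.elim (fun _ => 0) t)
    have h1 : t = fun k => τ ((cR c) (Sum.inr k)) := by
      ext k
      rw [Module.Basis.constr_basis, Sum.elim_inr]
    rw [h1, om_formula hb hc1 hc2]
    exact hb.phi τ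
  H2 := by
    intro Ω' hΩ'
    obtain ⟨τ, hτ⟩ := hb.phi_surj hΩ'
    refine ⟨fun k => τ ((cR c) (Sum.inr k)), ?_⟩
    rw [om_formula hb hc1 hc2]
    ext i j
    rw [Matrix.of_apply, hτ]

include hb hc1 hc2 in
theorem om_inj (t : Fin m → ℂ) (h : Om ℂ (sMat c) t = 0) : t = 0 := by
  let τ : M →ₗ[ℚ] ℂ := c.constr ℚ (Sum.elim (fun _ => 0) t)
  have hτ : ∀ k, τ (c (Sum.inr k)) = t k := by
    intro k
    rw [Module.Basis.constr_basis, Sum.elim_inr]
  have h1 : ∀ i j, τ ⁅c (Sum.inl i), c (Sum.inl j)⁆ = 0 := by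
    intro i j
    rw [bracket_c hc1, map_sum]
    have h2 := congrFun (congrFun h i) j
    rw [Om_apply_apply] at h2
    rw [Matrix.zero_apply] at h2
    rw [← h2]
    refine Finset.sum_congr rfl fun k _ => ?_
    rw [map_smul, hτ, Algebra.smul_def, mul_comm]
  have h2 : ∀ x y : M, τ ⁅x, y⁆ = 0 := by
    intro x y
    rw [bracket_formula c (fun j k => central_inr hb hc2 j (c k)) x y, map_sum]
    refine Finset.sum_eq_zero fun i _ => ?_
    rw [map_sum]
    refine Finset.sum_eq_zero fun j _ => ?_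
    rw [map_smul, h1, smul_zero]
  ext k
  rw [← hτ k]
  have h3 : ∀ w ∈ Submodule.span ℚ {z : M | ∃ x y : M, ⁅x, y⁆ = z}, τ w = 0 := by
    intro w hw
    induction hw using Submodule.span_induction with
    | mem w hw =>
      obtain ⟨x, y, rfl⟩ := hw
      exact h2 x y
    | zero => exact map_zero τ
    | add a b _ _ ha hb => rw [map_add, ha, hb, add_zero]
    | smul q a _ ha => rw [map_smul, ha, smul_zero]
  exact h3 _ (hc2 k)

end

/-- The `M`-side theorem. -/
theorem mside [Fintype G.edgeSet] {b : Module.Basis (Fin n ⊕ G.edgeSet) ℝ (ℝ ⊗[ℚ] M)}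
    (hb : IsGB G ℝ (ℝ ⊗[ℚ] M) b) (K1 : ∀ α, 2 ≤ (cls G α).card)
    (K2 : ∀ α β, (cls G α).card = 2 → Eqv G α β → ¬ G.Adj α β) :
    ∃ g : M ≃ₗ⁅ℚ⁆ M, ∃ q : Polynomial ℤ,
      q.map (Int.castRingHom ℚ) = LinearMap.charpoly g.toLinearEquiv.toLinearMap ∧
      (q.coeff 0 = 1 ∨ q.coeff 0 = -1) ∧
      ∀ z : ℂ, (q.map (Int.castRingHom ℂ)).IsRoot z → ‖z‖ ≠ 1 := by
  obtain ⟨n', m, c, hc1, hc2⟩ := exists_adapted M
  let R := mkRData hb hc1 hc2
  obtain ⟨N, hN⟩ := R.exists_ndata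
  have hNΩ : N.Ω = sMat c := hN
  obtain ⟨A, B, hAB, hA, hB⟩ := N.core K1 K2 (by
    rw [hNΩ]; exact om_inj hb hc1 hc2)
  rw [hNΩ] at hAB
  let F : Matrix (Fin n' ⊕ Fin m) (Fin n' ⊕ Fin m) ℚ := Matrix.fromBlocks A 0 0 B
  let g : M →ₗ[ℚ] M := Matrix.toLin c c F
  have hg1 : ∀ j, g (c (Sum.inl j)) = ∑ i, A i j • c (Sum.inl i) := by
    intro j
    simp only [g, Matrix.toLin_self, Fintype.sum_sum_type, F, Matrix.fromBlocks_apply₁₁,
      Matrix.fromBlocks_apply₂₁, Matrix.zero_apply, zero_smul, Finset.sum_const_zero, add_zero]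
  have hg2 : ∀ l, g (c (Sum.inr l)) = ∑ k, B k l • c (Sum.inr k) := by
    intro l
    simp only [g, Matrix.toLin_self, Fintype.sum_sum_type, F, Matrix.fromBlocks_apply₁₂,
      Matrix.fromBlocks_apply₂₂, Matrix.zero_apply, zero_smul, Finset.sum_const_zero, zero_add]
  have hcen : ∀ k (z : M), ⁅c (Sum.inr k), z⁆ = 0 := central_inr hb hc2
  have hcen' : ∀ k (z : M), ⁅z, c (Sum.inr k)⁆ = 0 := fun k z => by
    rw [← lie_skew, hcen, neg_zero]
  have hgll : ∀ i j, g ⁅c (Sum.inl i), c (Sum.inl j)⁆ = ⁅g (c (Sum.inl i)), g (c (Sum.inl j))⁆ := by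
    intro i j
    have hR : ⁅g (c (Sum.inl i)), g (c (Sum.inl j))⁆
        = ∑ k, (∑ a, ∑ a', A a i * (sMat c k a a' * A a' j)) • c (Sum.inr k) := by
      rw [hg1, hg1]
      simp only [sum_lie, lie_sum, smul_lie, lie_smul, bracket_c hc1, Finset.smul_sum, smul_smul,
        Finset.sum_smul]
      rw [Finset.sum_comm' (s := Finset.univ) (t := fun _ => Finset.univ) (t' := Finset.univ)
        (s' := fun _ => Finset.univ) (by simp)]
      rw [eq_comm, Finset.sum_comm]
      refine Finset.sum_congr rfl fun a _ => ?_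
      rw [Finset.sum_comm]
      refine Finset.sum_congr rfl fun a' _ => Finset.sum_congr rfl fun k _ => ?_
      congr 1
      ring
    have hL : g ⁅c (Sum.inl i), c (Sum.inl j)⁆
        = ∑ k, (∑ l, B k l * sMat c l i j) • c (Sum.inr k) := by
      rw [bracket_c hc1, map_sum]
      simp only [map_smul, hg2, Finset.smul_sum, smul_smul, Finset.sum_smul]
      rw [Finset.sum_comm]
      refine Finset.sum_congr rfl fun a _ => Finset.sum_congr rfl fun a' _ => ?_
      rw [mul_comm]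
    rw [hL, hR]
    refine Finset.sum_congr rfl fun k _ => ?_
    congr 1
    have h1 : (∑ l, B k l • sMat c l) i j = ∑ a, ∑ a', A a i * (sMat c k a a' * A a' j) := by
      rw [← hAB k, Matrix.mul_assoc, Matrix.mul_apply]
      simp only [Matrix.mul_apply, Finset.mul_sum, Matrix.transpose_apply]
    rw [← h1, Matrix.sum_apply]
    rfl
  have hgw : ∀ k (z : M), ⁅g (c (Sum.inr k)), z⁆ = 0 := by
    intro k z
    rw [hg2, sum_lie]
    exact Finset.sum_eq_zero fun l _ => by rw [smul_lie, hcen, smul_zero]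
  have hgw' : ∀ k (z : M), ⁅z, g (c (Sum.inr k))⁆ = 0 := fun k z => by
    rw [← lie_skew, hgw, neg_zero]
  have hlie : ∀ x y : M, g ⁅x, y⁆ = ⁅g x, g y⁆ := by
    intro x y
    have e1 : ⁅g x, g y⁆ = ∑ i, ∑ j, (c.repr x (Sum.inl i) * c.repr y (Sum.inl j)) •
        ⁅g (c (Sum.inl i)), g (c (Sum.inl j))⁆ := by
      conv_lhs => rw [← c.sum_repr x, ← c.sum_repr y]
      rw [Fintype.sum_sum_type, Fintype.sum_sum_type]
      simp only [map_add, map_sum, map_smul]
      simp only [add_lie, lie_add, sum_lie, lie_sum, smul_lie, lie_smul, hgw, hgw', smul_zero,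
        Finset.sum_const_zero, add_zero, mul_smul, Finset.smul_sum]
      rw [Finset.sum_comm]
      refine Finset.sum_congr rfl fun i _ => Finset.sum_congr rfl fun j _ => ?_
      rw [smul_comm]
    rw [bracket_formula c (fun j k => hcen j (c k)) x y, e1, map_sum]
    refine Finset.sum_congr rfl fun i _ => ?_
    rw [map_sum]
    refine Finset.sum_congr rfl fun j _ => ?_
    rw [map_smul, hgll]
  have hcharpoly : g.charpoly = A.charpoly * B.charpoly := by
    rw [← LinearMap.charpoly_toMatrix g c, LinearMap.toMatrix_toLin,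
      Matrix.charpoly_fromBlocks_zero₂₁]
  have hgood : ∀ z : ℂ, (g.charpoly.map (algebraMap ℚ ℂ)).IsRoot z → Good z := by
    intro z hz
    rw [hcharpoly, Polynomial.map_mul, Polynomial.root_mul] at hz
    rcases hz with hz | hz
    · exact hA z hz
    · exact hB z hz
  obtain ⟨q, hq1, hq2, hq3⟩ := int_of_good g.charpoly_monic hgood
  have hdet : LinearMap.det g ≠ 0 := by
    rw [LinearMap.det_eq_sign_charpoly_coeff]
    apply mul_ne_zero (pow_ne_zero _ (by norm_num))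
    rw [← hq1, Polynomial.coeff_map]
    rcases hq2 with h | h <;> rw [h] <;> simp
  have hbij : Function.Bijective g :=
    (LinearMap.equivOfDetNeZero g hdet).bijective
  let gL : M →ₗ⁅ℚ⁆ M := { g with map_lie' := fun {x y} => hlie x y }
  refine ⟨LieEquiv.ofBijective gL hbij, q, ?_, hq2, hq3⟩
  rw [hq1]
  rfl

end

end Run7.h480.Anosov
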