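import Pool.Agent.Run7.h480.ATorus

/-! Normal form: after changing the real frame by an element of the incidence algebra,
the rational semisimple element is diagonal. -/

set_option linter.unusedSectionVars false
set_option linter.unusedSimpArgs false

namespace Run7.h480.Anosov

noncomputable section

open Matrix Polynomial

variable {n : ℕ} {G : SimpleGraph (Fin n)} {ι κ : Type} [Fintype ι] [DecidableEq ι] [Fintype κ]

/-- Normal form data. -/
structure NData (G : SimpleGraph (Fin n)) (ι κ : Type) [Fintype ι] [DecidableEq ι]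
    [Fintype κ] extends RData G ι κ where
  s : Matrix ι ι ℚ
  c : Fin n → ℝ
  hs : Q * toR s * P = Matrix.diagonal c
  hc : ∀ α β, c α = c β ↔ Eqv G α β
  hint : ∀ α, IsIntegral ℤ (c α)
  hbig : ∀ α, 8 ≤ c α
  hss : ∃ μ : ℚ[X], Squarefree μ ∧ aeval s μ = 0

/-- Change of frame by `u ∈ Inc`. -/
def RData.twist (R : RData G ι κ) (u v : Matrix (Fin n) (Fin n) ℝ) (hu : u ∈ Inc G ℝ)
    (hv : v ∈ Inc G ℝ) (huv : u * v = 1) (hvu : v * u = 1) : RData G ι κ where
  Ω := R.Ω
  P := R.P * u
  Q := v * R.Q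
  hPQ := by
    calc R.P * u * (v * R.Q) = R.P * (u * v) * R.Q := by simp only [Matrix.mul_assoc]
      _ = 1 := by rw [huv, Matrix.mul_one, R.hPQ]
  hQP := by
    calc v * R.Q * (R.P * u) = v * (R.Q * R.P) * u := by simp only [Matrix.mul_assoc]
      _ = 1 := by rw [R.hQP, Matrix.mul_one, hvu]
  H1 := by
    intro t
    have h := Inc.phi hu (R.H1 t)
    rw [Matrix.transpose_mul]
    convert h using 1
    simp only [Matrix.mul_assoc]
  H2 := by
    intro Ω' hΩ'
    obtain ⟨t, ht⟩ := R.H2 _ (Inc.phi hv hΩ')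
    refine ⟨t, ?_⟩
    calc (R.P * u)ᵀ * Om ℝ R.Ω t * (R.P * u) = uᵀ * (R.Pᵀ * Om ℝ R.Ω t * R.P) * u := by
          rw [Matrix.transpose_mul]; simp only [Matrix.mul_assoc]
      _ = uᵀ * (vᵀ * Ω' * v) * u := by rw [ht]
      _ = (v * u)ᵀ * Ω' * (v * u) := by
          rw [Matrix.transpose_mul]; simp only [Matrix.mul_assoc]
      _ = Ω' := by rw [hvu]; simp

theorem RData.exists_ndata (R : RData G ι κ) : ∃ N : NData G ι κ, N.Ω = R.Ω := by
  obtain ⟨s, hs, ⟨μ, hsq, hμ⟩, hsep, hib⟩ := R.exists_ss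
  have hsq' : Squarefree (μ.map (algebraMap ℚ ℝ)) := by
    have h1 : μ.Separable := PerfectField.separable_iff_squarefree.mpr hsq
    exact (h1.map).squarefree
  have hμ' : aeval (R.rho s) (μ.map (algebraMap ℚ ℝ)) = 0 := by
    rw [Polynomial.aeval_map_algebraMap, Polynomial.aeval_algHom_apply, hμ, map_zero]
  obtain ⟨u, hu, huu, hsu⟩ := sb_diagonalize hs hsq' hμ'
  obtain ⟨v, hv, huv, hvu⟩ := Inc.exists_inv hu.1 huu
  refine ⟨{ R.twist u v hu.1 hv huv hvu with
      s := s
      c := fun α => R.rho s α α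
      hs := ?_
      hc := ?_
      hint := fun α => (hib α).1
      hbig := fun α => (hib α).2
      hss := ⟨μ, hsq, hμ⟩ }, rfl⟩
  · change v * R.Q * toR s * (R.P * u) = _
    calc v * R.Q * toR s * (R.P * u) = v * (R.rho s * u) := by
          rw [R.rho_apply, R.cj_def]; simp only [Matrix.mul_assoc]
      _ = Matrix.diagonal (fun α => R.rho s α α) := by
          rw [hsu, ← Matrix.mul_assoc, hvu, Matrix.one_mul]
  · intro α β
    constructor
    · intro h
      by_contra hn
      exact hsep α β hn h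
    · intro h
      exact (hs.2 α β h).2

end

end Run7.h480.Anosov
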