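import Pool.Agent.Run7.h480.AGB
import Pool.Agent.Run7.h480.AEst

/-! The standard form: combinatorial consequences of an Anosov automorphism. -/

set_option linter.unusedSectionVars false
set_option linter.unusedSimpArgs false

namespace Run7.h480.Anosov

noncomputable section

open Matrix Polynomial

/-- A power of an Anosov map has no rational eigenvalue. -/
theorem no_rat_eig {N I : Type} [AddCommGroup N] [Module ℚ N] [Fintype I] [DecidableEq I]
    (b : Module.Basis I ℚ N) (f : N →ₗ[ℚ] N) (p : ℤ[X])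
    (hp : p.map (Int.castRingHom ℚ) = (LinearMap.toMatrix b b f).charpoly)
    (h0 : p.coeff 0 = 1 ∨ p.coeff 0 = -1)
    (hz : ∀ z : ℂ, (p.map (Int.castRingHom ℂ)).IsRoot z → ‖z‖ ≠ 1)
    (q : ℕ) (hq : 0 < q) (t : ℚ) (x : N) (hx : x ≠ 0) (hfx : (f ^ q) x = t • x) : False := by
  set Mf := LinearMap.toMatrix b b f with hMf
  let MC : Matrix I I ℂ := Mf.map (algebraMap ℚ ℂ)
  -- eigenvector of the power
  have h1 : (Mf ^ q) *ᵥ (b.repr x) = t • (b.repr x : I → ℚ) := by
    have h2 : Mf ^ q = LinearMap.toMatrix b b (f ^ q) := by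
      rw [hMf, LinearMap.toMatrix_pow]
    rw [h2, LinearMap.toMatrix_mulVec_repr, hfx, map_smul]
    rfl
  let v : I → ℂ := fun i => algebraMap ℚ ℂ (b.repr x i)
  have hv : v ≠ 0 := by
    intro h
    apply hx
    apply b.repr.injective
    ext i
    have := congrFun h i
    simpa [v] using this
  have h2 : (MC ^ q) *ᵥ v = (algebraMap ℚ ℂ t) • v := by
    have e1 : MC ^ q = (Mf ^ q).map (algebraMap ℚ ℂ) :=
      (map_pow ((algebraMap ℚ ℂ).mapMatrix) Mf q).symm
    rw [e1]
    ext i
    have h3 := congrArg (algebraMap ℚ ℂ) (congrFun h1 i)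
    rw [Pi.smul_apply, smul_eq_mul, map_mul] at h3
    rw [Pi.smul_apply, smul_eq_mul, ← h3, Matrix.mulVec, Matrix.mulVec, dotProduct, dotProduct,
      map_sum]
    refine Finset.sum_congr rfl fun j _ => ?_
    rw [map_mul]; rfl
  have h3 : algebraMap ℚ ℂ t ∈ spectrum ℂ (MC ^ q) := by
    rw [spectrum.mem_iff]
    intro hu
    apply hv
    have h4 : (algebraMap ℂ (Matrix I I ℂ) (algebraMap ℚ ℂ t) - MC ^ q) *ᵥ v = 0 := by
      rw [Matrix.sub_mulVec, h2, sub_eq_zero, Algebra.algebraMap_eq_smul_one, Matrix.smul_mulVec,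
        Matrix.one_mulVec]
    obtain ⟨u, hu⟩ := hu
    calc v = ((↑u⁻¹ : Matrix I I ℂ) * (u : Matrix I I ℂ)) *ᵥ v := by
          rw [Units.inv_mul, Matrix.one_mulVec]
      _ = 0 := by rw [← Matrix.mulVec_mulVec, hu, h4, Matrix.mulVec_zero]
  rw [spectrum.map_pow_of_pos MC hq] at h3
  obtain ⟨z, hzs, hzt⟩ := h3
  rw [Matrix.mem_spectrum_iff_isRoot_charpoly] at hzs
  have hchar : MC.charpoly = p.map (Int.castRingHom ℂ) := by
    rw [Matrix.charpoly_map, ← hp, Polynomial.map_map]
    congr 1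
  rw [hchar] at hzs
  have hnorm := hz z hzs
  have hmonic : p.Monic := by
    apply Polynomial.monic_of_injective (RingHom.injective_int (Int.castRingHom ℚ))
    rw [hp]
    exact Matrix.charpoly_monic _
  have hz0 : aeval z p = 0 := by
    rw [IsRoot.def, eval_map] at hzs
    exact hzs
  have hint : IsIntegral ℤ z := ⟨p, hmonic, by rw [← hz0]; rfl⟩
  have hzne : z ≠ 0 := by
    rintro rfl
    have h4 := hz0
    rw [← Polynomial.coeff_zero_eq_aeval_zero'] at h4
    rcases h0 with h | h <;> rw [h] at h4 <;> simp at h4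
  have hinv : IsIntegral ℤ z⁻¹ := by
    have h4 : aeval z (divX p) * z + ((p.coeff 0 : ℤ) : ℂ) = 0 := by
      have h5 := congrArg (aeval z) (Polynomial.divX_mul_X_add p)
      rw [map_add, map_mul, aeval_X, aeval_C, hz0] at h5
      exact h5
    have h5 : IsIntegral ℤ (aeval z (divX p)) := by
      have : aeval z (divX p) ∈ integralClosure ℤ ℂ := by
        have h6 : Algebra.adjoin ℤ {z} ≤ integralClosure ℤ ℂ :=
          Algebra.adjoin_le (Set.singleton_subset_iff.mpr hint)
        exact h6 (Polynomial.aeval_mem_adjoin_singleton ℤ z)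
      exact this
    rcases h0 with h | h
    · have : z⁻¹ = -aeval z (divX p) := by
        rw [h] at h4
        push_cast at h4
        rw [inv_eq_iff_eq_inv, eq_comm]
        apply inv_eq_of_mul_eq_one_left
        linear_combination -h4
      rw [this]; exact h5.neg
    · have : z⁻¹ = aeval z (divX p) := by
        rw [h] at h4
        push_cast at h4
        rw [inv_eq_iff_eq_inv, eq_comm]
        apply inv_eq_of_mul_eq_one_left
        linear_combination h4
      rw [this]; exact h5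
  have hratint : ∀ (a : ℚ), IsIntegral ℤ (algebraMap ℚ ℂ a) → ∃ b : ℤ, (b : ℚ) = a := by
    intro a ha
    have h1 : IsIntegral ℤ a := (isIntegral_algebraMap_iff (algebraMap ℚ ℂ).injective).mp ha
    exact IsIntegrallyClosed.isIntegral_iff.mp h1
  have hzt' : z ^ q = algebraMap ℚ ℂ t := hzt
  obtain ⟨a, ha⟩ := hratint t (by rw [← hzt']; exact hint.pow q)
  obtain ⟨a', ha'⟩ := hratint t⁻¹ (by rw [map_inv₀, ← hzt', ← inv_pow]; exact hinv.pow q)
  have ht0 : t ≠ 0 := by
    rintro rfl
    rw [map_zero] at hzt'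
    exact hzne (eq_zero_of_pow_eq_zero hzt')
  have haa : a * a' = 1 := by
    have : ((a * a' : ℤ) : ℚ) = 1 := by push_cast; rw [ha, ha', mul_inv_cancel₀ ht0]
    exact_mod_cast this
  have hunit : a = 1 ∨ a = -1 := Int.isUnit_iff.mp (IsUnit.of_mul_eq_one _ haa)
  have hn1 : ‖z‖ ^ q = 1 := by
    rw [← norm_pow, hzt', ← ha]
    rcases hunit with h | h <;> rw [h] <;> simp
  exact hnorm ((pow_eq_one_iff_of_nonneg (norm_nonneg z) hq.ne').mp hn1)

/-- A map sending `N₂` into a proper submodule `N₁` modulo `t` has eigenvalue `t`. -/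
theorem exists_eig {N : Type} [AddCommGroup N] [Module ℚ N] [FiniteDimensional ℚ N]
    (F : N →ₗ[ℚ] N) (t : ℚ) (N₁ N₂ : Submodule ℚ N) (hlt : N₁ < N₂)
    (h : ∀ x ∈ N₂, F x - t • x ∈ N₁) : ∃ x, x ≠ 0 ∧ F x = t • x := by
  let g : N₂ →ₗ[ℚ] N₁ := ((F - t • LinearMap.id).comp N₂.subtype).codRestrict N₁
    (fun x => h x.1 x.2)
  have hd : Module.finrank ℚ N₁ < Module.finrank ℚ N₂ := Submodule.finrank_lt_finrank_of_lt hlt
  have hker : LinearMap.ker g ≠ ⊥ := by
    intro hk
    have := LinearMap.finrank_le_finrank_of_injective (LinearMap.ker_eq_bot.mp hk)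
    omega
  obtain ⟨x, hx, hx0⟩ := Submodule.exists_mem_ne_zero_of_ne_bot hker
  refine ⟨x.1, fun h => hx0 (Subtype.ext h), ?_⟩
  have := congrArg Subtype.val (LinearMap.mem_ker.mp hx)
  exact sub_eq_zero.mp this

variable {n : ℕ} {G : SimpleGraph (Fin n)}

/-! ### `Inc`-submodules of `ℚ^n` -/

/-- submodules stable under the incidence algebra. -/
def Stab (G : SimpleGraph (Fin n)) : Set (Submodule ℚ (Fin n → ℚ)) :=
  {S | ∀ x ∈ Inc G ℚ, ∀ v ∈ S, x *ᵥ v ∈ S}

/-- coordinate subspaces -/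
def VD (D : Set (Fin n)) : Submodule ℚ (Fin n → ℚ) where
  carrier := {v | ∀ i, i ∉ D → v i = 0}
  zero_mem' := by simp
  add_mem' := by
    intro a b ha hb i hi
    rw [Pi.add_apply, ha i hi, hb i hi, add_zero]
  smul_mem' := by
    intro c a ha i hi
    rw [Pi.smul_apply, ha i hi, smul_zero]

theorem mem_VD {D : Set (Fin n)} {v : Fin n → ℚ} : v ∈ VD D ↔ ∀ i, i ∉ D → v i = 0 := Iff.rfl

theorem VD_stab {D : Set (Fin n)} (hD : ∀ β α, Le G β α → α ∈ D → β ∈ D) : VD D ∈ Stab G := by
  intro x hx v hv i hi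
  rw [Matrix.mulVec, dotProduct]
  refine Finset.sum_eq_zero fun j _ => ?_
  by_cases hj : j ∈ D
  · rw [hx i j (fun h => hi (hD i j h hj)), zero_mul]
  · rw [hv j hj, mul_zero]

theorem stab_eq {S : Submodule ℚ (Fin n → ℚ)} (hS : S ∈ Stab G) :
    S = VD {i | Pi.single i 1 ∈ S} := by
  have hsing : ∀ i : Fin n, Matrix.single i i (1 : ℚ) ∈ Inc G ℚ := by
    intro i b a hba
    rw [Matrix.single_apply, if_neg]
    rintro ⟨rfl, rfl⟩
    exact hba (Le.refl G _)
  have hcomp : ∀ (v : Fin n → ℚ) (i : Fin n),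
      Matrix.single i i (1 : ℚ) *ᵥ v = v i • Pi.single i (1 : ℚ) := by
    intro v i
    rw [Matrix.single_mulVec]
    ext j
    simp [Pi.single_apply, Function.update_apply]
  apply le_antisymm
  · intro v hv i hi
    by_contra hne
    apply hi
    have h1 := hS _ (hsing i) v hv
    rw [hcomp] at h1
    have h2 := S.smul_mem (v i)⁻¹ h1
    rwa [smul_smul, inv_mul_cancel₀ hne, one_smul] at h2
  · intro v hv
    have h1 : v = ∑ i, v i • (Pi.single i (1 : ℚ) : Fin n → ℚ) := by
      ext j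
      simp [Finset.sum_apply, Pi.single_apply]
    rw [h1]
    refine S.sum_mem fun i _ => ?_
    by_cases hi : Pi.single i (1 : ℚ) ∈ S
    · exact S.smul_mem _ hi
    · rw [hv i hi, zero_smul]
      exact S.zero_mem

theorem stab_finite : (Stab G).Finite := by
  apply Set.Finite.subset (Set.finite_range (VD : Set (Fin n) → Submodule ℚ (Fin n → ℚ)))
  intro S hS
  exact ⟨_, (stab_eq hS).symm⟩

/-- A matrix normalising the incidence algebra permutes its submodules; some power fixes a
given one. -/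
theorem exists_pow_fix {A A' : Matrix (Fin n) (Fin n) ℚ} (h1 : A' * A = 1)
    (hn : ∀ x ∈ Inc G ℚ, A' * x * A ∈ Inc G ℚ) {S : Submodule ℚ (Fin n → ℚ)} (hS : S ∈ Stab G) :
    ∃ q, 0 < q ∧ S.map ((Matrix.toLin' A) ^ q) = S := by
  have h2 : A * A' = 1 := mul_eq_one_comm.mp h1
  have hmap : ∀ S ∈ Stab G, S.map (Matrix.toLin' A) ∈ Stab G := by
    intro S hS x hx w hw
    obtain ⟨v, hv, rfl⟩ := hw
    refine ⟨(A' * x * A) *ᵥ v, hS _ (hn x hx) v hv, ?_⟩
    rw [Matrix.toLin'_apply, Matrix.toLin'_apply, Matrix.mulVec_mulVec, Matrix.mulVec_mulVec]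
    congr 1
    calc A * (A' * x * A) = (A * A') * x * A := by simp only [Matrix.mul_assoc]
      _ = x * A := by rw [h2, Matrix.one_mul]
  let Φ : Stab G → Stab G := fun S => ⟨S.1.map (Matrix.toLin' A), hmap S.1 S.2⟩
  have hinj : Function.Injective Φ := by
    intro S T hST
    have h3 : S.1.map (Matrix.toLin' A) = T.1.map (Matrix.toLin' A) := congrArg Subtype.val hST
    have h4 := congrArg (fun U => U.map (Matrix.toLin' A')) h3
    simp only [← Submodule.map_comp, ← Matrix.toLin'_mul, h1, Matrix.toLin'_one,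
      Submodule.map_id] at h4
    exact Subtype.ext h4
  have : Finite (Stab G) := stab_finite
  obtain ⟨q, hq, hper⟩ := Function.mem_periodicPts.mp (hinj.mem_periodicPts ⟨S, hS⟩)
  refine ⟨q, hq, ?_⟩
  have h5 : ∀ k, ((Φ^[k]) ⟨S, hS⟩).1 = S.map ((Matrix.toLin' A) ^ k) := by
    intro k
    induction k with
    | zero => simp [Module.End.one_eq_id]
    | succ k ih =>
      rw [Function.iterate_succ_apply', pow_succ', Module.End.mul_eq_comp, Submodule.map_comp, ← ih]
  rw [← h5 q]
  exact congrArg Subtype.val hper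

end

end Run7.h480.Anosov
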