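import Pool.Agent.Run7.h480.ANSide

/-! The standard form: the classes have at least two elements and the ones with exactly two
are independent. -/

set_option linter.unusedSectionVars false
set_option linter.unusedSimpArgs false

namespace Run7.h480.Anosov

noncomputable section

open Matrix Polynomial

variable {n : ℕ} {G : SimpleGraph (Fin n)} {N : Type} [LieRing N] [LieAlgebra ℚ N]
  [FiniteDimensional ℚ N] {b : Module.Basis (Fin n ⊕ G.edgeSet) ℚ N} [Fintype G.edgeSet]
  (hb : IsGB G ℚ N b)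

/-- projection to the degree one coordinates. -/
def pr (b : Module.Basis (Fin n ⊕ G.edgeSet) ℚ N) : N →ₗ[ℚ] (Fin n → ℚ) where
  toFun x i := b.repr x (Sum.inl i)
  map_add' x y := by ext i; simp
  map_smul' c x := by ext i; simp

theorem pr_apply (x : N) (i : Fin n) : pr b x i = b.repr x (Sum.inl i) := rfl

theorem pr_inl (i : Fin n) : pr b (b (Sum.inl i)) = Pi.single i 1 := by
  ext j
  rw [pr_apply, Module.Basis.repr_self, Finsupp.single_apply, Pi.single_apply]
  by_cases h : j = i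
  · subst h; simp
  · rw [if_neg h, if_neg (fun h' => h (Sum.inl.inj h').symm)]

/-- matrix of the induced map. -/
def indM (b : Module.Basis (Fin n ⊕ G.edgeSet) ℚ N) (f : N →ₗ[ℚ] N) :
    Matrix (Fin n) (Fin n) ℚ := Matrix.of fun i j => b.repr (f (b (Sum.inl j))) (Sum.inl i)

include hb in
theorem pr_lie (x y : N) : pr b ⁅x, y⁆ = 0 := by
  ext i; exact hb.repr_lie x y i

include hb in
theorem pr_map (f : N →ₗ[ℚ] N) (hf : ∀ x y, f ⁅x, y⁆ = ⁅f x, f y⁆) (x : N) :
    pr b (f x) = indM b f *ᵥ pr b x := by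
  conv_lhs => rw [← b.sum_repr x]
  rw [Fintype.sum_sum_type, map_add, map_add, map_sum, map_sum, map_sum, map_sum]
  rw [Finset.sum_eq_zero (s := (Finset.univ : Finset G.edgeSet)), add_zero]
  · ext i
    rw [Finset.sum_apply, Matrix.mulVec, dotProduct]
    refine Finset.sum_congr rfl fun j _ => ?_
    rw [map_smul, map_smul, Pi.smul_apply, smul_eq_mul, mul_comm]
    rfl
  · intro e _
    obtain ⟨x, y, hxy⟩ := hb.gen e
    rw [map_smul, map_smul, hxy, hf, pr_lie hb, smul_zero]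

include hb in
theorem indM_comp (f g : N →ₗ[ℚ] N) (hf : ∀ x y, f ⁅x, y⁆ = ⁅f x, f y⁆)
    (h : ∀ x, f (g x) = x) : indM b f * indM b g = 1 := by
  ext i j
  have h1 := pr_map hb f hf (g (b (Sum.inl j)))
  rw [h, pr_inl] at h1
  have h2 := congrFun h1 i
  rw [Matrix.mulVec, dotProduct] at h2
  rw [Matrix.mul_apply, Matrix.one_apply]
  rw [Pi.single_apply] at h2
  rw [h2]
  rfl

include hb in
theorem tau_lie (τ : N →ₗ[ℚ] ℚ) (x y : N) :
    τ ⁅x, y⁆ = ∑ i, ∑ j, pr b x i * pr b y j * τ ⁅b (Sum.inl i), b (Sum.inl j)⁆ := by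
  rw [hb.bracket x y, map_sum]
  refine Finset.sum_congr rfl fun i _ => ?_
  rw [map_sum]
  refine Finset.sum_congr rfl fun j _ => ?_
  rw [map_smul, smul_eq_mul]
  rfl

include hb in
theorem indM_phi (f : N →ₗ[ℚ] N) (hf : ∀ x y, f ⁅x, y⁆ = ⁅f x, f y⁆)
    {Ω : Matrix (Fin n) (Fin n) ℚ} (hΩ : Ω ∈ Phi G ℚ) :
    (indM b f)ᵀ * Ω * indM b f ∈ Phi G ℚ := by
  obtain ⟨τ, hτ⟩ := hb.phi_surj hΩ
  have h1 : (indM b f)ᵀ * Ω * indM b f
      = Matrix.of fun i j => (τ ∘ₗ f) ⁅b (Sum.inl i), b (Sum.inl j)⁆ := by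
    ext i j
    rw [Matrix.of_apply, LinearMap.comp_apply, hf, tau_lie hb, Matrix.mul_assoc, Matrix.mul_apply]
    refine Finset.sum_congr rfl fun k _ => ?_
    rw [Matrix.mul_apply, Finset.mul_sum]
    refine Finset.sum_congr rfl fun l _ => ?_
    rw [hτ, Matrix.transpose_apply]
    simp only [indM, Matrix.of_apply, pr_apply]
    ring
  rw [h1]
  exact hb.phi _

include hb in
theorem indM_norm (f g : N →ₗ[ℚ] N) (hf : ∀ x y, f ⁅x, y⁆ = ⁅f x, f y⁆)
    (hg : ∀ x y, g ⁅x, y⁆ = ⁅g x, g y⁆) (h : ∀ x, f (g x) = x)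
    {x : Matrix (Fin n) (Fin n) ℚ} (hx : x ∈ Inc G ℚ) :
    indM b g * x * indM b f ∈ Inc G ℚ := by
  have h1 : indM b f * indM b g = 1 := indM_comp hb f g hf h
  have h1' : (indM b g)ᵀ * (indM b f)ᵀ = 1 := by
    rw [← Matrix.transpose_mul, h1, Matrix.transpose_one]
  have h2 : indM b g * indM b f = 1 := mul_eq_one_comm.mp h1
  have h2' : (indM b f)ᵀ * (indM b g)ᵀ = 1 := by
    rw [← Matrix.transpose_mul, h2, Matrix.transpose_one]
  apply mem_inc_of_der
  intro Ω hΩ
  have h3 := Inc.der hx (indM_phi hb g hg hΩ)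
  have h4 := indM_phi hb f hf h3
  convert h4 using 1
  rw [Matrix.mul_add, Matrix.add_mul, Matrix.transpose_mul, Matrix.transpose_mul]
  congr 1
  · calc (indM b f)ᵀ * (xᵀ * (indM b g)ᵀ) * Ω
        = (indM b f)ᵀ * (xᵀ * (indM b g)ᵀ) * Ω * (indM b g * indM b f) := by
          rw [h2, Matrix.mul_one]
      _ = _ := by simp only [Matrix.mul_assoc]
  · calc Ω * (indM b g * x * indM b f)
        = ((indM b f)ᵀ * (indM b g)ᵀ) * Ω * (indM b g * x * indM b f) := by
          rw [h2', Matrix.one_mul]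
      _ = _ := by simp only [Matrix.mul_assoc]

/-- iterates are Lie endomorphisms -/
theorem pow_lie (f : N →ₗ[ℚ] N) (hf : ∀ x y, f ⁅x, y⁆ = ⁅f x, f y⁆) (q : ℕ) (x y : N) :
    (f ^ q) ⁅x, y⁆ = ⁅(f ^ q) x, (f ^ q) y⁆ := by
  induction q generalizing x y with
  | zero => simp
  | succ q ih => rw [pow_succ, Module.End.mul_apply, Module.End.mul_apply, Module.End.mul_apply, hf, ih]

include hb in
theorem pr_pow (f : N →ₗ[ℚ] N) (hf : ∀ x y, f ⁅x, y⁆ = ⁅f x, f y⁆) (q : ℕ) (x : N) :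
    pr b ((f ^ q) x) = ((Matrix.toLin' (indM b f)) ^ q) (pr b x) := by
  induction q generalizing x with
  | zero => simp
  | succ q ih =>
    rw [pow_succ, pow_succ, Module.End.mul_apply, Module.End.mul_apply, ih, pr_map hb f hf,
      Matrix.toLin'_apply]

include hb in
/-- The combinatorial step. `D` is the principal down set of `α`, `D'` its complement of the class. -/
theorem nside_aux (f g : N →ₗ[ℚ] N) (hf : ∀ x y, f ⁅x, y⁆ = ⁅f x, f y⁆)
    (hg : ∀ x y, g ⁅x, y⁆ = ⁅g x, g y⁆) (hfg : ∀ x, f (g x) = x) (α : Fin n) :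
    ∃ q, 0 < q ∧ (∀ x, pr b x ∈ VD {i | Le G i α} → pr b ((f ^ q) x) ∈ VD {i | Le G i α}) ∧
      (∀ x, pr b x ∈ VD {i | Le G i α ∧ ¬ Eqv G i α} →
        pr b ((f ^ q) x) ∈ VD {i | Le G i α ∧ ¬ Eqv G i α}) := by
  have h1 : indM b f * indM b g = 1 := indM_comp hb f g hf hfg
  have h2 : indM b g * indM b f = 1 := mul_eq_one_comm.mp h1
  have hn : ∀ x ∈ Inc G ℚ, indM b g * x * indM b f ∈ Inc G ℚ := fun x hx =>
    indM_norm hb f g hf hg hfg hx
  obtain ⟨q₁, hq₁, hS₁⟩ := exists_pow_fix h2 hn (VD_stab (G := G) (D := {i | Le G i α})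
    (fun β γ h1 h2 => h1.trans h2))
  obtain ⟨q₂, hq₂, hS₂⟩ := exists_pow_fix h2 hn
    (VD_stab (G := G) (D := {i | Le G i α ∧ ¬ Eqv G i α})
    (fun β γ h1 h2 => ⟨h1.trans h2.1, fun h3 => h2.2 ⟨h2.1, h3.2.trans h1⟩⟩))
  have hpow : ∀ (S : Submodule ℚ (Fin n → ℚ)) (q k : ℕ),
      S.map ((Matrix.toLin' (indM b f)) ^ q) = S →
      S.map ((Matrix.toLin' (indM b f)) ^ (q * k)) = S := by
    intro S q k h
    induction k with
    | zero => simp [Module.End.one_eq_id]
    | succ k ih =>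
      rw [Nat.mul_succ, pow_add, Module.End.mul_eq_comp, Submodule.map_comp, h, ih]
  refine ⟨q₁ * q₂, Nat.mul_pos hq₁ hq₂, fun x hx => ?_, fun x hx => ?_⟩
  · rw [pr_pow hb f hf, ← hpow _ q₁ q₂ hS₁]
    exact Submodule.mem_map_of_mem hx
  · rw [pr_pow hb f hf, ← hpow _ q₂ q₁ hS₂, mul_comm q₂ q₁]
    exact Submodule.mem_map_of_mem hx

include hb in
/-- Case of a class with one element. -/
theorem nside_one (F : N →ₗ[ℚ] N) (α : Fin n) (hcls : ∀ β, Eqv G β α → β = α)
    (hD : ∀ x, pr b x ∈ VD {i | Le G i α} → pr b (F x) ∈ VD {i | Le G i α})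
    (hD' : ∀ x, pr b x ∈ VD {i | Le G i α ∧ ¬ Eqv G i α} →
        pr b (F x) ∈ VD {i | Le G i α ∧ ¬ Eqv G i α}) :
    ∃ (t : ℚ) (x : N), x ≠ 0 ∧ F x = t • x := by
  let t : ℚ := pr b (F (b (Sum.inl α))) α
  refine ⟨t, exists_eig F t ((VD {i | Le G i α ∧ ¬ Eqv G i α}).comap (pr b))
    ((VD {i | Le G i α}).comap (pr b)) ?_ ?_⟩
  · refine lt_of_le_of_ne ?_ ?_
    · intro x hx i hi
      exact hx i (fun h => hi h.1)
    · intro heq
      have h1 : b (Sum.inl α) ∈ (VD {i | Le G i α}).comap (pr b) := by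
        intro i hi
        rw [pr_inl, Pi.single_apply, if_neg]
        rintro rfl
        exact hi (Le.refl G _)
      rw [← heq] at h1
      have h2 := h1 α (fun h => h.2 (Eqv.refl α))
      rw [pr_inl, Pi.single_eq_same] at h2
      exact one_ne_zero h2
  · intro x hx
    -- decompose x
    have h1 : pr b (x - (pr b x α) • b (Sum.inl α)) ∈ VD {i | Le G i α ∧ ¬ Eqv G i α} := by
      intro i hi
      rw [map_sub, map_smul, pr_inl, Pi.sub_apply, Pi.smul_apply, Pi.single_apply, smul_eq_mul]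
      by_cases h2 : i = α
      · subst h2; simp
      · rw [if_neg h2, mul_zero, sub_zero]
        apply hx
        intro h3
        exact hi ⟨h3, fun h4 => h2 (hcls i h4)⟩
    have h2 := hD' _ h1
    have hbα : pr b (b (Sum.inl α)) ∈ VD {i | Le G i α} := by
      intro i hi
      rw [pr_inl, Pi.single_apply, if_neg]
      rintro rfl
      exact hi (Le.refl G _)
    have h3 : pr b (F (b (Sum.inl α)) - t • b (Sum.inl α)) ∈ VD {i | Le G i α ∧ ¬ Eqv G i α} := by
      intro i hi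
      rw [map_sub, map_smul, pr_inl, Pi.sub_apply, Pi.smul_apply, Pi.single_apply, smul_eq_mul]
      by_cases h4 : i = α
      · subst h4; simp [t]
      · rw [if_neg h4, mul_zero, sub_zero]
        apply hD _ hbα
        intro h5
        exact hi ⟨h5, fun h6 => h4 (hcls i h6)⟩
    change pr b (F x - t • x) ∈ VD {i | Le G i α ∧ ¬ Eqv G i α}
    have h4 : F x - t • x = F (x - (pr b x α) • b (Sum.inl α))
        + (pr b x α) • (F (b (Sum.inl α)) - t • b (Sum.inl α))
        - t • (x - (pr b x α) • b (Sum.inl α)) := by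
      rw [map_sub, map_smul]
      module
    rw [h4, map_sub, map_add, map_smul, map_smul]
    exact Submodule.sub_mem _ (Submodule.add_mem _ h2 (Submodule.smul_mem _ _ h3))
      (Submodule.smul_mem _ _ h1)

include hb in
/-- Case of an adjacent class with two elements. -/
theorem nside_two (F : N →ₗ[ℚ] N) (hF : ∀ x y, F ⁅x, y⁆ = ⁅F x, F y⁆) (α β : Fin n)
    (hadj : G.Adj α β) (hβ : Eqv G β α) (hcls : ∀ γ, Eqv G γ α → γ = α ∨ γ = β)
    (hD : ∀ x, pr b x ∈ VD {i | Le G i α} → pr b (F x) ∈ VD {i | Le G i α})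
    (hD' : ∀ x, pr b x ∈ VD {i | Le G i α ∧ ¬ Eqv G i α} →
        pr b (F x) ∈ VD {i | Le G i α ∧ ¬ Eqv G i α}) :
    ∃ (t : ℚ) (x : N), x ≠ 0 ∧ F x = t • x := by
  have hne : α ≠ β := hadj.ne
  set DD : Submodule ℚ N := (VD {i | Le G i α}).comap (pr b) with hDD
  set DD' : Submodule ℚ N := (VD {i | Le G i α ∧ ¬ Eqv G i α}).comap (pr b) with hDD'
  have hle : DD' ≤ DD := fun x hx i hi => hx i (fun h => hi h.1)
  set a := b (Sum.inl α) with ha
  set a' := b (Sum.inl β) with ha'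
  have haD : a ∈ DD := by
    intro i hi
    rw [pr_inl, Pi.single_apply, if_neg]
    rintro rfl
    exact hi (Le.refl G _)
  have ha'D : a' ∈ DD := by
    intro i hi
    rw [pr_inl, Pi.single_apply, if_neg]
    rintro rfl
    exact hi hβ.1
  -- residue
  let res : N → N := fun x => x - pr b x α • a - pr b x β • a'
  have hres : ∀ x ∈ DD, res x ∈ DD' := by
    intro x hx i hi
    simp only [res, map_sub, map_smul, ha, ha', pr_inl, Pi.sub_apply, Pi.smul_apply,
      Pi.single_apply, smul_eq_mul]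
    by_cases h1 : i = α
    · subst h1; simp [hne]
    · by_cases h2 : i = β
      · subst h2; simp [h1]
      · rw [if_neg h1, if_neg h2, mul_zero, mul_zero, sub_zero, sub_zero]
        apply hx
        intro h3
        exact hi ⟨h3, fun h4 => (hcls i h4).elim h1 h2⟩
  let δ : N → N → ℚ := fun x y => pr b x α * pr b y β - pr b x β * pr b y α
  let N₁ : Submodule ℚ N := Submodule.span ℚ {z | ∃ x ∈ DD, ∃ y ∈ DD', ⁅x, y⁆ = z}
  let N₂ : Submodule ℚ N := Submodule.span ℚ {z | ∃ x ∈ DD, ∃ y ∈ DD, ⁅x, y⁆ = z}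
  have hN₁ : ∀ x ∈ DD, ∀ y ∈ DD', ⁅x, y⁆ ∈ N₁ := fun x hx y hy =>
    Submodule.subset_span ⟨x, hx, y, hy, rfl⟩
  have hN₁' : ∀ x ∈ DD, ∀ y ∈ DD', ⁅y, x⁆ ∈ N₁ := fun x hx y hy => by
    rw [← lie_skew]; exact N₁.neg_mem (hN₁ x hx y hy)
  have hδ : ∀ x ∈ DD, ∀ y ∈ DD, ⁅x, y⁆ - δ x y • ⁅a, a'⁆ ∈ N₁ := by
    intro x hx y hy
    have hrx := hres x hx
    have hry := hres y hy
    have hx' : x = pr b x α • a + pr b x β • a' + res x := by simp only [res]; module
    have hy' : y = pr b y α • a + pr b y β • a' + res y := by simp only [res]; module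
    have hskew : ⁅a', a⁆ = -⁅a, a'⁆ := (lie_skew a' a).symm
    have e : ⁅x, y⁆ - δ x y • ⁅a, a'⁆
        = ⁅x, res y⁆ + ⁅res x, pr b y α • a + pr b y β • a'⁆ := by
      have e1 : ⁅x, y⁆ = ⁅x, pr b y α • a + pr b y β • a'⁆ + ⁅x, res y⁆ := by
        rw [← lie_add, ← hy']
      have e2 : ⁅x, pr b y α • a + pr b y β • a'⁆
          = ⁅pr b x α • a + pr b x β • a', pr b y α • a + pr b y β • a'⁆
            + ⁅res x, pr b y α • a + pr b y β • a'⁆ := by
        rw [← add_lie, ← hx']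
      have e3 : ⁅pr b x α • a + pr b x β • a', pr b y α • a + pr b y β • a'⁆
          = δ x y • ⁅a, a'⁆ := by
        simp only [add_lie, lie_add, smul_lie, lie_smul, lie_self, hskew, δ]
        module
      rw [e1, e2, e3]
      abel
    rw [e]
    refine N₁.add_mem (hN₁ x hx _ hry) (hN₁' _ ?_ _ hrx)
    exact DD.add_mem (DD.smul_mem _ haD) (DD.smul_mem _ ha'D)
  let t : ℚ := δ (F a) (F a')
  have hFD : ∀ x ∈ DD, F x ∈ DD := hD
  have hFD' : ∀ x ∈ DD', F x ∈ DD' := hD'
  have hzero : ∀ x ∈ DD', pr b x α = 0 ∧ pr b x β = 0 := by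
    intro x hx
    exact ⟨hx α (fun h => h.2 (Eqv.refl α)), hx β (fun h => h.2 hβ)⟩
  have hFδ : ∀ x ∈ DD, ∀ y ∈ DD, δ (F x) (F y) = t * δ x y := by
    intro x hx y hy
    have e : ∀ x ∈ DD, pr b (F x) α = pr b x α * pr b (F a) α + pr b x β * pr b (F a') α ∧
        pr b (F x) β = pr b x α * pr b (F a) β + pr b x β * pr b (F a') β := by
      intro x hx
      have h1 := hzero _ (hFD' _ (hres x hx))
      simp only [res, map_sub, map_smul, Pi.sub_apply, Pi.smul_apply, smul_eq_mul] at h1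
      constructor
      · linarith [h1.1]
      · linarith [h1.2]
    obtain ⟨e1, e2⟩ := e x hx
    obtain ⟨e3, e4⟩ := e y hy
    simp only [δ, t, e1, e2, e3, e4]
    ring
  refine ⟨t, exists_eig F t N₁ N₂ ?_ ?_⟩
  · refine lt_of_le_of_ne ?_ ?_
    · apply Submodule.span_mono
      rintro z ⟨x, hx, y, hy, rfl⟩
      exact ⟨x, hx, y, hle hy, rfl⟩
    · intro heq
      have h1 : ⁅a, a'⁆ ∈ N₁ := by
        rw [heq]
        exact Submodule.subset_span ⟨a, haD, a', ha'D, rfl⟩
      let Ω : Matrix (Fin n) (Fin n) ℚ := Matrix.single α β 1 - Matrix.single β α 1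
      have hΩ : Ω ∈ Phi G ℚ := by
        refine ⟨fun i j => ?_, fun i j hij => ?_⟩
        · simp only [Ω, Matrix.sub_apply, Matrix.single_apply]
          split_ifs <;> simp_all
        · simp only [Ω, Matrix.sub_apply, Matrix.single_apply]
          have h1 : ¬ (α = i ∧ β = j) := by rintro ⟨rfl, rfl⟩; exact hij hadj
          have h2 : ¬ (β = i ∧ α = j) := by rintro ⟨rfl, rfl⟩; exact hij hadj.symm
          simp [h1, h2]
      obtain ⟨τ, hτ⟩ := hb.phi_surj hΩ
      have hτδ : ∀ x y, τ ⁅x, y⁆ = δ x y := by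
        intro x y
        rw [tau_lie hb]
        simp only [hτ, Ω, Matrix.sub_apply, Matrix.single_apply, mul_sub, Finset.sum_sub_distrib,
          mul_ite, mul_one, mul_zero, δ]
        congr 1
        · rw [Finset.sum_eq_single α, Finset.sum_eq_single β]
          · simp
          · intro j _ hj; rw [if_neg]; rintro ⟨_, h⟩; exact hj h.symm
          · simp
          · intro i _ hi
            refine Finset.sum_eq_zero fun j _ => ?_
            rw [if_neg]; rintro ⟨h, _⟩; exact hi h.symm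
          · simp
        · rw [Finset.sum_eq_single β, Finset.sum_eq_single α]
          · simp
          · intro j _ hj; rw [if_neg]; rintro ⟨_, h⟩; exact hj h.symm
          · simp
          · intro i _ hi
            refine Finset.sum_eq_zero fun j _ => ?_
            rw [if_neg]; rintro ⟨h, _⟩; exact hi h.symm
          · simp
      have h2 : ∀ w ∈ N₁, τ w = 0 := by
        intro w hw
        induction hw using Submodule.span_induction with
        | mem w hw =>
          obtain ⟨x, hx, y, hy, rfl⟩ := hw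
          rw [hτδ]
          simp only [δ, (hzero y hy).1, (hzero y hy).2, mul_zero, sub_zero]
        | zero => exact map_zero τ
        | add a b _ _ ha hb => rw [map_add, ha, hb, add_zero]
        | smul q a _ ha => rw [map_smul, ha, smul_zero]
      have h3 := h2 _ h1
      rw [hτδ] at h3
      simp only [δ, ha, ha', pr_inl, Pi.single_apply] at h3
      simp [hne, hne.symm] at h3
  · intro w hw
    induction hw using Submodule.span_induction with
    | mem w hw =>
      obtain ⟨x, hx, y, hy, rfl⟩ := hw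
      have h1 := hδ x hx y hy
      have h2 := hδ (F x) (hFD x hx) (F y) (hFD y hy)
      rw [hFδ x hx y hy, ← hF] at h2
      have h3 : F ⁅x, y⁆ - t • ⁅x, y⁆ = (F ⁅x, y⁆ - (t * δ x y) • ⁅a, a'⁆)
          - t • (⁅x, y⁆ - δ x y • ⁅a, a'⁆) := by module
      rw [h3]
      exact N₁.sub_mem h2 (N₁.smul_mem _ h1)
    | zero => simp
    | add a b _ _ ha hb =>
      have : F (a + b) - t • (a + b) = (F a - t • a) + (F b - t • b) := by
        rw [map_add]; module
      rw [this]; exact N₁.add_mem ha hb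
    | smul q a _ ha =>
      have : F (q • a) - t • (q • a) = q • (F a - t • a) := by
        rw [map_smul]; module
      rw [this]; exact N₁.smul_mem _ ha

include hb in
/-- The `N`-side theorem. -/
theorem nside (f : N ≃ₗ⁅ℚ⁆ N) (p : ℤ[X])
    (hp : p.map (Int.castRingHom ℚ) = LinearMap.charpoly f.toLinearEquiv.toLinearMap)
    (h0 : p.coeff 0 = 1 ∨ p.coeff 0 = -1)
    (hz : ∀ z : ℂ, (p.map (Int.castRingHom ℂ)).IsRoot z → ‖z‖ ≠ 1) :
    (∀ α, 2 ≤ (cls G α).card) ∧
      (∀ α β, (cls G α).card = 2 → Eqv G α β → ¬ G.Adj α β) := by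
  classical
  let f' : N →ₗ[ℚ] N := f.toLinearEquiv.toLinearMap
  let g' : N →ₗ[ℚ] N := f.symm.toLinearEquiv.toLinearMap
  have hf : ∀ x y, f' ⁅x, y⁆ = ⁅f' x, f' y⁆ := fun x y => f.map_lie x y
  have hg : ∀ x y, g' ⁅x, y⁆ = ⁅g' x, g' y⁆ := fun x y => f.symm.map_lie x y
  have hfg : ∀ x, f' (g' x) = x := fun x => f.apply_symm_apply x
  have hno : ∀ q : ℕ, 0 < q → ∀ (t : ℚ) (x : N), x ≠ 0 → (f' ^ q) x = t • x → False := by
    intro q hq t x hx hfx
    exact no_rat_eig b f' p (by rw [hp, LinearMap.charpoly_toMatrix]) h0 hz q hq t x hx hfx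
  constructor
  · intro α
    by_contra hcon
    have h1 : (cls G α).card = 1 := by
      have : 0 < (cls G α).card := Finset.card_pos.mpr ⟨α, mem_cls.mpr (Eqv.refl α)⟩
      omega
    have hcls : ∀ β, Eqv G β α → β = α := by
      obtain ⟨γ, hγ⟩ := Finset.card_eq_one.mp h1
      intro β hβ
      have h2 : β ∈ cls G α := mem_cls.mpr hβ
      have h3 : α ∈ cls G α := mem_cls.mpr (Eqv.refl α)
      rw [hγ, Finset.mem_singleton] at h2 h3
      rw [h2, h3]
    obtain ⟨q, hq, hD, hD'⟩ := nside_aux hb f' g' hf hg hfg α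
    obtain ⟨t, x, hx, hfx⟩ := nside_one hb (f' ^ q) α hcls hD hD'
    exact hno q hq t x hx hfx
  · intro α β hcard hαβ hadj
    have hcls : ∀ γ, Eqv G γ α → γ = α ∨ γ = β := by
      intro γ hγ
      by_contra hcon
      push Not at hcon
      have h1 : ({α, β, γ} : Finset (Fin n)) ⊆ cls G α := by
        intro x hx
        simp only [Finset.mem_insert, Finset.mem_singleton] at hx
        rw [mem_cls]
        rcases hx with rfl | rfl | rfl
        · exact Eqv.refl _
        · exact hαβ.symm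
        · exact hγ
      have h2 := Finset.card_le_card h1
      have h3 : ({α, β, γ} : Finset (Fin n)).card = 3 := by
        rw [Finset.card_eq_three]
        exact ⟨α, β, γ, hadj.ne, hcon.1.symm, hcon.2.symm, rfl⟩
      omega
    obtain ⟨q, hq, hD, hD'⟩ := nside_aux hb f' g' hf hg hfg α
    obtain ⟨t, x, hx, hfx⟩ := nside_two hb (f' ^ q) (pow_lie f' hf q) α β hadj hαβ.symm hcls hD hD'
    exact hno q hq t x hx hfx

end

end Run7.h480.Anosov
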