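import Pool.Agent.Run7.h480.ABlocks

/-! Diagonalisation of a semisimple scalar-block element inside the incidence algebra. -/

set_option linter.unusedSectionVars false
set_option linter.unusedSimpArgs false

namespace Run7.h480.Anosov

open Matrix Polynomial

variable {n : ℕ} {G : SimpleGraph (Fin n)} {K : Type*} [Field K]

open Classical in
theorem sb_minpoly {s : Matrix (Fin n) (Fin n) K} (hs : s ∈ SB G K) {μ : K[X]}
    (hsq : Squarefree μ) (hμ : aeval s μ = 0) :
    aeval s (∏ c ∈ Finset.univ.image (fun α => s α α), (X - C c)) = 0 := by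
  set vals := Finset.univ.image (fun α => s α α) with hvals
  have hroot : ∀ c ∈ vals, μ.eval c = 0 := by
    intro c hc
    obtain ⟨α, -, rfl⟩ := Finset.mem_image.mp hc
    rw [← aeval_sb_diag hs μ α, hμ]; simp
  have hdvd : (∏ c ∈ vals, (X - C c)) ∣ μ := by
    apply Finset.prod_dvd_of_coprime
    · intro a _ b _ hab
      exact Polynomial.isCoprime_X_sub_C_of_isUnit_sub (sub_ne_zero.mpr hab).isUnit
    · intro c hc
      exact dvd_iff_isRoot.mpr (hroot c hc)
  obtain ⟨h, hh⟩ := hdvd
  have hh0 : ∀ c ∈ vals, h.eval c ≠ 0 := by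
    intro c hc h0
    have h1 : (X - C c) ∣ h := dvd_iff_isRoot.mpr h0
    have h2 : (X - C c) ∣ ∏ c ∈ vals, (X - C c) := Finset.dvd_prod_of_mem _ hc
    have h3 : (X - C c) * (X - C c) ∣ μ := by rw [hh]; exact mul_dvd_mul h2 h1
    exact not_isUnit_X_sub_C c (hsq _ h3)
  have hu : IsUnit (aeval s h) := by
    apply isUnit_of_sb (aeval_mem_sb hs h)
    intro α
    rw [aeval_sb_diag hs h α]
    exact hh0 _ (Finset.mem_image_of_mem _ (Finset.mem_univ α))
  have h4 : aeval s (∏ c ∈ vals, (X - C c)) * aeval s h = 0 := by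
    rw [← map_mul, ← hh, hμ]
  exact (hu.mul_left_eq_zero).mp h4

open Classical in
theorem sb_diagonalize {s : Matrix (Fin n) (Fin n) K} (hs : s ∈ SB G K) {μ : K[X]}
    (hsq : Squarefree μ) (hμ : aeval s μ = 0) :
    ∃ u ∈ SB G K, IsUnit u ∧ s * u = u * Matrix.diagonal (fun α => s α α) := by
  set vals := Finset.univ.image (fun α => s α α) with hvals
  have hm := sb_minpoly hs hsq hμ
  rw [← hvals] at hm
  have hmem : ∀ α, s α α ∈ vals := fun α => Finset.mem_image_of_mem _ (Finset.mem_univ α)
  let L : Fin n → K[X] := fun α => Lagrange.basis vals id (s α α)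
  have hL1 : ∀ α, (L α).eval (s α α) = 1 := fun α => by
    have := Lagrange.eval_basis_self (s := vals) (v := id) (i := s α α)
      (Function.injective_id.injOn) (hmem α)
    simpa using this
  have hL2 : ∀ α, s * aeval s (L α) = (s α α) • aeval s (L α) := by
    intro α
    have h1 : (∏ c ∈ vals, (X - C c)) ∣ (X - C (s α α)) * L α := by
      refine Finset.prod_dvd_of_coprime ?_ ?_
      · intro a _ b _ hab
        exact Polynomial.isCoprime_X_sub_C_of_isUnit_sub (sub_ne_zero.mpr hab).isUnit
      · intro c hc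
        rw [dvd_iff_isRoot, IsRoot.def, eval_mul]
        by_cases h2 : c = s α α
        · rw [h2]; simp
        · have := Lagrange.eval_basis_of_ne (s := vals) (v := id) (i := s α α) (j := c)
            (Ne.symm h2) hc
          simp only [id] at this
          rw [show (L α).eval c = 0 from this, mul_zero]
    obtain ⟨g, hg⟩ := h1
    have h2 : aeval s ((X - C (s α α)) * L α) = 0 := by rw [hg, map_mul, hm, zero_mul]
    rw [map_mul, map_sub, aeval_X, aeval_C, sub_mul, sub_eq_zero] at h2
    rw [h2, Algebra.smul_def]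
  let u : Matrix (Fin n) (Fin n) K := Matrix.of fun β α => (aeval s (L α)) β α
  have hu : u ∈ SB G K := by
    refine ⟨fun β α h => (aeval_mem_sb hs (L α)).1 β α h, fun α β h => ⟨fun hne => ?_, ?_⟩⟩
    · exact ((aeval_mem_sb hs (L β)).2 α β h).1 hne
    · change (aeval s (L α)) α α = (aeval s (L β)) β β
      rw [aeval_sb_diag hs, aeval_sb_diag hs, hL1, hL1]
  refine ⟨u, hu, isUnit_of_sb hu fun α => ?_, ?_⟩
  · change (aeval s (L α)) α α ≠ 0
    rw [aeval_sb_diag hs, hL1]; exact one_ne_zero
  · ext β α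
    rw [Matrix.mul_diagonal]
    have h1 : (s * u) β α = (s * aeval s (L α)) β α := by
      rw [mul_apply, mul_apply]; rfl
    rw [h1, hL2, Matrix.smul_apply, smul_eq_mul, mul_comm]
    rfl

end Run7.h480.Anosov
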