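import Pool.Agent.Run7.h480.ADescent

/-! Rational semisimple elements with scalar blocks. -/

set_option linter.unusedSectionVars false
set_option linter.unusedSimpArgs false

namespace Run7.h480.Anosov

noncomputable section

open Matrix Polynomial

variable {n : ℕ} {G : SimpleGraph (Fin n)} {ι κ : Type} [Fintype ι] [DecidableEq ι] [Fintype κ]

theorem single_mem_inc {α β : Fin n} (h : Le G β α) :
    Matrix.single β α (1 : ℝ) ∈ Inc G ℝ := by
  intro b a hba
  rw [Matrix.single_apply, if_neg]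
  rintro ⟨rfl, rfl⟩
  exact hba h

namespace RData

variable (R : RData G ι κ)

theorem trace_step (x z : Matrix ι ι ℝ)
    (h : ∀ y ∈ R.DQ, (x * (toR y * z - z * toR y)).trace = 0) {y : Matrix (Fin n) (Fin n) ℝ}
    (hy : y ∈ Inc G ℝ) : (x * (R.jc y * z - z * R.jc y)).trace = 0 := by
  let T : Matrix ι ι ℝ →ₗ[ℝ] ℝ := (Matrix.traceLinearMap ι ℝ ℝ) ∘ₗ (LinearMap.mulLeft ℝ x) ∘ₗ
    (LinearMap.mulRight ℝ z - LinearMap.mulLeft ℝ z)
  have hT : ∀ Y, T Y = (x * (Y * z - z * Y)).trace := fun Y => rfl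
  have : R.jc y ∈ LinearMap.ker T := by
    apply span_expand
    intro π
    rw [LinearMap.mem_ker, hT]
    apply h
    exact R.slice_mem_inc (by rw [R.cj_jc]; exact hy) π
  rw [LinearMap.mem_ker, hT] at this
  exact this

theorem trace_CQ {x : Matrix ι ι ℚ} (hx : x ∈ R.CQ) {y z : Matrix (Fin n) (Fin n) ℝ}
    (hy : y ∈ Inc G ℝ) (hz : z ∈ Inc G ℝ) : (R.rho x * (y * z - z * y)).trace = 0 := by
  have h1 : ∀ y ∈ R.DQ, ∀ z ∈ R.DQ, (toR x * (toR y * toR z - toR z * toR y)).trace = 0 := by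
    intro y hy z hz
    have h := hx.2 y hy z hz
    have h2 : (toR (x * (y * z - z * y))).trace = 0 := by
      have := congrArg (algebraMap ℚ ℝ) h
      rw [map_zero] at this
      rw [← this, toR, Matrix.trace, Matrix.trace, map_sum]
      rfl
    rw [← h2]
    congr 1
    change _ = (x * (y * z - z * y)).map (algebraMap ℚ ℝ)
    rw [Matrix.map_mul, Matrix.map_sub _ (map_sub (algebraMap ℚ ℝ)), Matrix.map_mul,
      Matrix.map_mul]
  have h2 : ∀ z ∈ R.DQ, ∀ y ∈ Inc G ℝ, (toR x * (R.jc y * toR z - toR z * R.jc y)).trace = 0 :=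
    fun z hz y hy => R.trace_step (toR x) (toR z) (fun y hy => h1 y hy z hz) hy
  have h3 : (toR x * (R.jc z * R.jc y - R.jc y * R.jc z)).trace = 0 := by
    apply R.trace_step (toR x) (R.jc y) _ hz
    intro z hz
    have := h2 z hz y hy
    rw [← neg_sub, Matrix.mul_neg, Matrix.trace_neg, this, neg_zero]
  rw [← R.trace_cj, R.cj_mul, R.cj_sub, R.cj_mul, R.cj_mul, R.cj_jc, R.cj_jc] at h3
  rw [← neg_sub, Matrix.mul_neg, Matrix.trace_neg, neg_eq_zero]
  exact h3

theorem rho_mem_sb {x : Matrix ι ι ℚ} (hx : x ∈ R.CQ) : R.rho x ∈ SB G ℝ := by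
  refine ⟨hx.1, fun α β h => ⟨fun hne => ?_, ?_⟩⟩
  · have h1 := R.trace_CQ hx (single_mem_inc (Le.refl G β)) (single_mem_inc h.2)
    simpa [Matrix.trace_mul_single, hne, Ne.symm hne, Matrix.single_mul_single_of_ne] using h1
  · have h1 := R.trace_CQ hx (single_mem_inc h.1) (single_mem_inc h.2)
    simp only [Matrix.single_mul_single_same, mul_one, Matrix.mul_sub, Matrix.trace_sub,
      Matrix.trace_mul_single] at h1
    simpa [sub_eq_zero] using h1

end RData

theorem trace_diag_comm (d : Fin n → ℝ) (hd : ∀ α β, Eqv G α β → d α = d β)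
    {y z : Matrix (Fin n) (Fin n) ℝ} (hy : y ∈ Inc G ℝ) (hz : z ∈ Inc G ℝ) :
    (Matrix.diagonal d * (y * z - z * y)).trace = 0 := by
  rw [Matrix.mul_sub, Matrix.trace_sub, sub_eq_zero]
  have e : ∀ w : Matrix (Fin n) (Fin n) ℝ, (Matrix.diagonal d * w).trace = ∑ a, d a * w a a := by
    intro w
    simp [Matrix.trace, Matrix.diagonal_mul]
  rw [e, e]
  simp only [Matrix.mul_apply, Finset.mul_sum]
  conv_rhs => rw [Finset.sum_comm]
  refine Finset.sum_congr rfl fun a _ => Finset.sum_congr rfl fun b _ => ?_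
  by_cases h1 : Le G a b
  · by_cases h2 : Le G b a
    · rw [hd a b ⟨h1, h2⟩]; ring
    · rw [hz b a h2]; ring
  · rw [hy a b h1]; ring

namespace RData

variable (R : RData G ι κ)

open Classical in
theorem exists_sep_pair {α β : Fin n} (h : ¬ Eqv G α β) :
    ∃ x ∈ R.CQ, R.rho x α α ≠ R.rho x β β := by
  by_contra hcon
  push Not at hcon
  let d : Fin n → ℝ := fun γ => if Eqv G γ α then 1 else 0
  have hd : ∀ a b, Eqv G a b → d a = d b := by
    intro a b hab
    simp only [d]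
    by_cases h1 : Eqv G a α
    · rw [if_pos h1, if_pos (hab.symm.trans h1)]
    · rw [if_neg h1, if_neg (fun h2 => h1 (hab.trans h2))]
  have hdI : Matrix.diagonal d ∈ Inc G ℝ := by
    intro a b hab
    rw [Matrix.diagonal_apply, if_neg]
    rintro rfl
    exact hab (Le.refl G _)
  let T : Matrix ι ι ℝ →ₗ[ℝ] ℝ :=
    { toFun := fun X => R.cj X α α - R.cj X β β
      map_add' := fun X Y => by rw [R.cj_add]; simp only [Matrix.add_apply]; ring
      map_smul' := fun c X => by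
        rw [R.cj_smul]; simp only [Matrix.smul_apply, smul_eq_mul, RingHom.id_apply]; ring }
  have : R.jc (Matrix.diagonal d) ∈ LinearMap.ker T := by
    apply span_expand
    intro π
    rw [LinearMap.mem_ker]
    have h1 : (R.jc (Matrix.diagonal d)).map π ∈ R.CQ := by
      apply R.slice_mem_CQ
      · rw [R.cj_jc]; exact hdI
      · intro y hy z hz
        rw [R.cj_jc]
        exact trace_diag_comm d hd hy hz
    exact sub_eq_zero.mpr (hcon _ h1)
  rw [LinearMap.mem_ker] at this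
  have h2 : (Matrix.diagonal d) α α - (Matrix.diagonal d) β β = 0 := by
    rw [← R.cj_jc (Matrix.diagonal d)]; exact this
  rw [Matrix.diagonal_apply_eq, Matrix.diagonal_apply_eq] at h2
  simp only [d] at h2
  rw [if_pos (Eqv.refl α), if_neg (fun h' => h h'.symm)] at h2
  norm_num at h2

open Classical in
theorem exists_sep : ∃ x ∈ R.CQ, ∀ α β, ¬ Eqv G α β → R.rho x α α ≠ R.rho x β β := by
  let T : Fin n × Fin n → (R.CQ →ₗ[ℚ] ℝ) := fun p =>
    { toFun := fun x => R.rho x.1 p.1 p.1 - R.rho x.1 p.2 p.2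
      map_add' := fun x y => by
        simp only [Submodule.coe_add, map_add, Matrix.add_apply]; ring
      map_smul' := fun c x => by
        simp only [Submodule.coe_smul, map_smul, Matrix.smul_apply, RingHom.id_apply, smul_sub] }
  let S : Finset (Subspace ℚ R.CQ) :=
    (Finset.univ.filter (fun p : Fin n × Fin n => ¬ Eqv G p.1 p.2)).image
      (fun p => LinearMap.ker (T p))
  have hS : ⊤ ∉ S := by
    intro htop
    obtain ⟨p, hp, hp'⟩ := Finset.mem_image.mp htop
    have hp1 : ¬ Eqv G p.1 p.2 := (Finset.mem_filter.mp hp).2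
    obtain ⟨x, hx, hx'⟩ := R.exists_sep_pair hp1
    have : (⟨x, hx⟩ : R.CQ) ∈ LinearMap.ker (T p) := by rw [hp']; trivial
    rw [LinearMap.mem_ker] at this
    exact hx' (sub_eq_zero.mp this)
  have h1 := Subspace.biUnion_ne_univ_of_top_notMem hS
  obtain ⟨x, hx⟩ := (Set.ne_univ_iff_exists_notMem _).mp h1
  refine ⟨x.1, x.2, fun α β hαβ h2 => hx ?_⟩
  refine Set.mem_biUnion (x := LinearMap.ker (T (α, β))) ?_ ?_
  · exact Finset.mem_coe.mpr (Finset.mem_image.mpr ⟨(α, β), by simp [hαβ], rfl⟩)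
  · exact LinearMap.mem_ker.mpr (sub_eq_zero.mpr h2)

theorem one_mem_CQ : (1 : Matrix ι ι ℚ) ∈ R.CQ := by
  refine ⟨R.DQ.one_mem, fun y _ z _ => ?_⟩
  rw [Matrix.one_mul, Matrix.trace_sub, Matrix.trace_mul_comm, sub_self]

theorem integral_diag {x : Matrix ι ι ℚ} (hx : x ∈ R.CQ) (z : Matrix ι ι ℤ)
    (hz : x = z.map (Int.castRingHom ℚ)) (α : Fin n) : IsIntegral ℤ (R.rho x α α) := by
  refine ⟨z.charpoly, Matrix.charpoly_monic z, ?_⟩
  have h1 : aeval z z.charpoly = 0 := Matrix.aeval_self_charpoly z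
  let φ : Matrix ι ι ℤ →+* Matrix (Fin n) (Fin n) ℝ :=
    R.rho.toRingHom.comp (Int.castRingHom ℚ).mapMatrix
  have hφ : φ z = R.rho x := by rw [hz]; rfl
  have h2 : φ (aeval z z.charpoly) = aeval (R.rho x) (z.charpoly.map (Int.castRingHom ℝ)) := by
    rw [← hφ]
    change (φ.toIntAlgHom) (aeval z z.charpoly) = _
    rw [← Polynomial.aeval_algHom_apply]
    rw [show (Int.castRingHom ℝ) = algebraMap ℤ ℝ from rfl, Polynomial.aeval_map_algebraMap]
    rfl
  rw [h1, map_zero] at h2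
  have h3 := aeval_sb_diag (R.rho_mem_sb hx) (z.charpoly.map (Int.castRingHom ℝ)) α
  rw [← h2, eval_map] at h3
  exact h3.symm

/-- Scaled and shifted separating element. -/
theorem exists_sep_int : ∃ x ∈ R.CQ, (∀ α β, ¬ Eqv G α β → R.rho x α α ≠ R.rho x β β) ∧
    ∀ α, IsIntegral ℤ (R.rho x α α) ∧ 8 ≤ R.rho x α α := by
  obtain ⟨e, he, hsep⟩ := R.exists_sep
  let D : ℕ := ∏ i, ∏ j, (e i j).den
  have hD0 : D ≠ 0 := by
    simp only [D]
    exact Finset.prod_ne_zero_iff.mpr fun i _ => Finset.prod_ne_zero_iff.mpr fun j _ =>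
      (e i j).den_nz
  have hDdvd : ∀ i j, (e i j).den ∣ D := fun i j =>
    (Finset.dvd_prod_of_mem (fun j => (e i j).den) (Finset.mem_univ j)).trans
      (Finset.dvd_prod_of_mem (fun i => ∏ j, (e i j).den) (Finset.mem_univ i))
  have hint : ∀ i j, ∃ m : ℤ, (D : ℚ) * e i j = m := by
    intro i j
    obtain ⟨k, hk⟩ := hDdvd i j
    refine ⟨k * (e i j).num, ?_⟩
    rw [hk]
    push_cast
    have h1 : ((e i j).den : ℚ) * e i j = (e i j).num := by
      rw [mul_comm]; exact Rat.mul_den_eq_num _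
    rw [mul_comm ((e i j).den : ℚ) (k : ℚ), mul_assoc, h1]
  choose z hz using hint
  obtain ⟨M₀, hM₀⟩ : ∃ M₀ : ℕ, ∀ α, 8 - (D : ℝ) * R.rho e α α ≤ M₀ := by
    obtain ⟨b, hb⟩ := (Set.finite_range (fun α => 8 - (D : ℝ) * R.rho e α α)).bddAbove
    obtain ⟨M₀, hM₀⟩ := exists_nat_ge b
    exact ⟨M₀, fun α => (hb ⟨α, rfl⟩).trans hM₀⟩
  let x : Matrix ι ι ℚ := (D : ℚ) • e + (M₀ : ℚ) • 1
  have hx : x ∈ R.CQ := R.CQ.add_mem (R.CQ.smul_mem _ he) (R.CQ.smul_mem _ R.one_mem_CQ)
  have hxz : x = (Matrix.of z + (M₀ : ℤ) • (1 : Matrix ι ι ℤ)).map (Int.castRingHom ℚ) := by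
    ext i j
    simp only [x, Matrix.add_apply, Matrix.smul_apply, smul_eq_mul, Matrix.map_apply, hz i j,
      Matrix.of_apply, Matrix.one_apply]
    split_ifs <;> simp
  have hval : ∀ α, R.rho x α α = (D : ℝ) * R.rho e α α + M₀ := by
    intro α
    simp only [x, map_add, map_smul, map_one, Matrix.add_apply, Matrix.smul_apply,
      Matrix.one_apply_eq]
    rw [Rat.smul_def, Rat.smul_def]
    push_cast
    ring
  refine ⟨x, hx, fun α β h h' => hsep α β h ?_, fun α => ⟨R.integral_diag hx _ hxz α, ?_⟩⟩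
  · rw [hval, hval] at h'
    have h1 : (D : ℝ) * R.rho e α α = (D : ℝ) * R.rho e β β := by linarith
    exact mul_left_cancel₀ (Nat.cast_ne_zero.mpr hD0) h1
  · rw [hval]
    have := hM₀ α
    linarith

/-- The semisimple part. -/
theorem exists_ss : ∃ s : Matrix ι ι ℚ, R.rho s ∈ SB G ℝ ∧ (∃ μ : ℚ[X], Squarefree μ ∧
    aeval s μ = 0) ∧ (∀ α β, ¬ Eqv G α β → R.rho s α α ≠ R.rho s β β) ∧
    ∀ α, IsIntegral ℤ (R.rho s α α) ∧ 8 ≤ R.rho s α α := by
  obtain ⟨e, he, hsep, hintbig⟩ := R.exists_sep_int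
  have heSB := R.rho_mem_sb he
  obtain ⟨ν, hν, s, hs, hnil, hss, hsum⟩ :=
    Module.End.exists_isNilpotent_isSemisimple (f := Matrix.toLin' e)
  obtain ⟨p, hp⟩ : ∃ p : ℚ[X], aeval (Matrix.toLin' e) p = s := by
    rw [Algebra.adjoin_singleton_eq_range_aeval] at hs
    exact hs
  let s0 : Matrix ι ι ℚ := aeval e p
  have hs0 : Matrix.toLinAlgEquiv' s0 = s := by
    rw [← hp]
    exact (Polynomial.aeval_algHom_apply (Matrix.toLinAlgEquiv' (R := ℚ) (n := ι)).toAlgHom e p).symm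
  let A : Subalgebra ℚ (Matrix ι ι ℚ) := ((SB G ℝ).restrictScalars ℚ).comap R.rho
  have heA : e ∈ A := heSB
  have hs0A : s0 ∈ A := by
    have : Algebra.adjoin ℚ {e} ≤ A := Algebra.adjoin_le (by simpa using heA)
    exact this (Polynomial.aeval_mem_adjoin_singleton ℚ e)
  have hnil' : IsNilpotent (e - s0) := by
    have h1 : Matrix.toLinAlgEquiv' (e - s0) = ν := by
      rw [map_sub, hs0]
      change Matrix.toLin' e - s = ν
      rw [hsum]; simp
    rw [← h1] at hnil
    obtain ⟨k, hk⟩ := hnil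
    refine ⟨k, ?_⟩
    rw [← map_pow] at hk
    exact (Matrix.toLinAlgEquiv' (R := ℚ) (n := ι)).injective (by rw [hk, map_zero])
  refine ⟨s0, hs0A, ⟨minpoly ℚ s, hss.minpoly_squarefree, ?_⟩, ?_⟩
  · apply (Matrix.toLinAlgEquiv' (R := ℚ) (n := ι)).injective
    rw [map_zero]
    have h1 := Polynomial.aeval_algHom_apply (Matrix.toLinAlgEquiv' (R := ℚ) (n := ι)).toAlgHom s0
      (minpoly ℚ s)
    have h2 : aeval s (minpoly ℚ s) = 0 := minpoly.aeval ℚ s
    rw [show (Matrix.toLinAlgEquiv' (R := ℚ) (n := ι)).toAlgHom s0 = s from hs0, h2] at h1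
    exact h1.symm
  · have hdiag : ∀ α, R.rho e α α = R.rho s0 α α := by
      intro α
      obtain ⟨k, hk⟩ := hnil'
      have hmem : R.rho (e - s0) ∈ SB G ℝ := A.sub_mem heA hs0A
      have h1 : (R.rho (e - s0)) ^ k = 0 := by rw [← map_pow, hk, map_zero]
      have h2 := aeval_sb_diag hmem (X ^ k : ℝ[X]) α
      rw [map_pow, aeval_X, h1, eval_pow, eval_X] at h2
      have h3 : (R.rho (e - s0)) α α = 0 := eq_zero_of_pow_eq_zero h2.symm
      rw [map_sub, Matrix.sub_apply] at h3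
      exact sub_eq_zero.mp h3
    refine ⟨fun α β h => ?_, fun α => ?_⟩
    · rw [← hdiag, ← hdiag]
      exact hsep α β h
    · rw [← hdiag]
      exact hintbig α

end RData

end

end Run7.h480.Anosov
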