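import Mathlib

set_option autoImplicit false

namespace Run7.h480.Ord

/-- the rational vector space with basis `e 0, e 1, ...` -/
abbrev W := ℕ →₀ ℚ

/-- Fermat numbers: the multiplicatively independent bases of the real embedding -/
def fer (i : ℕ) : ℕ := 2 ^ (2 ^ i) + 1

lemma fer_eq (i : ℕ) : fer i = Nat.fermatNumber i := rfl

lemma fer_pos (i : ℕ) : 0 < fer i := by unfold fer; positivity

lemma one_lt_fer (i : ℕ) : 1 < fer i := by
  unfold fer
  have : 0 < 2 ^ (2 ^ i) := by positivity
  omega

def pr (u : List ℕ) : ℕ := (u.map fer).prod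

@[simp] lemma pr_nil : pr [] = 1 := rfl

@[simp] lemma pr_cons (i : ℕ) (u : List ℕ) : pr (i :: u) = fer i * pr u := by
  simp [pr]

lemma pr_append (u v : List ℕ) : pr (u ++ v) = pr u * pr v := by
  simp [pr]

lemma pr_pos (u : List ℕ) : 0 < pr u := by
  induction u with
  | nil => simp
  | cons i u ih => rw [pr_cons]; exact Nat.mul_pos (fer_pos i) ih

noncomputable def e (i : ℕ) : W := Finsupp.single i (1 : ℚ)

noncomputable def vec (u : List ℕ) : W := (u.map e).sum

@[simp] lemma vec_nil : vec [] = 0 := rfl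

@[simp] lemma vec_cons (i : ℕ) (u : List ℕ) : vec (i :: u) = e i + vec u := by
  simp [vec]

lemma vec_append (u v : List ℕ) : vec (u ++ v) = vec u + vec v := by
  simp [vec]

/-- the real embedding -/
noncomputable def r : W →ₗ[ℚ] ℝ := Finsupp.linearCombination ℚ (fun i => Real.log (fer i))

@[simp] lemma r_e (i : ℕ) : r (e i) = Real.log (fer i) := by
  simp [r, e]

lemma r_vec (u : List ℕ) : r (vec u) = Real.log (pr u) := by
  induction u with
  | nil => simp
  | cons i u ih =>
      rw [vec_cons, map_add, ih, r_e, pr_cons, Nat.cast_mul, Real.log_mul]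
      · exact_mod_cast (fer_pos i).ne'
      · exact_mod_cast (pr_pos u).ne'

/-- integral vectors -/
noncomputable def zvec (u : List ℕ) : ℕ →₀ ℤ := (u.map (fun i => Finsupp.single i (1 : ℤ))).sum

@[simp] lemma zvec_nil : zvec [] = 0 := rfl

@[simp] lemma zvec_cons (i : ℕ) (u : List ℕ) : zvec (i :: u) = Finsupp.single i 1 + zvec u := by
  simp [zvec]

lemma zvec_append (u v : List ℕ) : zvec (u ++ v) = zvec u + zvec v := by
  simp [zvec]

lemma zvec_flatMap {α : Type*} (l : List α) (f : α → List ℕ) :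
    zvec (l.flatMap f) = (l.map (fun a => zvec (f a))).sum := by
  induction l with
  | nil => simp
  | cons a l ih => simp [List.flatMap_cons, zvec_append, ih]

lemma vec_flatMap {α : Type*} (l : List α) (f : α → List ℕ) :
    vec (l.flatMap f) = (l.map (fun a => vec (f a))).sum := by
  induction l with
  | nil => simp
  | cons a l ih => simp [List.flatMap_cons, vec_append, ih]

lemma zvec_replicate (n i : ℕ) : zvec (List.replicate n i) = Finsupp.single i (n : ℤ) := by
  induction n with
  | zero => simp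
  | succ n ih =>
      rw [List.replicate_succ, zvec_cons, ih, ← Finsupp.single_add]
      congr 1
      push_cast
      ring

noncomputable def iota : (ℕ →₀ ℤ) →+ W := Finsupp.mapRange.addMonoidHom (Int.castAddHom ℚ)

lemma iota_apply (z : ℕ →₀ ℤ) (i : ℕ) : iota z i = (z i : ℚ) := by
  simp [iota]

lemma iota_inj {z z' : ℕ →₀ ℤ} (h : iota z = iota z') : z = z' := by
  ext i
  have := DFunLike.congr_fun h i
  rw [iota_apply, iota_apply] at this
  exact_mod_cast this

lemma iota_single (i : ℕ) (c : ℤ) : iota (Finsupp.single i c) = (c : ℚ) • e i := by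
  ext j
  rw [iota_apply]
  by_cases h : i = j
  · subst h; simp [e]
  · simp [e, Finsupp.single_apply, h]

lemma iota_zvec (u : List ℕ) : iota (zvec u) = vec u := by
  induction u with
  | nil => simp
  | cons i u ih => rw [zvec_cons, map_add, ih, vec_cons, iota_single]; simp

lemma exists_lists (z : ℕ →₀ ℤ) : ∃ u v : List ℕ, z = zvec u - zvec v ∧
    (∀ i ∈ u, 0 < z i) ∧ (∀ i ∈ v, z i < 0) := by
  refine ⟨z.support.toList.flatMap (fun i => List.replicate (z i).toNat i),
    z.support.toList.flatMap (fun i => List.replicate (-(z i)).toNat i), ?_, ?_, ?_⟩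
  · rw [zvec_flatMap, zvec_flatMap, Finset.sum_map_toList, Finset.sum_map_toList,
      ← Finset.sum_sub_distrib]
    conv_lhs => rw [← Finsupp.sum_single z]
    unfold Finsupp.sum
    refine Finset.sum_congr rfl fun i _ => ?_
    rw [zvec_replicate, zvec_replicate, ← Finsupp.single_sub]
    congr 1
    exact (Int.toNat_sub_toNat_neg (z i)).symm
  · intro i hi
    rw [List.mem_flatMap] at hi
    obtain ⟨j, hj, hij⟩ := hi
    rw [List.mem_replicate] at hij
    obtain ⟨h1, rfl⟩ := hij
    omega
  · intro i hi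
    rw [List.mem_flatMap] at hi
    obtain ⟨j, hj, hij⟩ := hi
    rw [List.mem_replicate] at hij
    obtain ⟨h1, rfl⟩ := hij
    omega

/-- common denominators -/
lemma exists_den (w : W) : ∃ N : ℕ, 0 < N ∧ ∃ z : ℕ →₀ ℤ, (N : ℚ) • w = iota z := by
  induction w using Finsupp.induction_linear with
  | zero => exact ⟨1, one_pos, 0, by simp⟩
  | add f g hf hg =>
      obtain ⟨N, hN, z, hz⟩ := hf
      obtain ⟨M, hM, y, hy⟩ := hg
      refine ⟨N * M, Nat.mul_pos hN hM, M • z + N • y, ?_⟩
      rw [map_add, map_nsmul, map_nsmul, ← hz, ← hy]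
      push_cast
      rw [smul_add]
      congr 1
      · rw [← Nat.cast_smul_eq_nsmul ℚ, smul_smul]; ring_nf
      · rw [← Nat.cast_smul_eq_nsmul ℚ, smul_smul]
  | single i q =>
      refine ⟨q.den, q.den_pos, Finsupp.single i q.num, ?_⟩
      rw [iota_single, e, Finsupp.smul_single, Finsupp.smul_single]
      congr 1
      simp only [smul_eq_mul, mul_one]
      rw [mul_comm]
      exact Rat.mul_den_eq_num q

lemma exists_rat_lists (w : W) : ∃ N : ℕ, 0 < N ∧ ∃ u v : List ℕ, (N : ℚ) • w = vec u - vec v ∧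
    (∀ i ∈ u, 0 < w i) ∧ (∀ i ∈ v, w i < 0) := by
  obtain ⟨N, hN, z, hz⟩ := exists_den w
  obtain ⟨u, v, h, hu, hv⟩ := exists_lists z
  have key : ∀ i, (N : ℚ) * w i = z i := by
    intro i
    have := DFunLike.congr_fun hz i
    rwa [iota_apply, Finsupp.smul_apply, smul_eq_mul] at this
  have hN' : (0 : ℚ) < N := by exact_mod_cast hN
  refine ⟨N, hN, u, v, ?_, ?_, ?_⟩
  · rw [hz, h, map_sub, iota_zvec, iota_zvec]
  · intro i hi
    have h1 := hu i hi
    have h2 : (0 : ℚ) < N * w i := by rw [key]; exact_mod_cast h1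
    exact (mul_pos_iff_of_pos_left hN').1 h2
  · intro i hi
    have h1 := hv i hi
    have h2 : (N : ℚ) * w i < 0 := by rw [key]; exact_mod_cast h1
    by_contra hc
    push Not at hc
    have := mul_nonneg hN'.le hc
    linarith

lemma fer_coprime {i j : ℕ} (h : i ≠ j) : Nat.Coprime (fer i) (fer j) :=
  Nat.coprime_fermatNumber_fermatNumber h

lemma fer_coprime_pr {i : ℕ} {v : List ℕ} (h : i ∉ v) : Nat.Coprime (fer i) (pr v) := by
  induction v with
  | nil => simp
  | cons j v ih =>
      rw [pr_cons]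
      rw [List.mem_cons, not_or] at h
      exact Nat.Coprime.mul_right (fer_coprime h.1) (ih h.2)

lemma nil_of_pr_eq {u v : List ℕ} (hd : ∀ i ∈ u, i ∉ v) (h : pr u = pr v) : u = [] := by
  cases u with
  | nil => rfl
  | cons i u =>
      exfalso
      have h1 := fer_coprime_pr (hd i (by simp))
      rw [← h, pr_cons] at h1
      have h2 : fer i ∣ 1 := by
        have := Nat.Coprime.dvd_of_dvd_mul_left (k := fer i) (m := fer i * pr u) (n := 1) h1
          (by simp)
        exact this
      have := one_lt_fer i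
      have := Nat.le_of_dvd one_pos h2
      omega

lemma r_inj {w : W} (h : r w = 0) : w = 0 := by
  obtain ⟨N, hN, u, v, h1, hu, hv⟩ := exists_rat_lists w
  have h2 : r (vec u - vec v) = 0 := by
    rw [← h1, map_smul, h, smul_zero]
  rw [map_sub, r_vec, r_vec, sub_eq_zero] at h2
  have h3 : (pr u : ℝ) = pr v := by
    have hu' : (0 : ℝ) < pr u := by exact_mod_cast pr_pos u
    have hv' : (0 : ℝ) < pr v := by exact_mod_cast pr_pos v
    exact Real.log_injOn_pos hu' hv' h2
  have h4 : pr u = pr v := by exact_mod_cast h3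
  have hd : ∀ i ∈ u, i ∉ v := by
    intro i hi hi'
    have := hu i hi
    have := hv i hi'
    linarith
  have hu0 := nil_of_pr_eq hd h4
  have hv0 := nil_of_pr_eq (u := v) (v := u) (fun i hi hi' => hd i hi' hi) h4.symm
  rw [hu0, hv0] at h1
  have hN' : (N : ℚ) ≠ 0 := by exact_mod_cast hN.ne'
  simpa [hN'] using h1

lemma r_ne {w : W} (h : w ≠ 0) : r w ≠ 0 := fun h' => h (r_inj h')

/-- the subspace of the levels below `j` -/
noncomputable def V (j : ℕ) : Submodule ℚ W := Finsupp.supported ℚ ℚ {i | i < j}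

lemma mem_V {j : ℕ} {w : W} : w ∈ V j ↔ ∀ i, w i ≠ 0 → i < j := by
  unfold V
  rw [Finsupp.mem_supported]
  constructor
  · intro h i hi
    exact h (by simpa using hi)
  · intro h i hi
    exact h i (by simpa using hi)

lemma mem_V' {j : ℕ} {w : W} : w ∈ V j ↔ ∀ i, j ≤ i → w i = 0 := by
  rw [mem_V]
  constructor
  · intro h i hi
    by_contra hc
    have := h i hc
    omega
  · intro h i hi
    by_contra hc
    exact hi (h i (by omega))

lemma e_mem_V {i j : ℕ} (h : i < j) : e i ∈ V j := by
  rw [mem_V]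
  intro k hk
  by_contra hc
  apply hk
  have : i ≠ k := by omega
  simp [e, Finsupp.single_apply, this]

lemma V_mono {i j : ℕ} (h : i ≤ j) : V i ≤ V j := by
  intro w hw
  rw [mem_V] at *
  intro k hk
  have := hw k hk
  omega

lemma vec_mem_V {u : List ℕ} {j : ℕ} (h : ∀ i ∈ u, i < j) : vec u ∈ V j := by
  induction u with
  | nil => simp
  | cons i u ih =>
      rw [vec_cons]
      refine Submodule.add_mem _ (e_mem_V (h i (by simp))) (ih ?_)
      intro k hk
      exact h k (by simp [hk])

lemma e_not_mem_V (j : ℕ) : e j ∉ V j := by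
  intro h
  rw [mem_V] at h
  have := h j (by simp [e])
  omega

lemma mem_V_of_smul {j N : ℕ} (hN : N ≠ 0) {w : W} (h : (N : ℚ) • w ∈ V j) : w ∈ V j := by
  have hN' : (N : ℚ) ≠ 0 := by exact_mod_cast hN
  have := (V j).smul_mem (N : ℚ)⁻¹ h
  rwa [smul_smul, inv_mul_cancel₀ hN', one_smul] at this

end Run7.h480.Ord
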