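import Mathlib

set_option autoImplicit false

namespace Run7.h480.Ord

/-- a small nonzero value `p α - q β` with `p, q ≥ 1` -/
lemma exists_small {α β : ℝ} (hα : 0 < α) (hβ : 0 < β)
    (hirr : ∀ p q : ℕ, 0 < p → (p : ℝ) * α ≠ q * β) {δ : ℝ} (hδ : 0 < δ) :
    ∃ p q : ℕ, 0 < p ∧ 0 < q ∧ (p : ℝ) * α - q * β ≠ 0 ∧ |(p : ℝ) * α - q * β| < δ := by
  obtain ⟨n, hn⟩ := exists_nat_gt (max (β / δ) (β / α))
  have hn1 : β / δ < n := (le_max_left _ _).trans_lt hn
  have hn2 : β / α < n := (le_max_right _ _).trans_lt hn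
  have hn0 : 0 < n := by
    have : (0 : ℝ) < n := lt_trans (div_pos hβ hδ) hn1
    exact_mod_cast this
  obtain ⟨j, k, hk0, hkn, hjk⟩ := Real.exists_int_int_abs_mul_sub_le (α / β) hn0
  have hn0' : (0 : ℝ) < n := by exact_mod_cast hn0
  have h1 : |(k : ℝ) * α - j * β| ≤ β / (n + 1) := by
    have : (k : ℝ) * α - j * β = β * ((k : ℝ) * (α / β) - j) := by
      field_simp
    rw [this, abs_mul, abs_of_pos hβ]
    calc β * |(k : ℝ) * (α / β) - j| ≤ β * (1 / (n + 1)) := by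
          exact mul_le_mul_of_nonneg_left hjk hβ.le
      _ = β / (n + 1) := by ring
  have h2 : β / (n + 1) < δ := by
    rw [div_lt_iff₀ (by positivity)]
    rw [div_lt_iff₀ hδ] at hn1
    nlinarith
  have h3 : β / (n + 1) < α := by
    rw [div_lt_iff₀ (by positivity)]
    rw [div_lt_iff₀ hα] at hn2
    nlinarith
  have hk1 : (1 : ℝ) ≤ k := by exact_mod_cast hk0
  have hj0 : 0 < j := by
    by_contra hc
    push Not at hc
    have hj : (j : ℝ) ≤ 0 := by exact_mod_cast hc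
    have : α ≤ (k : ℝ) * α - j * β := by nlinarith
    have h4 := le_abs_self ((k : ℝ) * α - j * β)
    linarith
  obtain ⟨p, rfl⟩ := Int.eq_ofNat_of_zero_le hk0.le
  obtain ⟨q, rfl⟩ := Int.eq_ofNat_of_zero_le hj0.le
  have hp : 0 < p := by exact_mod_cast hk0
  have hq : 0 < q := by exact_mod_cast hj0
  refine ⟨p, q, hp, hq, ?_, ?_⟩
  · intro h
    exact hirr p q hp (sub_eq_zero.1 h)
  · have h5 : |(p : ℝ) * α - q * β| ≤ β / (n + 1) := by simpa using h1
    exact lt_of_le_of_lt h5 h2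

/-- density of the values `p α - q β` with `p, q ≥ 1` -/
lemma dens {α β : ℝ} (hα : 0 < α) (hβ : 0 < β)
    (hirr : ∀ p q : ℕ, 0 < p → (p : ℝ) * α ≠ q * β) (t : ℝ) {δ : ℝ} (hδ : 0 < δ) :
    ∃ p q : ℕ, 0 < p ∧ 0 < q ∧ |(p : ℝ) * α - q * β - t| < δ := by
  obtain ⟨p0, q0, hp0, hq0, hne, hlt⟩ := exists_small hα hβ hirr hδ
  set g : ℝ := (p0 : ℝ) * α - q0 * β with hg
  rcases lt_or_gt_of_ne hne with hneg | hpos
  · -- `g < 0`
    rw [abs_of_neg hneg] at hlt
    obtain ⟨p1, hp1⟩ := exists_nat_gt ((|t| + β) / α)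
    have hb : t < (p1 : ℝ) * α - β := by
      rw [div_lt_iff₀ hα] at hp1
      have := le_abs_self t
      linarith
    have hp1' : 0 < p1 := by
      have : (0 : ℝ) < p1 := lt_of_le_of_lt (by positivity) hp1
      exact_mod_cast this
    set b : ℝ := (p1 : ℝ) * α - β
    set m : ℕ := ⌊(b - t) / (-g)⌋₊ with hm
    have hng : 0 < -g := by linarith
    have hq : 0 ≤ (b - t) / (-g) := div_nonneg (by linarith) hng.le
    have h1 : (m : ℝ) ≤ (b - t) / (-g) := Nat.floor_le hq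
    have h2 : (b - t) / (-g) < m + 1 := Nat.lt_floor_add_one _
    rw [le_div_iff₀ hng] at h1
    rw [div_lt_iff₀ hng] at h2
    refine ⟨p1 + m * p0, 1 + m * q0, by omega, by omega, ?_⟩
    have h3 : ((p1 + m * p0 : ℕ) : ℝ) * α - ((1 + m * q0 : ℕ) : ℝ) * β - t = (b - t) + m * g := by
      push_cast
      simp only [b, hg]
      ring
    rw [h3, abs_lt]
    constructor <;> nlinarith
  · rw [abs_of_pos hpos] at hlt
    obtain ⟨q1, hq1⟩ := exists_nat_gt ((|t| + α) / β)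
    have hb : α - (q1 : ℝ) * β < t := by
      rw [div_lt_iff₀ hβ] at hq1
      have := neg_abs_le t
      linarith
    have hq1' : 0 < q1 := by
      have : (0 : ℝ) < q1 := lt_of_le_of_lt (by positivity) hq1
      exact_mod_cast this
    set b : ℝ := α - (q1 : ℝ) * β
    set m : ℕ := ⌊(t - b) / g⌋₊ with hm
    have hq : 0 ≤ (t - b) / g := div_nonneg (by linarith) hpos.le
    have h1 : (m : ℝ) ≤ (t - b) / g := Nat.floor_le hq
    have h2 : (t - b) / g < m + 1 := Nat.lt_floor_add_one _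
    rw [le_div_iff₀ hpos] at h1
    rw [div_lt_iff₀ hpos] at h2
    refine ⟨1 + m * p0, q1 + m * q0, by omega, by omega, ?_⟩
    have h3 : ((1 + m * p0 : ℕ) : ℝ) * α - ((q1 + m * q0 : ℕ) : ℝ) * β - t = (b - t) + m * g := by
      push_cast
      simp only [b, hg]
      ring
    rw [h3, abs_lt]
    constructor <;> nlinarith

end Run7.h480.Ord
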