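import Pool.Agent.Run7.h480.ORe
import Pool.Agent.Run7.h480.ODens

set_option autoImplicit false

namespace Run7.h480.Ord

variable {H : Type*} [AddCommGroup H]

/-- the linear map with prescribed images of the basis -/
noncomputable def Kmap (κ : ℕ → W) : W →ₗ[ℚ] W := Finsupp.linearCombination ℚ κ

@[simp] lemma Kmap_e (κ : ℕ → W) (i : ℕ) : Kmap κ (e i) = κ i := by
  simp [Kmap, e]

lemma Kmap_vec (κ : ℕ → W) (u : List ℕ) : Kmap κ (vec u) = (u.map κ).sum := by
  induction u with
  | nil => simp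
  | cons i u ih => simp [ih]

lemma Kmap_id {κ : ℕ → W} {j : ℕ} (h : ∀ i < j, κ i = e i) {w : W} (hw : w ∈ V j) :
    Kmap κ w = w := by
  obtain ⟨N, hN, u, v, h1, hu, hv⟩ := exists_rat_lists w
  have hN' : (N : ℚ) ≠ 0 := by exact_mod_cast hN.ne'
  have hu' : ∀ i ∈ u, i < j := fun i hi => mem_V.1 hw i (hu i hi).ne'
  have hv' : ∀ i ∈ v, i < j := fun i hi => mem_V.1 hw i (hv i hi).ne
  have key : ∀ u : List ℕ, (∀ i ∈ u, i < j) → Kmap κ (vec u) = vec u := by
    intro u hu
    rw [Kmap_vec]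
    unfold vec
    congr 1
    exact List.map_congr_left fun i hi => h i (hu i hi)
  have h2 : (N : ℚ) • Kmap κ w = (N : ℚ) • w := by
    rw [← map_smul, h1, map_sub, key u hu', key v hv']
  exact smul_right_injective _ hN' h2

lemma Kmap_mem {κ : ℕ → W} {j : ℕ} {J : ℕ} (h : ∀ i < j, κ i ∈ V J) {w : W} (hw : w ∈ V j) :
    Kmap κ w ∈ V J := by
  obtain ⟨N, hN, u, v, h1, hu, hv⟩ := exists_rat_lists w
  have hu' : ∀ i ∈ u, i < j := fun i hi => mem_V.1 hw i (hu i hi).ne'
  have hv' : ∀ i ∈ v, i < j := fun i hi => mem_V.1 hw i (hv i hi).ne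
  have key : ∀ u : List ℕ, (∀ i ∈ u, i < j) → Kmap κ (vec u) ∈ V J := by
    intro u hu
    induction u with
    | nil => simp
    | cons i u ih =>
        rw [vec_cons, map_add, Kmap_e]
        exact Submodule.add_mem _ (h i (hu i (by simp))) (ih fun k hk => hu k (by simp [hk]))
  apply mem_V_of_smul hN.ne'
  rw [← map_smul, h1, map_sub]
  exact Submodule.sub_mem _ (key u hu') (key v hv')

lemma V_eq_sum {j : ℕ} {w : W} (hw : w ∈ V j) : w = ∑ i ∈ Finset.range j, w i • e i := by
  ext k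
  rw [Finsupp.finsetSum_apply]
  simp only [e, Finsupp.smul_apply, smul_eq_mul, Finsupp.single_apply]
  by_cases hk : k < j
  · rw [Finset.sum_eq_single k]
    · simp
    · intro i _ hik
      simp [hik]
    · intro h
      exact absurd (Finset.mem_range.2 hk) h
  · have h1 : w k = 0 := mem_V'.1 hw k (by omega)
    rw [h1]
    symm
    apply Finset.sum_eq_zero
    intro i hi
    have : i ≠ k := by
      have := Finset.mem_range.1 hi
      omega
    simp [this]

/-- two additive descriptions agree -/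
lemma mem_of_e_mem (A : Submodule ℤ W) {k : ℕ} (hA : ∀ i < k, e i ∈ A) {z : ℕ →₀ ℤ}
    (hz : ∀ i, z i ≠ 0 → i < k) : iota z ∈ A := by
  obtain ⟨u, v, h, hu, hv⟩ := exists_lists z
  have key : ∀ u : List ℕ, (∀ i ∈ u, i < k) → vec u ∈ A := by
    intro u hu
    induction u with
    | nil => simp
    | cons i u ih =>
        rw [vec_cons]
        exact A.add_mem (hA i (hu i (by simp))) (ih fun k hk => hu k (by simp [hk]))
  rw [h, map_sub, iota_zvec, iota_zvec]
  exact A.sub_mem (key u fun i hi => hz i (hu i hi).ne') (key v fun i hi => hz i (hv i hi).ne)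

theorem collapse {h : ℕ → H} {k j : ℕ} (hjk : j < k) (G : Finset W)
    (hGV : ∀ g ∈ G, g ∈ V k) (hGe : ∀ i < k, e i ∈ G) (hG : ∀ g ∈ G, g ∈ RW h)
    {X Z : W} (hX : X ∈ V j) (hZ : Z ∈ V j) (hXR : X ∈ RW h) (hZR : Z ∈ RW h)
    (hX0 : 0 < r X) (hZ0 : 0 < r Z)
    (hind : ∀ p q : ℕ, 0 < p → (p : ℚ) • X ≠ (q : ℚ) • Z)
    (ε : ℕ → ℤ) (hε : ∀ i, ε i = 1 ∨ ε i = -1) (εb : ℤ) (hεb : εb = 1 ∨ εb = -1)
    {δ : ℝ} (hδ : 0 < δ) :
    ∃ κ : ℕ → W, (∀ i < j, κ i = e i) ∧ (∀ i, κ i ∈ V j) ∧
      (∀ g ∈ G, Kmap κ g ∈ RW h) ∧ (∀ g ∈ G, |r (Kmap κ g) - r g| < δ) ∧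
      ∃ m : ℕ → ℚ, (∀ i < j, 0 < m i) ∧ ∃ p q : ℕ, 0 < p ∧ 0 < q ∧
        (εb : ℚ) • κ j + ∑ i ∈ Finset.range j, (m i * ε i) • e i + (p : ℚ) • X - (q : ℚ) • Z = 0 := by
  classical
  let L : Submodule ℤ W := Submodule.span ℤ (G : Set W)
  have hGL : ∀ g ∈ G, g ∈ L := fun g hg => Submodule.subset_span hg
  have heL : ∀ i < k, e i ∈ L := fun i hi => hGL _ (hGe i hi)
  have hLR : ∀ w ∈ L, w ∈ RW h := by
    intro w hw
    have : L ≤ AddSubgroup.toIntSubmodule (RW h) := Submodule.span_le.2 fun g hg => hG g hg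
    exact this hw
  have hLV : ∀ w ∈ L, w ∈ V k := by
    intro w hw
    have : L ≤ (V k).restrictScalars ℤ := Submodule.span_le.2 fun g hg => hGV g hg
    exact this hw
  let VL : Submodule ℤ L := ((V j).restrictScalars ℤ).comap L.subtype
  have hVL : ∀ w : L, w ∈ VL ↔ (w : W) ∈ V j := fun w => Iff.rfl
  have : Module.Finite ℤ L := Module.Finite.iff_fg.2 ⟨G, rfl⟩
  have : Module.IsTorsionFree ℤ (L ⧸ VL) := by
    refine Module.IsTorsionFree.of_smul_eq_zero fun c x hx => ?_
    induction x using Submodule.Quotient.induction_on with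
    | H x =>
      rw [← Submodule.Quotient.mk_smul, Submodule.Quotient.mk_eq_zero] at hx
      by_cases hc : c = 0
      · exact Or.inl hc
      · right
        rw [Submodule.Quotient.mk_eq_zero]
        rw [hVL] at hx ⊢
        have h1 : (c : ℚ) • (x : W) ∈ V j := by
          have h2 : ((c • x : L) : W) = (c : ℚ) • (x : W) := by
            rw [Int.cast_smul_eq_zsmul]; rfl
          rwa [← h2]
        have hc' : (c : ℚ) ≠ 0 := by exact_mod_cast hc
        have := (V j).smul_mem (c : ℚ)⁻¹ h1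
        rwa [smul_smul, inv_mul_cancel₀ hc', one_smul] at this
  have : Module.Free ℤ (L ⧸ VL) := Module.free_of_finite_type_torsion_free'
  let b := Module.Free.chooseBasis ℤ (L ⧸ VL)
  have hy : ∀ i, ∃ y : L, VL.mkQ y = b i := fun i => Submodule.mkQ_surjective VL (b i)
  choose y hy using hy
  let lam : Module.Free.ChooseBasisIndex ℤ (L ⧸ VL) → (L →ₗ[ℤ] ℤ) :=
    fun i => (b.coord i) ∘ₗ VL.mkQ
  have hlam0 : ∀ i, ∀ w : L, (w : W) ∈ V j → lam i w = 0 := by
    intro i w hw
    have : VL.mkQ w = 0 := by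
      rw [Submodule.mkQ_apply, Submodule.Quotient.mk_eq_zero]
      exact hw
    show (b.coord i) (VL.mkQ w) = 0
    rw [this, map_zero]
  have hdec : ∀ w : L, ((w - ∑ i, lam i w • y i : L) : W) ∈ V j := by
    intro w
    rw [← hVL, ← Submodule.Quotient.mk_eq_zero, ← Submodule.mkQ_apply, map_sub, map_sum]
    have : ∑ i, VL.mkQ (lam i w • y i) = VL.mkQ w := by
      have h1 : ∀ i, VL.mkQ (lam i w • y i) = (b.repr (VL.mkQ w)) i • b i := by
        intro i
        rw [map_smul, hy i]
        rfl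
      rw [Finset.sum_congr rfl fun i _ => h1 i]
      exact b.sum_repr _
    rw [this, sub_self]
  -- the distinguished element
  let ej : L := ⟨e j, heL j hjk⟩
  let c := fun i => lam i ej
  let v : W := ((ej - ∑ i, c i • y i : L) : W)
  have hv : v ∈ V j := hdec ej
  have hc : ∃ i, c i ≠ 0 := by
    by_contra hcon
    push Not at hcon
    have h1 : v = e j := by
      show ((ej - ∑ i, c i • y i : L) : W) = e j
      rw [Finset.sum_eq_zero fun i _ => by rw [hcon i, zero_smul]]
      simp [ej]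
    rw [h1] at hv
    exact e_not_mem_V j hv
  let s : Module.Free.ChooseBasisIndex ℤ (L ⧸ VL) → ℤ := fun i => if 0 ≤ c i then 1 else -1
  have hs : ∀ i, c i * s i = ((c i).natAbs : ℤ) := by
    intro i
    simp only [s]
    split_ifs with h1
    · rw [mul_one]; exact (Int.natAbs_of_nonneg h1).symm
    · push Not at h1
      omega
  have hs2 : ∀ i, ((s i : ℝ)) * s i = 1 := by
    intro i
    simp only [s]
    split_ifs <;> norm_num
  have hεb2 : (εb : ℝ) * εb = 1 := by
    rcases hεb with h1 | h1 <;> rw [h1] <;> norm_num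
  have hεbq : (εb : ℚ) * εb = 1 := by
    rcases hεb with h1 | h1 <;> rw [h1] <;> norm_num
  -- size bounds
  obtain ⟨M, hM⟩ : ∃ M : ℕ, ∀ i < j, |v i| < M := by
    obtain ⟨M, hM⟩ := exists_nat_gt (∑ i ∈ Finset.range j, |v i|)
    refine ⟨M, fun i hi => lt_of_le_of_lt ?_ hM⟩
    exact Finset.single_le_sum (f := fun i => |v i|) (fun i _ => abs_nonneg _)
      (Finset.mem_range.2 hi)
  let E : W := ∑ i ∈ Finset.range j, (ε i : ℚ) • e i
  have hEV : E ∈ V j := by
    refine Submodule.sum_mem _ fun i hi => Submodule.smul_mem _ _ (e_mem_V (Finset.mem_range.1 hi))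
  have hER : E ∈ RW h := by
    refine AddSubgroup.sum_mem _ fun i hi => ?_
    rw [Int.cast_smul_eq_zsmul]
    exact AddSubgroup.zsmul_mem _ (hG _ (hGe i ((Finset.mem_range.1 hi).trans hjk))) _
  let size : W → ℝ := fun g => if hg : g ∈ L then ∑ i, |(lam i ⟨g, hg⟩ : ℝ)| else 0
  have hsize0 : ∀ g, 0 ≤ size g := by
    intro g
    simp only [size]
    split_ifs
    · exact Finset.sum_nonneg fun i _ => abs_nonneg _
    · exact le_rfl
  let B : ℝ := 1 + ∑ g ∈ G, size g
  have hB : ∀ g ∈ G, size g < B := by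
    intro g hg
    have := Finset.single_le_sum (f := size) (fun g _ => hsize0 g) hg
    show size g < 1 + ∑ g ∈ G, size g
    linarith
  have hB0 : 0 < B := by
    have := Finset.sum_nonneg (s := G) (f := size) (fun g _ => hsize0 g)
    show 0 < 1 + ∑ g ∈ G, size g
    linarith
  have hδ' : 0 < δ / B := div_pos hδ hB0
  have hirr : ∀ p q : ℕ, 0 < p → (p : ℝ) * r X ≠ q * r Z := by
    intro p q hp heq
    apply hind p q hp
    have h1 : r ((p : ℚ) • X - (q : ℚ) • Z) = 0 := by
      rw [map_sub, map_smul, map_smul, Rat.smul_def, Rat.smul_def]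
      push_cast
      linarith
    exact sub_eq_zero.1 (r_inj h1)
  have hpq : ∀ i, ∃ p q : ℕ, 0 < p ∧ 0 < q ∧
      |(p : ℝ) * r X - q * r Z - (-(εb * s i * r (y i : W)) - M * r E)| < δ / B :=
    fun i => dens hX0 hZ0 hirr _ hδ'
  choose p q hp hq hpq using hpq
  let m : Module.Free.ChooseBasisIndex ℤ (L ⧸ VL) → W := fun i =>
    (-(εb * s i : ℤ)) • ((M : ℤ) • E + (p i : ℤ) • X - (q i : ℤ) • Z)
  have hmV : ∀ i, m i ∈ V j := by
    intro i
    have hz : ∀ (n : ℤ) (w : W), w ∈ V j → n • w ∈ V j := by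
      intro n w hw
      rw [← Int.cast_smul_eq_zsmul ℚ]
      exact Submodule.smul_mem _ _ hw
    exact hz _ _ (Submodule.sub_mem _ (Submodule.add_mem _ (hz _ _ hEV) (hz _ _ hX)) (hz _ _ hZ))
  have hmR : ∀ i, m i ∈ RW h := by
    intro i
    exact AddSubgroup.zsmul_mem _ (AddSubgroup.sub_mem _ (AddSubgroup.add_mem _
      (AddSubgroup.zsmul_mem _ hER _) (AddSubgroup.zsmul_mem _ hXR _))
      (AddSubgroup.zsmul_mem _ hZR _)) _
  have hrz : ∀ (n : ℤ) (w : W), r (n • w) = n * r w := by
    intro n w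
    rw [map_zsmul, zsmul_eq_mul]
  have hmr : ∀ i, |r (m i) - r (y i : W)| < δ / B := by
    intro i
    have h1 : r (m i) - r (y i : W) = -(εb * s i : ℝ) *
        ((p i : ℝ) * r X - q i * r Z - (-(εb * s i * r (y i : W)) - M * r E)) := by
      simp only [m]
      rw [hrz, map_sub, map_add, hrz, hrz, hrz]
      push_cast
      have := hs2 i
      linear_combination ((r (y i : W)) * (εb * εb) ) * this + (r (y i : W)) * hεb2
    rw [h1, abs_mul]
    have h2 : |-(εb * s i : ℝ)| = 1 := by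
      rw [abs_neg]
      have h3 : (εb * s i : ℝ) * (εb * s i) = 1 := by
        have := hs2 i
        calc (εb * s i : ℝ) * (εb * s i) = (εb * εb) * (s i * s i) := by ring
          _ = 1 := by rw [hεb2, this, one_mul]
      have h4 : |(εb * s i : ℝ)| * |(εb * s i : ℝ)| = 1 := by rw [← abs_mul, h3, abs_one]
      nlinarith [abs_nonneg (εb * s i : ℝ)]
    rw [h2, one_mul]
    exact hpq i
  let K : L →ₗ[ℤ] W := L.subtype + ∑ i, (lam i).smulRight (m i - (y i : W))
  have hK : ∀ w : L, K w = (w : W) + ∑ i, lam i w • (m i - (y i : W)) := by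
    intro w
    simp only [K, LinearMap.add_apply, LinearMap.sum_apply, LinearMap.smulRight_apply,
      Submodule.subtype_apply]
  have hK2 : ∀ w : L, K w = ((w - ∑ i, lam i w • y i : L) : W) + ∑ i, lam i w • m i := by
    intro w
    rw [hK]
    have : ∑ i, lam i w • (m i - (y i : W)) = ∑ i, lam i w • m i - ∑ i, lam i w • (y i : W) := by
      rw [← Finset.sum_sub_distrib]
      exact Finset.sum_congr rfl fun i _ => smul_sub _ _ _
    rw [this]
    have h2 : ((w - ∑ i, lam i w • y i : L) : W) = (w : W) - ∑ i, lam i w • (y i : W) := by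
      simp
    rw [h2]
    abel
  have hKid : ∀ w : L, (w : W) ∈ V j → K w = w := by
    intro w hw
    rw [hK, Finset.sum_eq_zero fun i _ => by rw [hlam0 i w hw, zero_smul], add_zero]
  have hKV : ∀ w : L, K w ∈ V j := by
    intro w
    rw [hK2]
    refine Submodule.add_mem _ (hdec w) (Submodule.sum_mem _ fun i _ => ?_)
    rw [← Int.cast_smul_eq_zsmul ℚ]
    exact Submodule.smul_mem _ _ (hmV i)
  have hKR : ∀ w : L, K w ∈ RW h := by
    intro w
    rw [hK]
    refine AddSubgroup.add_mem _ (hLR _ w.2) (AddSubgroup.sum_mem _ fun i _ => ?_)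
    exact AddSubgroup.zsmul_mem _ (AddSubgroup.sub_mem _ (hmR i) (hLR _ (y i).2)) _
  let κ : ℕ → W := fun i => if hi : i < k then K ⟨e i, heL i hi⟩ else 0
  have hκ : ∀ i (hi : i < k), κ i = K ⟨e i, heL i hi⟩ := by
    intro i hi
    simp only [κ, hi, dif_pos]
  have hKK : ∀ w : L, Kmap κ (w : W) = K w := by
    intro w
    let D : L →ₗ[ℤ] W := K - ((Kmap κ).restrictScalars ℤ) ∘ₗ L.subtype
    have hD : ∀ i (hi : i < k), D ⟨e i, heL i hi⟩ = 0 := by
      intro i hi
      simp only [D, LinearMap.sub_apply, LinearMap.comp_apply, LinearMap.restrictScalars_apply,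
        Submodule.subtype_apply, Kmap_e]
      rw [hκ i hi, sub_self]
    have hA : ∀ i < k, e i ∈ (LinearMap.ker D).map L.subtype := by
      intro i hi
      exact ⟨⟨e i, heL i hi⟩, hD i hi, rfl⟩
    obtain ⟨N, hN, z, hz⟩ := exists_den (w : W)
    have hz2 : iota z ∈ (LinearMap.ker D).map L.subtype := by
      refine mem_of_e_mem _ hA fun i hi => ?_
      refine mem_V.1 (hLV _ w.2) i fun h0 => hi ?_
      have := DFunLike.congr_fun hz i
      rw [iota_apply, Finsupp.smul_apply, h0, smul_zero] at this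
      exact_mod_cast this.symm
    obtain ⟨w', hw', hw''⟩ := hz2
    have h3 : w' = (N : ℤ) • w := by
      apply Subtype.ext
      have : ((N : ℤ) • w : L) = ((N : ℚ) • (w : W)) := by
        rw [Submodule.coe_smul, natCast_zsmul, Nat.cast_smul_eq_nsmul]
      rw [this, hz, ← hw'']
      rfl
    rw [h3] at hw'
    have h4 : D ((N : ℤ) • w) = 0 := hw'
    rw [map_smul] at h4
    have h5 : D w = 0 := by
      have hN' : (N : ℚ) ≠ 0 := by exact_mod_cast hN.ne'
      rw [natCast_zsmul, ← Nat.cast_smul_eq_nsmul ℚ] at h4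
      have := congrArg (fun t => (N : ℚ)⁻¹ • t) h4
      simpa [smul_smul, inv_mul_cancel₀ hN'] using this
    simp only [D, LinearMap.sub_apply, LinearMap.comp_apply, LinearMap.restrictScalars_apply,
      Submodule.subtype_apply] at h5
    exact (sub_eq_zero.1 h5).symm
  refine ⟨κ, ?_, ?_, ?_, ?_, ?_⟩
  · intro i hi
    rw [hκ i (hi.trans hjk)]
    exact hKid _ (e_mem_V hi)
  · intro i
    simp only [κ]
    split_ifs
    · exact hKV _
    · exact Submodule.zero_mem _
  · intro g hg
    rw [hKK ⟨g, hGL g hg⟩]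
    exact hKR _
  · intro g hg
    rw [hKK ⟨g, hGL g hg⟩, hK]
    have h1 : r ((g : W) + ∑ i, lam i ⟨g, hGL g hg⟩ • (m i - (y i : W))) - r g =
        ∑ i, (lam i ⟨g, hGL g hg⟩ : ℝ) * (r (m i) - r (y i : W)) := by
      rw [map_add, map_sum, add_sub_cancel_left]
      refine Finset.sum_congr rfl fun i _ => ?_
      rw [hrz, map_sub]
    show |r ((g : W) + ∑ i, lam i ⟨g, hGL g hg⟩ • (m i - (y i : W))) - r g| < δ
    rw [h1]
    calc |∑ i, (lam i ⟨g, hGL g hg⟩ : ℝ) * (r (m i) - r (y i : W))|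
        ≤ ∑ i, |(lam i ⟨g, hGL g hg⟩ : ℝ) * (r (m i) - r (y i : W))| :=
          Finset.abs_sum_le_sum_abs _ _
      _ ≤ ∑ i, |(lam i ⟨g, hGL g hg⟩ : ℝ)| * (δ / B) := by
          refine Finset.sum_le_sum fun i _ => ?_
          rw [abs_mul]
          exact mul_le_mul_of_nonneg_left (hmr i).le (abs_nonneg _)
      _ = size g * (δ / B) := by
          rw [← Finset.sum_mul]
          simp only [size, hGL g hg, dif_pos]
      _ < B * (δ / B) := mul_lt_mul_of_pos_right (hB g hg) hδ'
      _ = δ := by field_simp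
  · -- the final relation
    let C : ℕ := ∑ i, (c i).natAbs
    have hC : 1 ≤ C := by
      obtain ⟨i, hi⟩ := hc
      have h1 : (c i).natAbs ≤ C :=
        Finset.single_le_sum (f := fun i => (c i).natAbs) (fun _ _ => Nat.zero_le _)
          (Finset.mem_univ i)
      have h2 : 0 < (c i).natAbs := Int.natAbs_pos.2 hi
      omega
    refine ⟨fun i => C * M - ε i * εb * v i, ?_, ∑ i, (c i).natAbs * p i,
      ∑ i, (c i).natAbs * q i, ?_, ?_, ?_⟩
    · intro i hi
      have h1 := hM i hi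
      have h2 : (ε i : ℚ) * εb * v i ≤ |v i| := by
        rcases hε i with h3 | h3 <;> rcases hεb with h4 | h4 <;> rw [h3, h4] <;> push_cast
        · linarith [le_abs_self (v i)]
        · linarith [neg_abs_le (v i)]
        · linarith [neg_abs_le (v i)]
        · linarith [le_abs_self (v i)]
      have hC' : (1 : ℚ) ≤ C := by exact_mod_cast hC
      have hM0 : (0 : ℚ) ≤ M := by positivity
      have : (M : ℚ) ≤ C * M := by nlinarith
      linarith
    · obtain ⟨i, hi⟩ := hc
      have h1 : (c i).natAbs * p i ≤ ∑ i, (c i).natAbs * p i :=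
        Finset.single_le_sum (f := fun i => (c i).natAbs * p i) (fun _ _ => Nat.zero_le _)
          (Finset.mem_univ i)
      have h2 : 0 < (c i).natAbs * p i := Nat.mul_pos (Int.natAbs_pos.2 hi) (hp i)
      omega
    · obtain ⟨i, hi⟩ := hc
      have h1 : (c i).natAbs * q i ≤ ∑ i, (c i).natAbs * q i :=
        Finset.single_le_sum (f := fun i => (c i).natAbs * q i) (fun _ _ => Nat.zero_le _)
          (Finset.mem_univ i)
      have h2 : 0 < (c i).natAbs * q i := Nat.mul_pos (Int.natAbs_pos.2 hi) (hq i)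
      omega
    · have hκj : κ j = v + ∑ i, c i • m i := by
        rw [hκ j hjk]
        exact hK2 ej
      have hcm : ∀ i, c i • m i = (-(εb : ℚ)) • (((c i).natAbs * M : ℚ) • E +
          ((c i).natAbs * p i : ℚ) • X - ((c i).natAbs * q i : ℚ) • Z) := by
        intro i
        simp only [m]
        rw [smul_smul]
        have h1 : c i * -(εb * s i) = -(εb * ((c i).natAbs : ℤ)) := by
          rw [← hs i]; ring
        rw [h1, ← Int.cast_smul_eq_zsmul ℚ, ← Int.cast_smul_eq_zsmul ℚ,
          ← Int.cast_smul_eq_zsmul ℚ, ← Int.cast_smul_eq_zsmul ℚ]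
        simp only [Int.cast_neg, Int.cast_mul, Int.cast_natCast]
        module
      have hsum : ∑ i, c i • m i = (-(εb : ℚ)) • ((C * M : ℚ) • E +
          ((∑ i, (c i).natAbs * p i : ℕ) : ℚ) • X - ((∑ i, (c i).natAbs * q i : ℕ) : ℚ) • Z) := by
        rw [Finset.sum_congr rfl fun i _ => hcm i, ← Finset.smul_sum, Finset.sum_sub_distrib,
          Finset.sum_add_distrib, ← Finset.sum_smul, ← Finset.sum_smul, ← Finset.sum_smul]
        congr 4
        · rw [← Finset.sum_mul]
          simp only [C]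
          push_cast
          rfl
        · push_cast; rfl
        · push_cast; rfl
      have hvE : ∑ i ∈ Finset.range j, ((C * M - ε i * εb * v i : ℚ) * ε i) • e i =
          (C * M : ℚ) • E - (εb : ℚ) • v := by
        have h1 : (εb : ℚ) • v = ∑ i ∈ Finset.range j, (εb * v i : ℚ) • e i := by
          conv_lhs => rw [V_eq_sum hv]
          rw [Finset.smul_sum]
          exact Finset.sum_congr rfl fun i _ => smul_smul _ _ _
        rw [h1]
        simp only [E]
        rw [Finset.smul_sum, ← Finset.sum_sub_distrib]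
        refine Finset.sum_congr rfl fun i _ => ?_
        rw [smul_smul, ← sub_smul]
        congr 1
        have h3 : (ε i : ℚ) * ε i = 1 := by
          rcases hε i with h4 | h4 <;> rw [h4] <;> norm_num
        linear_combination (-(εb : ℚ) * v i) * h3
      rw [hκj, hsum, hvE]
      have h5 : (εb : ℚ) • (v + (-(εb : ℚ)) • ((C * M : ℚ) • E +
          ((∑ i, (c i).natAbs * p i : ℕ) : ℚ) • X - ((∑ i, (c i).natAbs * q i : ℕ) : ℚ) • Z)) =
          (εb : ℚ) • v - ((εb : ℚ) * εb) • ((C * M : ℚ) • E +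
          ((∑ i, (c i).natAbs * p i : ℕ) : ℚ) • X - ((∑ i, (c i).natAbs * q i : ℕ) : ℚ) • Z) := by
        module
      rw [h5, hεbq, one_smul]
      abel

end Run7.h480.Ord
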