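import Pool.Agent.Run7.h480.OBasic

set_option autoImplicit false

namespace Run7.h480.Ord

open Nat.Partrec (Code)

/-- a letter `((u, v), (N, f))`: formal coordinates `(vec u - vec v)/N`, image `ν f` in `H` -/
abbrev Letter := (List ℕ × List ℕ) × (ℕ × ℕ)

def lu (l : Letter) : List ℕ := l.1.1
def lv (l : Letter) : List ℕ := l.1.2
def lN (l : Letter) : ℕ := l.2.1
def lf (l : Letter) : ℕ := l.2.2

/-- the default letter: zero -/
def zl : Letter := (([], []), (1, 0))

/-- instruction payload `((kind, j, c, e, st), (u, v, ρ, as))` -/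
abbrev Pay := (ℕ × ℕ × ℕ × ℕ × ℕ) × (List ℕ × List ℕ × List ℕ × List ℕ)

def pk (p : Pay) : ℕ := p.1.1
def pj (p : Pay) : ℕ := p.1.2.1
def pc (p : Pay) : ℕ := p.1.2.2.1
def pe (p : Pay) : ℕ := p.1.2.2.2.1
def pst (p : Pay) : ℕ := p.1.2.2.2.2
def pu (p : Pay) : List ℕ := p.2.1
def pv (p : Pay) : List ℕ := p.2.2.1
def prho (p : Pay) : List ℕ := p.2.2.2.1
def pas (p : Pay) : List ℕ := p.2.2.2.2

/-- state `((hs, L, Sat), (κ, (D, A, p, q), (P⁺, P⁻)))` -/
abbrev St := (List ℕ × List Letter × List ℕ) ×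
  (List (List ℕ × List ℕ) × (ℕ × ℕ × ℕ × ℕ) × (List ℕ × List ℕ))

def shs (S : St) : List ℕ := S.1.1
def sL (S : St) : List Letter := S.1.2.1
def sSat (S : St) : List ℕ := S.1.2.2
def sk (S : St) : List (List ℕ × List ℕ) := S.2.1
def sD (S : St) : ℕ := S.2.2.1.1
def sA (S : St) : ℕ := S.2.2.1.2.1
def sp (S : St) : ℕ := S.2.2.1.2.2.1
def sq (S : St) : ℕ := S.2.2.1.2.2.2
def sP (S : St) : List ℕ := S.2.2.2.1
def sM (S : St) : List ℕ := S.2.2.2.2

/-- letter number `a` of a state (the zero letter for large `a`) -/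
def gl (S : St) (a : ℕ) : Letter := (sL S).getD a zl

/-- image number `i` in the collapse data -/
def kp (S : St) (i : ℕ) : List ℕ := ((sk S).getD i ([], [])).1
def kq (S : St) (i : ℕ) : List ℕ := ((sk S).getD i ([], [])).2

/-- all entries of `u` are below `j` -/
def below (u : List ℕ) (j : ℕ) : Prop := ∀ i ∈ u, i < j

/-- strict comparison of letters -/
def ltR (a b : Letter) : Prop :=
  pr (lu a) ^ lN b * pr (lv b) ^ lN a < pr (lv a) ^ lN b * pr (lu b) ^ lN a

/-- the letter has coordinates `e t` -/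
def isE (l : Letter) (t : ℕ) : Prop := pr (lu l) = pr (lv l) * fer t ^ lN l

/-- the coordinates of a letter after the collapse with data `S'` -/
def ap (S' : St) (u v : List ℕ) : List ℕ := u.flatMap (kp S') ++ v.flatMap (kq S')

section
variable (hadd : ℕ → ℕ → ℕ) (z : ℕ)

def mulH (n x : ℕ) : ℕ := Nat.rec (motive := fun _ => ℕ) z (fun _ acc => hadd acc x) n

def sumH (hs u : List ℕ) : ℕ := u.foldl (fun acc i => hadd acc (hs.getD i z)) z

/-- the relation `N • f + Φ v = Φ u` -/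
def hOK (hs : List ℕ) (l : Letter) : Prop :=
  hadd (mulH hadd z (lN l) (lf l)) (sumH hadd z hs (lv l)) = sumH hadd z hs (lu l)

/-- triggers -/
def TA (p : Pay) (S : St) : Prop :=
  2 ≤ pj p ∧ pj p < (shs S).length ∧ 0 < pc p ∧ below (pu p) (pj p) ∧ below (pv p) (pj p) ∧
    hOK hadd z (shs S) ((pu p, pv p), (pc p, (shs S).getD (pj p) z))

/-- the new letter of an instruction of kind 3 -/
def newl (p : Pay) : Letter := ((pu p, pv p), (pc p, pj p))

def TD (p : Pay) (S : St) : Prop :=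
  0 < pc p ∧ below (pu p) (shs S).length ∧ below (pv p) (shs S).length ∧
    hOK hadd z (shs S) (newl p) ∧
    ∀ a, a < (sL S).length → (ltR (gl S a) (newl p) ∨ ltR (newl p) (gl S a))

/-- the functional and the string of requirement `e` -/
def req (e : ℕ) : Code × List ℕ := Denumerable.ofNat (Code × List ℕ) e

/-- the answer about letter number `t` of the instruction -/
def qv (p : Pay) (t : ℕ) : Option ℕ :=
  Code.evaln (pst p) (req (pe p)).1
    (Encodable.encode ((req (pe p)).2 ++ prho p, (pas p).getD t 0))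

def TB (p : Pay) (S : St) : Prop :=
  (2 ≤ pj p ∧ pj p < (shs S).length ∧ pe p < pj p ∧ ¬ pe p ∈ sSat S) ∧
  (∀ t, t < pj p + 1 → (pas p).getD t 0 < (sL S).length ∧ isE (gl S ((pas p).getD t 0)) t ∧
    (qv p t = some 0 ∨ qv p t = some 1)) ∧
  ((pas p).getD (pj p + 1) 0 < (sL S).length ∧ (pas p).getD (pj p + 2) 0 < (sL S).length) ∧
  (below (lu (gl S ((pas p).getD (pj p + 1) 0))) (pj p) ∧
    below (lv (gl S ((pas p).getD (pj p + 1) 0))) (pj p) ∧
    below (lu (gl S ((pas p).getD (pj p + 2) 0))) (pj p) ∧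
    below (lv (gl S ((pas p).getD (pj p + 2) 0))) (pj p)) ∧
  (pr (lv (gl S ((pas p).getD (pj p + 1) 0))) < pr (lu (gl S ((pas p).getD (pj p + 1) 0))) ∧
    pr (lv (gl S ((pas p).getD (pj p + 2) 0))) < pr (lu (gl S ((pas p).getD (pj p + 2) 0)))) ∧
  (qv p (pj p + 1) = some 1 ∧ qv p (pj p + 2) = some 0)

/-- the common part of the two collapses, at level `j` -/
def Coll (j : ℕ) (S S' : St) : Prop :=
  0 < sD S' ∧
  (∀ i, i < (shs S).length → below (kp S' i) (i + 1) ∧ below (kq S' i) (i + 1) ∧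
    (i < j → pr (kp S' i) = pr (kq S' i) * fer i ^ sD S')) ∧
  (sL S').length = (sL S).length ∧
  (∀ a, a < (sL S).length → lu (gl S' a) = ap S' (lu (gl S a)) (lv (gl S a)) ∧
    lv (gl S' a) = ap S' (lv (gl S a)) (lu (gl S a)) ∧ lN (gl S' a) = lN (gl S a) * sD S' ∧
    hOK hadd z (shs S') (gl S' a)) ∧
  (∀ a, a < (sL S).length + 1 → ∀ b, b < (sL S).length + 1 →
    ltR (gl S a) (gl S b) → ltR (gl S' a) (gl S' b))

def AA (p : Pay) (S S' : St) : Prop :=
  Coll hadd z (pj p) S S' ∧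
  (∀ i, i < (shs S).length → pj p ≤ i → below (kp S' i) (pj p) ∧ below (kq S' i) (pj p)) ∧
  shs S' = (shs S).take (pj p) ++ [(shs S).getD (pj p) z + 1] ∧ sSat S' = sSat S

/-- the certificate equation -/
def certEq (P M kp kq ux vx uz vz : List ℕ) (A p q : ℕ) : Prop :=
  pr kp ^ A * pr P * pr ux ^ p * pr vz ^ q = pr kq ^ A * pr M * pr vx ^ p * pr uz ^ q

def cert (p : Pay) (S S' : St) : Prop :=
  0 < sq S' ∧ (∀ x ∈ sP S', x < pj p ∧ qv p x = some 1) ∧
  (∀ x ∈ sM S', x < pj p ∧ qv p x = some 0) ∧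
  ((qv p (pj p) = some 1 ∧ certEq (sP S') (sM S') (kp S' (pj p)) (kq S' (pj p))
      (lu (gl S ((pas p).getD (pj p + 1) 0))) (lv (gl S ((pas p).getD (pj p + 1) 0)))
      (lu (gl S ((pas p).getD (pj p + 2) 0))) (lv (gl S ((pas p).getD (pj p + 2) 0)))
      (sA S') (sp S') (sq S')) ∨
   (qv p (pj p) = some 0 ∧ certEq (sP S') (sM S') (kq S' (pj p)) (kp S' (pj p))
      (lu (gl S ((pas p).getD (pj p + 1) 0))) (lv (gl S ((pas p).getD (pj p + 1) 0)))
      (lu (gl S ((pas p).getD (pj p + 2) 0))) (lv (gl S ((pas p).getD (pj p + 2) 0)))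
      (sA S') (sp S') (sq S')))

def AB (p : Pay) (S S' : St) : Prop :=
  Coll hadd z (pj p) S S' ∧ shs S' = shs S ∧ sSat S' = pe p :: sSat S ∧ cert p S S'

def AC (S S' : St) : Prop := shs S' = shs S ++ [0] ∧ sL S' = sL S ∧ sSat S' = sSat S

def AD (p : Pay) (S S' : St) : Prop :=
  shs S' = shs S ∧ sL S' = sL S ++ [newl p] ∧ sSat S' = sSat S

def same (S S' : St) : Prop := shs S' = shs S ∧ sL S' = sL S ∧ sSat S' = sSat S

/-- the instruction of stage `s` -/
def ins (s : ℕ) : Pay := Denumerable.ofNat Pay (Nat.unpair s).1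

/-- the transition relation with instruction `p` -/
def RR (p : Pay) (S S' : St) : Prop :=
  (pk p = 0 ∧ TA hadd z p S → AA hadd z p S S') ∧
  (pk p = 1 ∧ TB p S → AB hadd z p S S') ∧
  (pk p = 2 → AC S S') ∧
  (pk p = 3 ∧ TD hadd z p S → AD p S S') ∧
  (¬ (pk p = 0 ∧ TA hadd z p S) ∧ ¬ (pk p = 1 ∧ TB p S) ∧ ¬ (pk p = 2) ∧
    ¬ (pk p = 3 ∧ TD hadd z p S) → same S S')

end

end Run7.h480.Ord
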