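import Pool.Agent.Run7.h480.OCp
import Pool.Agent.Run7.h480.ODefs

set_option autoImplicit false

namespace Run7.h480.Ord

open Nat.Partrec (Code)

variable {α : Type*} [Primcodable α]

lemma p_pow : Primrec₂ ((· ^ ·) : ℕ → ℕ → ℕ) := Primrec₂.unpaired'.1 Nat.Primrec.pow

lemma p_fer : Primrec fer :=
  (Primrec.succ.comp (p_pow.comp (Primrec.const 2) (p_pow.comp (Primrec.const 2) Primrec.id))).of_eq
    fun _ => rfl

lemma p_pr : Primrec pr := by
  have h : Primrec fun u : List ℕ => u.foldr (fun i acc => fer i * acc) 1 :=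
    Primrec.list_foldr Primrec.id (Primrec.const 1)
      (Primrec.nat_mul.comp (p_fer.comp (Primrec.fst.comp Primrec.snd))
        (Primrec.snd.comp Primrec.snd)).to₂
  refine h.of_eq fun u => ?_
  induction u with
  | nil => rfl
  | cons i u ih => rw [List.foldr_cons, ih, pr_cons]

section lifted

lemma c_pow {f g : α → ℕ} (hf : Computable f) (hg : Computable g) :
    Computable fun a => f a ^ g a := p_pow.to_comp.comp hf hg

lemma c_mul {f g : α → ℕ} (hf : Computable f) (hg : Computable g) :
    Computable fun a => f a * g a := Primrec.nat_mul.to_comp.comp hf hg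

lemma c_add {f g : α → ℕ} (hf : Computable f) (hg : Computable g) :
    Computable fun a => f a + g a := Primrec.nat_add.to_comp.comp hf hg

lemma c_pr {f : α → List ℕ} (hf : Computable f) : Computable fun a => pr (f a) :=
  p_pr.to_comp.comp hf

lemma c_fer {f : α → ℕ} (hf : Computable f) : Computable fun a => fer (f a) :=
  p_fer.to_comp.comp hf

lemma c_getD {β : Type*} [Primcodable β] {l : α → List β} {n : α → ℕ} (d : β)
    (hl : Computable l) (hn : Computable n) : Computable fun a => (l a).getD (n a) d :=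
  (Primrec.list_getD d).to_comp.comp hl hn

lemma c_len {β : Type*} [Primcodable β] {l : α → List β} (hl : Computable l) :
    Computable fun a => (l a).length := Primrec.list_length.to_comp.comp hl

lemma c_lu {f : α → Letter} (hf : Computable f) : Computable fun a => lu (f a) :=
  Computable.fst.comp (Computable.fst.comp hf)
lemma c_lv {f : α → Letter} (hf : Computable f) : Computable fun a => lv (f a) :=
  Computable.snd.comp (Computable.fst.comp hf)
lemma c_lN {f : α → Letter} (hf : Computable f) : Computable fun a => lN (f a) :=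
  Computable.fst.comp (Computable.snd.comp hf)
lemma c_lf {f : α → Letter} (hf : Computable f) : Computable fun a => lf (f a) :=
  Computable.snd.comp (Computable.snd.comp hf)

lemma c_pk {f : α → Pay} (hf : Computable f) : Computable fun a => pk (f a) :=
  Computable.fst.comp (Computable.fst.comp hf)
lemma c_pj {f : α → Pay} (hf : Computable f) : Computable fun a => pj (f a) :=
  Computable.fst.comp (Computable.snd.comp (Computable.fst.comp hf))
lemma c_pc {f : α → Pay} (hf : Computable f) : Computable fun a => pc (f a) :=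
  Computable.fst.comp (Computable.snd.comp (Computable.snd.comp (Computable.fst.comp hf)))
lemma c_pe {f : α → Pay} (hf : Computable f) : Computable fun a => pe (f a) :=
  Computable.fst.comp (Computable.snd.comp (Computable.snd.comp (Computable.snd.comp
    (Computable.fst.comp hf))))
lemma c_pst {f : α → Pay} (hf : Computable f) : Computable fun a => pst (f a) :=
  Computable.snd.comp (Computable.snd.comp (Computable.snd.comp (Computable.snd.comp
    (Computable.fst.comp hf))))
lemma c_pu {f : α → Pay} (hf : Computable f) : Computable fun a => pu (f a) :=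
  Computable.fst.comp (Computable.snd.comp hf)
lemma c_pv {f : α → Pay} (hf : Computable f) : Computable fun a => pv (f a) :=
  Computable.fst.comp (Computable.snd.comp (Computable.snd.comp hf))
lemma c_prho {f : α → Pay} (hf : Computable f) : Computable fun a => prho (f a) :=
  Computable.fst.comp (Computable.snd.comp (Computable.snd.comp (Computable.snd.comp hf)))
lemma c_pas {f : α → Pay} (hf : Computable f) : Computable fun a => pas (f a) :=
  Computable.snd.comp (Computable.snd.comp (Computable.snd.comp (Computable.snd.comp hf)))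

lemma c_shs {f : α → St} (hf : Computable f) : Computable fun a => shs (f a) :=
  Computable.fst.comp (Computable.fst.comp hf)
lemma c_sL {f : α → St} (hf : Computable f) : Computable fun a => sL (f a) :=
  Computable.fst.comp (Computable.snd.comp (Computable.fst.comp hf))
lemma c_sSat {f : α → St} (hf : Computable f) : Computable fun a => sSat (f a) :=
  Computable.snd.comp (Computable.snd.comp (Computable.fst.comp hf))
lemma c_sk {f : α → St} (hf : Computable f) : Computable fun a => sk (f a) :=
  Computable.fst.comp (Computable.snd.comp hf)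
lemma c_sD {f : α → St} (hf : Computable f) : Computable fun a => sD (f a) :=
  Computable.fst.comp (Computable.fst.comp (Computable.snd.comp (Computable.snd.comp hf)))
lemma c_sA {f : α → St} (hf : Computable f) : Computable fun a => sA (f a) :=
  Computable.fst.comp (Computable.snd.comp (Computable.fst.comp (Computable.snd.comp
    (Computable.snd.comp hf))))
lemma c_sp {f : α → St} (hf : Computable f) : Computable fun a => sp (f a) :=
  Computable.fst.comp (Computable.snd.comp (Computable.snd.comp (Computable.fst.comp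
    (Computable.snd.comp (Computable.snd.comp hf)))))
lemma c_sq {f : α → St} (hf : Computable f) : Computable fun a => sq (f a) :=
  Computable.snd.comp (Computable.snd.comp (Computable.snd.comp (Computable.fst.comp
    (Computable.snd.comp (Computable.snd.comp hf)))))
lemma c_sP {f : α → St} (hf : Computable f) : Computable fun a => sP (f a) :=
  Computable.fst.comp (Computable.snd.comp (Computable.snd.comp (Computable.snd.comp hf)))
lemma c_sM {f : α → St} (hf : Computable f) : Computable fun a => sM (f a) :=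
  Computable.snd.comp (Computable.snd.comp (Computable.snd.comp (Computable.snd.comp hf)))

lemma c_gl {f : α → St} {n : α → ℕ} (hf : Computable f) (hn : Computable n) :
    Computable fun a => gl (f a) (n a) := c_getD zl (c_sL hf) hn

lemma c_kp {f : α → St} {n : α → ℕ} (hf : Computable f) (hn : Computable n) :
    Computable fun a => kp (f a) (n a) := Computable.fst.comp (c_getD _ (c_sk hf) hn)

lemma c_kq {f : α → St} {n : α → ℕ} (hf : Computable f) (hn : Computable n) :
    Computable fun a => kq (f a) (n a) := Computable.snd.comp (c_getD _ (c_sk hf) hn)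

lemma p_ap : Primrec fun x : St × (List ℕ × List ℕ) => ap x.1 x.2.1 x.2.2 := by
  have hk : Primrec fun x : (St × (List ℕ × List ℕ)) × ℕ => kp x.1.1 x.2 := by
    have h1 : Primrec fun x : (St × (List ℕ × List ℕ)) × ℕ => sk x.1.1 :=
      Primrec.fst.comp (Primrec.snd.comp (Primrec.fst.comp Primrec.fst))
    exact Primrec.fst.comp ((Primrec.list_getD _).comp h1 Primrec.snd)
  have hq : Primrec fun x : (St × (List ℕ × List ℕ)) × ℕ => kq x.1.1 x.2 := by
    have h1 : Primrec fun x : (St × (List ℕ × List ℕ)) × ℕ => sk x.1.1 :=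
      Primrec.fst.comp (Primrec.snd.comp (Primrec.fst.comp Primrec.fst))
    exact Primrec.snd.comp ((Primrec.list_getD _).comp h1 Primrec.snd)
  exact Primrec.list_append.comp
    (Primrec.list_flatMap (Primrec.fst.comp Primrec.snd) hk.to₂)
    (Primrec.list_flatMap (Primrec.snd.comp Primrec.snd) hq.to₂)

lemma c_ap {f : α → St} {u v : α → List ℕ} (hf : Computable f) (hu : Computable u)
    (hv : Computable v) : Computable fun a => ap (f a) (u a) (v a) :=
  p_ap.to_comp.comp (hf.pair (hu.pair hv))

lemma cp_below {u : α → List ℕ} {j : α → ℕ} (hu : Computable u) (hj : Computable j) :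
    ComputablePred fun a => below (u a) (j a) :=
  cp_forall_mem (p := fun a i => i < j a) (cp_lt Computable.snd (hj.comp Computable.fst)) hu

lemma cp_ltR {f g : α → Letter} (hf : Computable f) (hg : Computable g) :
    ComputablePred fun a => ltR (f a) (g a) :=
  cp_lt (c_mul (c_pow (c_pr (c_lu hf)) (c_lN hg)) (c_pow (c_pr (c_lv hg)) (c_lN hf)))
    (c_mul (c_pow (c_pr (c_lv hf)) (c_lN hg)) (c_pow (c_pr (c_lu hg)) (c_lN hf)))

lemma cp_isE {f : α → Letter} {t : α → ℕ} (hf : Computable f) (ht : Computable t) :
    ComputablePred fun a => isE (f a) (t a) :=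
  cp_eq (c_pr (c_lu hf)) (c_mul (c_pr (c_lv hf)) (c_pow (c_fer ht) (c_lN hf)))

variable {hadd : ℕ → ℕ → ℕ} {z : ℕ}

lemma c_mulH (ha : Computable₂ hadd) {n x : α → ℕ} (hn : Computable n) (hx : Computable x) :
    Computable fun a => mulH hadd z (n a) (x a) := by
  have h0 : Computable₂ fun (a : α) (y : ℕ × ℕ) => hadd y.2 (x a) :=
    ha.comp (Computable.snd.comp Computable.snd) (hx.comp Computable.fst)
  exact Computable.nat_rec hn (Computable.const z) h0

lemma c_sumH (ha : Computable₂ hadd) {hs u : α → List ℕ} (hh : Computable hs)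
    (hu : Computable u) : Computable fun a => sumH hadd z (hs a) (u a) := by
  have h0 : Computable₂ fun (a : α) (y : ℕ × ℕ) => hadd y.1 ((hs a).getD y.2 z) :=
    ha.comp (Computable.fst.comp Computable.snd)
      (c_getD z (hh.comp Computable.fst) (Computable.snd.comp Computable.snd))
  exact comp_foldl hu (Computable.const z) h0

lemma cp_hOK (ha : Computable₂ hadd) {hs : α → List ℕ} {f : α → Letter} (hh : Computable hs)
    (hf : Computable f) : ComputablePred fun a => hOK hadd z (hs a) (f a) :=
  cp_eq (ha.comp (c_mulH ha (c_lN hf) (c_lf hf)) (c_sumH ha hh (c_lv hf)))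
    (c_sumH ha hh (c_lu hf))

lemma c_newl {f : α → Pay} (hf : Computable f) : Computable fun a => newl (f a) :=
  ((c_pu hf).pair (c_pv hf)).pair ((c_pc hf).pair (c_pj hf))

lemma c_req1 {e : α → ℕ} (he : Computable e) : Computable fun a => (req (e a)).1 :=
  Computable.fst.comp ((Computable.ofNat (Code × List ℕ)).comp he)

lemma c_req2 {e : α → ℕ} (he : Computable e) : Computable fun a => (req (e a)).2 :=
  Computable.snd.comp ((Computable.ofNat (Code × List ℕ)).comp he)

lemma c_qv {f : α → Pay} {t : α → ℕ} (hf : Computable f) (ht : Computable t) :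
    Computable fun a => qv (f a) (t a) := by
  have h1 := Nat.Partrec.Code.primrec_evaln.to_comp.comp
    (((c_pst hf).pair (c_req1 (c_pe hf))).pair
      (Computable.encode.comp ((Computable.list_append.comp (c_req2 (c_pe hf)) (c_prho hf)).pair
        (c_getD 0 (c_pas hf) ht))))
  exact h1

lemma cp_TA (ha : Computable₂ hadd) {p : α → Pay} {S : α → St} (hp : Computable p)
    (hS : Computable S) : ComputablePred fun a => TA hadd z (p a) (S a) := by
  unfold TA
  refine cp_and (cp_le (Computable.const 2) (c_pj hp)) ?_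
  refine cp_and (cp_lt (c_pj hp) (c_len (c_shs hS))) ?_
  refine cp_and (cp_lt (Computable.const 0) (c_pc hp)) ?_
  refine cp_and (cp_below (c_pu hp) (c_pj hp)) ?_
  refine cp_and (cp_below (c_pv hp) (c_pj hp)) ?_
  exact cp_hOK ha (c_shs hS) (((c_pu hp).pair (c_pv hp)).pair
    ((c_pc hp).pair (c_getD z (c_shs hS) (c_pj hp))))

lemma cp_TD (ha : Computable₂ hadd) {p : α → Pay} {S : α → St} (hp : Computable p)
    (hS : Computable S) : ComputablePred fun a => TD hadd z (p a) (S a) := by
  unfold TD
  refine cp_and (cp_lt (Computable.const 0) (c_pc hp)) ?_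
  refine cp_and (cp_below (c_pu hp) (c_len (c_shs hS))) ?_
  refine cp_and (cp_below (c_pv hp) (c_len (c_shs hS))) ?_
  refine cp_and (cp_hOK ha (c_shs hS) (c_newl hp)) ?_
  refine cp_forall_lt (p := fun a i => ltR (gl (S a) i) (newl (p a)) ∨ ltR (newl (p a)) (gl (S a) i))
    ?_ (c_len (c_sL hS))
  have hS' : Computable fun x : α × ℕ => S x.1 := hS.comp Computable.fst
  have hp' : Computable fun x : α × ℕ => p x.1 := hp.comp Computable.fst
  exact cp_or (cp_ltR (c_gl hS' Computable.snd) (c_newl hp'))
    (cp_ltR (c_newl hp') (c_gl hS' Computable.snd))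

lemma cp_not_mem {l : α → List ℕ} {x : α → ℕ} (hl : Computable l) (hx : Computable x) :
    ComputablePred fun a => ¬ x a ∈ l a := by
  refine (cp_forall_mem (p := fun a i => ¬ x a = i)
    (cp_not (cp_eq (hx.comp Computable.fst) Computable.snd)) hl).of_eq fun a => ?_
  constructor
  · intro h hm
    exact h _ hm rfl
  · intro h i hi hx
    exact h (hx ▸ hi)

lemma cp_TB {p : α → Pay} {S : α → St} (hp : Computable p)
    (hS : Computable S) : ComputablePred fun a => TB (p a) (S a) := by
  unfold TB
  have hj1 : Computable fun a => pj (p a) + 1 := c_add (c_pj hp) (Computable.const 1)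
  have hj2 : Computable fun a => pj (p a) + 2 := c_add (c_pj hp) (Computable.const 2)
  have ha1 : Computable fun a => (pas (p a)).getD (pj (p a) + 1) 0 := c_getD 0 (c_pas hp) hj1
  have ha2 : Computable fun a => (pas (p a)).getD (pj (p a) + 2) 0 := c_getD 0 (c_pas hp) hj2
  refine cp_and ?_ (cp_and ?_ (cp_and ?_ (cp_and ?_ (cp_and ?_ ?_))))
  · exact cp_and (cp_le (Computable.const 2) (c_pj hp)) (cp_and (cp_lt (c_pj hp) (c_len (c_shs hS)))
      (cp_and (cp_lt (c_pe hp) (c_pj hp)) (cp_not_mem (c_sSat hS) (c_pe hp))))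
  · refine cp_forall_lt (p := fun a t => (pas (p a)).getD t 0 < (sL (S a)).length ∧
      isE (gl (S a) ((pas (p a)).getD t 0)) t ∧ (qv (p a) t = some 0 ∨ qv (p a) t = some 1)) ?_ hj1
    have hS' : Computable fun x : α × ℕ => S x.1 := hS.comp Computable.fst
    have hp' : Computable fun x : α × ℕ => p x.1 := hp.comp Computable.fst
    have hg : Computable fun x : α × ℕ => (pas (p x.1)).getD x.2 0 :=
      c_getD 0 (c_pas hp') Computable.snd
    exact cp_and (cp_lt hg (c_len (c_sL hS'))) (cp_and (cp_isE (c_gl hS' hg) Computable.snd)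
      (cp_or (cp_eq (c_qv hp' Computable.snd) (Computable.const (some 0)))
        (cp_eq (c_qv hp' Computable.snd) (Computable.const (some 1)))))
  · exact cp_and (cp_lt ha1 (c_len (c_sL hS))) (cp_lt ha2 (c_len (c_sL hS)))
  · exact cp_and (cp_below (c_lu (c_gl hS ha1)) (c_pj hp)) (cp_and
      (cp_below (c_lv (c_gl hS ha1)) (c_pj hp)) (cp_and
      (cp_below (c_lu (c_gl hS ha2)) (c_pj hp)) (cp_below (c_lv (c_gl hS ha2)) (c_pj hp))))
  · exact cp_and (cp_lt (c_pr (c_lv (c_gl hS ha1))) (c_pr (c_lu (c_gl hS ha1))))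
      (cp_lt (c_pr (c_lv (c_gl hS ha2))) (c_pr (c_lu (c_gl hS ha2))))
  · exact cp_and (cp_eq (c_qv hp hj1) (Computable.const (some 1)))
      (cp_eq (c_qv hp hj2) (Computable.const (some 0)))

lemma cp_Coll (ha : Computable₂ hadd) {j : α → ℕ} {S S' : α → St} (hj : Computable j)
    (hS : Computable S) (hS' : Computable S') :
    ComputablePred fun a => Coll hadd z (j a) (S a) (S' a) := by
  unfold Coll
  have hSx : Computable fun x : α × ℕ => S x.1 := hS.comp Computable.fst
  have hS'x : Computable fun x : α × ℕ => S' x.1 := hS'.comp Computable.fst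
  have hjx : Computable fun x : α × ℕ => j x.1 := hj.comp Computable.fst
  have h2 : Computable fun x : α × ℕ => x.2 := Computable.snd
  refine cp_and (cp_lt (Computable.const 0) (c_sD hS')) (cp_and ?_ (cp_and ?_ (cp_and ?_ ?_)))
  · refine cp_forall_lt (p := fun a i => below (kp (S' a) i) (i + 1) ∧ below (kq (S' a) i) (i + 1) ∧
      (i < j a → pr (kp (S' a) i) = pr (kq (S' a) i) * fer i ^ sD (S' a))) ?_ (c_len (c_shs hS))
    exact cp_and (cp_below (c_kp hS'x h2) (c_add h2 (Computable.const 1))) (cp_and
      (cp_below (c_kq hS'x h2) (c_add h2 (Computable.const 1)))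
      (cp_imp (cp_lt h2 hjx) (cp_eq (c_pr (c_kp hS'x h2))
        (c_mul (c_pr (c_kq hS'x h2)) (c_pow (c_fer h2) (c_sD hS'x))))))
  · exact cp_eq (c_len (c_sL hS')) (c_len (c_sL hS))
  · refine cp_forall_lt (p := fun x a => lu (gl (S' x) a) = ap (S' x) (lu (gl (S x) a)) (lv (gl (S x) a)) ∧
      lv (gl (S' x) a) = ap (S' x) (lv (gl (S x) a)) (lu (gl (S x) a)) ∧
      lN (gl (S' x) a) = lN (gl (S x) a) * sD (S' x) ∧
      hOK hadd z (shs (S' x)) (gl (S' x) a)) ?_ (c_len (c_sL hS))
    exact cp_and (cp_eq (c_lu (c_gl hS'x h2)) (c_ap hS'x (c_lu (c_gl hSx h2)) (c_lv (c_gl hSx h2))))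
      (cp_and (cp_eq (c_lv (c_gl hS'x h2)) (c_ap hS'x (c_lv (c_gl hSx h2)) (c_lu (c_gl hSx h2))))
      (cp_and (cp_eq (c_lN (c_gl hS'x h2)) (c_mul (c_lN (c_gl hSx h2)) (c_sD hS'x)))
      (cp_hOK ha (c_shs hS'x) (c_gl hS'x h2))))
  · have hlen : Computable fun a => (sL (S a)).length + 1 :=
      c_add (c_len (c_sL hS)) (Computable.const 1)
    refine cp_forall_lt (p := fun x a => ∀ b, b < (sL (S x)).length + 1 →
      ltR (gl (S x) a) (gl (S x) b) → ltR (gl (S' x) a) (gl (S' x) b)) ?_ hlen
    refine cp_forall_lt (α := α × ℕ) (p := fun y b =>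
      ltR (gl (S y.1) y.2) (gl (S y.1) b) → ltR (gl (S' y.1) y.2) (gl (S' y.1) b)) ?_
      (hlen.comp Computable.fst)
    have k1 : Computable fun y : (α × ℕ) × ℕ => S y.1.1 := hSx.comp Computable.fst
    have k2 : Computable fun y : (α × ℕ) × ℕ => S' y.1.1 := hS'x.comp Computable.fst
    have k3 : Computable fun y : (α × ℕ) × ℕ => y.1.2 := Computable.snd.comp Computable.fst
    have k4 : Computable fun y : (α × ℕ) × ℕ => y.2 := Computable.snd
    exact cp_imp (cp_ltR (c_gl k1 k3) (c_gl k1 k4)) (cp_ltR (c_gl k2 k3) (c_gl k2 k4))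

lemma cp_AA (ha : Computable₂ hadd) {p : α → Pay} {S S' : α → St} (hp : Computable p)
    (hS : Computable S) (hS' : Computable S') :
    ComputablePred fun a => AA hadd z (p a) (S a) (S' a) := by
  unfold AA
  have hS'x : Computable fun x : α × ℕ => S' x.1 := hS'.comp Computable.fst
  have hjx : Computable fun x : α × ℕ => pj (p x.1) := (c_pj hp).comp Computable.fst
  have h2 : Computable fun x : α × ℕ => x.2 := Computable.snd
  refine cp_and (cp_Coll ha (c_pj hp) hS hS') (cp_and ?_ (cp_and ?_ ?_))
  · refine cp_forall_lt (p := fun a i => pj (p a) ≤ i → below (kp (S' a) i) (pj (p a)) ∧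
      below (kq (S' a) i) (pj (p a))) ?_ (c_len (c_shs hS))
    exact cp_imp (cp_le hjx h2) (cp_and (cp_below (c_kp hS'x h2) hjx) (cp_below (c_kq hS'x h2) hjx))
  · refine cp_eq (c_shs hS') ?_
    exact Computable.list_append.comp (Primrec.list_take.to_comp.comp (c_pj hp) (c_shs hS))
      (Computable.list_cons.comp (c_add (c_getD z (c_shs hS) (c_pj hp)) (Computable.const 1))
        (Computable.const []))
  · exact cp_eq (c_sSat hS') (c_sSat hS)

lemma cp_certEq {P M kp kq ux vx uz vz : α → List ℕ} {A p q : α → ℕ} (h1 : Computable P)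
    (h2 : Computable M) (h3 : Computable kp) (h4 : Computable kq) (h5 : Computable ux)
    (h6 : Computable vx) (h7 : Computable uz) (h8 : Computable vz) (h9 : Computable A)
    (h10 : Computable p) (h11 : Computable q) :
    ComputablePred fun a => certEq (P a) (M a) (kp a) (kq a) (ux a) (vx a) (uz a) (vz a)
      (A a) (p a) (q a) :=
  cp_eq (c_mul (c_mul (c_mul (c_pow (c_pr h3) h9) (c_pr h1)) (c_pow (c_pr h5) h10))
      (c_pow (c_pr h8) h11))
    (c_mul (c_mul (c_mul (c_pow (c_pr h4) h9) (c_pr h2)) (c_pow (c_pr h6) h10))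
      (c_pow (c_pr h7) h11))

lemma cp_cert {p : α → Pay} {S S' : α → St} (hp : Computable p)
    (hS : Computable S) (hS' : Computable S') :
    ComputablePred fun a => cert (p a) (S a) (S' a) := by
  unfold cert
  have hpx : Computable fun x : α × ℕ => p x.1 := hp.comp Computable.fst
  have h2 : Computable fun x : α × ℕ => x.2 := Computable.snd
  have hj1 : Computable fun a => pj (p a) + 1 := c_add (c_pj hp) (Computable.const 1)
  have hj2 : Computable fun a => pj (p a) + 2 := c_add (c_pj hp) (Computable.const 2)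
  have ha1 : Computable fun a => (pas (p a)).getD (pj (p a) + 1) 0 := c_getD 0 (c_pas hp) hj1
  have ha2 : Computable fun a => (pas (p a)).getD (pj (p a) + 2) 0 := c_getD 0 (c_pas hp) hj2
  refine cp_and (cp_lt (Computable.const 0) (c_sq hS')) (cp_and ?_ (cp_and ?_ (cp_or ?_ ?_)))
  · exact cp_forall_mem (p := fun a x => x < pj (p a) ∧ qv (p a) x = some 1)
      (cp_and (cp_lt h2 (c_pj hpx)) (cp_eq (c_qv hpx h2) (Computable.const (some 1)))) (c_sP hS')
  · exact cp_forall_mem (p := fun a x => x < pj (p a) ∧ qv (p a) x = some 0)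
      (cp_and (cp_lt h2 (c_pj hpx)) (cp_eq (c_qv hpx h2) (Computable.const (some 0)))) (c_sM hS')
  · exact cp_and (cp_eq (c_qv hp (c_pj hp)) (Computable.const (some 1)))
      (cp_certEq (c_sP hS') (c_sM hS') (c_kp hS' (c_pj hp)) (c_kq hS' (c_pj hp))
        (c_lu (c_gl hS ha1)) (c_lv (c_gl hS ha1)) (c_lu (c_gl hS ha2)) (c_lv (c_gl hS ha2))
        (c_sA hS') (c_sp hS') (c_sq hS'))
  · exact cp_and (cp_eq (c_qv hp (c_pj hp)) (Computable.const (some 0)))
      (cp_certEq (c_sP hS') (c_sM hS') (c_kq hS' (c_pj hp)) (c_kp hS' (c_pj hp))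
        (c_lu (c_gl hS ha1)) (c_lv (c_gl hS ha1)) (c_lu (c_gl hS ha2)) (c_lv (c_gl hS ha2))
        (c_sA hS') (c_sp hS') (c_sq hS'))

lemma cp_AB (ha : Computable₂ hadd) {p : α → Pay} {S S' : α → St} (hp : Computable p)
    (hS : Computable S) (hS' : Computable S') :
    ComputablePred fun a => AB hadd z (p a) (S a) (S' a) := by
  unfold AB
  refine cp_and (cp_Coll ha (c_pj hp) hS hS') (cp_and ?_ (cp_and ?_ (cp_cert hp hS hS')))
  · exact cp_eq (c_shs hS') (c_shs hS)
  · exact cp_eq (c_sSat hS') (Computable.list_cons.comp (c_pe hp) (c_sSat hS))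

lemma cp_AC {S S' : α → St} (hS : Computable S) (hS' : Computable S') :
    ComputablePred fun a => AC (S a) (S' a) := by
  unfold AC
  refine cp_and ?_ (cp_and ?_ ?_)
  · exact cp_eq (c_shs hS') (Computable.list_append.comp (c_shs hS) (Computable.const [0]))
  · exact cp_eq (c_sL hS') (c_sL hS)
  · exact cp_eq (c_sSat hS') (c_sSat hS)

lemma cp_AD {p : α → Pay} {S S' : α → St} (hp : Computable p)
    (hS : Computable S) (hS' : Computable S') :
    ComputablePred fun a => AD (p a) (S a) (S' a) := by
  unfold AD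
  refine cp_and ?_ (cp_and ?_ ?_)
  · exact cp_eq (c_shs hS') (c_shs hS)
  · exact cp_eq (c_sL hS') (Computable.list_append.comp (c_sL hS)
      (Computable.list_cons.comp (c_newl hp) (Computable.const [])))
  · exact cp_eq (c_sSat hS') (c_sSat hS)

lemma cp_same {S S' : α → St} (hS : Computable S) (hS' : Computable S') :
    ComputablePred fun a => same (S a) (S' a) := by
  unfold same
  refine cp_and ?_ (cp_and ?_ ?_)
  · exact cp_eq (c_shs hS') (c_shs hS)
  · exact cp_eq (c_sL hS') (c_sL hS)
  · exact cp_eq (c_sSat hS') (c_sSat hS)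

lemma c_ins {s : α → ℕ} (hs : Computable s) : Computable fun a => ins (s a) :=
  (Computable.ofNat Pay).comp (Computable.fst.comp (Computable.unpair.comp hs))

theorem cp_RR (ha : Computable₂ hadd) {p : α → Pay} {S S' : α → St} (hp : Computable p)
    (hS : Computable S) (hS' : Computable S') :
    ComputablePred fun a => RR hadd z (p a) (S a) (S' a) := by
  unfold RR
  have kA : ComputablePred fun a => pk (p a) = 0 ∧ TA hadd z (p a) (S a) :=
    cp_and (cp_eq (c_pk hp) (Computable.const 0)) (cp_TA ha hp hS)
  have kB : ComputablePred fun a => pk (p a) = 1 ∧ TB (p a) (S a) :=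
    cp_and (cp_eq (c_pk hp) (Computable.const 1)) (cp_TB hp hS)
  have kC : ComputablePred fun a => pk (p a) = 2 := cp_eq (c_pk hp) (Computable.const 2)
  have kD : ComputablePred fun a => pk (p a) = 3 ∧ TD hadd z (p a) (S a) :=
    cp_and (cp_eq (c_pk hp) (Computable.const 3)) (cp_TD ha hp hS)
  exact cp_and (cp_imp kA (cp_AA ha hp hS hS')) (cp_and (cp_imp kB (cp_AB ha hp hS hS'))
    (cp_and (cp_imp kC (cp_AC hS hS')) (cp_and (cp_imp kD (cp_AD hp hS hS'))
      (cp_imp (cp_and (cp_not kA) (cp_and (cp_not kB) (cp_and (cp_not kC) (cp_not kD))))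
        (cp_same hS hS')))))

end lifted

end Run7.h480.Ord
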