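import Mathlib

set_option autoImplicit false

namespace Run7.h480.Ord

open Nat.Partrec (Code)

variable {α β σ : Type*} [Primcodable α] [Primcodable β] [Primcodable σ]

lemma cp_and {p q : α → Prop} (hp : ComputablePred p) (hq : ComputablePred q) :
    ComputablePred fun a => p a ∧ q a := by
  obtain ⟨_, hp⟩ := hp
  obtain ⟨_, hq⟩ := hq
  refine ⟨inferInstance, (Primrec.and.to_comp.comp hp hq).of_eq fun a => ?_⟩
  simp

lemma cp_or {p q : α → Prop} (hp : ComputablePred p) (hq : ComputablePred q) :
    ComputablePred fun a => p a ∨ q a := by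
  obtain ⟨_, hp⟩ := hp
  obtain ⟨_, hq⟩ := hq
  refine ⟨inferInstance, (Primrec.or.to_comp.comp hp hq).of_eq fun a => ?_⟩
  simp

lemma cp_not {p : α → Prop} (hp : ComputablePred p) : ComputablePred fun a => ¬ p a :=
  hp.not

lemma cp_imp {p q : α → Prop} (hp : ComputablePred p) (hq : ComputablePred q) :
    ComputablePred fun a => p a → q a :=
  (cp_or (cp_not hp) hq).of_eq fun a => by tauto

lemma cp_comp {p : β → Prop} (hp : ComputablePred p) {f : α → β} (hf : Computable f) :
    ComputablePred fun a => p (f a) := by
  obtain ⟨_, hp⟩ := hp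
  exact ⟨fun a => inferInstance, hp.comp hf⟩

lemma cp_eq {f g : α → β} (hf : Computable f) (hg : Computable g) :
    ComputablePred fun a => f a = g a :=
  (cp_comp (PrimrecPred.computablePred (α := β × β) (p := fun x => x.1 = x.2)
    (Primrec.eq.comp Primrec.fst Primrec.snd)) (hf.pair hg)).of_eq fun a => Iff.rfl

lemma cp_lt {f g : α → ℕ} (hf : Computable f) (hg : Computable g) :
    ComputablePred fun a => f a < g a := by
  exact (cp_comp (PrimrecPred.computablePred (α := ℕ × ℕ) (p := fun x => x.1 < x.2)
    (Primrec.nat_lt.comp Primrec.fst Primrec.snd)) (hf.pair hg)).of_eq fun a => Iff.rfl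

lemma cp_le {f g : α → ℕ} (hf : Computable f) (hg : Computable g) :
    ComputablePred fun a => f a ≤ g a := by
  exact (cp_comp (PrimrecPred.computablePred (α := ℕ × ℕ) (p := fun x => x.1 ≤ x.2)
    (Primrec.nat_le.comp Primrec.fst Primrec.snd)) (hf.pair hg)).of_eq fun a => Iff.rfl

lemma cp_forall_lt {p : α → ℕ → Prop} (hp : ComputablePred fun x : α × ℕ => p x.1 x.2)
    {f : α → ℕ} (hf : Computable f) : ComputablePred fun a => ∀ i, i < f a → p a i := by
  classical
  obtain ⟨_, hp⟩ := hp
  have h0 : Computable₂ fun (a : α) (x : ℕ × Bool) => x.2 && decide (p a x.1) := by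
    refine Primrec.and.to_comp.comp (Computable.snd.comp Computable.snd) ?_
    have : Computable fun x : α × (ℕ × Bool) => decide (p x.1 x.2.1) :=
      (hp.comp (Computable.fst.pair (Computable.fst.comp Computable.snd))).of_eq fun x => by simp
    exact this
  have h1 := Computable.nat_rec hf (Computable.const true) h0
  refine ⟨fun a => Classical.propDecidable _, h1.of_eq fun a => ?_⟩
  have key : ∀ n : ℕ, (Nat.rec (motive := fun _ => Bool) true
      (fun y IH => IH && decide (p a y)) n) = decide (∀ i, i < n → p a i) := by
    intro n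
    induction n with
    | zero => simp
    | succ n ih =>
        show (_ && _) = _
        rw [ih]
        simp only [← Bool.decide_and]
        congr 1
        apply propext
        constructor
        · rintro ⟨h1, h2⟩ i hi
          rcases Nat.lt_succ_iff_lt_or_eq.1 hi with h3 | h3
          · exact h1 i h3
          · rw [h3]; exact h2
        · intro h
          exact ⟨fun i hi => h i (by omega), h n (by omega)⟩
  refine (key (f a)).trans ?_
  congr

lemma cp_forall_mem {p : α → ℕ → Prop} (hp : ComputablePred fun x : α × ℕ => p x.1 x.2)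
    {f : α → List ℕ} (hf : Computable f) : ComputablePred fun a => ∀ i ∈ f a, p a i := by
  have h1 : ComputablePred fun a => ∀ n, n < (f a).length → p a ((f a).getD n 0) := by
    refine cp_forall_lt (p := fun a n => p a ((f a).getD n 0)) ?_
      (Primrec.list_length.to_comp.comp hf)
    have h2 : Computable fun x : α × ℕ => (x.1, (f x.1).getD x.2 0) :=
      Computable.fst.pair ((Primrec.list_getD 0).to_comp.comp (hf.comp Computable.fst) Computable.snd)
    exact (cp_comp hp h2).of_eq fun x => Iff.rfl
  refine h1.of_eq fun a => ?_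
  constructor
  · intro h i hi
    obtain ⟨n, hn, rfl⟩ := List.mem_iff_getElem.1 hi
    have := h n hn
    rwa [List.getD_eq_getElem _ _ hn] at this
  · intro h n hn
    rw [List.getD_eq_getElem _ _ hn]
    exact h _ (List.getElem_mem hn)

lemma comp_foldl {f : α → List β} {g : α → σ} {h : α → σ × β → σ}
    (hf : Computable f) (hg : Computable g) (hh : Computable₂ h) :
    Computable fun a => (f a).foldl (fun s b => h a (s, b)) (g a) := by
  have h0 : Computable₂ fun (a : α) (x : ℕ × σ) =>
      (Option.casesOn ((f a)[x.1]?) x.2 (fun b => h a (x.2, b)) : σ) := by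
    refine Computable.option_casesOn
      (Computable.list_getElem?.comp (hf.comp Computable.fst) (Computable.fst.comp Computable.snd))
      (Computable.snd.comp Computable.snd) ?_
    exact hh.comp (Computable.fst.comp Computable.fst)
      ((Computable.snd.comp (Computable.snd.comp Computable.fst)).pair Computable.snd)
  have h1 := Computable.nat_rec (Primrec.list_length.to_comp.comp hf) hg h0
  refine h1.of_eq fun a => ?_
  have key : ∀ n, n ≤ (f a).length → (Nat.rec (motive := fun _ => σ) (g a)
      (fun i s => Option.casesOn ((f a)[i]?) s (fun b => h a (s, b))) n : σ) =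
      ((f a).take n).foldl (fun s b => h a (s, b)) (g a) := by
    intro n
    induction n with
    | zero => intro _; simp
    | succ n ih =>
        intro hn
        have hn' : n < (f a).length := hn
        rw [List.take_add_one, List.foldl_append, ← ih hn'.le, List.getElem?_eq_getElem hn']
        show (Option.casesOn ((f a)[n]?) _ _ : σ) = _
        rw [List.getElem?_eq_getElem hn']
        rfl
  refine (key _ le_rfl).trans ?_
  rw [List.take_length]

/-- uniformisation of a computable relation along a computable sequence -/
theorem run_exists {R : ℕ → σ → σ → Prop}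
    (hR : ComputablePred fun x : (ℕ × σ) × σ => R x.1.1 x.1.2 x.2) (V : σ → Prop) (S0 : σ)
    (hV0 : V S0) (hex : ∀ s S, V S → ∃ S', R s S S') (hV : ∀ s S S', V S → R s S S' → V S') :
    ∃ f : ℕ → σ, Computable f ∧ f 0 = S0 ∧ (∀ s, V (f s)) ∧ ∀ s, R s (f s) (f (s + 1)) := by
  classical
  obtain ⟨_, hR⟩ := hR
  let F : ℕ × σ → ℕ → Option σ := fun x n =>
    (Encodable.decode (α := σ) n).bind fun S' => cond (decide (R x.1 x.2 S')) (some S') none
  have hF : Computable₂ F := by
    refine Computable.option_bind (Computable.decode.comp Computable.snd) ?_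
    refine Computable.cond ?_ (Computable.option_some.comp Computable.snd) (Computable.const none)
    exact (hR.comp ((Computable.fst.comp Computable.fst).pair Computable.snd)).of_eq
      fun x => by simp
  have hstep : Partrec fun x => Nat.rfindOpt (F x) := Partrec.rfindOpt hF
  have hFspec : ∀ x n S', S' ∈ F x n → R x.1 x.2 S' := by
    intro x n S' h
    simp only [F, Option.mem_def, Option.bind_eq_some_iff] at h
    obtain ⟨T, _, h2⟩ := h
    by_cases hr : R x.1 x.2 T
    · rw [decide_eq_true hr] at h2
      simp only [cond_true, Option.some.injEq] at h2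
      rw [← h2]; exact hr
    · rw [decide_eq_false hr] at h2
      simp at h2
  have hFdom : ∀ s S, V S → (Nat.rfindOpt (F (s, S))).Dom := by
    intro s S hS
    obtain ⟨S', h⟩ := hex s S hS
    rw [Nat.rfindOpt_dom]
    refine ⟨Encodable.encode S', S', ?_⟩
    simp only [F, Encodable.encodek, Option.bind_some]
    rw [decide_eq_true h]
    rfl
  let run : ℕ → Part σ := fun s => Nat.rec (motive := fun _ => Part σ) (Part.some S0)
    (fun s prev => prev.bind fun S => Nat.rfindOpt (F (s, S))) s
  have h0 : Partrec₂ fun (_ : ℕ) (x : ℕ × σ) => Nat.rfindOpt (F x) :=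
    hstep.comp (Computable.snd : Computable fun x : ℕ × (ℕ × σ) => x.2)
  have hrun : Partrec run :=
    Partrec.nat_rec Computable.id (Computable.const (α := ℕ) S0).partrec h0
  have hdom : ∀ s, ∃ S, S ∈ run s ∧ V S := by
    intro s
    induction s with
    | zero => exact ⟨S0, Part.mem_some _, hV0⟩
    | succ s ih =>
        obtain ⟨S, h1, h2⟩ := ih
        have h3 := hFdom s S h2
        refine ⟨(Nat.rfindOpt (F (s, S))).get h3, ?_, ?_⟩
        · exact Part.mem_bind h1 (Part.get_mem h3)
        · obtain ⟨n, hn⟩ := Nat.rfindOpt_spec (Part.get_mem h3)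
          exact hV s S _ h2 (hFspec (s, S) n _ hn)
  choose f hf hfV using hdom
  refine ⟨f, ?_, ?_, hfV, ?_⟩
  · exact hrun.of_eq_tot hf
  · have := hf 0
    exact Part.mem_some_iff.1 this
  · intro s
    have h1 := hf (s + 1)
    have h2 : f (s + 1) ∈ (run s).bind fun S => Nat.rfindOpt (F (s, S)) := h1
    rw [Part.eq_some_iff.2 (hf s), Part.bind_some] at h2
    obtain ⟨n, hn⟩ := Nat.rfindOpt_spec h2
    exact hFspec (s, f s) n _ hn

end Run7.h480.Ord
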