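import Pool.Agent.Run7.h480.OInv

set_option autoImplicit false

namespace Run7.h480.Ord

variable {H : Type*} [AddCommGroup H] (ν : ℕ ≃ H)

lemma common_den (κ : ℕ → W) (k : ℕ) :
    ∃ D : ℕ, 0 < D ∧ ∀ i < k, ∃ z : ℕ →₀ ℤ, (D : ℚ) • κ i = iota z := by
  induction k with
  | zero => exact ⟨1, one_pos, fun i hi => absurd hi (Nat.not_lt_zero i)⟩
  | succ k ih =>
      obtain ⟨D, hD, h⟩ := ih
      obtain ⟨N, hN, z, hz⟩ := exists_den (κ k)
      refine ⟨D * N, Nat.mul_pos hD hN, fun i hi => ?_⟩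
      rcases Nat.lt_succ_iff_lt_or_eq.1 hi with h1 | h1
      · obtain ⟨y, hy⟩ := h i h1
        refine ⟨(N : ℤ) • y, ?_⟩
        rw [map_zsmul, ← hy, natCast_zsmul, ← Nat.cast_smul_eq_nsmul ℚ, smul_smul]
        congr 1
        push_cast
        ring
      · subst h1
        refine ⟨(D : ℤ) • z, ?_⟩
        rw [map_zsmul, ← hz, natCast_zsmul, ← Nat.cast_smul_eq_nsmul ℚ, smul_smul]
        congr 1
        push_cast
        ring

lemma exists_small_gap (T : Finset ℝ) (h : ∀ t ∈ T, 0 < t) : ∃ δ : ℝ, 0 < δ ∧ ∀ t ∈ T, δ ≤ t := by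
  classical
  induction T using Finset.induction_on with
  | empty => exact ⟨1, one_pos, fun t ht => absurd ht (Finset.notMem_empty t)⟩
  | insert a T ha ih =>
      obtain ⟨δ, hδ, h1⟩ := ih fun t ht => h t (Finset.mem_insert_of_mem ht)
      refine ⟨min δ a, lt_min hδ (h a (Finset.mem_insert_self _ _)), fun t ht => ?_⟩
      rcases Finset.mem_insert.1 ht with h2 | h2
      · rw [h2]; exact min_le_right _ _
      · exact (min_le_left _ _).trans (h1 t h2)

lemma exists_gap (G : Finset W) : ∃ δ : ℝ, 0 < δ ∧ ∀ g ∈ G, ∀ g' ∈ G, r g < r g' →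
    2 * δ ≤ r g' - r g := by
  classical
  obtain ⟨δ, hδ, h⟩ := exists_small_gap
    (((G ×ˢ G).filter fun x => r x.1 < r x.2).image fun x => (r x.2 - r x.1) / 2) (by
      intro t ht
      rw [Finset.mem_image] at ht
      obtain ⟨x, hx, rfl⟩ := ht
      rw [Finset.mem_filter] at hx
      linarith [hx.2])
  refine ⟨δ, hδ, fun g hg g' hg' hlt => ?_⟩
  have := h ((r g' - r g) / 2) (by
    rw [Finset.mem_image]
    exact ⟨(g, g'), by rw [Finset.mem_filter]; exact ⟨Finset.mk_mem_product hg hg', hlt⟩, rfl⟩)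
  linarith

/-- building the new state from the images of the basis -/
lemma build (htf : TF H) {i0 i1 : ℕ} {S : St} (hI : Inv ν i0 i1 S) {j : ℕ} (κ : ℕ → W)
    (h1 : ∀ i < (shs S).length, κ i ∈ V (i + 1)) (h2 : ∀ i < j, κ i = e i) (hs' : List ℕ)
    (h3 : ∀ a < (sL S).length, Kmap κ (val (gl S a)) ∈ RW (hf ν hs'))
    (h4 : ∀ a, a ≤ (sL S).length → ∀ b, b ≤ (sL S).length → r (val (gl S a)) < r (val (gl S b)) →
      r (Kmap κ (val (gl S a))) < r (Kmap κ (val (gl S b)))) :
    ∃ (sk' : List (List ℕ × List ℕ)) (D : ℕ) (L' : List Letter), 0 < D ∧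
      ∀ (Sat' : List ℕ) (A p q : ℕ) (P M : List ℕ) (S' : St),
        S' = ((hs', L', Sat'), (sk', (D, A, p, q), (P, M))) →
        Coll (haddOf ν) (ν.symm 0) j S S' ∧
        (∀ i < (shs S).length, (D : ℚ) • κ i = vec (kp S' i) - vec (kq S' i)) ∧
        (∀ i < (shs S).length, ∀ m, κ i ∈ V m → below (kp S' i) m ∧ below (kq S' i) m) := by
  classical
  set k := (shs S).length with hk
  obtain ⟨D, hD, hz⟩ := common_den κ k
  have hDq : (D : ℚ) ≠ 0 := by exact_mod_cast hD.ne'
  have hF : ∀ i, ∃ uv : List ℕ × List ℕ, i < k → ((D : ℚ) • κ i = vec uv.1 - vec uv.2 ∧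
      ∀ m, κ i ∈ V m → below uv.1 m ∧ below uv.2 m) := by
    intro i
    by_cases hi : i < k
    · obtain ⟨z, hz⟩ := hz i hi
      obtain ⟨u, v, h5, hu, hv⟩ := exists_lists z
      refine ⟨(u, v), fun _ => ⟨?_, fun m hm => ?_⟩⟩
      · rw [hz, h5, map_sub, iota_zvec, iota_zvec]
      · have key : ∀ x, z x ≠ 0 → x < m := by
          intro x hx
          refine mem_V.1 hm x fun h0 => hx ?_
          have := DFunLike.congr_fun hz x
          rw [iota_apply, Finsupp.smul_apply, h0, smul_zero] at this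
          exact_mod_cast this.symm
        exact ⟨fun x hx => key x (hu x hx).ne', fun x hx => key x (hv x hx).ne⟩
    · exact ⟨([], []), fun h => absurd h hi⟩
  choose F hF using hF
  let sk' : List (List ℕ × List ℕ) := (List.range k).map F
  have hsk : ∀ i < k, sk'.getD i ([], []) = F i := by
    intro i hi
    have hlen : i < sk'.length := by simpa [sk'] using hi
    rw [List.getD_eq_getElem _ _ hlen]
    simp [sk']
  let fimg : Letter → ℕ := fun l =>
    if h : ∃ x, Re (hf ν hs') (Kmap κ (val l)) x then ν.symm h.choose else 0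
  let ap' : List ℕ → List ℕ → List ℕ := fun u v =>
    u.flatMap (fun i => (sk'.getD i ([], [])).1) ++ v.flatMap (fun i => (sk'.getD i ([], [])).2)
  let G : Letter → Letter := fun l =>
    ((ap' (lu l) (lv l), ap' (lv l) (lu l)), (lN l * D, fimg l))
  refine ⟨sk', D, (sL S).map G, hD, ?_⟩
  intro Sat' A p q P M S' hS'
  have hsD : sD S' = D := by rw [hS']; rfl
  have hkp : ∀ i < k, kp S' i = (F i).1 := by
    intro i hi
    rw [hS']
    show (sk'.getD i ([], [])).1 = _
    rw [hsk i hi]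
  have hkq : ∀ i < k, kq S' i = (F i).2 := by
    intro i hi
    rw [hS']
    show (sk'.getD i ([], [])).2 = _
    rw [hsk i hi]
  have hLlen : (sL S').length = (sL S).length := by
    rw [hS']
    show ((sL S).map G).length = _
    rw [List.length_map]
  have hgl : ∀ a, a < (sL S).length → gl S' a = G (gl S a) := by
    intro a ha
    rw [hS']
    show ((sL S).map G).getD a zl = G ((sL S).getD a zl)
    rw [List.getD_eq_getElem _ _ (by rwa [List.length_map]), List.getD_eq_getElem _ _ ha,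
      List.getElem_map]
  have hap : ∀ u v, ap S' u v = ap' u v := by
    intro u v
    rw [hS']
    rfl
  have hκ : ∀ i < k, (D : ℚ) • κ i = vec (kp S' i) - vec (kq S' i) := by
    intro i hi
    rw [hkp i hi, hkq i hi]
    exact (hF i hi).1
  have hbel : ∀ i < k, ∀ m, κ i ∈ V m → below (kp S' i) m ∧ below (kq S' i) m := by
    intro i hi m hm
    rw [hkp i hi, hkq i hi]
    exact (hF i hi).2 m hm
  have hval : ∀ a, a < (sL S).length → 0 < lN (gl S' a) ∧
      val (gl S' a) = Kmap κ (val (gl S a)) := by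
    intro a ha
    have hok := hI.ok a ha
    have hpos : 0 < lN (gl S' a) := by
      rw [hgl a ha]
      exact Nat.mul_pos hok.pos hD
    refine ⟨hpos, ?_⟩
    apply val_eq_of_smul hpos
    have e1 : lu (gl S' a) = ap S' (lu (gl S a)) (lv (gl S a)) := by
      rw [hgl a ha, hap]; rfl
    have e2 : lv (gl S' a) = ap S' (lv (gl S a)) (lu (gl S a)) := by
      rw [hgl a ha, hap]; rfl
    have e3 : lN (gl S' a) = lN (gl S a) * D := by
      rw [hgl a ha]; rfl
    rw [e1, e2, e3, vec_ap (k := k) (κ := κ) (D := (D : ℚ)) hκ hok.bu hok.bv,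
      ← smul_val hok.pos, map_smul, smul_smul]
    push_cast
    rw [mul_comm]
  refine ⟨⟨?_, ?_, hLlen, ?_, ?_⟩, hκ, hbel⟩
  · rw [hsD]; exact hD
  · intro i hi
    refine ⟨(hbel i hi _ (h1 i hi)).1, (hbel i hi _ (h1 i hi)).2, fun hij => ?_⟩
    have h5 := hκ i hi
    rw [h2 i hij] at h5
    have h6 : val ((kp S' i, kq S' i), (sD S', 0)) = e i := by
      apply val_eq_of_smul
      · show 0 < sD S'
        rw [hsD]; exact hD
      · show ((sD S' : ℕ) : ℚ) • e i = vec (kp S' i) - vec (kq S' i)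
        rw [hsD]; exact h5
    exact (isE_iff (l := ((kp S' i, kq S' i), (sD S', 0)))
      (by show 0 < sD S'; rw [hsD]; exact hD) i).2 h6
  · intro a ha
    refine ⟨?_, ?_, ?_, ?_⟩
    · rw [hgl a ha, hap]; rfl
    · rw [hgl a ha, hap]; rfl
    · rw [hgl a ha, hsD]; rfl
    · have hhs : shs S' = hs' := by rw [hS']; rfl
      rw [hhs]
      apply hOK_of_re ν htf (hval a ha).1
      rw [(hval a ha).2]
      have hex : ∃ x, Re (hf ν hs') (Kmap κ (val (gl S a))) x := mem_RW.1 (h3 a ha)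
      have : lf (gl S' a) = ν.symm hex.choose := by
        rw [hgl a ha]
        show fimg (gl S a) = _
        simp only [fimg]
        rw [dif_pos hex]
      rw [this, Equiv.apply_symm_apply]
      exact hex.choose_spec
  · intro a ha b hb hlt
    have hN : ∀ a, a ≤ (sL S).length → 0 < lN (gl S a) ∧ 0 < lN (gl S' a) ∧
        val (gl S' a) = Kmap κ (val (gl S a)) := by
      intro a hle
      rcases hle.lt_or_eq with h5 | h5
      · exact ⟨(hI.ok a h5).pos, (hval a h5).1, (hval a h5).2⟩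
      · rw [h5, gl_of_le le_rfl, gl_of_le hLlen.le]
        refine ⟨lN_zl, lN_zl, ?_⟩
        rw [val_zl, map_zero]
    have ha' := hN a (by omega)
    have hb' := hN b (by omega)
    rw [ltR_iff ha'.1 hb'.1] at hlt
    rw [ltR_iff ha'.2.1 hb'.2.1, ha'.2.2, hb'.2.2]
    exact h4 a (by omega) b (by omega) hlt

lemma certEq_iff {P M kp kq ux vx uz vz : List ℕ} {A p q : ℕ} :
    certEq P M kp kq ux vx uz vz A p q ↔
    (A : ℚ) • (vec kp - vec kq) + (vec P - vec M) + (p : ℚ) • (vec ux - vec vx) -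
      (q : ℚ) • (vec uz - vec vz) = 0 := by
  have h4 : certEq P M kp kq ux vx uz vz A p q ↔
      (pr kp : ℝ) ^ A * (pr P : ℝ) * (pr ux : ℝ) ^ p * (pr vz : ℝ) ^ q =
      (pr kq : ℝ) ^ A * (pr M : ℝ) * (pr vx : ℝ) ^ p * (pr uz : ℝ) ^ q := by
    unfold certEq
    exact_mod_cast Iff.rfl
  rw [h4]
  have a1 := pow_pos (pr_pos' kp) A
  have a2 := pr_pos' P
  have a3 := pow_pos (pr_pos' ux) p
  have a4 := pow_pos (pr_pos' vz) q
  have b1 := pow_pos (pr_pos' kq) A
  have b2 := pr_pos' M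
  have b3 := pow_pos (pr_pos' vx) p
  have b4 := pow_pos (pr_pos' uz) q
  have h5 : ∀ x y : ℝ, 0 < x → 0 < y → (x = y ↔ Real.log x = Real.log y) := by
    intro x y hx hy
    constructor
    · intro h; rw [h]
    · intro h; exact Real.log_injOn_pos hx hy h
  rw [h5 _ _ (mul_pos (mul_pos (mul_pos a1 a2) a3) a4) (mul_pos (mul_pos (mul_pos b1 b2) b3) b4),
    Real.log_mul (mul_pos (mul_pos a1 a2) a3).ne' a4.ne', Real.log_mul (mul_pos a1 a2).ne' a3.ne',
    Real.log_mul a1.ne' a2.ne', Real.log_mul (mul_pos (mul_pos b1 b2) b3).ne' b4.ne',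
    Real.log_mul (mul_pos b1 b2).ne' b3.ne', Real.log_mul b1.ne' b2.ne']
  simp only [Real.log_pow]
  have h6 : (A : ℚ) • (vec kp - vec kq) + (vec P - vec M) + (p : ℚ) • (vec ux - vec vx) -
      (q : ℚ) • (vec uz - vec vz) = 0 ↔
      r ((A : ℚ) • (vec kp - vec kq) + (vec P - vec M) + (p : ℚ) • (vec ux - vec vx) -
      (q : ℚ) • (vec uz - vec vz)) = r 0 := r_eq_iff.symm
  rw [h6, map_zero, map_sub, map_add, map_add, r_smul_nat, r_smul_nat, r_smul_nat, map_sub,
    map_sub, map_sub, map_sub, r_vec, r_vec, r_vec, r_vec, r_vec, r_vec, r_vec, r_vec]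
  constructor <;> intro h <;> linarith

end Run7.h480.Ord
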