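import Pool.Agent.Run7.h480.OEx

set_option autoImplicit false

namespace Run7.h480.Ord

variable {H : Type*} [AddCommGroup H] (ν : ℕ ≃ H)

lemma collapse_state {i0 i1 : ℕ} {S : St} (hI : Inv ν i0 i1 S) {j : ℕ}
    (hj : j < (shs S).length) {X Z : W} (hX : X ∈ V j) (hZ : Z ∈ V j)
    (hXR : X ∈ RW (hf ν (shs S))) (hZR : Z ∈ RW (hf ν (shs S)))
    (hX0 : 0 < r X) (hZ0 : 0 < r Z)
    (hind : ∀ p q : ℕ, 0 < p → (p : ℚ) • X ≠ (q : ℚ) • Z)
    (ε : ℕ → ℤ) (hε : ∀ i, ε i = 1 ∨ ε i = -1) (εb : ℤ) (hεb : εb = 1 ∨ εb = -1) :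
    ∃ κ : ℕ → W, (∀ i < j, κ i = e i) ∧ (∀ i, κ i ∈ V j) ∧
      (∀ a < (sL S).length, Kmap κ (val (gl S a)) ∈ RW (hf ν (shs S))) ∧
      (∀ a, a ≤ (sL S).length → ∀ b, b ≤ (sL S).length → r (val (gl S a)) < r (val (gl S b)) →
        r (Kmap κ (val (gl S a))) < r (Kmap κ (val (gl S b)))) ∧
      ∃ m : ℕ → ℚ, (∀ i < j, 0 < m i) ∧ ∃ p q : ℕ, 0 < p ∧ 0 < q ∧
        (εb : ℚ) • κ j + ∑ i ∈ Finset.range j, (m i * ε i) • e i + (p : ℚ) • X - (q : ℚ) • Z = 0 := by
  classical
  let G : Finset W := (Finset.range ((sL S).length + 1)).image (fun a => val (gl S a)) ∪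
    (Finset.range (shs S).length).image e
  have hGl : ∀ a, a ≤ (sL S).length → val (gl S a) ∈ G := by
    intro a ha
    refine Finset.mem_union_left _ (Finset.mem_image_of_mem _ ?_)
    rw [Finset.mem_range]; omega
  have hGe : ∀ i < (shs S).length, e i ∈ G := by
    intro i hi
    exact Finset.mem_union_right _ (Finset.mem_image_of_mem _ (Finset.mem_range.2 hi))
  have hG : ∀ g ∈ G, g ∈ V (shs S).length ∧ g ∈ RW (hf ν (shs S)) := by
    intro g hg
    rcases Finset.mem_union.1 hg with h1 | h1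
    · obtain ⟨a, ha, rfl⟩ := Finset.mem_image.1 h1
      rw [Finset.mem_range] at ha
      by_cases h2 : a < (sL S).length
      · have hok := hI.ok a h2
        exact ⟨val_mem_V hok.bu hok.bv, mem_RW.2 ⟨_, hOK_re ν hok.pos hok.ok⟩⟩
      · rw [gl_of_le (by omega), val_zl]
        exact ⟨Submodule.zero_mem _, AddSubgroup.zero_mem _⟩
    · obtain ⟨i, hi, rfl⟩ := Finset.mem_image.1 h1
      exact ⟨e_mem_V (Finset.mem_range.1 hi), mem_RW.2 ⟨_, Re_e _ i⟩⟩
  obtain ⟨δ, hδ, hgap⟩ := exists_gap G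
  obtain ⟨κ, h1, h2, h3, h4, h5⟩ := collapse hj G (fun g hg => (hG g hg).1) hGe
    (fun g hg => (hG g hg).2) hX hZ hXR hZR hX0 hZ0 hind ε hε εb hεb hδ
  refine ⟨κ, h1, h2, fun a ha => h3 _ (hGl a ha.le), ?_, h5⟩
  intro a ha b hb hlt
  have g1 := hgap _ (hGl a ha) _ (hGl b hb) hlt
  have g2 := abs_lt.1 (h4 _ (hGl a ha))
  have g3 := abs_lt.1 (h4 _ (hGl b hb))
  linarith [g2.2, g3.1]

lemma kappa_level {κ : ℕ → W} {j : ℕ} (h1 : ∀ i < j, κ i = e i) (h2 : ∀ i, κ i ∈ V j) (i : ℕ) :
    κ i ∈ V (i + 1) := by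
  by_cases h : i < j
  · rw [h1 i h]; exact e_mem_V (Nat.lt_succ_self i)
  · exact V_mono (by omega) (h2 i)

lemma Kmap_mem_all {κ : ℕ → W} {j : ℕ} (h2 : ∀ i, κ i ∈ V j) (w : W) : Kmap κ w ∈ V j := by
  by_cases hw : w = 0
  · rw [hw, map_zero]; exact Submodule.zero_mem _
  · obtain ⟨l, _, hl⟩ := exists_top hw
    exact Kmap_mem (fun i _ => h2 i) hl

lemma exists_AA (htf : TF H) {i0 i1 : ℕ} {S : St} (hI : Inv ν i0 i1 S) {p : Pay}
    (hT : TA (haddOf ν) (ν.symm 0) p S) : ∃ S', AA (haddOf ν) (ν.symm 0) p S S' := by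
  obtain ⟨hj2, hjk, hcp, hbu, hbv, hok⟩ := hT
  have hr : ∀ i, 0 < r (e i) := by
    intro i
    rw [r_e]
    exact Real.log_pos (by exact_mod_cast one_lt_fer i)
  have hne : ∀ p q : ℕ, 0 < p → (p : ℚ) • e 0 ≠ (q : ℚ) • e 1 := by
    intro p q hp h
    have := DFunLike.congr_fun h 0
    simp [e] at this
    omega
  obtain ⟨κ, h1, h2, h3, h4, _⟩ := collapse_state ν hI hjk (X := e 0) (Z := e 1)
    (e_mem_V (by omega)) (e_mem_V (by omega)) (mem_RW.2 ⟨_, Re_e _ 0⟩) (mem_RW.2 ⟨_, Re_e _ 1⟩)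
    (hr 0) (hr 1) hne (fun _ => 1) (fun _ => Or.inl rfl) 1 (Or.inl rfl)
  set hs' := (shs S).take (pj p) ++ [(shs S).getD (pj p) (ν.symm 0) + 1] with hhs'
  have hcongr : ∀ i < pj p, hf ν (shs S) i = hf ν hs' i := by
    intro i hi
    simp only [hf]
    rw [hhs', getD_take_append hjk hi]
  have h3' : ∀ a < (sL S).length, Kmap κ (val (gl S a)) ∈ RW (hf ν hs') := by
    intro a ha
    obtain ⟨x, hx⟩ := mem_RW.1 (h3 a ha)
    exact mem_RW.2 ⟨x, Re_congr_V hcongr (Kmap_mem_all h2 _) hx⟩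
  obtain ⟨sk', D, L', hD, hb⟩ := build ν htf hI κ (fun i _ => kappa_level h1 h2 i) h1 hs' h3' h4
  obtain ⟨c1, c2, c3⟩ := hb (sSat S) 0 0 0 [] [] _ rfl
  exact ⟨_, c1, fun i hi _ => c3 i hi _ (h2 i), rfl, rfl⟩

lemma exists_AB (htf : TF H) {i0 i1 : ℕ} {S : St} (hI : Inv ν i0 i1 S) {p : Pay}
    (hT : TB p S) : ∃ S', AB (haddOf ν) (ν.symm 0) p S S' := by
  obtain ⟨⟨hj2, hjk, hej, hsat⟩, hlet, ⟨hax, haz⟩, ⟨hb1, hb2, hb3, hb4⟩, ⟨hpx, hpz⟩, hqx, hqz⟩ := hT
  set j := pj p with hj
  set lx := gl S ((pas p).getD (j + 1) 0) with hlx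
  set lz := gl S ((pas p).getD (j + 2) 0) with hlz
  have okx := hI.ok _ hax
  have okz := hI.ok _ haz
  rw [← hlx] at okx
  rw [← hlz] at okz
  have hX : val lx ∈ V j := val_mem_V hb1 hb2
  have hZ : val lz ∈ V j := val_mem_V hb3 hb4
  have hXR : val lx ∈ RW (hf ν (shs S)) := mem_RW.2 ⟨_, hOK_re ν okx.pos okx.ok⟩
  have hZR : val lz ∈ RW (hf ν (shs S)) := mem_RW.2 ⟨_, hOK_re ν okz.pos okz.ok⟩
  have hX0 := (pos_iff okx.pos).1 hpx
  have hZ0 := (pos_iff okz.pos).1 hpz
  have sx := smul_val okx.pos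
  have sz := smul_val okz.pos
  by_cases hind : ∀ p q : ℕ, 0 < p → (p : ℚ) • val lx ≠ (q : ℚ) • val lz
  · -- the independent case
    let ε : ℕ → ℤ := fun i => if qv p i = some 1 then 1 else -1
    have hε : ∀ i, ε i = 1 ∨ ε i = -1 := by
      intro i
      simp only [ε]
      split_ifs <;> simp
    obtain ⟨κ, h1, h2, h3, h4, m, hm, P', Q', hP', hQ', hrel⟩ := collapse_state ν hI hjk
      hX hZ hXR hZR hX0 hZ0 hind ε hε (ε j) (hε j)
    obtain ⟨sk', D, L', hD, hb⟩ := build ν htf hI κ (fun i _ => kappa_level h1 h2 i) h1 (shs S)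
      h3 h4
    have hDq : (D : ℚ) ≠ 0 := by exact_mod_cast hD.ne'
    set w1 : W := ((D * lN lx * lN lz : ℕ) : ℚ) • ∑ i ∈ Finset.range j, (m i * ε i) • e i with hw1
    obtain ⟨T, hT, P, M, hPM, hPpos, hMneg⟩ := exists_rat_lists w1
    have hc0 : (0 : ℚ) < ((D * lN lx * lN lz : ℕ) : ℚ) := by
      have := Nat.mul_pos (Nat.mul_pos hD okx.pos) okz.pos
      exact_mod_cast this
    have hw1a : ∀ i, w1 i = if i < j then ((D * lN lx * lN lz : ℕ) : ℚ) * (m i * ε i) else 0 := by
      intro i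
      rw [hw1, Finsupp.smul_apply, Finsupp.finsetSum_apply]
      simp only [e, Finsupp.smul_apply, smul_eq_mul, Finsupp.single_apply]
      split_ifs with hi
      · congr 1
        rw [Finset.sum_eq_single i]
        · simp
        · intro b _ hb
          simp [hb]
        · intro h
          exact absurd (Finset.mem_range.2 hi) h
      · rw [mul_eq_zero]
        right
        apply Finset.sum_eq_zero
        intro b hb
        have : b ≠ i := by
          have := Finset.mem_range.1 hb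
          omega
        simp [this]
    obtain ⟨c1, c2, c3⟩ := hb (pe p :: sSat S) (T * lN lx * lN lz) (P' * T * D * lN lz)
      (Q' * T * D * lN lx) P M _ rfl
    refine ⟨_, c1, rfl, rfl, ?_, ?_, ?_, ?_⟩
    · show 0 < Q' * T * D * lN lx
      exact Nat.mul_pos (Nat.mul_pos (Nat.mul_pos hQ' hT) hD) okx.pos
    · intro x hx
      have h5 := hPpos x hx
      rw [hw1a] at h5
      split_ifs at h5 with hxj
      · refine ⟨hxj, ?_⟩
        by_contra hne
        have h6 : ε x = -1 := by simp only [ε, hne, if_false]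
        rw [h6] at h5
        have h7 := hm x hxj
        have h8 : 0 < ((D * lN lx * lN lz : ℕ) : ℚ) * m x := mul_pos hc0 h7
        push_cast at h5 h8
        linarith
      · exact absurd h5 (lt_irrefl _)
    · intro x hx
      have h5 := hMneg x hx
      rw [hw1a] at h5
      split_ifs at h5 with hxj
      · refine ⟨hxj, ?_⟩
        rcases (hlet x (by omega)).2.2 with h6 | h6
        · exact h6
        · exfalso
          have h7 : ε x = 1 := by simp only [ε, h6, if_true]
          rw [h7] at h5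
          have h8 := hm x hxj
          have h9 : 0 < ((D * lN lx * lN lz : ℕ) : ℚ) * m x := mul_pos hc0 h8
          push_cast at h5 h9
          linarith
      · exact absurd h5 (lt_irrefl _)
    · have hκj := c2 j hjk
      have main : ((T * lN lx * lN lz : ℕ) : ℚ) • ((ε j : ℚ) • ((D : ℚ) • κ j)) +
          (vec P - vec M) +
          ((P' * T * D * lN lz : ℕ) : ℚ) • (vec (lu lx) - vec (lv lx)) -
          ((Q' * T * D * lN lx : ℕ) : ℚ) • (vec (lu lz) - vec (lv lz)) = 0 := by
        rw [← sx, ← sz, ← hPM, hw1]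
        have h6 := congrArg (fun t => ((T * D * lN lx * lN lz : ℕ) : ℚ) • t) hrel
        simp only [smul_zero] at h6
        rw [← h6]
        push_cast
        simp only [smul_sub, smul_add, smul_smul]
        congr 1
        · congr 1
          · congr 1
            · congr 1; ring
            · congr 1; ring
          · congr 1; ring
        · congr 1; ring
      rcases (hlet j (by omega)).2.2 with h6 | h6
      · right
        refine ⟨h6, ?_⟩
        rw [certEq_iff]
        have h7 : ε j = -1 := by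
          simp only [ε, h6]
          simp
        rw [h7, hκj] at main
        rw [← main]
        show ((T * lN lx * lN lz : ℕ) : ℚ) • _ + (vec P - vec M) + _ - _ = _
        congr 3
        push_cast
        rw [neg_smul, one_smul, neg_sub]
      · left
        refine ⟨h6, ?_⟩
        rw [certEq_iff]
        have h7 : ε j = 1 := by
          simp only [ε, h6]
          simp
        rw [h7, hκj] at main
        rw [← main]
        show ((T * lN lx * lN lz : ℕ) : ℚ) • _ + (vec P - vec M) + _ - _ = _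
        congr 3
        push_cast
        rw [one_smul]
  · -- the dependent case
    push Not at hind
    obtain ⟨P', Q', hP', hPQ⟩ := hind
    have hQ' : 0 < Q' := by
      rcases Nat.eq_zero_or_pos Q' with h | h
      · exfalso
        have h5 := congrArg r hPQ
        rw [r_smul_nat, r_smul_nat, h] at h5
        have h6 : (0 : ℝ) < P' := by exact_mod_cast hP'
        have h7 := mul_pos h6 hX0
        push_cast at h5
        linarith
      · exact h
    have hid : ∀ w : W, Kmap e w = w := by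
      intro w
      by_cases hw : w = 0
      · rw [hw, map_zero]
      · obtain ⟨l, _, hl⟩ := exists_top hw
        exact Kmap_id (j := l + 1) (fun i _ => rfl) hl
    obtain ⟨sk', D, L', hD, hb⟩ := build ν htf hI (j := j) e (fun i _ => e_mem_V (Nat.lt_succ_self i))
      (fun i _ => rfl) (shs S) (fun a ha => by
        rw [hid]
        exact mem_RW.2 ⟨_, hOK_re ν (hI.ok a ha).pos (hI.ok a ha).ok⟩)
      (fun a _ b _ hlt => by rw [hid, hid]; exact hlt)
    obtain ⟨c1, c2, c3⟩ := hb (pe p :: sSat S) 0 (P' * lN lz) (Q' * lN lx) [] [] _ rfl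
    have main : ∀ kp kq : List ℕ, ((0 : ℕ) : ℚ) • (vec kp - vec kq) + (vec [] - vec []) +
        ((P' * lN lz : ℕ) : ℚ) • (vec (lu lx) - vec (lv lx)) -
        ((Q' * lN lx : ℕ) : ℚ) • (vec (lu lz) - vec (lv lz)) = 0 := by
      intro kp kq
      rw [← sx, ← sz]
      have h6 := congrArg (fun t => ((lN lx * lN lz : ℕ) : ℚ) • t) hPQ
      simp only [smul_smul] at h6
      push_cast at h6 ⊢
      simp only [smul_smul, zero_smul, vec_nil, sub_zero, zero_add]
      rw [sub_eq_zero]
      calc ((P' : ℚ) * lN lz * lN lx) • val lx = ((lN lx : ℚ) * lN lz * P') • val lx := by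
            congr 1; ring
        _ = ((lN lx : ℚ) * lN lz * Q') • val lz := h6
        _ = ((Q' : ℚ) * lN lx * lN lz) • val lz := by congr 1; ring
    refine ⟨_, c1, rfl, rfl, ?_, ?_, ?_, ?_⟩
    · show 0 < Q' * lN lx
      exact Nat.mul_pos hQ' okx.pos
    · intro x hx
      exact absurd hx List.not_mem_nil
    · intro x hx
      exact absurd hx List.not_mem_nil
    · rcases (hlet j (by omega)).2.2 with h6 | h6
      · right
        refine ⟨h6, ?_⟩
        rw [certEq_iff]
        exact main _ _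
      · left
        refine ⟨h6, ?_⟩
        rw [certEq_iff]
        exact main _ _

theorem exists_next (htf : TF H) {i0 i1 : ℕ} {S : St} (hI : Inv ν i0 i1 S) (p : Pay) :
    ∃ S', RR (haddOf ν) (ν.symm 0) p S S' := by
  by_cases a1 : pk p = 0 ∧ TA (haddOf ν) (ν.symm 0) p S
  · obtain ⟨S', h⟩ := exists_AA ν htf hI a1.2
    refine ⟨S', fun _ => h, fun h' => ?_, fun h' => ?_, fun h' => ?_, fun h' => absurd a1 h'.1⟩
    · exact absurd (a1.1.symm.trans h'.1) (by norm_num)
    · exact absurd (a1.1.symm.trans h') (by norm_num)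
    · exact absurd (a1.1.symm.trans h'.1) (by norm_num)
  · by_cases a2 : pk p = 1 ∧ TB p S
    · obtain ⟨S', h⟩ := exists_AB ν htf hI a2.2
      refine ⟨S', fun h' => absurd h' a1, fun _ => h, fun h' => ?_, fun h' => ?_,
        fun h' => absurd a2 h'.2.1⟩
      · exact absurd (a2.1.symm.trans h') (by norm_num)
      · exact absurd (a2.1.symm.trans h'.1) (by norm_num)
    · by_cases a3 : pk p = 2
      · refine ⟨((shs S ++ [0], sL S, sSat S), S.2), fun h' => absurd h' a1, fun h' => absurd h' a2,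
          fun _ => ⟨rfl, rfl, rfl⟩, fun h' => ?_, fun h' => absurd a3 h'.2.2.1⟩
        exact absurd (a3.symm.trans h'.1) (by norm_num)
      · by_cases a4 : pk p = 3 ∧ TD (haddOf ν) (ν.symm 0) p S
        · exact ⟨((shs S, sL S ++ [newl p], sSat S), S.2), fun h' => absurd h' a1,
            fun h' => absurd h' a2, fun h' => absurd h' a3, fun _ => ⟨rfl, rfl, rfl⟩,
            fun h' => absurd a4 h'.2.2.2⟩
        · exact ⟨S, fun h' => absurd h' a1, fun h' => absurd h' a2, fun h' => absurd h' a3,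
            fun h' => absurd h' a4, fun _ => ⟨rfl, rfl, rfl⟩⟩

end Run7.h480.Ord
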