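import Mathlib

set_option autoImplicit false

namespace Run7.h480.Ord

open Nat.Partrec (Code)

/-- initial segments -/
def seg (X : ℕ → ℕ) (n : ℕ) : List ℕ := (List.range n).map X

lemma seg_length (X : ℕ → ℕ) (n : ℕ) : (seg X n).length = n := by simp [seg]

lemma seg_append (X : ℕ → ℕ) {m n : ℕ} (h : m ≤ n) : ∃ ρ, seg X n = seg X m ++ ρ := by
  refine ⟨((List.range n).drop m).map X, ?_⟩
  unfold seg
  rw [← List.map_append]
  congr 1
  have h1 : List.range m = (List.range n).take m := by
    rw [List.take_range, Nat.min_eq_left h]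
  rw [h1, List.take_append_drop]

lemma seg_getElem? (X : ℕ → ℕ) {i n : ℕ} (h : i < n) : (seg X n)[i]? = some (X i) := by
  simp [seg, h]

lemma getElem?_of_append {τ ρ : List ℕ} {a v : ℕ} (h : τ[a]? = some v) :
    (τ ++ ρ)[a]? = some v := by
  rw [List.getElem?_eq_some_iff] at h
  obtain ⟨h1, h2⟩ := h
  rw [List.getElem?_append_left h1, List.getElem?_eq_some_iff]
  exact ⟨h1, h2⟩

/-- a continuous partial recursive functional computing `f` from `X` -/
structure Fnl (X : ℕ → ℕ) (f : ℕ →. ℕ) (g : List ℕ → ℕ →. ℕ) : Prop where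
  pr : Partrec fun p : List ℕ × ℕ => g p.1 p.2
  mono : ∀ τ ρ a v, v ∈ g τ a → v ∈ g (τ ++ ρ) a
  comp : ∀ a v, v ∈ f a → ∃ n, v ∈ g (seg X n) a
  sound : ∀ a v n, v ∈ g (seg X n) a → v ∈ f a

lemma Fnl.comp_le {X : ℕ → ℕ} {f : ℕ →. ℕ} {g : List ℕ → ℕ →. ℕ} (h : Fnl X f g) {a v n m : ℕ}
    (h1 : v ∈ g (seg X n) a) (hm : n ≤ m) : v ∈ g (seg X m) a := by
  obtain ⟨ρ, hρ⟩ := seg_append X hm
  rw [hρ]
  exact h.mono _ _ _ _ h1

theorem exists_fnl (X : ℕ → ℕ) {f : ℕ →. ℕ}
    (hf : Nat.RecursiveIn {((X : ℕ → ℕ) : ℕ →. ℕ)} f) : ∃ g, Fnl X f g := by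
  induction hf with
  | zero =>
      refine ⟨fun _ _ => Part.some 0, ?_, fun _ _ _ _ h => h, fun a v h => ⟨0, h⟩,
        fun a v n h => h⟩
      exact (Computable.const (α := List ℕ × ℕ) 0).partrec
  | succ =>
      refine ⟨fun _ a => Part.some (Nat.succ a), ?_, fun _ _ _ _ h => h, fun a v h => ⟨0, h⟩,
        fun a v n h => h⟩
      exact (Computable.succ.comp (Computable.snd : Computable fun p : List ℕ × ℕ => p.2)).partrec
  | left =>
      refine ⟨fun _ a => Part.some (Nat.unpair a).1, ?_, fun _ _ _ _ h => h, fun a v h => ⟨0, h⟩,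
        fun a v n h => h⟩
      exact (Computable.fst.comp (Computable.unpair.comp
        (Computable.snd : Computable fun p : List ℕ × ℕ => p.2))).partrec
  | right =>
      refine ⟨fun _ a => Part.some (Nat.unpair a).2, ?_, fun _ _ _ _ h => h, fun a v h => ⟨0, h⟩,
        fun a v n h => h⟩
      exact (Computable.snd.comp (Computable.unpair.comp
        (Computable.snd : Computable fun p : List ℕ × ℕ => p.2))).partrec
  | oracle g hg =>
      rw [Set.mem_singleton_iff] at hg
      subst hg
      refine ⟨fun τ a => Part.ofOption (τ[a]?), ?_, ?_, ?_, ?_⟩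
      · exact Computable.ofOption (Computable.list_getElem?.comp Computable.fst Computable.snd)
      · intro τ ρ a v h
        rw [Part.mem_ofOption] at h ⊢
        exact getElem?_of_append h
      · intro a v h
        refine ⟨a + 1, ?_⟩
        rw [Part.mem_ofOption, seg_getElem? X (Nat.lt_succ_self a)]
        have : v = X a := Part.mem_some_iff.1 h
        rw [this]; rfl
      · intro a v n h
        rw [Part.mem_ofOption] at h
        have h1 : a < n := by
          by_contra hc
          rw [List.getElem?_eq_none (by rw [seg_length]; omega)] at h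
          exact absurd h (by simp)
        rw [seg_getElem? X h1] at h
        have : X a = v := by simpa using h
        rw [← this]
        exact Part.mem_some _
  | pair _ _ ih1 ih2 =>
      obtain ⟨g1, h1⟩ := ih1
      obtain ⟨g2, h2⟩ := ih2
      refine ⟨fun τ a => (g1 τ a).bind fun x => (g2 τ a).map fun y => Nat.pair x y, ?_, ?_, ?_, ?_⟩
      · refine h1.pr.bind ?_
        refine Partrec.map (h2.pr.comp Computable.fst) ?_
        exact (Primrec₂.natPair.to_comp.comp (Computable.snd.comp Computable.fst) Computable.snd)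
      · intro τ ρ a v h
        rw [Part.mem_bind_iff] at h ⊢
        obtain ⟨x, hx, h⟩ := h
        rw [Part.mem_map_iff] at h
        obtain ⟨y, hy, h⟩ := h
        exact ⟨x, h1.mono _ _ _ _ hx, (Part.mem_map_iff _).2 ⟨y, h2.mono _ _ _ _ hy, h⟩⟩
      · intro a v h
        simp only [seq_eq_bind_map, Part.bind_eq_bind, Part.map_eq_map, Part.mem_bind_iff,
          Part.mem_map_iff] at h
        obtain ⟨_, ⟨x, hx, rfl⟩, y, hy, h⟩ := h
        obtain ⟨n, hn⟩ := h1.comp _ _ hx
        obtain ⟨m, hm⟩ := h2.comp _ _ hy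
        refine ⟨max n m, ?_⟩
        rw [Part.mem_bind_iff]
        exact ⟨x, h1.comp_le hn (le_max_left _ _), (Part.mem_map_iff _).2
          ⟨y, h2.comp_le hm (le_max_right _ _), h⟩⟩
      · intro a v n h
        rw [Part.mem_bind_iff] at h
        obtain ⟨x, hx, h⟩ := h
        rw [Part.mem_map_iff] at h
        obtain ⟨y, hy, h⟩ := h
        simp only [seq_eq_bind_map, Part.bind_eq_bind, Part.map_eq_map, Part.mem_bind_iff,
          Part.mem_map_iff]
        exact ⟨_, ⟨x, h1.sound _ _ _ hx, rfl⟩, y, h2.sound _ _ _ hy, h⟩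
  | comp _ _ ih1 ih2 =>
      obtain ⟨g1, h1⟩ := ih1
      obtain ⟨g2, h2⟩ := ih2
      refine ⟨fun τ a => (g2 τ a).bind fun b => g1 τ b, ?_, ?_, ?_, ?_⟩
      · refine h2.pr.bind ?_
        exact h1.pr.comp ((Computable.fst.comp Computable.fst).pair Computable.snd)
      · intro τ ρ a v h
        rw [Part.mem_bind_iff] at h ⊢
        obtain ⟨x, hx, h⟩ := h
        exact ⟨x, h2.mono _ _ _ _ hx, h1.mono _ _ _ _ h⟩
      · intro a v h
        rw [Part.bind_eq_bind, Part.mem_bind_iff] at h
        obtain ⟨x, hx, h⟩ := h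
        obtain ⟨n, hn⟩ := h2.comp _ _ hx
        obtain ⟨m, hm⟩ := h1.comp _ _ h
        refine ⟨max n m, ?_⟩
        rw [Part.mem_bind_iff]
        exact ⟨x, h2.comp_le hn (le_max_left _ _), h1.comp_le hm (le_max_right _ _)⟩
      · intro a v n h
        rw [Part.mem_bind_iff] at h
        obtain ⟨x, hx, h⟩ := h
        rw [Part.bind_eq_bind, Part.mem_bind_iff]
        exact ⟨x, h2.sound _ _ _ hx, h1.sound _ _ _ h⟩
  | prec _ _ ih1 ih2 =>
      rename_i F G _ _
      obtain ⟨g1, h1⟩ := ih1
      obtain ⟨g2, h2⟩ := ih2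
      let R : List ℕ → ℕ → ℕ → Part ℕ := fun τ a n =>
        Nat.rec (motive := fun _ => Part ℕ) (g1 τ a)
          (fun y IH => IH.bind fun i => g2 τ (Nat.pair a (Nat.pair y i))) n
      let R0 : ℕ → ℕ → Part ℕ := fun a n =>
        Nat.rec (motive := fun _ => Part ℕ) (F a)
          (fun y IH => IH.bind fun i => G (Nat.pair a (Nat.pair y i))) n
      have hmono : ∀ τ ρ a n v, v ∈ R τ a n → v ∈ R (τ ++ ρ) a n := by
        intro τ ρ a n
        induction n with
        | zero => intro v h; exact h1.mono _ _ _ _ h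
        | succ n ih =>
            intro v h
            have h' : v ∈ (R τ a n).bind fun i => g2 τ (Nat.pair a (Nat.pair n i)) := h
            rw [Part.mem_bind_iff] at h'
            obtain ⟨x, hx, h'⟩ := h'
            show v ∈ (R (τ ++ ρ) a n).bind fun i => g2 (τ ++ ρ) (Nat.pair a (Nat.pair n i))
            rw [Part.mem_bind_iff]
            exact ⟨x, ih x hx, h2.mono _ _ _ _ h'⟩
      have hcomp : ∀ a n v, v ∈ R0 a n → ∃ m, v ∈ R (seg X m) a n := by
        intro a n
        induction n with
        | zero => intro v h; exact h1.comp _ _ h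
        | succ n ih =>
            intro v h
            have h' : v ∈ (R0 a n).bind fun i => G (Nat.pair a (Nat.pair n i)) := h
            rw [Part.mem_bind_iff] at h'
            obtain ⟨x, hx, h'⟩ := h'
            obtain ⟨m1, hm1⟩ := ih x hx
            obtain ⟨m2, hm2⟩ := h2.comp _ _ h'
            refine ⟨max m1 m2, ?_⟩
            show v ∈ (R (seg X (max m1 m2)) a n).bind
              fun i => g2 (seg X (max m1 m2)) (Nat.pair a (Nat.pair n i))
            rw [Part.mem_bind_iff]
            obtain ⟨ρ, hρ⟩ := seg_append X (le_max_left m1 m2)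
            refine ⟨x, ?_, h2.comp_le hm2 (le_max_right _ _)⟩
            rw [hρ]
            exact hmono _ _ _ _ _ hm1
      have hsound : ∀ a n v m, v ∈ R (seg X m) a n → v ∈ R0 a n := by
        intro a n
        induction n with
        | zero => intro v m h; exact h1.sound _ _ _ h
        | succ n ih =>
            intro v m h
            have h' : v ∈ (R (seg X m) a n).bind
              fun i => g2 (seg X m) (Nat.pair a (Nat.pair n i)) := h
            rw [Part.mem_bind_iff] at h'
            obtain ⟨x, hx, h'⟩ := h'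
            show v ∈ (R0 a n).bind fun i => G (Nat.pair a (Nat.pair n i))
            rw [Part.mem_bind_iff]
            exact ⟨x, ih x m hx, h2.sound _ _ _ h'⟩
      refine ⟨fun τ p => R τ (Nat.unpair p).1 (Nat.unpair p).2, ?_, ?_, ?_, ?_⟩
      · have e1 : Computable fun p : List ℕ × ℕ => (Nat.unpair p.2).2 :=
          Computable.snd.comp (Computable.unpair.comp Computable.snd)
        have e21 : Computable fun p : List ℕ × ℕ => (Nat.unpair p.2).1 :=
          Computable.fst.comp (Computable.unpair.comp Computable.snd)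
        have e22 : Computable fun p : List ℕ × ℕ => p.1 := Computable.fst
        have e2 : Partrec fun p : List ℕ × ℕ => g1 p.1 (Nat.unpair p.2).1 :=
          h1.pr.comp (e22.pair e21)
        have e3 : Partrec₂ fun (p : List ℕ × ℕ) (x : ℕ × ℕ) =>
            g2 p.1 (Nat.pair (Nat.unpair p.2).1 (Nat.pair x.1 x.2)) := by
          have d1 : Computable fun y : (List ℕ × ℕ) × (ℕ × ℕ) => y.1.1 :=
            Computable.fst.comp Computable.fst
          have d2 : Computable fun y : (List ℕ × ℕ) × (ℕ × ℕ) => (Nat.unpair y.1.2).1 :=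
            Computable.fst.comp (Computable.unpair.comp (Computable.snd.comp Computable.fst))
          have d3 : Computable fun y : (List ℕ × ℕ) × (ℕ × ℕ) => Nat.pair y.2.1 y.2.2 :=
            Primrec₂.natPair.to_comp.comp (Computable.fst.comp Computable.snd)
              (Computable.snd.comp Computable.snd)
          have d4 : Computable fun y : (List ℕ × ℕ) × (ℕ × ℕ) =>
              Nat.pair (Nat.unpair y.1.2).1 (Nat.pair y.2.1 y.2.2) :=
            Primrec₂.natPair.to_comp.comp d2 d3
          exact h2.pr.comp (d1.pair d4)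
        exact Partrec.nat_rec e1 e2 e3
      · intro τ ρ a v h
        exact hmono _ _ _ _ _ h
      · intro p v h
        exact hcomp _ _ _ h
      · intro p v n h
        exact hsound _ _ _ _ h
  | rfind _ ih1 =>
      rename_i F _
      obtain ⟨g1, h1⟩ := ih1
      refine ⟨fun τ a => Nat.rfind fun n => (g1 τ (Nat.pair a n)).map fun m => decide (m = 0),
        ?_, ?_, ?_, ?_⟩
      · have e1 : Partrec₂ fun (p : List ℕ × ℕ) (n : ℕ) =>
            (g1 p.1 (Nat.pair p.2 n)).map fun m => decide (m = 0) := by
          have e2 : Partrec fun x : (List ℕ × ℕ) × ℕ => g1 x.1.1 (Nat.pair x.1.2 x.2) :=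
            h1.pr.comp ((Computable.fst.comp Computable.fst).pair
              (Primrec₂.natPair.to_comp.comp (Computable.snd.comp Computable.fst) Computable.snd))
          refine Partrec.map e2 ?_
          have e3 : Primrec fun x : ((List ℕ × ℕ) × ℕ) × ℕ => decide (x.2 = 0) :=
            (Primrec.eq.comp Primrec.snd (Primrec.const 0)).decide
          exact e3.to_comp
        exact Partrec.rfind e1
      · intro τ ρ a v h
        rw [Nat.mem_rfind] at h ⊢
        refine ⟨?_, fun {m} hm => ?_⟩
        · have := h.1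
          rw [Part.mem_map_iff] at this ⊢
          obtain ⟨y, hy, h3⟩ := this
          exact ⟨y, h1.mono _ _ _ _ hy, h3⟩
        · have := h.2 hm
          rw [Part.mem_map_iff] at this ⊢
          obtain ⟨y, hy, h3⟩ := this
          exact ⟨y, h1.mono _ _ _ _ hy, h3⟩
      · intro a v h
        rw [Nat.mem_rfind] at h
        obtain ⟨h2, h3⟩ := h
        have key : ∀ m, ∃ n, (m ≤ v → ∃ y, y ∈ g1 (seg X n) (Nat.pair a m) ∧
            (m = v → y = 0) ∧ (m < v → y ≠ 0)) := by
          intro m
          by_cases hm : m ≤ v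
          · rcases hm.lt_or_eq with h4 | h4
            · have := h3 h4
              simp only [Part.map_eq_map, Part.mem_map_iff] at this
              obtain ⟨y, hy, hy2⟩ := this
              obtain ⟨n, hn⟩ := h1.comp _ _ hy
              exact ⟨n, fun _ => ⟨y, hn, fun h5 => absurd h5 h4.ne, fun _ => by simpa using hy2⟩⟩
            · simp only [Part.map_eq_map, Part.mem_map_iff] at h2
              obtain ⟨y, hy, hy2⟩ := h2
              rw [← h4] at hy
              obtain ⟨n, hn⟩ := h1.comp _ _ hy
              exact ⟨n, fun _ => ⟨y, hn, fun _ => by simpa using hy2,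
                fun h5 => absurd h4 h5.ne⟩⟩
          · exact ⟨0, fun h => absurd h hm⟩
        choose n hn using key
        set N := ∑ m ∈ Finset.range (v + 1), n m with hN
        have hle : ∀ m, m ≤ v → n m ≤ N := fun m hm =>
          Finset.single_le_sum (f := n) (fun _ _ => Nat.zero_le _)
            (Finset.mem_range.2 (Nat.lt_succ_of_le hm))
        refine ⟨N, ?_⟩
        rw [Nat.mem_rfind]
        refine ⟨?_, fun {m} hm => ?_⟩
        · obtain ⟨y, hy, hy1, _⟩ := hn v le_rfl
          rw [Part.mem_map_iff]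
          exact ⟨y, h1.comp_le hy (hle v le_rfl), by simp [hy1 rfl]⟩
        · obtain ⟨y, hy, _, hy2⟩ := hn m hm.le
          rw [Part.mem_map_iff]
          exact ⟨y, h1.comp_le hy (hle m hm.le), by simp [hy2 hm]⟩
      · intro a v n h
        rw [Nat.mem_rfind] at h ⊢
        refine ⟨?_, fun {m} hm => ?_⟩
        · have := h.1
          rw [Part.mem_map_iff] at this
          obtain ⟨y, hy, h3⟩ := this
          simp only [Part.map_eq_map, Part.mem_map_iff]
          exact ⟨y, h1.sound _ _ _ hy, h3⟩
        · have := h.2 hm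
          rw [Part.mem_map_iff] at this
          obtain ⟨y, hy, h3⟩ := this
          simp only [Part.map_eq_map, Part.mem_map_iff]
          exact ⟨y, h1.sound _ _ _ hy, h3⟩

/-- a code for the functional -/
theorem exists_code (X : ℕ → ℕ) {f : ℕ →. ℕ}
    (hf : Nat.RecursiveIn {((X : ℕ → ℕ) : ℕ →. ℕ)} f) : ∃ c : Code,
      (∀ a v, v ∈ f a → ∃ n0, ∀ n, n0 ≤ n → v ∈ c.eval (Encodable.encode (seg X n, a))) ∧
      (∀ a v n, v ∈ c.eval (Encodable.encode (seg X n, a)) → v ∈ f a) := by
  obtain ⟨g, hg⟩ := exists_fnl X hf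
  obtain ⟨c, hc⟩ := Nat.Partrec.Code.exists_code.1 hg.pr
  have key : ∀ τ a, c.eval (Encodable.encode (τ, a)) = g τ a := by
    intro τ a
    rw [hc]
    simp [Encodable.encodek, Part.map_id']
  refine ⟨c, fun a v h => ?_, fun a v n h => ?_⟩
  · obtain ⟨n0, hn0⟩ := hg.comp a v h
    refine ⟨n0, fun n hn => ?_⟩
    rw [key]
    exact hg.comp_le hn0 hn
  · rw [key] at h
    exact hg.sound a v n h

/-! ### generic oracles -/

section generic

variable (D : Code → Set (List ℕ))

open Classical in
/-- extend `τ` into `D c` if possible -/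
noncomputable def ext1 (c : Code) (τ : List ℕ) : List ℕ :=
  if h : ∃ ρ, τ ++ ρ ∈ D c then τ ++ h.choose else τ

open Classical in
/-- ... and then differ from the function with code `c` -/
noncomputable def ext2 (c : Code) (τ : List ℕ) : List ℕ :=
  ext1 D c τ ++ [if h : (c.eval (ext1 D c τ).length).Dom then (c.eval (ext1 D c τ).length).get h + 1
    else 0]

noncomputable def TT : ℕ → List ℕ
  | 0 => []
  | n + 1 => ext2 D (Denumerable.ofNat Code n) (TT n)

lemma ext1_append (c : Code) (τ : List ℕ) : ∃ ρ, ext1 D c τ = τ ++ ρ := by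
  unfold ext1
  split_ifs with h
  · exact ⟨_, rfl⟩
  · exact ⟨[], (List.append_nil τ).symm⟩

lemma TT_append (m n : ℕ) (h : m ≤ n) : ∃ ρ, TT D n = TT D m ++ ρ := by
  induction n, h using Nat.le_induction with
  | base => exact ⟨[], (List.append_nil _).symm⟩
  | succ n _ ih =>
      obtain ⟨ρ, hρ⟩ := ih
      obtain ⟨ρ', hρ'⟩ := ext1_append D (Denumerable.ofNat Code n) (TT D n)
      obtain ⟨t, ht⟩ : ∃ t, TT D (n + 1) = ext1 D (Denumerable.ofNat Code n) (TT D n) ++ [t] :=
        ⟨_, rfl⟩
      refine ⟨ρ ++ ρ' ++ [t], ?_⟩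
      rw [ht, hρ', hρ]
      simp

lemma TT_length (n : ℕ) : n ≤ (TT D n).length := by
  induction n with
  | zero => exact Nat.zero_le _
  | succ n ih =>
      obtain ⟨ρ', hρ'⟩ := ext1_append D (Denumerable.ofNat Code n) (TT D n)
      show n + 1 ≤ (ext1 D (Denumerable.ofNat Code n) (TT D n) ++ _).length
      rw [List.length_append, hρ', List.length_append, List.length_singleton]
      omega

noncomputable def XX (i : ℕ) : ℕ := (TT D (i + 1)).getD i 0

lemma XX_eq (m i : ℕ) (h : i < (TT D m).length) : (TT D m).getD i 0 = XX D i := by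
  unfold XX
  have h2 : i < (TT D (i + 1)).length := TT_length D (i + 1)
  obtain ⟨ρ, hρ⟩ := TT_append D m (max m (i + 1)) (le_max_left _ _)
  obtain ⟨ρ', hρ'⟩ := TT_append D (i + 1) (max m (i + 1)) (le_max_right _ _)
  have h3 : (TT D (max m (i + 1))).getD i 0 = (TT D m).getD i 0 := by
    rw [hρ, List.getD_append _ _ _ _ h]
  have h4 : (TT D (max m (i + 1))).getD i 0 = (TT D (i + 1)).getD i 0 := by
    rw [hρ', List.getD_append _ _ _ _ h2]
  rw [← h3, h4]

lemma seg_XX (m : ℕ) {τ ρ : List ℕ} (h : TT D m = τ ++ ρ) : seg (XX D) τ.length = τ := by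
  apply List.ext_getElem
  · rw [seg_length]
  · intro i h1 h2
    have h3 : i < (TT D m).length := by rw [h, List.length_append]; omega
    have h4 := XX_eq D m i h3
    rw [h, List.getD_append _ _ _ _ h2, List.getD_eq_getElem _ _ h2] at h4
    rw [h4]
    simp [seg]

theorem exists_generic : ∃ X : ℕ → ℕ, ¬ Computable X ∧
    ∀ c, (∃ n, seg X n ∈ D c) ∨ (∃ n, ∀ ρ, seg X n ++ ρ ∉ D c) := by
  refine ⟨XX D, ?_, ?_⟩
  · intro hX
    have h1 : Nat.Partrec ((XX D : ℕ → ℕ) : ℕ →. ℕ) := Partrec.nat_iff.1 hX
    obtain ⟨c, hc⟩ := Nat.Partrec.Code.exists_code.1 h1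
    set n := Encodable.encode c with hn
    have hofn : Denumerable.ofNat Code n = c := Denumerable.ofNat_encode c
    set τ := ext1 D c (TT D n) with hτ
    have h2 : TT D (n + 1) = ext2 D c (TT D n) := by
      show ext2 D (Denumerable.ofNat Code n) (TT D n) = _
      rw [hofn]
    have h3 : c.eval τ.length = Part.some (XX D τ.length) := by
      rw [hc]; rfl
    have h4 : (c.eval τ.length).Dom := by rw [h3]; trivial
    have h5 : TT D (n + 1) = τ ++ [(c.eval τ.length).get h4 + 1] := by
      rw [h2]
      unfold ext2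
      rw [← hτ, dif_pos h4]
    have h6 := XX_eq D (n + 1) τ.length (by rw [h5, List.length_append, List.length_singleton]; omega)
    rw [h5, List.getD_append_right _ _ _ _ le_rfl, Nat.sub_self] at h6
    have h7 : (c.eval τ.length).get h4 = XX D τ.length := by
      have h8 : XX D τ.length ∈ c.eval τ.length := by rw [h3]; exact Part.mem_some _
      exact Part.get_eq_of_mem h8 h4
    rw [List.getD_cons_zero, h7] at h6
    omega
  · intro c
    set n := Encodable.encode c with hn
    have hofn : Denumerable.ofNat Code n = c := Denumerable.ofNat_encode c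
    by_cases h : ∃ ρ, TT D n ++ ρ ∈ D c
    · left
      have h2 : TT D (n + 1) = ext2 D c (TT D n) := by
        show ext2 D (Denumerable.ofNat Code n) (TT D n) = _
        rw [hofn]
      have h3 : ext1 D c (TT D n) ∈ D c := by
        unfold ext1
        rw [dif_pos h]
        exact h.choose_spec
      refine ⟨(ext1 D c (TT D n)).length, ?_⟩
      rw [seg_XX D (n + 1) (τ := ext1 D c (TT D n)) h2]
      exact h3
    · right
      push Not at h
      refine ⟨(TT D n).length, ?_⟩
      rw [seg_XX D n (τ := TT D n) (ρ := []) (List.append_nil _).symm]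
      exact h

end generic

end Run7.h480.Ord
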