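import Pool.Agent.Run7.h480.OLim2
import Pool.Agent.Run7.h480.OEx
import Pool.Agent.Run7.h480.OCompR
import Pool.Agent.Run7.h480.OOr

set_option autoImplicit false

namespace Run7.h480.Ord

open Nat.Partrec (Code)

/-- positive cone of a group order -/
structure IsOrd {H : Type*} [AddCommGroup H] (Q : Set H) : Prop where
  add : ∀ a ∈ Q, ∀ b ∈ Q, a + b ∈ Q
  anti : ∀ a : H, a ∈ Q → -a ∈ Q → a = 0
  total : ∀ a : H, a ∈ Q ∨ -a ∈ Q

namespace IsOrd

variable {H : Type*} [AddCommGroup H] {Q : Set H}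

lemma zero (hQ : IsOrd Q) : (0 : H) ∈ Q := by
  rcases hQ.total 0 with h | h
  · exact h
  · rwa [neg_zero] at h

lemma nsmul (hQ : IsOrd Q) {x : H} (hx : x ∈ Q) (n : ℕ) : n • x ∈ Q := by
  induction n with
  | zero => rw [zero_smul]; exact hQ.zero
  | succ n ih => rw [succ_nsmul]; exact hQ.add _ ih _ hx

lemma lsum (hQ : IsOrd Q) {u : List ℕ} {g : ℕ → H} (h : ∀ i ∈ u, g i ∈ Q) :
    (u.map g).sum ∈ Q := by
  induction u with
  | nil => simpa using hQ.zero
  | cons i u ih =>
      rw [List.map_cons, List.sum_cons]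
      exact hQ.add _ (h i (by simp)) _ (ih fun k hk => h k (by simp [hk]))

lemma neg_of_not (hQ : IsOrd Q) {x : H} (h : x ∉ Q) : -x ∈ Q := by
  rcases hQ.total x with h1 | h1
  · exact absurd h1 h
  · exact h1

end IsOrd

variable {H : Type*} [AddCommGroup H] {ν : ℕ ≃ H} {i0 i1 : ℕ} {f : ℕ → St}

/-- the final numbering -/
noncomputable def Ctx.mu (C : Ctx ν i0 i1 f) : ℕ ≃ H := Equiv.ofBijective (ginf ν f) C.ginf_bij

lemma Ctx.mu_apply (C : Ctx ν i0 i1 f) (a : ℕ) : C.mu a = ginf ν f a := rfl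

/-- the archimedean order and its reverse -/
def P0 (ν : ℕ ≃ H) (f : ℕ → St) : Set H := {x | ∃ w, Re (hinf ν f) w x ∧ 0 ≤ r w}
def N0 (ν : ℕ ≃ H) (f : ℕ → St) : Set H := {x | ∃ w, Re (hinf ν f) w x ∧ r w ≤ 0}

lemma Ctx.mem_P0 (C : Ctx ν i0 i1 f) (a : ℕ) : C.mu a ∈ P0 ν f ↔ 0 ≤ r (Finf f a) := by
  constructor
  · rintro ⟨w, h1, h2⟩
    rwa [C.ind.unique (C.ginf_re a) h1]
  · intro h
    exact ⟨_, C.ginf_re a, h⟩

lemma Ctx.mem_N0 (C : Ctx ν i0 i1 f) (a : ℕ) : C.mu a ∈ N0 ν f ↔ r (Finf f a) ≤ 0 := by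
  constructor
  · rintro ⟨w, h1, h2⟩
    rwa [C.ind.unique (C.ginf_re a) h1]
  · intro h
    exact ⟨_, C.ginf_re a, h⟩

lemma Ctx.eq_zero_of (C : Ctx ν i0 i1 f) {a : ℕ} (h : r (Finf f a) = 0) : C.mu a = 0 := by
  have h1 := r_inj h
  have h2 := C.ginf_re a
  rw [h1] at h2
  exact Re_unique C.htf h2 (Re.zero _)

lemma Ctx.re_neg (C : Ctx ν i0 i1 f) {a b : ℕ} (h : C.mu b = -C.mu a) :
    Finf f b = -Finf f a := by
  have h1 := (C.ginf_re a).neg
  have h2 := C.ginf_re b
  rw [C.mu_apply, C.mu_apply] at h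
  rw [h] at h2
  exact C.ind.unique h2 h1

lemma Ctx.P0_ord (C : Ctx ν i0 i1 f) : IsOrd (P0 ν f) where
  add := by
    rintro x ⟨w, h1, h2⟩ y ⟨w', h3, h4⟩
    exact ⟨w + w', h1.add h3, by rw [map_add]; exact add_nonneg h2 h4⟩
  anti := by
    intro x h1 h2
    obtain ⟨a, rfl⟩ := C.mu.surjective x
    obtain ⟨b, hb⟩ := C.mu.surjective (-C.mu a)
    rw [← hb] at h2
    rw [C.mem_P0] at h1 h2
    rw [C.re_neg hb, map_neg] at h2
    exact C.eq_zero_of (le_antisymm (by linarith) h1)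
  total := by
    intro x
    obtain ⟨a, rfl⟩ := C.mu.surjective x
    obtain ⟨b, hb⟩ := C.mu.surjective (-C.mu a)
    rw [← hb, C.mem_P0, C.mem_P0, C.re_neg hb, map_neg]
    rcases le_total 0 (r (Finf f a)) with h | h
    · exact Or.inl h
    · exact Or.inr (by linarith)

/-- an order different from both archimedean ones is visible on two positive letters -/
lemma Ctx.witness (C : Ctx ν i0 i1 f) {Q : Set H} (hQ : IsOrd Q) (h1 : Q ≠ P0 ν f)
    (h2 : Q ≠ N0 ν f) : ∃ a b, 0 < r (Finf f a) ∧ 0 < r (Finf f b) ∧ C.mu a ∈ Q ∧ C.mu b ∉ Q := by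
  have ha : ∃ a, 0 < r (Finf f a) ∧ C.mu a ∈ Q := by
    by_contra hcon
    push Not at hcon
    apply h2
    ext x
    obtain ⟨a, rfl⟩ := C.mu.surjective x
    rw [C.mem_N0]
    constructor
    · intro h3
      by_contra h4
      exact hcon a (not_le.1 h4) h3
    · intro h3
      by_contra h4
      obtain ⟨b, hb⟩ := C.mu.surjective (-C.mu a)
      have h5 := hQ.neg_of_not h4
      rw [← hb] at h5
      have h6 : ¬ 0 < r (Finf f b) := fun h => hcon b h h5
      rw [C.re_neg hb, map_neg] at h6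
      have h7 : C.mu a = 0 := C.eq_zero_of (le_antisymm h3 (by linarith))
      rw [h7] at h4
      exact h4 hQ.zero
  have hb : ∃ b, 0 < r (Finf f b) ∧ C.mu b ∉ Q := by
    by_contra hcon
    push Not at hcon
    apply h1
    ext x
    obtain ⟨a, rfl⟩ := C.mu.surjective x
    rw [C.mem_P0]
    constructor
    · intro h3
      by_contra h4
      obtain ⟨b, hb⟩ := C.mu.surjective (-C.mu a)
      have h5 : 0 < r (Finf f b) := by rw [C.re_neg hb, map_neg]; linarith [not_le.1 h4]
      have h6 := hcon b h5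
      rw [hb] at h6
      have h7 := hQ.anti _ h3 h6
      have h8 : Finf f a = 0 := by
        have h9 := C.ginf_re a
        rw [C.mu_apply] at h7
        rw [h7] at h9
        exact C.ind.zero h9
      rw [h8, map_zero] at h4
      exact h4 le_rfl
    · intro h3
      rcases h3.lt_or_eq with h4 | h4
      · exact hcon a h4
      · rw [C.eq_zero_of h4.symm]; exact hQ.zero
  obtain ⟨a, h3, h4⟩ := ha
  obtain ⟨b, h5, h6⟩ := hb
  exact ⟨a, b, h3, h5, h4, h6⟩

/-! ### signs and computability -/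

lemma Ctx.posP (C : Ctx ν i0 i1 f) {s a : ℕ} (ha : a < nl f s) :
    ∀ s', s ≤ s' → ((0 < r (Fs f s a) → 0 < r (Fs f s' a)) ∧
      (r (Fs f s a) < 0 → r (Fs f s' a) < 0)) := by
  intro s' h'
  induction s', h' using Nat.le_induction with
  | base => exact ⟨id, id⟩
  | succ s' h' ih =>
      have h1 := ha.trans_le (C.nl_mono h')
      exact ⟨fun h => (C.step0 s').pos a h1 (ih.1 h), fun h => (C.step0 s').neg a h1 (ih.2 h)⟩

lemma Ctx.nonneg_stage (C : Ctx ν i0 i1 f) {s a : ℕ} (ha : a < nl f s) :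
    (0 ≤ r (Fs f s a) ↔ 0 ≤ r (Finf f a)) ∧ (r (Fs f s a) ≤ 0 ↔ r (Finf f a) ≤ 0) ∧
    (0 < r (Fs f s a) ↔ 0 < r (Finf f a)) := by
  obtain ⟨s1, h1⟩ := C.Finf_spec' a
  have h2 := C.posP ha (max s s1) (le_max_left _ _)
  rw [(h1 (max s s1) (le_max_right _ _)).2] at h2
  have h3 : r (Fs f s a) = 0 → r (Finf f a) = 0 := by
    intro h
    obtain ⟨K, hK⟩ := C.lim_K s
    rw [hK a ha, r_inj h, map_zero, map_zero]
  rcases lt_trichotomy (r (Fs f s a)) 0 with h4 | h4 | h4
  · have h5 := h2.2 h4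
    exact ⟨⟨fun h => absurd h (not_le.2 h4), fun h => absurd h (not_le.2 h5)⟩,
      ⟨fun _ => h5.le, fun _ => h4.le⟩,
      ⟨fun h => absurd h h4.not_gt, fun h => absurd h h5.not_gt⟩⟩
  · have h5 := h3 h4
    rw [h4, h5]
    exact ⟨Iff.rfl, Iff.rfl, Iff.rfl⟩
  · have h5 := h2.1 h4
    exact ⟨⟨fun _ => h5.le, fun _ => h4.le⟩, ⟨fun h => absurd h (not_le.2 h4),
      fun h => absurd h (not_le.2 h5)⟩, ⟨fun _ => h5, fun _ => h4⟩⟩

open Classical in
/-- a stage at which letter `a` exists -/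
noncomputable def Ctx.tm (C : Ctx ν i0 i1 f) (a : ℕ) : ℕ := Nat.find (C.unbounded a)

lemma Ctx.tm_spec (C : Ctx ν i0 i1 f) (a : ℕ) : a < nl f (C.tm a) := by
  classical
  exact Nat.find_spec (C.unbounded a)

lemma Ctx.tm_comp (C : Ctx ν i0 i1 f) (hf : Computable f) : Computable C.tm := by
  classical
  have h : ComputablePred fun p : ℕ × ℕ => p.1 < nl f p.2 :=
    cp_lt Computable.fst (c_len (c_sL (hf.comp Computable.snd)))
  exact Computable.find (P := fun a s => a < nl f s) h C.unbounded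

lemma Ctx.ind_P0_comp (C : Ctx ν i0 i1 f) (hf : Computable f) :
    Computable (Set.indicator (C.mu ⁻¹' P0 ν f) (fun _ => (1 : ℕ)) : ℕ → ℕ) := by
  classical
  have hg : Computable fun a => gl (f (C.tm a)) a := c_gl (hf.comp (C.tm_comp hf)) Computable.id
  obtain ⟨_, h⟩ := cp_le (c_pr (c_lv hg)) (c_pr (c_lu hg))
  refine (Computable.cond h (Computable.const 1) (Computable.const 0)).of_eq fun a => ?_
  have hN := ((C.run.inv (C.tm a)).ok a (C.tm_spec a)).pos
  have key : pr (lv (gl (f (C.tm a)) a)) ≤ pr (lu (gl (f (C.tm a)) a)) ↔ C.mu a ∈ P0 ν f := by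
    rw [nonneg_iff hN, C.mem_P0]
    exact (C.nonneg_stage (C.tm_spec a)).1
  by_cases h1 : C.mu a ∈ P0 ν f
  · rw [Set.indicator_of_mem (show a ∈ C.mu ⁻¹' P0 ν f from h1), decide_eq_true (key.2 h1)]
    rfl
  · rw [Set.indicator_of_notMem (show a ∉ C.mu ⁻¹' P0 ν f from h1),
      decide_eq_false (fun h2 => h1 (key.1 h2))]
    rfl

lemma Ctx.ind_N0_comp (C : Ctx ν i0 i1 f) (hf : Computable f) :
    Computable (Set.indicator (C.mu ⁻¹' N0 ν f) (fun _ => (1 : ℕ)) : ℕ → ℕ) := by
  classical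
  have hg : Computable fun a => gl (f (C.tm a)) a := c_gl (hf.comp (C.tm_comp hf)) Computable.id
  obtain ⟨_, h⟩ := cp_le (c_pr (c_lu hg)) (c_pr (c_lv hg))
  refine (Computable.cond h (Computable.const 1) (Computable.const 0)).of_eq fun a => ?_
  have hN := ((C.run.inv (C.tm a)).ok a (C.tm_spec a)).pos
  have key : pr (lu (gl (f (C.tm a)) a)) ≤ pr (lv (gl (f (C.tm a)) a)) ↔ C.mu a ∈ N0 ν f := by
    rw [C.mem_N0, ← (C.nonneg_stage (C.tm_spec a)).2.1]
    have h2 := pos_iff hN
    constructor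
    · intro h3
      by_contra h4
      exact absurd (h2.2 (not_le.1 h4)) (not_lt.2 h3)
    · intro h3
      by_contra h4
      exact absurd (h2.1 (not_le.1 h4)) (not_lt.2 h3)
  by_cases h1 : C.mu a ∈ N0 ν f
  · rw [Set.indicator_of_mem (show a ∈ C.mu ⁻¹' N0 ν f from h1), decide_eq_true (key.2 h1)]
    rfl
  · rw [Set.indicator_of_notMem (show a ∉ C.mu ⁻¹' N0 ν f from h1),
      decide_eq_false (fun h2 => h1 (key.1 h2))]
    rfl

lemma cp_addR {α : Type*} [Primcodable α] {a b c : α → Letter} (ha : Computable a)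
    (hb : Computable b) (hc : Computable c) : ComputablePred fun x => addR (a x) (b x) (c x) :=
  cp_eq (c_mul (c_mul (c_pow (c_pr (c_lu ha)) (c_mul (c_lN hb) (c_lN hc)))
      (c_pow (c_pr (c_lu hb)) (c_mul (c_lN ha) (c_lN hc))))
      (c_pow (c_pr (c_lv hc)) (c_mul (c_lN ha) (c_lN hb))))
    (c_mul (c_mul (c_pow (c_pr (c_lv ha)) (c_mul (c_lN hb) (c_lN hc)))
      (c_pow (c_pr (c_lv hb)) (c_mul (c_lN ha) (c_lN hc))))
      (c_pow (c_pr (c_lu hc)) (c_mul (c_lN ha) (c_lN hb))))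

theorem Ctx.add_comp (C : Ctx ν i0 i1 f) (hf : Computable f) :
    Computable₂ (fun a b : ℕ => C.mu.symm (C.mu a + C.mu b)) := by
  classical
  let P : ℕ × ℕ → ℕ → Prop := fun x m =>
    x.1 < nl f m.unpair.1 ∧ x.2 < nl f m.unpair.1 ∧ m.unpair.2 < nl f m.unpair.1 ∧
      addR (gl (f m.unpair.1) x.1) (gl (f m.unpair.1) x.2) (gl (f m.unpair.1) m.unpair.2)
  have hP : ComputablePred fun y : (ℕ × ℕ) × ℕ => P y.1 y.2 := by
    have hs : Computable fun y : (ℕ × ℕ) × ℕ => f y.2.unpair.1 :=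
      hf.comp (Computable.fst.comp (Computable.unpair.comp Computable.snd))
    have h1 : Computable fun y : (ℕ × ℕ) × ℕ => y.1.1 := Computable.fst.comp Computable.fst
    have h2 : Computable fun y : (ℕ × ℕ) × ℕ => y.1.2 := Computable.snd.comp Computable.fst
    have h3 : Computable fun y : (ℕ × ℕ) × ℕ => y.2.unpair.2 :=
      Computable.snd.comp (Computable.unpair.comp Computable.snd)
    exact cp_and (cp_lt h1 (c_len (c_sL hs))) (cp_and (cp_lt h2 (c_len (c_sL hs)))
      (cp_and (cp_lt h3 (c_len (c_sL hs))) (cp_addR (c_gl hs h1) (c_gl hs h2) (c_gl hs h3))))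
  have hex : ∀ x, ∃ m, P x m := by
    rintro ⟨a, b⟩
    set c := C.mu.symm (C.mu a + C.mu b) with hc
    have h1 : C.mu a + C.mu b = C.mu c := by rw [hc, Equiv.apply_symm_apply]
    obtain ⟨s, hs⟩ := C.Finf_common (max a (max b c) + 1)
    have ha := hs s le_rfl a (by omega)
    have hb := hs s le_rfl b (by omega)
    have hc' := hs s le_rfl c (by omega)
    refine ⟨Nat.pair s c, ?_⟩
    show a < nl f (Nat.pair s c).unpair.1 ∧ b < nl f (Nat.pair s c).unpair.1 ∧
      (Nat.pair s c).unpair.2 < nl f (Nat.pair s c).unpair.1 ∧ _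
    rw [Nat.unpair_pair]
    refine ⟨ha.1, hb.1, hc'.1, ?_⟩
    have i1 := (C.run.inv s).ok a ha.1
    have i2 := (C.run.inv s).ok b hb.1
    have i3 := (C.run.inv s).ok c hc'.1
    rw [addR_iff i1.pos i2.pos i3.pos]
    show Fs f s a + Fs f s b = Fs f s c
    rw [ha.2, hb.2, hc'.2]
    exact (C.add_iff a b c).1 h1
  have hfind := Computable.find hP hex
  have h2 : Computable fun x : ℕ × ℕ => (Nat.find (hex x)).unpair.2 :=
    Computable.snd.comp (Computable.unpair.comp hfind)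
  refine h2.of_eq fun x => ?_
  obtain ⟨h3, h4, h5, h6⟩ := Nat.find_spec (hex x)
  set m := Nat.find (hex x) with hm
  rw [addR_iff ((C.run.inv _).ok _ h3).pos ((C.run.inv _).ok _ h4).pos
    ((C.run.inv _).ok _ h5).pos] at h6
  obtain ⟨K, hK⟩ := C.lim_K m.unpair.1
  have h7 : Finf f x.1 + Finf f x.2 = Finf f m.unpair.2 := by
    rw [hK _ h3, hK _ h4, hK _ h5, ← map_add]
    congr 1
  have h8 := (C.add_iff x.1 x.2 m.unpair.2).2 h7
  symm
  show C.mu.symm (C.mu x.1 + C.mu x.2) = m.unpair.2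
  rw [Equiv.symm_apply_eq]
  exact h8

/-! ### diagonalisation -/

/-- the functional with code `c` and input string `τ` is inconsistent with every order -/
def Bad (μ : ℕ ≃ H) (c : Code) (τ : List ℕ) : Prop :=
  ∀ Q : Set H, IsOrd Q → ∃ a v, v ∈ c.eval (Encodable.encode (τ, a)) ∧
    v ≠ Set.indicator (μ ⁻¹' Q) (fun _ => (1 : ℕ)) a

lemma Re_lsum {h : ℕ → H} (g : ℕ → W) (x : ℕ → H) (u : List ℕ) (hg : ∀ i ∈ u, Re h (g i) (x i)) :
    Re h (u.map g).sum (u.map x).sum := by
  induction u with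
  | nil => exact Re.zero h
  | cons i u ih =>
      rw [List.map_cons, List.map_cons, List.sum_cons, List.sum_cons]
      exact (hg i (by simp)).add (ih fun k hk => hg k (by simp [hk]))

lemma neg_sum_map {G : Type*} [AddCommGroup G] (X : ℕ → G) (u : List ℕ) :
    -(u.map X).sum = (u.map fun t => -X t).sum := by
  induction u with
  | nil => simp
  | cons i u ih => rw [List.map_cons, List.map_cons, List.sum_cons, List.sum_cons, neg_add, ih]

lemma rel_lin {V1 V2 : Type*} [AddCommGroup V1] [Module ℚ V1] [AddCommGroup V2] [Module ℚ V2]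
    (K : V1 →ₗ[ℚ] V2) (A D p N q M : ℕ) (ε : ℤ) (kj vp vm x z : V1)
    (h : (A : ℚ) • ((ε : ℚ) • ((D : ℚ) • kj)) + (vp - vm) + (p : ℚ) • ((N : ℚ) • x) -
      (q : ℚ) • ((M : ℚ) • z) = 0) :
    (A * D) • (ε • K kj) + (K vp - K vm) + (p * N) • K x - (q * M) • K z = 0 := by
  have h1 := congrArg K h
  rw [map_zero] at h1
  rw [← h1]
  simp only [map_add, map_sub, map_smul]
  module

theorem Ctx.bad_of_action (C : Ctx ν i0 i1 f) {s : ℕ} (hk : pk (ins s) = 1)
    (hT : TB (ins s) (f s)) :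
    Bad C.mu (req (pe (ins s))).1 ((req (pe (ins s))).2 ++ prho (ins s)) := by
  set p := ins s with hp
  have hAB : AB (haddOf ν) (ν.symm 0) p (f s) (f (s + 1)) := (C.run.step s).2.1 ⟨hk, hT⟩
  obtain ⟨hcoll, hhs, hsat, hq0, hP, hM, hcert⟩ := hAB
  obtain ⟨⟨hj2, hjk, hej, hes⟩, hlet, ⟨hax, haz⟩, ⟨hb1, hb2, hb3, hb4⟩, ⟨hpx, hpz⟩, hqx, hqz⟩ := hT
  set j := pj p with hj
  set lx := gl (f s) ((pas p).getD (j + 1) 0) with hlx
  set lz := gl (f s) ((pas p).getD (j + 2) 0) with hlz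
  have hinv := C.run.inv s
  have okx := hinv.ok _ hax
  have okz := hinv.ok _ haz
  rw [← hlx] at okx
  rw [← hlz] at okz
  by_contra hbad
  unfold Bad at hbad
  push Not at hbad
  obtain ⟨Q, hQ, hans⟩ := hbad
  have q1 : ∀ t, qv p t = some 1 → C.mu ((pas p).getD t 0) ∈ Q := by
    intro t ht
    have h1 := hans _ _ (Nat.Partrec.Code.evaln_sound ht)
    by_contra hc
    rw [Set.indicator_of_notMem (show (pas p).getD t 0 ∉ C.mu ⁻¹' Q from hc)] at h1
    exact one_ne_zero h1
  have q0 : ∀ t, qv p t = some 0 → C.mu ((pas p).getD t 0) ∉ Q := by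
    intro t ht hc
    have h1 := hans _ _ (Nat.Partrec.Code.evaln_sound ht)
    rw [Set.indicator_of_mem (show (pas p).getD t 0 ∈ C.mu ⁻¹' Q from hc)] at h1
    exact zero_ne_one h1
  -- final coordinates
  obtain ⟨K, hK⟩ := C.lim_K (s + 1)
  have hlen : nl f (s + 1) = nl f s := hcoll.2.2.1
  set κ := kappa (f (s + 1)) (shs (f s)).length with hκ
  have hval := coll_val hcoll hinv.ok
  have hFin : ∀ a, a < nl f s → Finf f a = K (Kmap κ (Fs f s a)) := by
    intro a ha
    rw [hK a (by rw [hlen]; exact ha)]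
    show K (val (gl (f (s + 1)) a)) = K (Kmap κ (val (gl (f s) a)))
    rw [hval a ha]
  have hFe : ∀ t, t ≤ j → Finf f ((pas p).getD t 0) = K (κ t) := by
    intro t ht
    obtain ⟨h1, h2, h3⟩ := hlet t (by omega)
    rw [hFin _ h1]
    have h4 : Fs f s ((pas p).getD t 0) = e t := (isE_iff (hinv.ok _ h1).pos t).1 h2
    rw [h4, Kmap_e]
  have hκid : ∀ i < j, κ i = e i := coll_kappa hcoll
  have hFx : Finf f ((pas p).getD (j + 1) 0) = K (val lx) := by
    rw [hFin _ hax]
    show K (Kmap κ (val lx)) = K (val lx)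
    rw [Kmap_id hκid (val_mem_V hb1 hb2)]
  have hFz : Finf f ((pas p).getD (j + 2) 0) = K (val lz) := by
    rw [hFin _ haz]
    show K (Kmap κ (val lz)) = K (val lz)
    rw [Kmap_id hκid (val_mem_V hb3 hb4)]
  have hFi : ∀ t, t < j → Finf f ((pas p).getD t 0) = K (e t) := by
    intro t ht
    rw [hFe t ht.le, hκid t ht]
  set S' := f (s + 1) with hS'
  have hDpos : 0 < sD S' := hcoll.1
  have hκj : (sD S' : ℚ) • κ j = vec (kp S' j) - vec (kq S' j) := kappa_smul hDpos hjk
  have sx := smul_val okx.pos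
  have sz := smul_val okz.pos
  have hKvec : ∀ u : List ℕ, (∀ x ∈ u, x < j) →
      K (vec u) = (u.map fun t => Finf f ((pas p).getD t 0)).sum := by
    intro u
    induction u with
    | nil => intro _; simp
    | cons i u ih =>
        intro hu
        rw [vec_cons, map_add, ih fun k hk => hu k (by simp [hk]), List.map_cons, List.sum_cons,
          hFi i (hu i (by simp))]
  have hKP := hKvec (sP S') fun x hx => (hP x hx).1
  have hKM := hKvec (sM S') fun x hx => (hM x hx).1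
  -- abbreviations in `H`
  set X : ℕ → H := fun t => C.mu ((pas p).getD t 0) with hX
  have hre : ∀ t, Re (hinf ν f) (Finf f ((pas p).getD t 0)) (X t) := fun t => C.ginf_re _
  -- the relation in `H`, with a sign
  have main : ∀ ε : ℤ, (sA S' : ℚ) • ((ε : ℚ) • (vec (kp S' j) - vec (kq S' j))) +
      (vec (sP S') - vec (sM S')) + (sp S' : ℚ) • (vec (lu lx) - vec (lv lx)) -
      (sq S' : ℚ) • (vec (lu lz) - vec (lv lz)) = 0 →
      (sA S' * sD S') • (ε • X j) + (((sP S').map X).sum - ((sM S').map X).sum) +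
        (sp S' * lN lx) • X (j + 1) - (sq S' * lN lz) • X (j + 2) = 0 := by
    intro ε hrel
    rw [← hκj, ← sx, ← sz] at hrel
    have h2 := rel_lin K _ _ _ _ _ _ ε _ _ _ _ _ hrel
    rw [hKP, hKM, ← hFe j le_rfl, ← hFx, ← hFz] at h2
    have h3 : Re (hinf ν f) ((sA S' * sD S') • (ε • Finf f ((pas p).getD j 0)) +
        ((((sP S').map fun t => Finf f ((pas p).getD t 0)).sum) -
          (((sM S').map fun t => Finf f ((pas p).getD t 0)).sum)) +
        (sp S' * lN lx) • Finf f ((pas p).getD (j + 1) 0) -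
        (sq S' * lN lz) • Finf f ((pas p).getD (j + 2) 0))
        ((sA S' * sD S') • (ε • X j) + (((sP S').map X).sum - ((sM S').map X).sum) +
        (sp S' * lN lx) • X (j + 1) - (sq S' * lN lz) • X (j + 2)) := by
      refine Re.sub (Re.add (Re.add (Re.nsmul (Re.zsmul (hre j) ε) _) (Re.sub ?_ ?_))
        (Re.nsmul (hre _) _)) (Re.nsmul (hre _) _)
      · exact Re_lsum (fun t => Finf f ((pas p).getD t 0)) X (sP S') fun i _ => hre i
      · exact Re_lsum (fun t => Finf f ((pas p).getD t 0)) X (sM S') fun i _ => hre i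
    rw [h2] at h3
    exact Re_unique C.htf h3 (Re.zero _)
  -- the contradiction
  have fin : ∀ ε : ℤ, ε • X j ∈ Q →
      (sA S' * sD S') • (ε • X j) + (((sP S').map X).sum - ((sM S').map X).sum) +
        (sp S' * lN lx) • X (j + 1) - (sq S' * lN lz) • X (j + 2) = 0 → False := by
    intro ε hε hrel
    have m1 : ((sP S').map X).sum ∈ Q := hQ.lsum fun i hi => q1 i (hP i hi).2
    have m2 : -((sM S').map X).sum ∈ Q := by
      rw [neg_sum_map]
      exact hQ.lsum fun i hi => hQ.neg_of_not (q0 i (hM i hi).2)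
    have m3 := hQ.nsmul hε (sA S' * sD S')
    have m4 := hQ.nsmul (q1 _ hqx) (sp S' * lN lx)
    have m5 := hQ.add _ (hQ.add _ (hQ.add _ m3 _ m1) _ m2) _ m4
    have h2 : (sA S' * sD S') • ε • X j + ((sP S').map X).sum + -((sM S').map X).sum +
        (sp S' * lN lx) • C.mu ((pas p).getD (j + 1) 0) = (sq S' * lN lz) • X (j + 2) := by
      rw [← sub_eq_zero, ← hrel]
      show _ = (sA S' * sD S') • ε • X j + (((sP S').map X).sum - ((sM S').map X).sum) +
        (sp S' * lN lx) • X (j + 1) - (sq S' * lN lz) • X (j + 2)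
      abel
    rw [h2] at m5
    have hz := q0 _ hqz
    have m6 := hQ.nsmul (hQ.neg_of_not hz) (sq S' * lN lz)
    rw [smul_neg] at m6
    have h3 := hQ.anti _ m5 m6
    have h4 : X (j + 2) = 0 := C.htf _ _ (Nat.mul_pos hq0 okz.pos).ne' h3
    apply hz
    show X (j + 2) ∈ Q
    rw [h4]
    exact hQ.zero
  rcases hcert with ⟨h1, h2⟩ | ⟨h1, h2⟩
  · rw [certEq_iff] at h2
    refine fin 1 (by rw [one_smul]; exact q1 j h1) (main 1 ?_)
    rw [← h2]
    push_cast
    rw [one_smul]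
  · rw [certEq_iff] at h2
    refine fin (-1) (by rw [neg_smul, one_smul]; exact hQ.neg_of_not (q0 j h1)) (main (-1) ?_)
    rw [← h2]
    push_cast
    rw [neg_smul, one_smul, neg_sub]

theorem Ctx.action_exists (C : Ctx ν i0 i1 f) {c : Code} {X : ℕ → ℕ} {m : ℕ} {Q : Set H}
    (hQ : IsOrd Q) (hQ1 : Q ≠ P0 ν f) (hQ2 : Q ≠ N0 ν f)
    (hX : ∀ a, ∃ n0, ∀ n, n0 ≤ n →
      Set.indicator (C.mu ⁻¹' Q) (fun _ => (1 : ℕ)) a ∈ c.eval (Encodable.encode (seg X n, a))) :
    ∃ s, pk (ins s) = 1 ∧ TB (ins s) (f s) ∧ req (pe (ins s)) = (c, seg X m) := by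
  set e0 : ℕ := Encodable.encode (c, seg X m) with he0
  have hreq : req e0 = (c, seg X m) := Denumerable.ofNat_encode _
  by_cases hsat : ∃ s, e0 ∈ sSat (f s)
  · -- it was added at some stage
    obtain ⟨s, hs⟩ := hsat
    induction s with
    | zero => rw [C.run.zSat] at hs; exact absurd hs List.not_mem_nil
    | succ s ih =>
        by_cases h1 : e0 ∈ sSat (f s)
        · exact ih h1
        · rcases RR_cases ν (C.run.step s) with ⟨a, b⟩ | ⟨a, b⟩ | ⟨a, b⟩ | ⟨a, b⟩ | ⟨a, b⟩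
          · rw [b.2.2.2] at hs; exact absurd hs h1
          · rw [b.2.2.1, List.mem_cons] at hs
            rcases hs with h2 | h2
            · exact ⟨s, a.1, a.2, by rw [← h2]; exact hreq⟩
            · exact absurd h2 h1
          · rw [b.2.2] at hs; exact absurd hs h1
          · rw [b.2.2] at hs; exact absurd hs h1
          · rw [b.2.2] at hs; exact absurd hs h1
  · push Not at hsat
    obtain ⟨ax, az, hx0, hz0, hxQ, hzQ⟩ := C.witness hQ hQ1 hQ2
    obtain ⟨sx, hsx⟩ := C.unbounded ax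
    obtain ⟨sz, hsz⟩ := C.unbounded az
    have okx := (C.run.inv sx).ok ax hsx
    have okz := (C.run.inv sz).ok az hsz
    set j := e0 + 2 + (shs (f sx)).length + (shs (f sz)).length with hj
    -- letters for the basis vectors
    have hat : ∀ t, ∃ a, Finf f a = e t := by
      intro t
      obtain ⟨a, ha⟩ := C.mu.surjective (hinf ν f t)
      refine ⟨a, ?_⟩
      have h1 := C.ginf_re a
      rw [← C.mu_apply, ha] at h1
      exact C.ind.unique h1 (Re_e _ t)
    choose at' hat using hat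
    set as : List ℕ := (List.range (j + 1)).map at' ++ [ax, az] with has
    have hget : ∀ t, t < j + 1 → as.getD t 0 = at' t := by
      intro t ht
      rw [has, List.getD_append _ _ _ _ (by simpa using ht),
        List.getD_eq_getElem _ _ (by simpa using ht)]
      simp
    have hgetx : as.getD (j + 1) 0 = ax := by
      rw [has, List.getD_append_right _ _ _ _ (by simp)]
      simp
    have hgetz : as.getD (j + 2) 0 = az := by
      rw [has, List.getD_append_right _ _ _ _ (by simp)]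
      simp
    -- a use that suffices for all questions
    choose n0 hn0 using hX
    have hbig : ∃ n, m ≤ n ∧ ∀ t, t < j + 3 → n0 (as.getD t 0) ≤ n := by
      refine ⟨m + ∑ t ∈ Finset.range (j + 3), n0 (as.getD t 0), Nat.le_add_right _ _, ?_⟩
      intro t ht
      have := Finset.single_le_sum (f := fun t => n0 (as.getD t 0)) (fun _ _ => Nat.zero_le _)
        (Finset.mem_range.2 ht)
      omega
    obtain ⟨n, hmn, hn⟩ := hbig
    obtain ⟨ρ, hρ⟩ := seg_append X hmn
    have hev : ∀ t, ∃ k, t < j + 3 → Set.indicator (C.mu ⁻¹' Q) (fun _ => (1 : ℕ)) (as.getD t 0) ∈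
        Code.evaln k c (Encodable.encode (seg X n, as.getD t 0)) := by
      intro t
      by_cases ht : t < j + 3
      · obtain ⟨k, hk⟩ := Nat.Partrec.Code.evaln_complete.1 (hn0 _ n (hn t ht))
        exact ⟨k, fun _ => hk⟩
      · exact ⟨0, fun h => absurd h ht⟩
    choose st hst using hev
    set st' : ℕ := ∑ t ∈ Finset.range (j + 3), st t with hst'
    set p : Pay := ((1, j, 0, e0, st'), ([], [], ρ, as)) with hp
    have hqv : ∀ t, t < j + 3 →
        qv p t = some (Set.indicator (C.mu ⁻¹' Q) (fun _ => (1 : ℕ)) (as.getD t 0)) := by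
      intro t ht
      have h1 : st t ≤ st' :=
        Finset.single_le_sum (f := st) (fun _ _ => Nat.zero_le _) (Finset.mem_range.2 ht)
      have h2 := Nat.Partrec.Code.evaln_mono h1 (hst t ht)
      show Code.evaln st' (req e0).1 (Encodable.encode ((req e0).2 ++ ρ, as.getD t 0)) = _
      rw [hreq, ← hρ]
      exact h2
    have hind1 : ∀ a, C.mu a ∈ Q → Set.indicator (C.mu ⁻¹' Q) (fun _ => (1 : ℕ)) a = 1 :=
      fun a ha => Set.indicator_of_mem (show a ∈ C.mu ⁻¹' Q from ha) _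
    have hind0 : ∀ a, C.mu a ∉ Q → Set.indicator (C.mu ⁻¹' Q) (fun _ => (1 : ℕ)) a = 0 :=
      fun a ha => Set.indicator_of_notMem (show a ∉ C.mu ⁻¹' Q from ha) _
    -- the stage
    obtain ⟨s1, hs1⟩ := C.Finf_common (∑ t ∈ Finset.range (j + 3), as.getD t 0 + 1)
    obtain ⟨s2, hs2⟩ := C.stable (j + 1)
    obtain ⟨s, hs, hins⟩ := ins_inf p (max (max s1 s2) (max sx sz))
    have hsall : ∀ t, t < j + 3 → as.getD t 0 < nl f s ∧
        Fs f s (as.getD t 0) = Finf f (as.getD t 0) := by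
      intro t ht
      have h1 : as.getD t 0 ≤ ∑ t ∈ Finset.range (j + 3), as.getD t 0 :=
        Finset.single_le_sum (f := fun t => as.getD t 0) (fun _ _ => Nat.zero_le _)
          (Finset.mem_range.2 ht)
      exact hs1 s (by omega) _ (by omega)
    have hinv := C.run.inv s
    refine ⟨s, by rw [hins]; rfl, ?_, ?_⟩
    · rw [hins]
      have hlen : j < (shs (f s)).length := hs2.len s (by omega)
      have hX1 := hsall (j + 1) (by omega)
      have hZ1 := hsall (j + 2) (by omega)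
      rw [hgetx] at hX1
      rw [hgetz] at hZ1
      refine ⟨⟨by show 2 ≤ j; omega, hlen, by show e0 < j; omega, hsat s⟩, ?_, ?_, ?_, ?_, ?_⟩
      · intro t ht
        have ht' : t < j + 1 := ht
        have h1 := hsall t (by omega)
        refine ⟨h1.1, ?_, ?_⟩
        · show isE (gl (f s) (as.getD t 0)) t
          rw [isE_iff (hinv.ok _ h1.1).pos]
          show Fs f s (as.getD t 0) = e t
          rw [h1.2, hget t ht', hat t]
        · rw [hqv t (by omega)]
          by_cases h2 : C.mu (as.getD t 0) ∈ Q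
          · right; rw [hind1 _ h2]
          · left; rw [hind0 _ h2]
      · show as.getD (j + 1) 0 < _ ∧ as.getD (j + 2) 0 < _
        rw [hgetx, hgetz]
        exact ⟨hX1.1, hZ1.1⟩
      · show below (lu (gl (f s) (as.getD (j + 1) 0))) j ∧ below (lv (gl (f s) (as.getD (j + 1) 0))) j ∧
          below (lu (gl (f s) (as.getD (j + 2) 0))) j ∧ below (lv (gl (f s) (as.getD (j + 2) 0))) j
        rw [hgetx, hgetz]
        have b1 := C.bel hsx okx.bu okx.bv s (by omega)
        have b2 := C.bel hsz okz.bu okz.bv s (by omega)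
        exact ⟨below_mono (by omega) b1.1, below_mono (by omega) b1.2,
          below_mono (by omega) b2.1, below_mono (by omega) b2.2⟩
      · show pr (lv (gl (f s) (as.getD (j + 1) 0))) < pr (lu (gl (f s) (as.getD (j + 1) 0))) ∧
          pr (lv (gl (f s) (as.getD (j + 2) 0))) < pr (lu (gl (f s) (as.getD (j + 2) 0)))
        rw [hgetx, hgetz, pos_iff (hinv.ok _ hX1.1).pos, pos_iff (hinv.ok _ hZ1.1).pos]
        refine ⟨?_, ?_⟩
        · rw [show val (gl (f s) ax) = Finf f ax from hX1.2]; exact hx0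
        · rw [show val (gl (f s) az) = Finf f az from hZ1.2]; exact hz0
      · show qv p (j + 1) = some 1 ∧ qv p (j + 2) = some 0
        rw [hqv _ (by omega), hqv _ (by omega), hgetx, hgetz, hind1 _ hxQ, hind0 _ hzQ]
        exact ⟨rfl, rfl⟩
    · rw [hins]
      exact hreq

end Run7.h480.Ord
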