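import Pool.Agent.Run7.h480.OSem

set_option autoImplicit false

namespace Run7.h480.Ord

variable {H : Type*} [AddCommGroup H] (ν : ℕ ≃ H)

/-- a letter is correct with respect to the level list `hs` -/
structure okL (hs : List ℕ) (l : Letter) : Prop where
  pos : 0 < lN l
  bu : below (lu l) hs.length
  bv : below (lv l) hs.length
  ok : hOK (haddOf ν) (ν.symm 0) hs l

/-- the invariant of the construction -/
structure Inv (i0 i1 : ℕ) (S : St) : Prop where
  len : 2 ≤ (shs S).length
  h0 : (shs S).getD 0 (ν.symm 0) = i0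
  h1 : (shs S).getD 1 (ν.symm 0) = i1
  ok : ∀ a, a < (sL S).length → okL ν (shs S) (gl S a)
  dist : ∀ a, a < (sL S).length → ∀ b, b < (sL S).length → a ≠ b → val (gl S a) ≠ val (gl S b)
  dep : ∀ l, l < (shs S).length → ∀ i, i < (shs S).getD l (ν.symm 0) → Dep (hf ν (shs S)) l (ν i)

lemma below_mono {u : List ℕ} {i j : ℕ} (h : i ≤ j) (hu : below u i) : below u j :=
  fun x hx => (hu x hx).trans_le h

lemma hf_congr {hs hs' : List ℕ} {l : ℕ}
    (h : ∀ i < l, hs.getD i (ν.symm 0) = hs'.getD i (ν.symm 0)) : ∀ i < l, hf ν hs i = hf ν hs' i := by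
  intro i hi
  simp only [hf, h i hi]

lemma hOK_congr {hs hs' : List ℕ} {l : Letter} {k : ℕ}
    (h : ∀ i < k, hs.getD i (ν.symm 0) = hs'.getD i (ν.symm 0))
    (hu : below (lu l) k) (hv : below (lv l) k)
    (h1 : hOK (haddOf ν) (ν.symm 0) hs l) : hOK (haddOf ν) (ν.symm 0) hs' l := by
  rw [hOK_iff] at *
  rw [← Phi_congr (h := hf ν hs) (h' := hf ν hs') (fun i hi => hf_congr ν h i (hv i hi)),
    ← Phi_congr (h := hf ν hs) (h' := hf ν hs') (fun i hi => hf_congr ν h i (hu i hi)), h1]

lemma gl_of_le {S : St} {a : ℕ} (h : (sL S).length ≤ a) : gl S a = zl := by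
  unfold gl
  exact List.getD_eq_default _ _ h

/-- one step, seen semantically; the subspace `V J` is fixed -/
structure Step (J : ℕ) (S S' : St) : Prop where
  len : (sL S).length ≤ (sL S').length
  ex : ∃ K : W →ₗ[ℚ] W, (∀ w ∈ V J, K w = w) ∧ (∀ m, ∀ w ∈ V m, K w ∈ V m) ∧
    ∀ a, a < (sL S).length → val (gl S' a) = K (val (gl S a))
  pos : ∀ a, a < (sL S).length → 0 < r (val (gl S a)) → 0 < r (val (gl S' a))
  neg : ∀ a, a < (sL S).length → r (val (gl S a)) < 0 → r (val (gl S' a)) < 0
  bel : ∀ a, a < (sL S).length → ∀ m, below (lu (gl S a)) m → below (lv (gl S a)) m →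
    below (lu (gl S' a)) m ∧ below (lv (gl S' a)) m

lemma kappa_smul {S' : St} (hD : 0 < sD S') {k i : ℕ} (hi : i < k) :
    (sD S' : ℚ) • kappa S' k i = vec (kp S' i) - vec (kq S' i) := by
  have : (sD S' : ℚ) ≠ 0 := by exact_mod_cast hD.ne'
  simp only [kappa, hi, if_true]
  rw [smul_smul, mul_inv_cancel₀ this, one_smul]

lemma lval_eq_e {u v : List ℕ} {i D : ℕ} (hD : 0 < D) (h : pr u = pr v * fer i ^ D) :
    ((D : ℚ)⁻¹) • (vec u - vec v) = e i := by
  have h1 : isE ((u, v), (D, 0)) i := h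
  exact (isE_iff (l := ((u, v), (D, 0))) hD i).1 h1

lemma val_zl_len {S S' : St} (h : (sL S').length = (sL S).length) :
    gl S' (sL S).length = zl := gl_of_le h.le

lemma lN_zl : 0 < lN zl := by simp [zl, lN]

section coll

variable {ν}

lemma coll_kappa {j : ℕ} {S S' : St} {ha : ℕ → ℕ → ℕ} {z : ℕ} (h : Coll ha z j S S') :
    ∀ i < j, kappa S' (shs S).length i = e i := by
  intro i hi
  simp only [kappa]
  split_ifs with hk
  · exact lval_eq_e h.1 ((h.2.1 i hk).2.2 hi)
  · rfl

lemma coll_kappa_mem {j : ℕ} {S S' : St} {ha : ℕ → ℕ → ℕ} {z : ℕ} (h : Coll ha z j S S') (i : ℕ) :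
    kappa S' (shs S).length i ∈ V (i + 1) := by
  simp only [kappa]
  split_ifs with hk
  · exact Submodule.smul_mem _ _ (Submodule.sub_mem _ (vec_mem_V (h.2.1 i hk).1)
      (vec_mem_V (h.2.1 i hk).2.1))
  · exact e_mem_V (Nat.lt_succ_self i)

lemma coll_pos {j : ℕ} {S S' : St} {ha : ℕ → ℕ → ℕ} {z : ℕ} (h : Coll ha z j S S')
    (hok : ∀ a, a < (sL S).length → 0 < lN (gl S a)) :
    ∀ a, a < (sL S).length → 0 < lN (gl S' a) := by
  intro a hlt
  rw [(h.2.2.2.1 a hlt).2.2.1]
  exact Nat.mul_pos (hok a hlt) h.1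

lemma coll_val {j : ℕ} {S S' : St} {ha : ℕ → ℕ → ℕ} {z : ℕ} (h : Coll ha z j S S')
    (hok : ∀ a, a < (sL S).length → okL ν (shs S) (gl S a)) :
    ∀ a, a < (sL S).length → val (gl S' a) = Kmap (kappa S' (shs S).length) (val (gl S a)) := by
  intro a hlt
  have h1 := h.2.2.2.1 a hlt
  have hp := coll_pos h (fun a ha => (hok a ha).pos) a hlt
  apply val_eq_of_smul hp
  rw [h1.1, h1.2.1, vec_ap (k := (shs S).length) (κ := kappa S' (shs S).length) (D := sD S')
    (fun i hi => kappa_smul h.1 hi) (hok a hlt).bu (hok a hlt).bv, ← smul_val (hok a hlt).pos,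
    map_smul, smul_smul, h1.2.2.1]
  push_cast
  rw [mul_comm]

lemma coll_lt {j : ℕ} {S S' : St} {ha : ℕ → ℕ → ℕ} {z : ℕ} (h : Coll ha z j S S')
    (hok : ∀ a, a < (sL S).length → okL ν (shs S) (gl S a)) :
    ∀ a, a ≤ (sL S).length → ∀ b, b ≤ (sL S).length → r (val (gl S a)) < r (val (gl S b)) →
      r (val (gl S' a)) < r (val (gl S' b)) := by
  have hN : ∀ a, a ≤ (sL S).length → 0 < lN (gl S a) := by
    intro a hle
    rcases hle.lt_or_eq with h1 | h1
    · exact (hok a h1).pos
    · rw [h1, gl_of_le le_rfl]; exact lN_zl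
  have hN' : ∀ a, a ≤ (sL S).length → 0 < lN (gl S' a) := by
    intro a hle
    rcases hle.lt_or_eq with h1 | h1
    · exact coll_pos h (fun a ha => (hok a ha).pos) a h1
    · rw [h1, val_zl_len h.2.2.1]; exact lN_zl
  intro a hla b hlb hlt
  rw [← ltR_iff (hN a hla) (hN b hlb)] at hlt
  rw [← ltR_iff (hN' a hla) (hN' b hlb)]
  exact h.2.2.2.2 a (by omega) b (by omega) hlt

lemma coll_bel {j : ℕ} {S S' : St} {ha : ℕ → ℕ → ℕ} {z : ℕ} (h : Coll ha z j S S')
    (hok : ∀ a, a < (sL S).length → okL ν (shs S) (gl S a)) :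
    ∀ a, a < (sL S).length → ∀ m, below (lu (gl S a)) m → below (lv (gl S a)) m →
    below (lu (gl S' a)) m ∧ below (lv (gl S' a)) m := by
  intro a hlt m hu hv
  have h1 := h.2.2.2.1 a hlt
  have key : ∀ u v : List ℕ, below u m → below v m → below u (shs S).length →
      below v (shs S).length → below (ap S' u v) m := by
    intro u v hu hv hu' hv' x hx
    unfold ap at hx
    rw [List.mem_append, List.mem_flatMap, List.mem_flatMap] at hx
    rcases hx with ⟨i, hi, hx⟩ | ⟨i, hi, hx⟩
    · have h2 := (h.2.1 i (hu' i hi)).1 x hx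
      have h3 := hu i hi
      omega
    · have h2 := (h.2.1 i (hv' i hi)).2.1 x hx
      have h3 := hv i hi
      omega
  rw [h1.1, h1.2.1]
  exact ⟨key _ _ hu hv (hok a hlt).bu (hok a hlt).bv, key _ _ hv hu (hok a hlt).bv (hok a hlt).bu⟩

lemma step_of_coll {j J : ℕ} (hJ : J ≤ j) {S S' : St} {ha : ℕ → ℕ → ℕ} {z : ℕ}
    (h : Coll ha z j S S') (hok : ∀ a, a < (sL S).length → okL ν (shs S) (gl S a)) :
    Step J S S' where
  len := h.2.2.1.ge
  ex := by
    refine ⟨Kmap (kappa S' (shs S).length), ?_, ?_, coll_val h hok⟩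
    · intro w hw
      exact Kmap_id (coll_kappa h) (V_mono hJ hw)
    · intro m w hw
      exact Kmap_mem (J := m) (fun i hi => V_mono hi (coll_kappa_mem h i)) hw
  pos := by
    intro a hlt h1
    have h2 := coll_lt h hok (sL S).length le_rfl a hlt.le
    rw [gl_of_le le_rfl, val_zl_len h.2.2.1, val_zl, map_zero] at h2
    exact h2 h1
  neg := by
    intro a hlt h1
    have h2 := coll_lt h hok a hlt.le (sL S).length le_rfl
    rw [gl_of_le le_rfl, val_zl_len h.2.2.1, val_zl, map_zero] at h2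
    exact h2 h1
  bel := coll_bel h hok

lemma step_of_eq {J : ℕ} {S S' : St} (hlen : (sL S).length ≤ (sL S').length)
    (h : ∀ a, a < (sL S).length → gl S' a = gl S a) : Step J S S' where
  len := hlen
  ex := ⟨LinearMap.id, fun w _ => rfl, fun m w hw => hw, fun a hlt => by rw [h a hlt]; rfl⟩
  pos := fun a hlt h1 => by rw [h a hlt]; exact h1
  neg := fun a hlt h1 => by rw [h a hlt]; exact h1
  bel := fun a hlt m h1 h2 => by rw [h a hlt]; exact ⟨h1, h2⟩

end coll

/-- no collapse below level `J` by instruction `p` -/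
def quiet (J : ℕ) (p : Pay) (S : St) : Prop :=
  (pk p = 0 ∧ TA (haddOf ν) (ν.symm 0) p S → J ≤ pj p) ∧ (pk p = 1 ∧ TB p S → J ≤ pj p)

lemma gl_append {S S' : St} {l : Letter} (h : sL S' = sL S ++ [l]) {a : ℕ}
    (ha : a < (sL S).length) : gl S' a = gl S a := by
  unfold gl
  rw [h, List.getD_append _ _ _ _ ha]

lemma gl_append_last {S S' : St} {l : Letter} (h : sL S' = sL S ++ [l]) :
    gl S' (sL S).length = l := by
  unfold gl
  rw [h, List.getD_append_right _ _ _ _ le_rfl]
  simp

/-- case analysis of a transition -/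
lemma RR_cases {p : Pay} {S S' : St} (h : RR (haddOf ν) (ν.symm 0) p S S') :
    ((pk p = 0 ∧ TA (haddOf ν) (ν.symm 0) p S) ∧ AA (haddOf ν) (ν.symm 0) p S S') ∨
    ((pk p = 1 ∧ TB p S) ∧ AB (haddOf ν) (ν.symm 0) p S S') ∨
    (pk p = 2 ∧ AC S S') ∨
    ((pk p = 3 ∧ TD (haddOf ν) (ν.symm 0) p S) ∧ AD p S S') ∨
    ((¬ (pk p = 0 ∧ TA (haddOf ν) (ν.symm 0) p S) ∧ ¬ (pk p = 1 ∧ TB p S) ∧ ¬ (pk p = 2) ∧
      ¬ (pk p = 3 ∧ TD (haddOf ν) (ν.symm 0) p S)) ∧ same S S') := by
  obtain ⟨h1, h2, h3, h4, h5⟩ := h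
  by_cases a1 : pk p = 0 ∧ TA (haddOf ν) (ν.symm 0) p S
  · exact Or.inl ⟨a1, h1 a1⟩
  · by_cases a2 : pk p = 1 ∧ TB p S
    · exact Or.inr (Or.inl ⟨a2, h2 a2⟩)
    · by_cases a3 : pk p = 2
      · exact Or.inr (Or.inr (Or.inl ⟨a3, h3 a3⟩))
      · by_cases a4 : pk p = 3 ∧ TD (haddOf ν) (ν.symm 0) p S
        · exact Or.inr (Or.inr (Or.inr (Or.inl ⟨a4, h4 a4⟩)))
        · exact Or.inr (Or.inr (Or.inr (Or.inr ⟨⟨a1, a2, a3, a4⟩, h5 ⟨a1, a2, a3, a4⟩⟩)))

lemma step_of_RR {i0 i1 : ℕ} {J : ℕ} {p : Pay} {S S' : St} (hI : Inv ν i0 i1 S)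
    (h : RR (haddOf ν) (ν.symm 0) p S S') (hq : quiet ν J p S) : Step J S S' := by
  rcases RR_cases ν h with ⟨a, b⟩ | ⟨a, b⟩ | ⟨a, b⟩ | ⟨a, b⟩ | ⟨a, b⟩
  · exact step_of_coll (hq.1 a) b.1 hI.ok
  · exact step_of_coll (hq.2 a) b.1 hI.ok
  · exact step_of_eq (by rw [b.2.1]) fun x _ => by unfold gl; rw [b.2.1]
  · refine step_of_eq (by rw [b.2.1, List.length_append]; omega) fun x hx => ?_
    exact gl_append b.2.1 hx
  · exact step_of_eq (by rw [b.2.1]) fun x _ => by unfold gl; rw [b.2.1]

lemma getD_take_append {hs : List ℕ} {j x i z : ℕ} (hj : j < hs.length) (hi : i < j) :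
    (hs.take j ++ [x]).getD i z = hs.getD i z := by
  rw [List.getD_append _ _ _ _ (by rw [List.length_take]; omega)]
  simp [List.getD_eq_getElem?_getD, List.getElem?_take, hi]

lemma getD_take_append_self {hs : List ℕ} {j x z : ℕ} (hj : j < hs.length) :
    (hs.take j ++ [x]).getD j z = x := by
  rw [List.getD_append_right _ _ _ _ (by rw [List.length_take]; omega), List.length_take]
  simp [Nat.min_eq_left hj.le]

theorem inv_step {i0 i1 : ℕ} {p : Pay} {S S' : St} (hI : Inv ν i0 i1 S)
    (h : RR (haddOf ν) (ν.symm 0) p S S') : Inv ν i0 i1 S' := by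
  have hdist : ∀ j, Coll (haddOf ν) (ν.symm 0) j S S' →
      ∀ a, a < (sL S').length → ∀ b, b < (sL S').length → a ≠ b →
        val (gl S' a) ≠ val (gl S' b) := by
    intro j hc a hla b hlb hab heq
    rw [hc.2.2.1] at hla hlb
    have h1 := hI.dist a hla b hlb hab
    rw [← r_eq_iff] at heq
    rcases lt_trichotomy (r (val (gl S a))) (r (val (gl S b))) with h2 | h2 | h2
    · exact absurd heq (coll_lt hc hI.ok a hla.le b hlb.le h2).ne
    · exact h1 (r_eq_iff.1 h2)
    · exact absurd heq (coll_lt hc hI.ok b hlb.le a hla.le h2).ne'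
  rcases RR_cases ν h with ⟨a, b⟩ | ⟨a, b⟩ | ⟨a, b⟩ | ⟨a, b⟩ | ⟨a, b⟩
  · -- dependence
    obtain ⟨hc, hfull, hhs, hsat⟩ := b
    obtain ⟨hp, hj2, hjk, hcp, hbu, hbv, hok⟩ := a
    have hlen' : (shs S').length = pj p + 1 := by
      rw [hhs, List.length_append, List.length_take]; simp; omega
    have hget : ∀ i < pj p, (shs S').getD i (ν.symm 0) = (shs S).getD i (ν.symm 0) := by
      intro i hi
      rw [hhs]; exact getD_take_append hjk hi
    have hgetj : (shs S').getD (pj p) (ν.symm 0) = (shs S).getD (pj p) (ν.symm 0) + 1 := by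
      rw [hhs]; exact getD_take_append_self hjk
    refine ⟨by omega, ?_, ?_, ?_, hdist _ hc, ?_⟩
    · rw [hget 0 (by omega)]; exact hI.h0
    · rw [hget 1 (by omega)]; exact hI.h1
    · intro x hx
      rw [hc.2.2.1] at hx
      have h1 := hc.2.2.2.1 x hx
      have hx' := hI.ok x hx
      have key : ∀ u v : List ℕ, below u (shs S).length → below v (shs S).length →
          below (ap S' u v) (shs S').length := by
        intro u v hu' hv' y hy
        rw [hlen']
        unfold ap at hy
        rw [List.mem_append, List.mem_flatMap, List.mem_flatMap] at hy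
        rcases hy with ⟨i, hi, hy⟩ | ⟨i, hi, hy⟩
        · by_cases hij : i < pj p
          · have := (hc.2.1 i (hu' i hi)).1 y hy
            omega
          · have := (hfull i (hu' i hi) (by omega)).1 y hy
            omega
        · by_cases hij : i < pj p
          · have := (hc.2.1 i (hv' i hi)).2.1 y hy
            omega
          · have := (hfull i (hv' i hi) (by omega)).2 y hy
            omega
      refine ⟨coll_pos hc (fun a ha => (hI.ok a ha).pos) x hx, ?_, ?_, h1.2.2.2⟩
      · rw [h1.1]; exact key _ _ hx'.bu hx'.bv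
      · rw [h1.2.1]; exact key _ _ hx'.bv hx'.bu
    · intro l hl i hi
      rw [hlen'] at hl
      have hcongr : ∀ i < l, hf ν (shs S) i = hf ν (shs S') i := by
        intro i hi
        simp only [hf]
        rw [hget i (by omega)]
      by_cases hlj : l < pj p
      · rw [hget l hlj] at hi
        exact Dep_congr hcongr (hI.dep l (by omega) i hi)
      · have hlj' : l = pj p := by omega
        subst hlj'
        rw [hgetj] at hi
        by_cases hi2 : i < (shs S).getD (pj p) (ν.symm 0)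
        · exact Dep_congr hcongr (hI.dep _ hjk i hi2)
        · have hi3 : i = (shs S).getD (pj p) (ν.symm 0) := by omega
          rw [hOK_iff] at hok
          refine Dep_congr hcongr ⟨pc p, hcp, pu p, pv p, hbu, hbv, ?_⟩
          rw [hi3]
          exact hok
  · -- requirement
    obtain ⟨hc, hhs, hsat, hcert⟩ := b
    refine ⟨by rw [hhs]; exact hI.len, by rw [hhs]; exact hI.h0, by rw [hhs]; exact hI.h1, ?_,
      hdist _ hc, ?_⟩
    · intro x hx
      rw [hc.2.2.1] at hx
      have h1 := hc.2.2.2.1 x hx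
      have hx' := hI.ok x hx
      have h2 := coll_bel hc hI.ok x hx _ hx'.bu hx'.bv
      rw [hhs]
      refine ⟨coll_pos hc (fun a ha => (hI.ok a ha).pos) x hx, h2.1, h2.2, ?_⟩
      rw [← hhs]
      exact h1.2.2.2
    · rw [hhs]; exact hI.dep
  · -- new level
    obtain ⟨hhs, hL, hsat⟩ := b
    have hlen' : (shs S').length = (shs S).length + 1 := by
      rw [hhs, List.length_append]; simp
    have hget : ∀ i < (shs S).length, (shs S').getD i (ν.symm 0) = (shs S).getD i (ν.symm 0) := by
      intro i hi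
      rw [hhs, List.getD_append _ _ _ _ hi]
    have hgl : ∀ x, gl S' x = gl S x := by
      intro x; unfold gl; rw [hL]
    have hlen2 := hI.len
    refine ⟨by omega, ?_, ?_, ?_, ?_, ?_⟩
    · rw [hget 0 (by omega)]; exact hI.h0
    · rw [hget 1 (by omega)]; exact hI.h1
    · intro x hx
      rw [hL] at hx
      rw [hgl]
      have hx' := hI.ok x hx
      refine ⟨hx'.pos, below_mono (by omega) hx'.bu, below_mono (by omega) hx'.bv, ?_⟩
      exact hOK_congr ν (fun i hi => (hget i hi).symm) hx'.bu hx'.bv hx'.ok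
    · intro x hx y hy hxy
      rw [hL] at hx hy
      rw [hgl, hgl]
      exact hI.dist x hx y hy hxy
    · intro l hl i hi
      rw [hlen'] at hl
      by_cases hll : l < (shs S).length
      · rw [hget l hll] at hi
        refine Dep_congr ?_ (hI.dep l hll i hi)
        intro i' hi'
        simp only [hf]
        rw [hget i' (by omega)]
      · have : l = (shs S).length := by omega
        subst this
        rw [hhs, List.getD_append_right _ _ _ _ le_rfl] at hi
        simp at hi
  · -- new letter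
    obtain ⟨hhs, hL, hsat⟩ := b
    obtain ⟨hp, hcp, hbu, hbv, hok, hnew⟩ := a
    have hlen' : (sL S').length = (sL S).length + 1 := by
      rw [hL, List.length_append]; simp
    have hokn : okL ν (shs S) (newl p) := ⟨hcp, hbu, hbv, hok⟩
    have hnew' : ∀ x, x < (sL S).length → val (gl S x) ≠ val (newl p) := by
      intro x hx heq
      rw [← r_eq_iff] at heq
      rcases hnew x hx with h1 | h1
      · rw [ltR_iff (hI.ok x hx).pos hokn.pos] at h1
        exact h1.ne heq
      · rw [ltR_iff hokn.pos (hI.ok x hx).pos] at h1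
        exact h1.ne' heq
    refine ⟨by rw [hhs]; exact hI.len, by rw [hhs]; exact hI.h0, by rw [hhs]; exact hI.h1, ?_, ?_,
      by rw [hhs]; exact hI.dep⟩
    · intro x hx
      rw [hhs]
      by_cases hx2 : x < (sL S).length
      · rw [gl_append hL hx2]; exact hI.ok x hx2
      · have : x = (sL S).length := by omega
        rw [this, gl_append_last hL]
        exact hokn
    · intro x hx y hy hxy
      by_cases hx2 : x < (sL S).length
      · by_cases hy2 : y < (sL S).length
        · rw [gl_append hL hx2, gl_append hL hy2]; exact hI.dist x hx2 y hy2 hxy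
        · have : y = (sL S).length := by omega
          rw [this, gl_append_last hL, gl_append hL hx2]
          exact hnew' x hx2
      · have : x = (sL S).length := by omega
        have hy2 : y < (sL S).length := by omega
        rw [this, gl_append_last hL, gl_append hL hy2]
        exact (hnew' y hy2).symm
  · obtain ⟨hhs, hL, hsat⟩ := b
    have hgl : ∀ x, gl S' x = gl S x := by
      intro x; unfold gl; rw [hL]
    refine ⟨by rw [hhs]; exact hI.len, by rw [hhs]; exact hI.h0, by rw [hhs]; exact hI.h1, ?_, ?_,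
      by rw [hhs]; exact hI.dep⟩
    · intro x hx
      rw [hL] at hx
      rw [hgl, hhs]
      exact hI.ok x hx
    · intro x hx y hy hxy
      rw [hL] at hx hy
      rw [hgl, hgl]
      exact hI.dist x hx y hy hxy

end Run7.h480.Ord
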