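import Pool.Agent.Run7.h480.OInv

set_option autoImplicit false

namespace Run7.h480.Ord

variable {H : Type*} [AddCommGroup H] (ν : ℕ ≃ H)

/-- an infinite run of the construction -/
structure IsRun (i0 i1 : ℕ) (f : ℕ → St) : Prop where
  zhs : shs (f 0) = [i0, i1]
  zL : sL (f 0) = []
  zSat : sSat (f 0) = []
  inv : ∀ s, Inv ν i0 i1 (f s)
  step : ∀ s, RR (haddOf ν) (ν.symm 0) (ins s) (f s) (f (s + 1))

lemma ins_inf (p : Pay) (s0 : ℕ) : ∃ s, s0 ≤ s ∧ ins s = p := by
  refine ⟨Nat.pair (Encodable.encode p) s0, Nat.right_le_pair _ _, ?_⟩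
  unfold ins
  rw [Nat.unpair_pair]
  exact Denumerable.ofNat_encode p

lemma eventually_const (M : ℕ → ℕ) (s0 : ℕ) (h : ∀ s, s0 ≤ s → M (s + 1) ≤ M s) :
    ∃ s1, s0 ≤ s1 ∧ ∀ s, s1 ≤ s → M s = M s1 := by
  have hne : ∃ n, ∃ s, s0 ≤ s ∧ M s = n := ⟨M s0, s0, le_rfl, rfl⟩
  classical
  obtain ⟨s1, h1, h2⟩ := Nat.find_spec hne
  have hmin : ∀ s, s0 ≤ s → M s1 ≤ M s := by
    intro s hs
    rw [h2]
    exact Nat.find_min' hne ⟨s, hs, rfl⟩
  refine ⟨s1, h1, fun s hs => le_antisymm ?_ (hmin s (h1.trans hs))⟩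
  induction s, hs using Nat.le_induction with
  | base => exact le_rfl
  | succ s hs ih => exact (h s (h1.trans hs)).trans ih

variable {ν}

/-- the effect of one step on the level list -/
lemma shs_step {p : Pay} {S S' : St} {l : ℕ} (h : RR (haddOf ν) (ν.symm 0) p S S')
    (hl : l < (shs S).length) (hq : quiet ν l p S) :
    l < (shs S').length ∧
    (∀ i < l, (shs S').getD i (ν.symm 0) = (shs S).getD i (ν.symm 0)) ∧
    (∀ e, e ∈ sSat S → e ∈ sSat S') ∧
    ((quiet ν (l + 1) p S ∧ (shs S').getD l (ν.symm 0) = (shs S).getD l (ν.symm 0)) ∨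
     ((shs S').getD l (ν.symm 0) = (shs S).getD l (ν.symm 0) + 1) ∨
     ((shs S').getD l (ν.symm 0) = (shs S).getD l (ν.symm 0) ∧
        ∃ e, e < l ∧ ¬ e ∈ sSat S ∧ e ∈ sSat S')) := by
  rcases RR_cases ν h with ⟨a, b⟩ | ⟨a, b⟩ | ⟨a, b⟩ | ⟨a, b⟩ | ⟨a, b⟩
  · obtain ⟨hc, hfull, hhs, hsat⟩ := b
    have hj := hq.1 a
    obtain ⟨hp, hj2, hjk, hcp, hbu, hbv, hok⟩ := a
    have hlen' : (shs S').length = pj p + 1 := by
      rw [hhs, List.length_append, List.length_take]; simp; omega
    refine ⟨by omega, ?_, ?_, ?_⟩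
    · intro i hi
      rw [hhs]; exact getD_take_append hjk (by omega)
    · intro e he; rw [hsat]; exact he
    · rcases hj.lt_or_eq with h1 | h1
      · left
        refine ⟨⟨fun _ => h1, fun h2 => absurd (hp.symm.trans h2.1) (by norm_num)⟩, ?_⟩
        rw [hhs]; exact getD_take_append hjk h1
      · right; left
        rw [hhs, h1]; exact getD_take_append_self hjk
  · obtain ⟨hc, hhs, hsat, hcert⟩ := b
    have hj := hq.2 a
    obtain ⟨hp, ⟨hj2, hjk, hej, hes⟩, _⟩ := a
    refine ⟨by rw [hhs]; exact hl, ?_, ?_, ?_⟩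
    · intro i hi; rw [hhs]
    · intro e he; rw [hsat]; exact List.mem_cons_of_mem _ he
    · rcases hj.lt_or_eq with h1 | h1
      · left
        refine ⟨⟨fun h2 => absurd (hp.symm.trans h2.1) (by norm_num), fun _ => h1⟩, ?_⟩
        rw [hhs]
      · right; right
        refine ⟨by rw [hhs], pe p, by omega, hes, ?_⟩
        rw [hsat]; exact List.mem_cons_self
  · obtain ⟨hhs, hL, hsat⟩ := b
    refine ⟨by rw [hhs, List.length_append]; omega, ?_, ?_, ?_⟩
    · intro i hi
      rw [hhs, List.getD_append _ _ _ _ (hi.trans hl)]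
    · intro e he; rw [hsat]; exact he
    · left
      refine ⟨⟨fun h2 => absurd (a.symm.trans h2.1) (by norm_num),
        fun h2 => absurd (a.symm.trans h2.1) (by norm_num)⟩, ?_⟩
      rw [hhs, List.getD_append _ _ _ _ hl]
  · obtain ⟨hhs, hL, hsat⟩ := b
    refine ⟨by rw [hhs]; exact hl, fun i _ => by rw [hhs], fun e he => by rw [hsat]; exact he, ?_⟩
    left
    refine ⟨⟨fun h2 => absurd (a.1.symm.trans h2.1) (by norm_num),
      fun h2 => absurd (a.1.symm.trans h2.1) (by norm_num)⟩, by rw [hhs]⟩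
  · obtain ⟨hhs, hL, hsat⟩ := b
    refine ⟨by rw [hhs]; exact hl, fun i _ => by rw [hhs], fun e he => by rw [hsat]; exact he, ?_⟩
    left
    exact ⟨⟨fun h2 => absurd h2 a.1, fun h2 => absurd h2 a.2.1⟩, by rw [hhs]⟩

variable {i0 i1 : ℕ} {f : ℕ → St}

/-- the levels below `l` are stable from stage `s0` on -/
structure Stable (ν : ℕ ≃ H) (f : ℕ → St) (l s0 : ℕ) : Prop where
  len : ∀ s, s0 ≤ s → l ≤ (shs (f s)).length
  const : ∀ s, s0 ≤ s → ∀ i < l, (shs (f s)).getD i (ν.symm 0) = (shs (f s0)).getD i (ν.symm 0)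
  quiet : ∀ s, s0 ≤ s → quiet ν l (ins s) (f s)

lemma Stable.mono {l s0 s1 : ℕ} (h : Stable ν f l s0) (hs : s0 ≤ s1) : Stable ν f l s1 where
  len := fun s h1 => h.len s (hs.trans h1)
  const := fun s h1 i hi => by rw [h.const s (hs.trans h1) i hi, h.const s1 hs i hi]
  quiet := fun s h1 => h.quiet s (hs.trans h1)

lemma Stable.le {l l' s0 : ℕ} (h : Stable ν f l s0) (hl : l' ≤ l) : Stable ν f l' s0 where
  len := fun s h1 => hl.trans (h.len s h1)
  const := fun s h1 i hi => h.const s h1 i (hi.trans_le hl)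
  quiet := fun s h1 => ⟨fun h2 => hl.trans ((h.quiet s h1).1 h2),
    fun h2 => hl.trans ((h.quiet s h1).2 h2)⟩

lemma stable_two (hr : IsRun ν i0 i1 f) : Stable ν f 2 0 where
  len := fun s _ => (hr.inv s).len
  const := by
    intro s _ i hi
    rcases Nat.lt_succ_iff_lt_or_eq.1 hi with h1 | h1
    · have : i = 0 := by omega
      subst this
      rw [(hr.inv s).h0, (hr.inv 0).h0]
    · subst h1
      rw [(hr.inv s).h1, (hr.inv 0).h1]
  quiet := fun s _ => ⟨fun h => h.2.1, fun h => h.2.1.1⟩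

lemma stable_succ (hrank : Cardinal.aleph0 ≤ Module.rank ℤ H) (hr : IsRun ν i0 i1 f) {l s0 : ℕ}
    (h : Stable ν f l s0) : ∃ s1, s0 ≤ s1 ∧ Stable ν f (l + 1) s1 := by
  classical
  -- a stage after which level `l` exists
  obtain ⟨sa, hsa, hins⟩ := ins_inf ((2, 0, 0, 0, 0), ([], [], [], [])) s0
  have hlen1 : l < (shs (f (sa + 1))).length := by
    have h1 := hr.step sa
    rw [hins] at h1
    have h2 := h1.2.2.1 rfl
    have h3 := h.len sa hsa
    rw [h2.1, List.length_append]
    simp
    omega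
  have hlen : ∀ s, sa + 1 ≤ s → l < (shs (f s)).length := by
    intro s hs
    induction s, hs using Nat.le_induction with
    | base => exact hlen1
    | succ s hs ih => exact (shs_step (hr.step s) ih (h.quiet s (by omega))).1
  -- a truly independent element
  obtain ⟨x, hx⟩ := exists_not_dep hrank (hf ν (shs (f s0))) l
  set istar := ν.symm x with histar
  have hc : ∀ s, sa + 1 ≤ s → (shs (f s)).getD l (ν.symm 0) ≤ istar := by
    intro s hs
    by_contra hcon
    push Not at hcon
    have h1 := (hr.inv s).dep l (hlen s hs) istar hcon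
    apply hx
    rw [histar, Equiv.apply_symm_apply] at h1
    exact Dep_congr (hf_congr ν (h.const s (by omega))) h1
  let M : ℕ → ℕ := fun s => (istar - (shs (f s)).getD l (ν.symm 0)) +
    ((Finset.range l).filter fun e => ¬ e ∈ sSat (f s)).card
  have hM : ∀ s, sa + 1 ≤ s → M (s + 1) ≤ M s ∧
      (¬ quiet ν (l + 1) (ins s) (f s) → M (s + 1) < M s) := by
    intro s hs
    obtain ⟨k1, k2, k3, k4⟩ := shs_step (hr.step s) (hlen s hs) (h.quiet s (by omega))
    have hsub : ((Finset.range l).filter fun e => ¬ e ∈ sSat (f (s + 1))) ⊆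
        ((Finset.range l).filter fun e => ¬ e ∈ sSat (f s)) := by
      intro e he
      rw [Finset.mem_filter] at he ⊢
      exact ⟨he.1, fun h1 => he.2 (k3 e h1)⟩
    have hcard := Finset.card_le_card hsub
    have hc1 := hc (s + 1) (by omega)
    have hc0 := hc s hs
    rcases k4 with ⟨q, h5⟩ | h5 | ⟨h5, e, he1, he2, he3⟩
    · refine ⟨?_, fun h6 => absurd q h6⟩
      simp only [M]
      rw [h5]
      omega
    · have : M (s + 1) < M s := by
        simp only [M]
        omega
      exact ⟨this.le, fun _ => this⟩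
    · have hlt : ((Finset.range l).filter fun e => ¬ e ∈ sSat (f (s + 1))).card <
          ((Finset.range l).filter fun e => ¬ e ∈ sSat (f s)).card := by
        apply Finset.card_lt_card
        refine Finset.ssubset_iff_subset_ne.2 ⟨hsub, fun heq => ?_⟩
        have h6 : e ∈ ((Finset.range l).filter fun e => ¬ e ∈ sSat (f s)) := by
          rw [Finset.mem_filter, Finset.mem_range]
          exact ⟨he1, he2⟩
        rw [← heq, Finset.mem_filter] at h6
        exact h6.2 he3
      have : M (s + 1) < M s := by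
        simp only [M]
        rw [h5]
        omega
      exact ⟨this.le, fun _ => this⟩
  obtain ⟨s1, hs1, hconst⟩ := eventually_const M (sa + 1) fun s hs => (hM s hs).1
  have hquiet : ∀ s, s1 ≤ s → quiet ν (l + 1) (ins s) (f s) := by
    intro s hs
    by_contra hcon
    have h1 := (hM s (by omega)).2 hcon
    rw [hconst s hs, hconst (s + 1) (by omega)] at h1
    exact lt_irrefl _ h1
  have hgetl : ∀ s, s1 ≤ s → (shs (f s)).getD l (ν.symm 0) = (shs (f s1)).getD l (ν.symm 0) := by
    intro s hs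
    induction s, hs using Nat.le_induction with
    | base => rfl
    | succ s hs ih =>
        obtain ⟨k1, k2, k3, k4⟩ := shs_step (hr.step s) (hlen s (by omega)) (h.quiet s (by omega))
        rcases k4 with ⟨q, h5⟩ | h5 | ⟨h5, e, he1, he2, he3⟩
        · rw [h5, ih]
        · exfalso
          -- the potential would drop
          have h6 := hconst s hs
          have h7 := hconst (s + 1) (by omega)
          have hsub : ((Finset.range l).filter fun e => ¬ e ∈ sSat (f (s + 1))) ⊆
              ((Finset.range l).filter fun e => ¬ e ∈ sSat (f s)) := by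
            intro e he
            rw [Finset.mem_filter] at he ⊢
            exact ⟨he.1, fun h1 => he.2 (k3 e h1)⟩
          have hcard := Finset.card_le_card hsub
          have hc1 := hc (s + 1) (by omega)
          have h8 : M (s + 1) = M s := h7.trans h6.symm
          simp only [M] at h8
          omega
        · rw [h5, ih]
  refine ⟨s1, by omega, ⟨fun s hs => hlen s (by omega), ?_, hquiet⟩⟩
  intro s hs i hi
  rcases Nat.lt_succ_iff_lt_or_eq.1 hi with h1 | h1
  · rw [h.const s (by omega) i h1, h.const s1 (by omega) i h1]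
  · rw [h1]; exact hgetl s hs

lemma exists_stable (hrank : Cardinal.aleph0 ≤ Module.rank ℤ H) (hr : IsRun ν i0 i1 f) (l : ℕ) :
    ∃ s0, Stable ν f l s0 := by
  have key : ∀ m, ∃ s0, Stable ν f (2 + m) s0 := by
    intro m
    induction m with
    | zero => exact ⟨0, stable_two hr⟩
    | succ m ih =>
        obtain ⟨s0, h⟩ := ih
        obtain ⟨s1, _, h1⟩ := stable_succ hrank hr h
        exact ⟨s1, h1⟩
  obtain ⟨s0, h⟩ := key l
  exact ⟨s0, h.le (by omega)⟩

end Run7.h480.Ord
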