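import Pool.Agent.Run7.h480.OLim

set_option autoImplicit false

namespace Run7.h480.Ord

variable {H : Type*} [AddCommGroup H] {ν : ℕ ≃ H} {i0 i1 : ℕ} {f : ℕ → St}

/-- the hypotheses on the group and the run -/
structure Ctx (ν : ℕ ≃ H) (i0 i1 : ℕ) (f : ℕ → St) : Prop where
  htf : TF H
  hrank : Cardinal.aleph0 ≤ Module.rank ℤ H
  n0 : ¬ Dep (hf ν [i0, i1]) 0 (ν i0)
  n1 : ¬ Dep (hf ν [i0, i1]) 1 (ν i1)
  run : IsRun ν i0 i1 f

open Classical in
/-- final index of level `l` -/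
noncomputable def cidx (ν : ℕ ≃ H) (f : ℕ → St) (l : ℕ) : ℕ :=
  if h : ∃ s0, Stable ν f (l + 1) s0 then (shs (f h.choose)).getD l (ν.symm 0) else 0

/-- final level elements -/
noncomputable def hinf (ν : ℕ ≃ H) (f : ℕ → St) (l : ℕ) : H := ν (cidx ν f l)

lemma cidx_eq {l s : ℕ} (h : Stable ν f (l + 1) s) :
    (shs (f s)).getD l (ν.symm 0) = cidx ν f l := by
  have hex : ∃ s0, Stable ν f (l + 1) s0 := ⟨s, h⟩
  unfold cidx
  rw [dif_pos hex]
  have h1 := hex.choose_spec
  set s0 := hex.choose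
  rw [← h.const (max s s0) (le_max_left _ _) l (Nat.lt_succ_self l),
    ← h1.const (max s s0) (le_max_right _ _) l (Nat.lt_succ_self l)]

lemma hinf_eq {l s : ℕ} (h : Stable ν f l s) : ∀ i < l, hf ν (shs (f s)) i = hinf ν f i := by
  intro i hi
  unfold hf hinf
  rw [cidx_eq (h.le (by omega))]

lemma Ctx.stable (C : Ctx ν i0 i1 f) (l : ℕ) : ∃ s0, Stable ν f l s0 :=
  exists_stable C.hrank C.run l

theorem Ctx.ind (C : Ctx ν i0 i1 f) : Ind (hinf ν f) := by
  intro l hdep
  obtain ⟨s0, hs⟩ := C.stable (l + 1)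
  by_cases hl2 : 2 ≤ l
  · obtain ⟨c, hc, u, v, hu, hv, heq⟩ := hdep
    obtain ⟨s, hs1, hins⟩ := ins_inf ((0, l, c, 0, 0), (u, v, [], [])) s0
    have hs2 := hs.mono hs1
    have hh := hinf_eq hs2
    have hTA : TA (haddOf ν) (ν.symm 0) (ins s) (f s) := by
      rw [hins]
      refine ⟨hl2, hs2.len s le_rfl, hc, hu, hv, ?_⟩
      rw [hOK_iff]
      show c • ν ((shs (f s)).getD l (ν.symm 0)) + Phi (hf ν (shs (f s))) v =
        Phi (hf ν (shs (f s))) u
      rw [Phi_congr (h' := hinf ν f) fun i hi => hh i ((hv i hi).trans (Nat.lt_succ_self l)),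
        Phi_congr (h' := hinf ν f) fun i hi => hh i ((hu i hi).trans (Nat.lt_succ_self l)),
        cidx_eq hs2]
      exact heq
    have h1 := (hs2.quiet s le_rfl).1 ⟨by rw [hins]; rfl, hTA⟩
    rw [hins] at h1
    have h2 : l + 1 ≤ l := h1
    omega
  · have hg : ∀ i < 2, hf ν (shs (f s0)) i = hf ν [i0, i1] i := by
      intro i hi
      have hinv := C.run.inv s0
      rcases Nat.lt_succ_iff_lt_or_eq.1 hi with h1 | h1
      · have : i = 0 := by omega
        subst this
        unfold hf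
        rw [hinv.h0]; rfl
      · subst h1
        unfold hf
        rw [hinv.h1]; rfl
    have hh := hinf_eq hs
    rcases Nat.lt_succ_iff_lt_or_eq.1 (not_le.1 hl2) with h1 | h1
    · have h0 : l = 0 := by omega
      subst h0
      apply C.n0
      have e1 : hinf ν f 0 = ν i0 := by
        rw [← hh 0 (by omega), hg 0 (by omega)]
        rfl
      rw [e1] at hdep
      exact Dep_congr (fun i hi => absurd hi (Nat.not_lt_zero i)) hdep
    · subst h1
      apply C.n1
      have e1 : hinf ν f 1 = ν i1 := by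
        rw [← hh 1 (by omega), hg 1 (by omega)]
        rfl
      rw [e1] at hdep
      refine Dep_congr (fun i hi => ?_) hdep
      rw [← hh i (by omega), hg i (by omega)]

lemma Ctx.dep_small (C : Ctx ν i0 i1 f) (l i : ℕ) (hi : i < cidx ν f l) :
    Dep (hinf ν f) l (ν i) := by
  obtain ⟨s0, hs⟩ := C.stable (l + 1)
  rw [← cidx_eq hs] at hi
  have h1 := (C.run.inv s0).dep l (hs.len s0 le_rfl) i hi
  exact Dep_congr (fun i hi => hinf_eq hs i (by omega)) h1

lemma Ctx.cidx_lt (C : Ctx ν i0 i1 f) (l : ℕ) : cidx ν f l < cidx ν f (l + 1) := by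
  rcases lt_trichotomy (cidx ν f l) (cidx ν f (l + 1)) with h | h | h
  · exact h
  · exfalso
    apply C.ind (l + 1)
    refine ⟨1, one_pos, [l], [], by intro i hi; simp at hi; omega,
      by intro i hi; simp at hi, ?_⟩
    rw [Phi_cons, Phi_nil, one_smul]
    unfold hinf
    rw [h]
  · exfalso
    apply C.ind (l + 1)
    exact Dep_mono (Nat.le_succ l) (C.dep_small l _ h)

lemma Ctx.le_cidx (C : Ctx ν i0 i1 f) (l : ℕ) : l ≤ cidx ν f l := by
  induction l with
  | zero => exact Nat.zero_le _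
  | succ l ih => exact Nat.succ_le_of_lt (ih.trans_lt (C.cidx_lt l))

theorem Ctx.maxim (C : Ctx ν i0 i1 f) (x : H) : ∃ l, Dep (hinf ν f) l x := by
  refine ⟨ν.symm x + 1, ?_⟩
  have h := C.dep_small (ν.symm x + 1) (ν.symm x) (by
    have := C.le_cidx (ν.symm x + 1)
    omega)
  rwa [Equiv.apply_symm_apply] at h

/-! ### letters -/

/-- the number of letters at stage `s` -/
def nl (f : ℕ → St) (s : ℕ) : ℕ := (sL (f s)).length

/-- the coordinates of letter `a` at stage `s` -/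
noncomputable def Fs (f : ℕ → St) (s a : ℕ) : W := val (gl (f s) a)

lemma Ctx.step (C : Ctx ν i0 i1 f) {J s : ℕ} (h : quiet ν J (ins s) (f s)) :
    Step J (f s) (f (s + 1)) := step_of_RR ν (C.run.inv s) (C.run.step s) h

lemma quiet_zero (p : Pay) (S : St) : quiet ν 0 p S :=
  ⟨fun _ => Nat.zero_le _, fun _ => Nat.zero_le _⟩

lemma Ctx.step0 (C : Ctx ν i0 i1 f) (s : ℕ) : Step 0 (f s) (f (s + 1)) :=
  C.step (quiet_zero _ _)

lemma Ctx.nl_mono (C : Ctx ν i0 i1 f) {s s' : ℕ} (h : s ≤ s') : nl f s ≤ nl f s' := by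
  induction s', h using Nat.le_induction with
  | base => exact le_rfl
  | succ s' _ ih => exact ih.trans (C.step0 s').len

lemma Ctx.persist (C : Ctx ν i0 i1 f) {l s0 s a : ℕ} (hs : Stable ν f l s0) (h : s0 ≤ s)
    (ha : a < nl f s) (hV : Fs f s a ∈ V l) : ∀ s', s ≤ s' → a < nl f s' ∧ Fs f s' a = Fs f s a := by
  intro s' h'
  refine ⟨ha.trans_le (C.nl_mono h'), ?_⟩
  induction s', h' using Nat.le_induction with
  | base => rfl
  | succ s' h' ih =>
      obtain ⟨K, hK1, _, hK3⟩ := (C.step (hs.quiet s' (h.trans h'))).ex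
      show val (gl (f (s' + 1)) a) = _
      rw [hK3 a (ha.trans_le (C.nl_mono h'))]
      have h1 : val (gl (f s') a) = Fs f s a := ih
      rw [h1]
      exact hK1 _ hV

lemma Ctx.level (C : Ctx ν i0 i1 f) {s a J : ℕ} (ha : a < nl f s) (hV : Fs f s a ∈ V J) :
    ∀ s', s ≤ s' → Fs f s' a ∈ V J := by
  intro s' h'
  induction s', h' using Nat.le_induction with
  | base => exact hV
  | succ s' h' ih =>
      obtain ⟨K, _, hK2, hK3⟩ := (C.step0 s').ex
      show val (gl (f (s' + 1)) a) ∈ V J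
      rw [hK3 a (ha.trans_le (C.nl_mono h'))]
      exact hK2 J _ ih

lemma Ctx.bel (C : Ctx ν i0 i1 f) {s a m : ℕ} (ha : a < nl f s) (h1 : below (lu (gl (f s) a)) m)
    (h2 : below (lv (gl (f s) a)) m) :
    ∀ s', s ≤ s' → below (lu (gl (f s') a)) m ∧ below (lv (gl (f s') a)) m := by
  intro s' h'
  induction s', h' using Nat.le_induction with
  | base => exact ⟨h1, h2⟩
  | succ s' h' ih => exact (C.step0 s').bel a (ha.trans_le (C.nl_mono h')) m ih.1 ih.2

lemma Ctx.Fs_mem (C : Ctx ν i0 i1 f) {s a : ℕ} (ha : a < nl f s) :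
    Fs f s a ∈ V (shs (f s)).length :=
  val_mem_V ((C.run.inv s).ok a ha).bu ((C.run.inv s).ok a ha).bv

lemma Ctx.lim (C : Ctx ν i0 i1 f) {s a : ℕ} (ha : a < nl f s) :
    ∃ w, ∃ s1, ∀ s', s1 ≤ s' → a < nl f s' ∧ Fs f s' a = w := by
  obtain ⟨s0, hs⟩ := C.stable (shs (f s)).length
  have h1 := C.level ha (C.Fs_mem ha) (max s s0) (le_max_left _ _)
  exact ⟨_, max s s0, C.persist hs (le_max_right _ _)
    (ha.trans_le (C.nl_mono (le_max_left _ _))) h1⟩

open Classical in
/-- final coordinates of letter `a` -/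
noncomputable def Finf (f : ℕ → St) (a : ℕ) : W :=
  if h : ∃ w, ∃ s1, ∀ s', s1 ≤ s' → a < nl f s' ∧ Fs f s' a = w then h.choose else 0

lemma Ctx.Finf_spec (C : Ctx ν i0 i1 f) {s a : ℕ} (ha : a < nl f s) :
    ∃ s1, ∀ s', s1 ≤ s' → a < nl f s' ∧ Fs f s' a = Finf f a := by
  have h := C.lim ha
  unfold Finf
  rw [dif_pos h]
  exact h.choose_spec

lemma Ctx.Finf_eq (C : Ctx ν i0 i1 f) {s a : ℕ} {w : W} (ha : a < nl f s)
    (h : ∀ s', s ≤ s' → a < nl f s' ∧ Fs f s' a = w) : Finf f a = w := by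
  obtain ⟨s1, h1⟩ := C.Finf_spec ha
  rw [← (h1 (max s s1) (le_max_right _ _)).2, (h (max s s1) (le_max_left _ _)).2]

/-- every element of `H` is represented by a letter -/
lemma Ctx.surj (C : Ctx ν i0 i1 f) (x : H) :
    ∃ a w, Re (hinf ν f) w x ∧ ∃ s, ∀ s', s ≤ s' → a < nl f s' ∧ Fs f s' a = w := by
  obtain ⟨l, c, hc, u, v, hu, hv, heq⟩ := C.maxim x
  obtain ⟨s0, hs⟩ := C.stable l
  obtain ⟨s, hs1, hins⟩ := ins_inf ((3, ν.symm x, c, 0, 0), (u, v, [], [])) s0
  set p : Pay := ((3, ν.symm x, c, 0, 0), (u, v, [], [])) with hp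
  have hs2 := hs.mono hs1
  have hh := hinf_eq hs2
  have hnpos : 0 < lN (newl p) := hc
  have hre : Re (hinf ν f) (val (newl p)) x := Re_of_lists hc (smul_val hnpos) heq
  have hV : val (newl p) ∈ V l := val_mem_V hu hv
  have hll := hs2.len s le_rfl
  have hok : hOK (haddOf ν) (ν.symm 0) (shs (f s)) (newl p) := by
    rw [hOK_iff]
    show c • ν (ν.symm x) + Phi (hf ν (shs (f s))) v = Phi (hf ν (shs (f s))) u
    rw [Phi_congr (h' := hinf ν f) fun i hi => hh i (hv i hi),
      Phi_congr (h' := hinf ν f) fun i hi => hh i (hu i hi), Equiv.apply_symm_apply]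
    exact heq
  by_cases hT : ∀ a, a < (sL (f s)).length → (ltR (gl (f s) a) (newl p) ∨ ltR (newl p) (gl (f s) a))
  · have hTD : TD (haddOf ν) (ν.symm 0) p (f s) :=
      ⟨hc, below_mono hll hu, below_mono hll hv, hok, hT⟩
    have hstep := C.run.step s
    rw [hins] at hstep
    have hAD := hstep.2.2.2.1 ⟨rfl, hTD⟩
    have hlast := gl_append_last (S := f s) (S' := f (s + 1)) hAD.2.1
    have hlt : nl f s < nl f (s + 1) := by
      unfold nl
      rw [hAD.2.1, List.length_append]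
      simp
    have hFs : Fs f (s + 1) (nl f s) = val (newl p) := by
      show val (gl (f (s + 1)) (sL (f s)).length) = _
      rw [hlast]
    refine ⟨nl f s, val (newl p), hre, s + 1, fun s' h' => ?_⟩
    have := C.persist hs (by omega) hlt (by rw [hFs]; exact hV) s' h'
    rw [hFs] at this
    exact this
  · push Not at hT
    obtain ⟨a, ha, h1, h2⟩ := hT
    have hok' := (C.run.inv s).ok a ha
    rw [ltR_iff hok'.pos hnpos] at h1
    rw [ltR_iff hnpos hok'.pos] at h2
    have heq' : val (gl (f s) a) = val (newl p) := r_eq_iff.1 (le_antisymm (not_lt.1 h2) (not_lt.1 h1))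
    refine ⟨a, val (newl p), hre, s, fun s' h' => ?_⟩
    have := C.persist hs hs1 (a := a) ha (by
      show val (gl (f s) a) ∈ V l
      rw [heq']; exact hV) s' h'
    rw [show Fs f s a = val (newl p) from heq'] at this
    exact this

/-- there are infinitely many letters -/
lemma Ctx.unbounded (C : Ctx ν i0 i1 f) (a : ℕ) : ∃ s, a < nl f s := by
  by_contra hcon
  push Not at hcon
  have hsurj := C.surj
  choose g w hre hst using hsurj
  have hlt : ∀ x, g x < a := by
    intro x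
    obtain ⟨s, hs⟩ := hst x
    exact (hs s le_rfl).1.trans_le (hcon s)
  have hinj : Function.Injective fun x : H => (⟨g x, hlt x⟩ : Fin a) := by
    intro x y hxy
    have h1 : g x = g y := by simpa using hxy
    obtain ⟨s, hs⟩ := hst x
    obtain ⟨s', hs'⟩ := hst y
    have h2 := (hs (max s s') (le_max_left _ _)).2
    have h3 := (hs' (max s s') (le_max_right _ _)).2
    rw [h1] at h2
    have h4 : w x = w y := by rw [← h2, h3]
    have h5 := hre x
    rw [h4] at h5
    exact Re_unique C.htf h5 (hre y)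
  have : Finite H := Finite.of_injective _ hinj
  have : Finite ℕ := Finite.of_injective ν ν.injective
  exact not_finite ℕ

lemma Ctx.Finf_spec' (C : Ctx ν i0 i1 f) (a : ℕ) :
    ∃ s1, ∀ s', s1 ≤ s' → a < nl f s' ∧ Fs f s' a = Finf f a := by
  obtain ⟨s, hs⟩ := C.unbounded a
  exact C.Finf_spec hs

/-- all letters below `m` are final at a common stage -/
lemma Ctx.Finf_common (C : Ctx ν i0 i1 f) (m : ℕ) :
    ∃ s1, ∀ s', s1 ≤ s' → ∀ a < m, a < nl f s' ∧ Fs f s' a = Finf f a := by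
  induction m with
  | zero => exact ⟨0, fun _ _ a ha => absurd ha (Nat.not_lt_zero a)⟩
  | succ m ih =>
      obtain ⟨s1, h1⟩ := ih
      obtain ⟨s2, h2⟩ := C.Finf_spec' m
      refine ⟨max s1 s2, fun s' hs' a ha => ?_⟩
      rcases Nat.lt_succ_iff_lt_or_eq.1 ha with h3 | h3
      · exact h1 s' ((le_max_left _ _).trans hs') a h3
      · subst h3
        exact h2 s' ((le_max_right _ _).trans hs')

lemma Ctx.comp_K (C : Ctx ν i0 i1 f) {s s' : ℕ} (h : s ≤ s') :
    ∃ K : W →ₗ[ℚ] W, ∀ a < nl f s, Fs f s' a = K (Fs f s a) := by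
  induction s', h using Nat.le_induction with
  | base => exact ⟨LinearMap.id, fun a _ => rfl⟩
  | succ s' h ih =>
      obtain ⟨K, hK⟩ := ih
      obtain ⟨K', _, _, hK'⟩ := (C.step0 s').ex
      refine ⟨K' ∘ₗ K, fun a ha => ?_⟩
      rw [LinearMap.comp_apply, ← hK a ha]
      exact hK' a (ha.trans_le (C.nl_mono h))

lemma Ctx.lim_K (C : Ctx ν i0 i1 f) (s : ℕ) :
    ∃ K : W →ₗ[ℚ] W, ∀ a < nl f s, Finf f a = K (Fs f s a) := by
  obtain ⟨s1, h1⟩ := C.Finf_common (nl f s)
  obtain ⟨K, hK⟩ := C.comp_K (le_max_left s s1)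
  refine ⟨K, fun a ha => ?_⟩
  rw [← hK a ha, (h1 (max s s1) (le_max_right _ _) a ha).2]

lemma Ctx.Finf_re (C : Ctx ν i0 i1 f) (a : ℕ) : ∃ x, Re (hinf ν f) (Finf f a) x := by
  obtain ⟨s1, h1⟩ := C.Finf_spec' a
  have hV : Finf f a ∈ V (shs (f s1)).length := by
    rw [← (h1 s1 le_rfl).2]
    exact C.Fs_mem (h1 s1 le_rfl).1
  obtain ⟨s0, hs⟩ := C.stable (shs (f s1)).length
  have h2 := h1 (max s1 s0) (le_max_left _ _)
  have h3 := (C.run.inv (max s1 s0)).ok a h2.1
  have h4 := hOK_re ν h3.pos h3.ok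
  rw [show val (gl (f (max s1 s0)) a) = Finf f a from h2.2] at h4
  exact ⟨_, Re_congr_V (hinf_eq (hs.mono (le_max_right _ _))) hV h4⟩

open Classical in
/-- the element of `H` represented by letter `a` -/
noncomputable def ginf (ν : ℕ ≃ H) (f : ℕ → St) (a : ℕ) : H :=
  if h : ∃ x, Re (hinf ν f) (Finf f a) x then h.choose else 0

lemma Ctx.ginf_re (C : Ctx ν i0 i1 f) (a : ℕ) : Re (hinf ν f) (Finf f a) (ginf ν f a) := by
  unfold ginf
  rw [dif_pos (C.Finf_re a)]
  exact (C.Finf_re a).choose_spec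

lemma Ctx.Finf_inj (C : Ctx ν i0 i1 f) {a b : ℕ} (h : Finf f a = Finf f b) : a = b := by
  by_contra hab
  obtain ⟨s1, h1⟩ := C.Finf_spec' a
  obtain ⟨s2, h2⟩ := C.Finf_spec' b
  have h3 := h1 (max s1 s2) (le_max_left _ _)
  have h4 := h2 (max s1 s2) (le_max_right _ _)
  apply (C.run.inv (max s1 s2)).dist a h3.1 b h4.1 hab
  rw [show val (gl (f (max s1 s2)) a) = Finf f a from h3.2,
    show val (gl (f (max s1 s2)) b) = Finf f b from h4.2, h]

theorem Ctx.ginf_bij (C : Ctx ν i0 i1 f) : Function.Bijective (ginf ν f) := by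
  constructor
  · intro a b hab
    apply C.Finf_inj
    have h1 := C.ginf_re a
    rw [hab] at h1
    exact C.ind.unique h1 (C.ginf_re b)
  · intro x
    obtain ⟨a, w, hre, s, hs⟩ := C.surj x
    refine ⟨a, ?_⟩
    have h1 := C.Finf_eq (hs s le_rfl).1 hs
    have h2 := C.ginf_re a
    rw [h1] at h2
    exact Re_unique C.htf h2 hre

/-- linear relations between final coordinates are relations in `H` -/
lemma Ctx.add_iff (C : Ctx ν i0 i1 f) (a b c : ℕ) :
    ginf ν f a + ginf ν f b = ginf ν f c ↔ Finf f a + Finf f b = Finf f c := by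
  constructor
  · intro h
    have h1 := (C.ginf_re a).add (C.ginf_re b)
    rw [h] at h1
    exact C.ind.unique h1 (C.ginf_re c)
  · intro h
    have h1 := (C.ginf_re a).add (C.ginf_re b)
    rw [h] at h1
    exact Re_unique C.htf h1 (C.ginf_re c)

end Run7.h480.Ord
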