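import Pool.Agent.Run7.h480.OFin
import Pool.Agent.Run7.h480.OEx2

set_option autoImplicit false

namespace Run7.h480.Ord

open Nat.Partrec (Code)

variable {H : Type*} [AddCommGroup H]

lemma exists_index (ν : ℕ ≃ H) (hrank : Cardinal.aleph0 ≤ Module.rank ℤ H) (h : ℕ → H) (l : ℕ) :
    ∃ i, ¬ Dep h l (ν i) ∧ ∀ i' < i, Dep h l (ν i') := by
  classical
  have hex : ∃ i, ¬ Dep h l (ν i) := by
    obtain ⟨x, hx⟩ := exists_not_dep hrank h l
    exact ⟨ν.symm x, by rwa [Equiv.apply_symm_apply]⟩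
  refine ⟨Nat.find hex, Nat.find_spec hex, fun i' hi' => ?_⟩
  have := Nat.find_min hex hi'
  exact not_not.1 this

theorem exists_ctx (ν : ℕ ≃ H) (htf : TF H) (hrank : Cardinal.aleph0 ≤ Module.rank ℤ H)
    (hadd : Computable₂ (fun a b : ℕ => ν.symm (ν a + ν b))) :
    ∃ (i0 i1 : ℕ) (f : ℕ → St), Computable f ∧ Ctx ν i0 i1 f := by
  obtain ⟨i0, h0, h0'⟩ := exists_index ν hrank (fun _ => 0) 0
  obtain ⟨i1, h1, h1'⟩ := exists_index ν hrank (fun _ => ν i0) 1
  have c0 : ∀ (h : ℕ → H), ∀ i < 0, (fun _ : ℕ => (0 : H)) i = h i :=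
    fun h i hi => absurd hi (Nat.not_lt_zero i)
  have c1 : ∀ i < 1, (fun _ : ℕ => ν i0) i = hf ν [i0, i1] i := by
    intro i hi
    have : i = 0 := by omega
    subst this
    rfl
  let S0 : St := (([i0, i1], [], []), ([], (1, 0, 0, 0), ([], [])))
  have hInv0 : Inv ν i0 i1 S0 := by
    refine ⟨le_rfl, rfl, rfl, fun a ha => absurd ha (Nat.not_lt_zero a),
      fun a ha => absurd ha (Nat.not_lt_zero a), ?_⟩
    intro l hl i hi
    have hl2 : l < 2 := hl
    rcases Nat.lt_succ_iff_lt_or_eq.1 hl2 with h | h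
    · have : l = 0 := by omega
      subst this
      exact Dep_congr (c0 _) (h0' i hi)
    · subst h
      exact Dep_congr c1 (h1' i hi)
  have ha : Computable₂ (haddOf ν) := hadd
  have hR : ComputablePred fun x : (ℕ × St) × St =>
      RR (haddOf ν) (ν.symm 0) (ins x.1.1) x.1.2 x.2 :=
    cp_RR ha (c_ins (Computable.fst.comp Computable.fst)) (Computable.snd.comp Computable.fst)
      Computable.snd
  obtain ⟨f, hf, hf0, hfV, hfR⟩ := run_exists
    (R := fun s S S' => RR (haddOf ν) (ν.symm 0) (ins s) S S') hR (Inv ν i0 i1) S0 hInv0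
    (fun s S hS => exists_next ν htf hS (ins s)) (fun s S S' hS h => inv_step ν hS h)
  refine ⟨i0, i1, f, hf, ⟨htf, hrank, ?_, ?_, ⟨?_, ?_, ?_, hfV, hfR⟩⟩⟩
  · intro h
    exact h0 (Dep_congr (fun i hi => absurd hi (Nat.not_lt_zero i)) h)
  · intro h
    exact h1 (Dep_congr (fun i hi => (c1 i hi).symm) h)
  · rw [hf0]; rfl
  · rw [hf0]; rfl
  · rw [hf0]; rfl

theorem main (ν : ℕ ≃ H) (htf : TF H) (hrank : Cardinal.aleph0 ≤ Module.rank ℤ H)
    (hadd : Computable₂ (fun a b : ℕ => ν.symm (ν a + ν b))) :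
    ∃ μ : ℕ ≃ H, Computable₂ (fun a b : ℕ => μ.symm (μ a + μ b)) ∧
      ∃ P : Set H, IsOrd P ∧
        Computable (Set.indicator (μ ⁻¹' P) (fun _ => (1 : ℕ)) : ℕ → ℕ) ∧
        ∃ X : ℕ → ℕ, ¬ Computable X ∧ ∀ Q : Set H, IsOrd Q →
          TuringReducible ((Set.indicator (μ ⁻¹' Q) (fun _ => (1 : ℕ)) : ℕ → ℕ) : ℕ →. ℕ)
            ((X : ℕ → ℕ) : ℕ →. ℕ) →
          Computable (Set.indicator (μ ⁻¹' Q) (fun _ => (1 : ℕ)) : ℕ → ℕ) := by
  obtain ⟨i0, i1, f, hf, C⟩ := exists_ctx ν htf hrank hadd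
  obtain ⟨X, hX, hgen⟩ := exists_generic fun c => {τ | Bad C.mu c τ}
  refine ⟨C.mu, C.add_comp hf, P0 ν f, C.P0_ord, C.ind_P0_comp hf, X, hX, ?_⟩
  intro Q hQ hred
  by_cases h1 : Q = P0 ν f
  · rw [h1]; exact C.ind_P0_comp hf
  · by_cases h2 : Q = N0 ν f
    · rw [h2]; exact C.ind_N0_comp hf
    · exfalso
      have hred' := RecursiveIn.iff_nat.1 hred
      obtain ⟨c, hc1, hc2⟩ := exists_code X hred'
      rcases hgen c with ⟨n, hn⟩ | ⟨n, hn⟩
      · obtain ⟨a, v, hv, hne⟩ := hn Q hQ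
        have h3 := hc2 a v n hv
        exact hne (Part.mem_some_iff.1 h3)
      · obtain ⟨s, hk, hT, hreq⟩ := C.action_exists (c := c) (X := X) (m := n) hQ h1 h2
          (fun a => hc1 a _ (Part.mem_some _))
        have hbad := C.bad_of_action hk hT
        rw [hreq] at hbad
        exact hn _ hbad

end Run7.h480.Ord
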