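import Pool.Agent.Run7.h480.OBasic

set_option autoImplicit false

namespace Run7.h480.Ord

variable {H : Type*} [AddCommGroup H]

/-- torsion-freeness, in the form of the problem -/
def TF (H : Type*) [AddCommGroup H] : Prop := ∀ (n : ℕ) (x : H), n ≠ 0 → n • x = 0 → x = 0

lemma TF.smul_inj (htf : TF H) {n : ℕ} (hn : n ≠ 0) {x y : H} (h : n • x = n • y) : x = y := by
  have : n • (x - y) = 0 := by rw [smul_sub, h, sub_self]
  exact sub_eq_zero.1 (htf n _ hn this)

noncomputable def psi (h : ℕ → H) : (ℕ →₀ ℤ) →+ H :=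
  (Finsupp.linearCombination ℤ h).toAddMonoidHom

def Phi (h : ℕ → H) (u : List ℕ) : H := (u.map h).sum

@[simp] lemma Phi_nil (h : ℕ → H) : Phi h [] = 0 := rfl

@[simp] lemma Phi_cons (h : ℕ → H) (i : ℕ) (u : List ℕ) : Phi h (i :: u) = h i + Phi h u := by
  simp [Phi]

lemma psi_single (h : ℕ → H) (i : ℕ) (c : ℤ) : psi h (Finsupp.single i c) = c • h i := by
  simp [psi]

lemma psi_zvec (h : ℕ → H) (u : List ℕ) : psi h (zvec u) = Phi h u := by
  induction u with
  | nil => simp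
  | cons i u ih => rw [zvec_cons, map_add, ih, Phi_cons, psi_single, one_smul]

lemma psi_congr {h h' : ℕ → H} {z : ℕ →₀ ℤ} (hh : ∀ i, z i ≠ 0 → h i = h' i) :
    psi h z = psi h' z := by
  simp only [psi, LinearMap.toAddMonoidHom_coe, Finsupp.linearCombination_apply]
  refine Finsupp.sum_congr fun i hi => ?_
  rw [hh i (by simpa using hi)]

lemma Phi_congr {h h' : ℕ → H} {u : List ℕ} (hh : ∀ i ∈ u, h i = h' i) : Phi h u = Phi h' u := by
  unfold Phi
  congr 1
  exact List.map_congr_left hh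

/-- pairs `(w, x)` such that the element `x` of `H` has the formal coordinates `w` -/
noncomputable def ReG (h : ℕ → H) : AddSubgroup (W × H) where
  carrier := {p | ∃ N : ℕ, 0 < N ∧ ∃ z : ℕ →₀ ℤ, (N : ℚ) • p.1 = iota z ∧ N • p.2 = psi h z}
  zero_mem' := ⟨1, one_pos, 0, by simp, by simp⟩
  add_mem' := by
    rintro ⟨w, x⟩ ⟨w', x'⟩ ⟨N, hN, z, h1, h2⟩ ⟨M, hM, y, h3, h4⟩
    refine ⟨N * M, Nat.mul_pos hN hM, M • z + N • y, ?_, ?_⟩
    · simp only at h1 h3
      simp only [Prod.mk_add_mk]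
      rw [map_add, map_nsmul, map_nsmul, ← h1, ← h3]
      push_cast
      rw [smul_add]
      congr 1
      · rw [← Nat.cast_smul_eq_nsmul ℚ, smul_smul]; ring_nf
      · rw [← Nat.cast_smul_eq_nsmul ℚ, smul_smul]
    · simp only at h2 h4
      simp only [Prod.mk_add_mk]
      rw [map_add, map_nsmul, map_nsmul, ← h2, ← h4, smul_add]
      congr 1
      · rw [mul_comm, mul_smul]
      · rw [mul_smul]
  neg_mem' := by
    rintro ⟨w, x⟩ ⟨N, hN, z, h1, h2⟩
    refine ⟨N, hN, -z, ?_, ?_⟩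
    · simp only at h1
      simp only [Prod.neg_mk]
      rw [map_neg, ← h1, smul_neg]
    · simp only at h2
      simp only [Prod.neg_mk]
      rw [map_neg, ← h2, smul_neg]

/-- `x` has the formal coordinates `w` -/
def Re (h : ℕ → H) (w : W) (x : H) : Prop := (w, x) ∈ ReG h

lemma Re_iff {h : ℕ → H} {w : W} {x : H} :
    Re h w x ↔ ∃ N : ℕ, 0 < N ∧ ∃ z : ℕ →₀ ℤ, (N : ℚ) • w = iota z ∧ N • x = psi h z := Iff.rfl

lemma Re.add {h : ℕ → H} {w w' : W} {x x' : H} (h1 : Re h w x) (h2 : Re h w' x') :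
    Re h (w + w') (x + x') := (ReG h).add_mem h1 h2

lemma Re.neg {h : ℕ → H} {w : W} {x : H} (h1 : Re h w x) : Re h (-w) (-x) :=
  (ReG h).neg_mem h1

lemma Re.sub {h : ℕ → H} {w w' : W} {x x' : H} (h1 : Re h w x) (h2 : Re h w' x') :
    Re h (w - w') (x - x') := (ReG h).sub_mem h1 h2

lemma Re.zero (h : ℕ → H) : Re h 0 0 := (ReG h).zero_mem

lemma Re.zsmul {h : ℕ → H} {w : W} {x : H} (h1 : Re h w x) (n : ℤ) :
    Re h (n • w) (n • x) := (ReG h).zsmul_mem h1 n

lemma Re.nsmul {h : ℕ → H} {w : W} {x : H} (h1 : Re h w x) (n : ℕ) :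
    Re h (n • w) (n • x) := (ReG h).nsmul_mem h1 n

lemma Re_e (h : ℕ → H) (i : ℕ) : Re h (e i) (h i) :=
  ⟨1, one_pos, Finsupp.single i 1, by rw [iota_single]; simp, by rw [psi_single]; simp⟩

lemma Re_any (htf : TF H) {h : ℕ → H} {w : W} {x : H} (h1 : Re h w x) {M : ℕ} {y : ℕ →₀ ℤ}
    (h2 : (M : ℚ) • w = iota y) : M • x = psi h y := by
  obtain ⟨N, hN, z, h3, h4⟩ := h1
  simp only at h3 h4
  have h5 : (M : ℤ) • z = (N : ℤ) • y := by
    apply iota_inj
    rw [map_zsmul, map_zsmul, ← h2, ← h3]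
    rw [← Int.cast_smul_eq_zsmul ℚ, ← Int.cast_smul_eq_zsmul ℚ, smul_smul, smul_smul]
    push_cast
    rw [mul_comm]
  apply htf.smul_inj hN.ne'
  have h6 := congrArg (psi h) h5
  rw [map_zsmul, map_zsmul, natCast_zsmul, natCast_zsmul, ← h4] at h6
  rw [← h6, smul_comm]

lemma Re_unique (htf : TF H) {h : ℕ → H} {w : W} {x x' : H} (h1 : Re h w x) (h2 : Re h w x') :
    x = x' := by
  obtain ⟨N, hN, z, h3, h4⟩ := h2
  simp only at h3 h4
  have := Re_any htf h1 h3
  rw [← h4] at this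
  exact htf.smul_inj hN.ne' this

lemma Re_lists (htf : TF H) {h : ℕ → H} {w : W} {x : H} (h1 : Re h w x) {N : ℕ}
    {u v : List ℕ} (h2 : (N : ℚ) • w = vec u - vec v) : N • x + Phi h v = Phi h u := by
  have h3 : (N : ℚ) • w = iota (zvec u - zvec v) := by
    rw [h2, map_sub, iota_zvec, iota_zvec]
  have := Re_any htf h1 h3
  rw [map_sub, psi_zvec, psi_zvec] at this
  rw [this]
  abel

lemma Re_of_lists {h : ℕ → H} {w : W} {x : H} {N : ℕ} (hN : 0 < N)
    {u v : List ℕ} (h2 : (N : ℚ) • w = vec u - vec v) (h3 : N • x + Phi h v = Phi h u) :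
    Re h w x := by
  refine ⟨N, hN, zvec u - zvec v, ?_, ?_⟩
  · simp only
    rw [h2, map_sub, iota_zvec, iota_zvec]
  · simp only
    rw [map_sub, psi_zvec, psi_zvec, ← h3]
    abel

lemma Re_congr {h h' : ℕ → H} {w : W} {x : H} (hh : ∀ i, w i ≠ 0 → h i = h' i)
    (h1 : Re h w x) : Re h' w x := by
  obtain ⟨N, hN, z, h3, h4⟩ := h1
  simp only at h3 h4
  refine ⟨N, hN, z, h3, ?_⟩
  simp only
  rw [h4]
  apply psi_congr
  intro i hi
  apply hh
  intro hw
  apply hi
  have := DFunLike.congr_fun h3 i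
  rw [iota_apply, Finsupp.smul_apply, hw, smul_zero] at this
  exact_mod_cast this.symm

lemma Re_congr_V {h h' : ℕ → H} {j : ℕ} {w : W} {x : H} (hh : ∀ i < j, h i = h' i) (hw : w ∈ V j)
    (h1 : Re h w x) : Re h' w x :=
  Re_congr (fun i hi => hh i (mem_V.1 hw i hi)) h1

/-- `x` depends rationally on `h 0, ..., h (l-1)` -/
def Dep (h : ℕ → H) (l : ℕ) (x : H) : Prop :=
  ∃ c : ℕ, 0 < c ∧ ∃ u v : List ℕ, (∀ i ∈ u, i < l) ∧ (∀ i ∈ v, i < l) ∧
    c • x + Phi h v = Phi h u

lemma Dep_iff {h : ℕ → H} {l : ℕ} {x : H} : Dep h l x ↔ ∃ w ∈ V l, Re h w x := by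
  constructor
  · rintro ⟨c, hc, u, v, hu, hv, h1⟩
    have hc' : (c : ℚ) ≠ 0 := by exact_mod_cast hc.ne'
    refine ⟨(c : ℚ)⁻¹ • (vec u - vec v), ?_, ?_⟩
    · exact Submodule.smul_mem _ _ (Submodule.sub_mem _ (vec_mem_V hu) (vec_mem_V hv))
    · refine Re_of_lists hc (u := u) (v := v) ?_ h1
      rw [smul_smul, mul_inv_cancel₀ hc', one_smul]
  · rintro ⟨w, hw, h1⟩
    obtain ⟨N, hN, z, h3, h4⟩ := h1
    simp only at h3 h4
    obtain ⟨u, v, h5, hu, hv⟩ := exists_lists z
    have hz : ∀ i, z i ≠ 0 → i < l := by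
      intro i hi
      apply mem_V.1 hw
      intro hw
      apply hi
      have := DFunLike.congr_fun h3 i
      rw [iota_apply, Finsupp.smul_apply, hw, smul_zero] at this
      exact_mod_cast this.symm
    refine ⟨N, hN, u, v, fun i hi => hz i (hu i hi).ne', fun i hi => hz i (hv i hi).ne, ?_⟩
    rw [h4, h5, map_sub, psi_zvec, psi_zvec]
    abel

lemma Dep_congr {h h' : ℕ → H} {l : ℕ} {x : H} (hh : ∀ i < l, h i = h' i) (h1 : Dep h l x) :
    Dep h' l x := by
  obtain ⟨c, hc, u, v, hu, hv, h1⟩ := h1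
  refine ⟨c, hc, u, v, hu, hv, ?_⟩
  rw [Phi_congr (h := h') (h' := h) (fun i hi => (hh i (hv i hi)).symm),
    Phi_congr (h := h') (h' := h) (fun i hi => (hh i (hu i hi)).symm), h1]

lemma Dep_mono {h : ℕ → H} {l l' : ℕ} (hl : l ≤ l') {x : H} (h1 : Dep h l x) : Dep h l' x := by
  obtain ⟨c, hc, u, v, hu, hv, h1⟩ := h1
  exact ⟨c, hc, u, v, fun i hi => (hu i hi).trans_le hl, fun i hi => (hv i hi).trans_le hl, h1⟩

/-- scaling a relation -/
lemma Re_rat_zero {h : ℕ → H} {w : W} (h1 : Re h w 0) (q : ℚ) : Re h (q • w) 0 := by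
  obtain ⟨N, hN, z, h3, h4⟩ := h1
  simp only at h3 h4
  refine ⟨q.den * N, Nat.mul_pos q.den_pos hN, q.num • z, ?_, ?_⟩
  · simp only
    rw [map_zsmul, ← h3, ← Int.cast_smul_eq_zsmul ℚ, smul_smul, smul_smul]
    congr 1
    push_cast
    have := Rat.den_mul_eq_num q
    calc (q.den : ℚ) * N * q = (q.den * q) * N := by ring
      _ = q.num * N := by rw [this]
  · simp only
    rw [map_zsmul, ← h4]
    simp

/-- independence of the sequence `h`, in terms of `Dep` -/
def Ind (h : ℕ → H) : Prop := ∀ l, ¬ Dep h l (h l)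

lemma exists_top {w : W} (hw : w ≠ 0) : ∃ l, w l ≠ 0 ∧ w ∈ V (l + 1) := by
  have hne : w.support.Nonempty := Finsupp.support_nonempty_iff.2 hw
  refine ⟨w.support.max' hne, ?_, ?_⟩
  · have := Finset.max'_mem _ hne
    simpa using this
  · rw [mem_V]
    intro i hi
    have : i ≤ w.support.max' hne := Finset.le_max' _ _ (by simpa using hi)
    omega

lemma Ind.zero {h : ℕ → H} (hI : Ind h) {w : W} (h1 : Re h w 0) : w = 0 := by
  by_contra hw
  obtain ⟨l, hl, hV⟩ := exists_top hw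
  apply hI l
  rw [Dep_iff]
  refine ⟨e l - (w l)⁻¹ • w, ?_, ?_⟩
  · rw [mem_V']
    intro i hi
    rcases eq_or_lt_of_le hi with h2 | h2
    · subst h2
      simp [e, hl]
    · have h3 : w i = 0 := mem_V'.1 hV i h2
      have h4 : l ≠ i := h2.ne
      simp [e, h3, Finsupp.single_apply, h4]
  · have := (Re_e h l).sub (Re_rat_zero h1 (w l)⁻¹)
    rwa [sub_zero] at this

lemma Ind.unique {h : ℕ → H} (hI : Ind h) {w w' : W} {x : H} (h1 : Re h w x) (h2 : Re h w' x) :
    w = w' := by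
  have := h1.sub h2
  rw [sub_self] at this
  exact sub_eq_zero.1 (hI.zero this)

/-- infinite rank: for every finite stage there is an element that does not depend on it -/
lemma exists_not_dep (hrank : Cardinal.aleph0 ≤ Module.rank ℤ H) (h : ℕ → H) (l : ℕ) :
    ∃ x, ¬ Dep h l x := by
  by_contra hc
  push Not at hc
  classical
  set S : Submodule ℤ H := Submodule.span ℤ ((Finset.range l).image h : Finset H) with hS
  have hPhi : ∀ u : List ℕ, (∀ i ∈ u, i < l) → Phi h u ∈ S := by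
    intro u
    induction u with
    | nil => intro _; simp
    | cons i u ih =>
        intro hu
        rw [Phi_cons]
        refine S.add_mem (Submodule.subset_span ?_) (ih fun k hk => hu k (by simp [hk]))
        simp only [Finset.coe_image, Set.mem_image, Finset.coe_range, Set.mem_Iio]
        exact ⟨i, hu i (by simp), rfl⟩
  have h0 : Module.rank ℤ (H ⧸ S) = 0 := by
    rw [rank_eq_zero_iff]
    intro x
    induction x using Submodule.Quotient.induction_on with
    | H x =>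
      obtain ⟨c, hcpos, u, v, hu, hv, h1⟩ := hc x
      refine ⟨(c : ℤ), by exact_mod_cast hcpos.ne', ?_⟩
      rw [← Submodule.Quotient.mk_smul, Submodule.Quotient.mk_eq_zero, natCast_zsmul]
      have : c • x = Phi h u - Phi h v := by rw [← h1]; abel
      rw [this]
      exact S.sub_mem (hPhi u hu) (hPhi v hv)
  have h1 := rank_quotient_add_rank_of_isDomain (R := ℤ) (M := H) S
  rw [h0, zero_add] at h1
  have h2 : Module.rank ℤ S ≤ ((Finset.range l).image h).card := rank_span_finset_le _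
  rw [h1] at h2
  have h3 := hrank.trans h2
  exact absurd h3 (not_le.2 (Cardinal.natCast_lt_aleph0))

/-- the vectors that are coordinates of some element -/
noncomputable def RW (h : ℕ → H) : AddSubgroup W := (ReG h).map (AddMonoidHom.fst W H)

lemma mem_RW {h : ℕ → H} {w : W} : w ∈ RW h ↔ ∃ x, Re h w x := by
  unfold RW
  rw [AddSubgroup.mem_map]
  constructor
  · rintro ⟨⟨w', x⟩, h1, h2⟩
    simp only [AddMonoidHom.coe_fst] at h2
    subst h2
    exact ⟨x, h1⟩
  · rintro ⟨x, h1⟩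
    exact ⟨(w, x), h1, rfl⟩

end Run7.h480.Ord
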