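import Pool.Agent.Run7.h480.ODefs
import Pool.Agent.Run7.h480.OColl

set_option autoImplicit false

namespace Run7.h480.Ord

/-- the formal coordinates of a letter -/
noncomputable def val (l : Letter) : W := ((lN l : ℚ)⁻¹) • (vec (lu l) - vec (lv l))

lemma smul_val {l : Letter} (h : 0 < lN l) : (lN l : ℚ) • val l = vec (lu l) - vec (lv l) := by
  have : (lN l : ℚ) ≠ 0 := by exact_mod_cast h.ne'
  rw [val, smul_smul, mul_inv_cancel₀ this, one_smul]

lemma val_eq_of_smul {l : Letter} (h : 0 < lN l) {w : W}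
    (hw : (lN l : ℚ) • w = vec (lu l) - vec (lv l)) : val l = w := by
  have : (lN l : ℚ) ≠ 0 := by exact_mod_cast h.ne'
  rw [val, ← hw, smul_smul, inv_mul_cancel₀ this, one_smul]

lemma r_eq_iff {w w' : W} : r w = r w' ↔ w = w' := by
  constructor
  · intro h
    have : r (w - w') = 0 := by rw [map_sub, h, sub_self]
    exact sub_eq_zero.1 (r_inj this)
  · intro h; rw [h]

lemma r_smul_nat (n : ℕ) (w : W) : r ((n : ℚ) • w) = n * r w := by
  rw [map_smul, Rat.smul_def]
  push_cast
  rfl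

lemma r_val {l : Letter} (h : 0 < lN l) :
    (lN l : ℝ) * r (val l) = Real.log (pr (lu l)) - Real.log (pr (lv l)) := by
  rw [← r_smul_nat, smul_val h, map_sub, r_vec, r_vec]

lemma pr_pos' (u : List ℕ) : (0 : ℝ) < pr u := by exact_mod_cast pr_pos u

lemma log_pow_pr (u : List ℕ) (n : ℕ) : Real.log ((pr u : ℝ) ^ n) = n * Real.log (pr u) :=
  Real.log_pow _ _

lemma ltR_iff {a b : Letter} (ha : 0 < lN a) (hb : 0 < lN b) :
    ltR a b ↔ r (val a) < r (val b) := by
  have ha' : (0 : ℝ) < lN a := by exact_mod_cast ha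
  have hb' : (0 : ℝ) < lN b := by exact_mod_cast hb
  have h1 := r_val ha
  have h2 := r_val hb
  have h3 : ltR a b ↔ (pr (lu a) : ℝ) ^ lN b * (pr (lv b) : ℝ) ^ lN a <
      (pr (lv a) : ℝ) ^ lN b * (pr (lu b) : ℝ) ^ lN a := by
    unfold ltR
    exact_mod_cast Iff.rfl
  rw [h3]
  have p1 := pow_pos (pr_pos' (lu a)) (lN b)
  have p2 := pow_pos (pr_pos' (lv b)) (lN a)
  have p3 := pow_pos (pr_pos' (lv a)) (lN b)
  have p4 := pow_pos (pr_pos' (lu b)) (lN a)
  rw [← Real.log_lt_log_iff (mul_pos p1 p2) (mul_pos p3 p4), Real.log_mul p1.ne' p2.ne',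
    Real.log_mul p3.ne' p4.ne', log_pow_pr, log_pow_pr, log_pow_pr, log_pow_pr]
  have h4 : (lN b : ℝ) * Real.log (pr (lu a)) + lN a * Real.log (pr (lv b)) <
      lN b * Real.log (pr (lv a)) + lN a * Real.log (pr (lu b)) ↔
      (lN b : ℝ) * ((lN a : ℝ) * r (val a)) < lN a * ((lN b : ℝ) * r (val b)) := by
    rw [h1, h2]
    constructor <;> intro h <;> nlinarith
  rw [h4]
  have h5 : (lN b : ℝ) * ((lN a : ℝ) * r (val a)) = (lN a * lN b) * r (val a) := by ring
  have h6 : (lN a : ℝ) * ((lN b : ℝ) * r (val b)) = (lN a * lN b) * r (val b) := by ring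
  rw [h5, h6]
  exact mul_lt_mul_iff_right₀ (mul_pos ha' hb')

lemma pr_eq_iff {u v : List ℕ} : pr u = pr v ↔ vec u = vec v := by
  rw [← r_eq_iff, r_vec, r_vec]
  constructor
  · intro h; rw [h]
  · intro h
    have := Real.log_injOn_pos (pr_pos' u) (pr_pos' v) h
    exact_mod_cast this

lemma log_mul_pr (a b : ℝ) (ha : 0 < a) (hb : 0 < b) :
    Real.log (a * b) = Real.log a + Real.log b := Real.log_mul ha.ne' hb.ne'

lemma isE_iff {l : Letter} (h : 0 < lN l) (t : ℕ) : isE l t ↔ val l = e t := by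
  have h' : (0 : ℝ) < lN l := by exact_mod_cast h
  have hf : (0 : ℝ) < fer t := by exact_mod_cast fer_pos t
  rw [← r_eq_iff, r_e]
  have h1 := r_val h
  have h3 : isE l t ↔ (pr (lu l) : ℝ) = (pr (lv l) : ℝ) * (fer t : ℝ) ^ lN l := by
    unfold isE
    exact_mod_cast Iff.rfl
  rw [h3]
  have p1 := pr_pos' (lu l)
  have p2 := pr_pos' (lv l)
  have p3 := pow_pos hf (lN l)
  constructor
  · intro h4
    rw [h4, Real.log_mul p2.ne' p3.ne', Real.log_pow] at h1
    have : (lN l : ℝ) * r (val l) = lN l * Real.log (fer t) := by linarith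
    exact mul_left_cancel₀ h'.ne' this
  · intro h4
    apply Real.log_injOn_pos p1 (mul_pos p2 p3)
    rw [Real.log_mul p2.ne' p3.ne', Real.log_pow, ← h4]
    linarith

lemma pos_iff {l : Letter} (h : 0 < lN l) : pr (lv l) < pr (lu l) ↔ 0 < r (val l) := by
  have h' : (0 : ℝ) < lN l := by exact_mod_cast h
  have h1 := r_val h
  have h2 : pr (lv l) < pr (lu l) ↔ Real.log (pr (lv l)) < Real.log (pr (lu l)) := by
    rw [Real.log_lt_log_iff (pr_pos' _) (pr_pos' _)]
    exact_mod_cast Iff.rfl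
  rw [h2]
  constructor
  · intro h3
    by_contra hc
    push Not at hc
    have := mul_nonpos_of_nonneg_of_nonpos h'.le hc
    linarith
  · intro h3
    have := mul_pos h' h3
    linarith

lemma nonneg_iff {l : Letter} (h : 0 < lN l) : pr (lv l) ≤ pr (lu l) ↔ 0 ≤ r (val l) := by
  have h' : (0 : ℝ) < lN l := by exact_mod_cast h
  have h1 := r_val h
  have h2 : pr (lv l) ≤ pr (lu l) ↔ Real.log (pr (lv l)) ≤ Real.log (pr (lu l)) := by
    rw [Real.log_le_log_iff (pr_pos' _) (pr_pos' _)]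
    exact_mod_cast Iff.rfl
  rw [h2]
  constructor
  · intro h3
    by_contra hc
    push Not at hc
    have := mul_neg_of_pos_of_neg h' hc
    linarith
  · intro h3
    have := mul_nonneg h'.le h3
    linarith

/-- the additive relation of letters, tested by integers -/
def addR (a b c : Letter) : Prop :=
  pr (lu a) ^ (lN b * lN c) * pr (lu b) ^ (lN a * lN c) * pr (lv c) ^ (lN a * lN b) =
  pr (lv a) ^ (lN b * lN c) * pr (lv b) ^ (lN a * lN c) * pr (lu c) ^ (lN a * lN b)

lemma addR_iff {a b c : Letter} (ha : 0 < lN a) (hb : 0 < lN b) (hc : 0 < lN c) :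
    addR a b c ↔ val a + val b = val c := by
  have ha' : (0 : ℝ) < lN a := by exact_mod_cast ha
  have hb' : (0 : ℝ) < lN b := by exact_mod_cast hb
  have hc' : (0 : ℝ) < lN c := by exact_mod_cast hc
  have h1 := r_val ha
  have h2 := r_val hb
  have h3 := r_val hc
  rw [← r_eq_iff, map_add]
  have h4 : addR a b c ↔
      (pr (lu a) : ℝ) ^ (lN b * lN c) * (pr (lu b) : ℝ) ^ (lN a * lN c) *
        (pr (lv c) : ℝ) ^ (lN a * lN b) =
      (pr (lv a) : ℝ) ^ (lN b * lN c) * (pr (lv b) : ℝ) ^ (lN a * lN c) *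
        (pr (lu c) : ℝ) ^ (lN a * lN b) := by
    unfold addR
    exact_mod_cast Iff.rfl
  rw [h4]
  have q1 := pow_pos (pr_pos' (lu a)) (lN b * lN c)
  have q2 := pow_pos (pr_pos' (lu b)) (lN a * lN c)
  have q3 := pow_pos (pr_pos' (lv c)) (lN a * lN b)
  have q4 := pow_pos (pr_pos' (lv a)) (lN b * lN c)
  have q5 := pow_pos (pr_pos' (lv b)) (lN a * lN c)
  have q6 := pow_pos (pr_pos' (lu c)) (lN a * lN b)
  have h5 : ∀ x y : ℝ, 0 < x → 0 < y → (x = y ↔ Real.log x = Real.log y) := by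
    intro x y hx hy
    constructor
    · intro h; rw [h]
    · intro h; exact Real.log_injOn_pos hx hy h
  rw [h5 _ _ (mul_pos (mul_pos q1 q2) q3) (mul_pos (mul_pos q4 q5) q6),
    Real.log_mul (mul_pos q1 q2).ne' q3.ne', Real.log_mul q1.ne' q2.ne',
    Real.log_mul (mul_pos q4 q5).ne' q6.ne', Real.log_mul q4.ne' q5.ne']
  simp only [Real.log_pow]
  push_cast
  have hN : (0 : ℝ) < lN a * lN b * lN c := by positivity
  constructor
  · intro h
    have : (lN a * lN b * lN c : ℝ) * (r (val a) + r (val b)) =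
        (lN a * lN b * lN c : ℝ) * r (val c) := by
      linear_combination h + (lN b * lN c : ℝ) * h1 + (lN a * lN c : ℝ) * h2 -
        (lN a * lN b : ℝ) * h3
    exact mul_left_cancel₀ hN.ne' this
  · intro h
    linear_combination (lN a * lN b * lN c : ℝ) * h - (lN b * lN c : ℝ) * h1 -
      (lN a * lN c : ℝ) * h2 + (lN a * lN b : ℝ) * h3

lemma val_mem_V {l : Letter} {j : ℕ} (h1 : below (lu l) j) (h2 : below (lv l) j) :
    val l ∈ V j :=
  Submodule.smul_mem _ _ (Submodule.sub_mem _ (vec_mem_V h1) (vec_mem_V h2))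

lemma val_zl : val zl = 0 := by simp [val, zl, lu, lv]

/-- the images of the basis vectors in a collapse -/
noncomputable def kappa (S' : St) (k i : ℕ) : W :=
  if i < k then ((sD S' : ℚ)⁻¹) • (vec (kp S' i) - vec (kq S' i)) else e i

lemma vec_ap {S' : St} {k : ℕ} {κ : ℕ → W} {D : ℚ}
    (hκ : ∀ i < k, D • κ i = vec (kp S' i) - vec (kq S' i)) {u v : List ℕ}
    (hu : below u k) (hv : below v k) :
    vec (ap S' u v) - vec (ap S' v u) = D • Kmap κ (vec u - vec v) := by
  have key : ∀ u : List ℕ, below u k →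
      vec (u.flatMap (kp S')) - vec (u.flatMap (kq S')) = D • Kmap κ (vec u) := by
    intro u
    induction u with
    | nil => intro _; simp
    | cons i u ih =>
        intro hu
        rw [List.flatMap_cons, List.flatMap_cons, vec_append, vec_append, vec_cons, map_add,
          smul_add, Kmap_e, hκ i (hu i (by simp)), ← ih fun k hk => hu k (by simp [hk])]
        abel
  unfold ap
  rw [vec_append, vec_append, map_sub, smul_sub, ← key u hu, ← key v hv]
  abel

section Hlevel

variable {H : Type*} [AddCommGroup H] (ν : ℕ ≃ H)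

/-- addition transported to `ℕ` -/
def haddOf (a b : ℕ) : ℕ := ν.symm (ν a + ν b)

/-- the level elements of a state -/
def hf (hs : List ℕ) (i : ℕ) : H := ν (hs.getD i (ν.symm 0))

lemma ν_mulH (n x : ℕ) : ν (mulH (haddOf ν) (ν.symm 0) n x) = n • ν x := by
  induction n with
  | zero => simp [mulH]
  | succ n ih =>
      show ν (haddOf ν (mulH (haddOf ν) (ν.symm 0) n x) x) = _
      rw [haddOf, Equiv.apply_symm_apply, ih, succ_nsmul]

lemma ν_sumH (hs u : List ℕ) :
    ν (sumH (haddOf ν) (ν.symm 0) hs u) = Phi (hf ν hs) u := by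
  have key : ∀ (u : List ℕ) (acc : ℕ),
      ν (u.foldl (fun acc i => haddOf ν acc (hs.getD i (ν.symm 0))) acc) =
        ν acc + Phi (hf ν hs) u := by
    intro u
    induction u with
    | nil => intro acc; simp
    | cons i u ih =>
        intro acc
        rw [List.foldl_cons, ih, haddOf, Equiv.apply_symm_apply, Phi_cons, hf]
        abel
  rw [sumH, key, Equiv.apply_symm_apply, zero_add]

lemma hOK_iff {hs : List ℕ} {l : Letter} : hOK (haddOf ν) (ν.symm 0) hs l ↔
    lN l • ν (lf l) + Phi (hf ν hs) (lv l) = Phi (hf ν hs) (lu l) := by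
  unfold hOK
  rw [← ν.injective.eq_iff, ν_sumH, haddOf, Equiv.apply_symm_apply, ν_mulH, ν_sumH]

lemma hOK_re {hs : List ℕ} {l : Letter} (hN : 0 < lN l)
    (h : hOK (haddOf ν) (ν.symm 0) hs l) : Re (hf ν hs) (val l) (ν (lf l)) :=
  Re_of_lists hN (smul_val hN) ((hOK_iff ν).1 h)

lemma hOK_of_re (htf : TF H) {hs : List ℕ} {l : Letter} (hN : 0 < lN l)
    (h : Re (hf ν hs) (val l) (ν (lf l))) : hOK (haddOf ν) (ν.symm 0) hs l :=
  (hOK_iff ν).2 (Re_lists htf h (smul_val hN))

end Hlevel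

end Run7.h480.Ord
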