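import Pool.Agent.Run7.h446.Smyth.Iface

set_option autoImplicit false

open scoped NumberField
open Finset

namespace Pool.Agent.Run7.h480.Smyth_IDEAL

open Pool.Agent.Run7.h446.Smyth IsDedekindDomain

theorem main : St_ideal := by
  intro K _ _ ι _ a i hne hv
  classical
  set I : Ideal (𝓞 K) := Ideal.span (a '' {j | j ≠ i}) with hI
  have hI0 : I ≠ 0 := by
    obtain ⟨j, hj, haj⟩ := hne
    intro h
    have : a j ∈ I := Ideal.subset_span ⟨j, hj, rfl⟩
    rw [h] at this
    exact haj (by simpa using this)
  rw [← Ideal.dvd_span_singleton, UniqueFactorizationMonoid.dvd_iff_emultiplicity_le hI0]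
  intro p hp
  have hp' : p.IsPrime := Ideal.isPrime_of_prime hp
  let v : HeightOneSpectrum (𝓞 K) := ⟨p, hp', hp.ne_zero⟩
  obtain ⟨j, hj, hle⟩ := hv v
  have hle' : v.intValuation (a i) ≤ v.intValuation (a j) := by
    rw [← v.valuation_of_algebraMap (K := K), ← v.valuation_of_algebraMap (K := K)]
    exact hle
  calc emultiplicity p I ≤ emultiplicity p (Ideal.span {a j}) := by
        apply emultiplicity_le_emultiplicity_of_dvd_right
        rw [Ideal.dvd_span_singleton]
        exact Ideal.subset_span ⟨j, hj, rfl⟩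
    _ ≤ emultiplicity p (Ideal.span {a i}) := by
        rw [emultiplicity_le_emultiplicity_iff]
        intro n hn
        have h1 := (v.intValuation_le_pow_iff_dvd (a j) n).2 hn
        exact (v.intValuation_le_pow_iff_dvd (a i) n).1 (hle'.trans h1)

end Pool.Agent.Run7.h480.Smyth_IDEAL
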