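import Pool.Agent.Run7.h480.Smyth_NECF

set_option autoImplicit false

open scoped NumberField
open Finset

namespace Pool.Agent.Run7.h480.Smyth_NECA

open Pool.Agent.Run7.h446.Smyth Pool.Agent.Run7.h480.Smyth_NECF

/-- equality case of the triangle inequality -/
theorem align {ι : Type} (s : Finset ι) (z : ι → ℂ) (b : ι → ℝ) (hz : ∀ j ∈ s, ‖z j‖ ≤ b j)
    (hb : ∑ j ∈ s, b j ≤ ‖∑ j ∈ s, z j‖) (h0 : ∑ j ∈ s, z j ≠ 0) (j : ι) (hj : j ∈ s) :
    z j = (b j / ‖∑ j ∈ s, z j‖ : ℝ) * ∑ j ∈ s, z j := by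
  set Z := ∑ j ∈ s, z j with hZ
  have hZpos : 0 < ‖Z‖ := norm_pos_iff.2 h0
  set w : ℂ := (starRingEnd ℂ Z) / (‖Z‖ : ℂ) with hw
  have hwn : ‖w‖ = 1 := by
    rw [hw, norm_div, RCLike.norm_conj, Complex.norm_real, norm_norm, div_self hZpos.ne']
  have hwZ : w * Z = (‖Z‖ : ℂ) := by
    have h1 : (starRingEnd ℂ Z) * Z = ((‖Z‖ : ℂ)) ^ 2 := by
      rw [mul_comm, Complex.mul_conj, Complex.normSq_eq_norm_sq]
      push_cast; ring
    have h2 : (‖Z‖ : ℂ) ≠ 0 := by exact_mod_cast hZpos.ne'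
    rw [hw, div_mul_eq_mul_div, h1]
    field_simp
  have hre : ∀ j ∈ s, (w * z j).re ≤ b j := by
    intro j hj
    calc (w * z j).re ≤ ‖w * z j‖ := Complex.re_le_norm _
      _ = ‖z j‖ := by rw [norm_mul, hwn, one_mul]
      _ ≤ b j := hz j hj
  have hsum : ∑ j ∈ s, (w * z j).re = ‖Z‖ := by
    rw [← Complex.re_sum, ← Finset.mul_sum, ← hZ, hwZ, Complex.ofReal_re]
  have heq : ∀ j ∈ s, (w * z j).re = b j := by
    have h1 : ∑ j ∈ s, (w * z j).re = ∑ j ∈ s, b j :=
      le_antisymm (Finset.sum_le_sum hre) (by rw [hsum]; exact hb)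
    exact (Finset.sum_eq_sum_iff_of_le hre).1 h1
  have hnorm : ‖w * z j‖ = b j := by
    apply le_antisymm
    · rw [norm_mul, hwn, one_mul]; exact hz j hj
    · rw [← heq j hj]; exact Complex.re_le_norm _
  have him : (w * z j).im = 0 := by
    have h1 : ‖w * z j‖ ^ 2 = (w * z j).re ^ 2 + (w * z j).im ^ 2 := by
      rw [← Complex.normSq_eq_norm_sq, Complex.normSq_apply]; ring
    rw [hnorm, heq j hj] at h1
    nlinarith
  have hwz : w * z j = (b j : ℂ) := by
    apply Complex.ext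
    · rw [Complex.ofReal_re]; exact heq j hj
    · rw [Complex.ofReal_im]; exact him
  have hw0 : w ≠ 0 := by
    intro h
    rw [h, norm_zero] at hwn
    exact zero_ne_one hwn
  have hn0 : (‖Z‖ : ℂ) ≠ 0 := by exact_mod_cast hZpos.ne'
  apply mul_left_cancel₀ hw0
  rw [hwz]
  calc (b j : ℂ) = ((b j / ‖Z‖ : ℝ) : ℂ) * (‖Z‖ : ℂ) := by push_cast; field_simp
    _ = ((b j / ‖Z‖ : ℝ) : ℂ) * (w * Z) := by rw [hwZ]
    _ = w * (((b j / ‖Z‖ : ℝ) : ℂ) * Z) := by ring

theorem main : St_necA := by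
  intro K _ _ n a α h0 hconj hrel
  by_cases hleft : (∀ v : NumberField.InfinitePlace K, ∀ i : Fin n,
      v (a i) < ∑ j ∈ Finset.univ.erase i, v (a j))
  · exact Or.inl hleft
  right
  push Not at hleft
  obtain ⟨v, i, hvi⟩ := hleft
  classical
  have hv0 : ∀ x : K, 0 ≤ v x := fun x => apply_nonneg v x
  by_cases hai : a i = 0
  · -- all coefficients vanish
    have hall : ∀ j, a j = 0 := by
      intro j
      by_cases hji : j = i
      · rw [hji]; exact hai
      rw [hai, map_zero] at hvi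
      have h1 : v (a j) ≤ ∑ j ∈ Finset.univ.erase i, v (a j) :=
        Finset.single_le_sum (f := fun j => v (a j)) (fun _ _ => hv0 _)
          (Finset.mem_erase.2 ⟨hji, Finset.mem_univ j⟩)
      have h2 : v (a j) = 0 := le_antisymm (h1.trans hvi) (hv0 _)
      exact (map_eq_zero v).1 h2
    refine ⟨fun _ => 1, fun _ => ⟨1, one_pos, one_pow 1⟩, ?_⟩
    apply Finset.sum_eq_zero
    intro j _
    rw [hall j, map_zero, zero_mul]
  letI : Algebra K ℂ := v.embedding.toAlgebra
  let τ : AlgebraicClosure K →ₐ[K] ℂ := IsAlgClosed.lift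
  have hτK : ∀ x : K, τ (algebraMap K (AlgebraicClosure K) x) = v.embedding x := fun x => τ.commutes x
  have hτ0 : ∀ x : AlgebraicClosure K, τ x = 0 → x = 0 := fun x hx => (map_eq_zero τ).1 hx
  let S : Set (AlgebraicClosure K) := {γ | minpoly K γ = minpoly K (α i)}
  have hSfin : S.Finite := conj_finite K (α i)
  have hSne : S.Nonempty := ⟨α i, rfl⟩
  obtain ⟨γ0, hγ0, hmax⟩ := Set.exists_max_image S (fun γ => ‖τ γ‖) hSfin hSne
  set ρ := ‖τ γ0‖ with hρ
  have hρpos : 0 < ρ := by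
    have h1 : 0 < ‖τ (α i)‖ := norm_pos_iff.2 (fun h => h0 i (hτ0 _ h))
    exact lt_of_lt_of_le h1 (hmax (α i) rfl)
  have hvipos : 0 < v (a i) := lt_of_le_of_ne (hv0 _) (fun h => hai ((map_eq_zero v).1 h.symm))
  -- the key computation
  have key : ∀ γ ∈ S, ‖τ γ‖ = ρ → ∀ h : AlgebraicClosure K ≃ₐ[K] AlgebraicClosure K, h (α i) = γ → ∀ j, a j ≠ 0 →
      τ (h (α j)) = (if j = i then 1 else
        -(((v (a j) / v (a i) : ℝ) : ℂ) * v.embedding (a i) / v.embedding (a j))) * τ γ ∧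
      h (α j) ∈ S ∧ ‖τ (h (α j))‖ = ρ := by
    intro γ hγ hγρ h hh j haj
    have hmemS : ∀ k, h (α k) ∈ S := by
      intro k
      show minpoly K (h (α k)) = minpoly K (α i)
      rw [minpoly.algEquiv_eq]
      exact hconj _ _
    by_cases hji : j = i
    · subst hji
      rw [if_pos rfl, one_mul, hh]
      exact ⟨rfl, hγ, hγρ⟩
    rw [if_neg hji]
    have hrel1 : ∑ k, v.embedding (a k) * τ (h (α k)) = 0 := by
      have h1 := congrArg (fun x => τ (h x)) hrel
      simp only [map_sum, map_mul, map_zero, AlgEquiv.commutes] at h1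
      simpa only [hτK] using h1
    have hrel2 : ∑ k ∈ univ.erase i, v.embedding (a k) * τ (h (α k)) =
        -(v.embedding (a i) * τ γ) := by
      rw [← Finset.add_sum_erase _ _ (Finset.mem_univ i), hh] at hrel1
      exact eq_neg_of_add_eq_zero_right hrel1
    have hnZ : ‖∑ k ∈ univ.erase i, v.embedding (a k) * τ (h (α k))‖ = v (a i) * ρ := by
      rw [hrel2, norm_neg, norm_mul, v.norm_embedding_eq, hγρ]
    have hZ0 : ∑ k ∈ univ.erase i, v.embedding (a k) * τ (h (α k)) ≠ 0 := by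
      rw [← norm_pos_iff, hnZ]
      positivity
    have hz : ∀ k ∈ univ.erase i, ‖v.embedding (a k) * τ (h (α k))‖ ≤ v (a k) * ρ := by
      intro k _
      rw [norm_mul, v.norm_embedding_eq]
      exact mul_le_mul_of_nonneg_left (hmax _ (hmemS k)) (hv0 _)
    have hb : ∑ k ∈ univ.erase i, v (a k) * ρ ≤
        ‖∑ k ∈ univ.erase i, v.embedding (a k) * τ (h (α k))‖ := by
      rw [hnZ, ← Finset.sum_mul]
      exact mul_le_mul_of_nonneg_right hvi hρpos.le
    have hal := align _ _ _ hz hb hZ0 j (Finset.mem_erase.2 ⟨hji, Finset.mem_univ j⟩)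
    rw [hnZ, hrel2] at hal
    have hej : v.embedding (a j) ≠ 0 := fun h => haj ((map_eq_zero _).1 h)
    have hfr : v (a j) * ρ / (v (a i) * ρ) = v (a j) / v (a i) := by
      field_simp
    rw [hfr] at hal
    have hfin : τ (h (α j)) = -(((v (a j) / v (a i) : ℝ) : ℂ) * v.embedding (a i) /
        v.embedding (a j)) * τ γ := by
      apply mul_left_cancel₀ hej
      rw [hal]
      field_simp
    refine ⟨hfin, hmemS j, ?_⟩
    rw [hfin, norm_mul, norm_neg, norm_div, norm_mul, v.norm_embedding_eq, v.norm_embedding_eq,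
      Complex.norm_real, Real.norm_eq_abs, abs_of_nonneg (div_nonneg (hv0 _) (hv0 _)), hγρ]
    have hvj : 0 < v (a j) := lt_of_le_of_ne (hv0 _) (fun h => haj ((map_eq_zero v).1 h.symm))
    field_simp
  obtain ⟨g, hg⟩ := exists_aut K (α i) γ0 (Eq.symm hγ0)
  have hγ00 : γ0 ≠ 0 := by
    intro h
    rw [hρ, h, map_zero, norm_zero] at hρpos
    exact lt_irrefl _ hρpos
  refine ⟨fun j => if a j = 0 then 1 else g (α j) / γ0, ?_, ?_⟩
  · intro j
    by_cases haj : a j = 0
    · exact ⟨1, one_pos, by simp [haj]⟩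
    set c : ℂ := (if j = i then 1 else
        -(((v (a j) / v (a i) : ℝ) : ℂ) * v.embedding (a i) / v.embedding (a j))) with hc
    have hτω : τ (g (α j) / γ0) = c := by
      rw [map_div₀, (key γ0 hγ0 rfl g hg j haj).1]
      have : τ γ0 ≠ 0 := fun h => hγ00 (hτ0 _ h)
      rw [mul_div_assoc, div_self this, mul_one]
    -- all powers stay in the finite set
    have hpow : ∀ k : ℕ, ∃ γ ∈ S, ‖τ γ‖ = ρ ∧ τ γ = c ^ k * τ γ0 := by
      intro k
      induction k with
      | zero => exact ⟨γ0, hγ0, rfl, by simp⟩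
      | succ k ih =>
        obtain ⟨γ, hγ, hn, he⟩ := ih
        obtain ⟨h, hh⟩ := exists_aut K (α i) γ (Eq.symm hγ)
        obtain ⟨k1, k2, k3⟩ := key γ hγ hn h hh j haj
        refine ⟨h (α j), k2, k3, ?_⟩
        rw [k1, he, pow_succ]
        ring
    have hfin : (τ '' S).Finite := hSfin.image _
    have hmaps : ∀ k : ℕ, c ^ k * τ γ0 ∈ τ '' S := by
      intro k
      obtain ⟨γ, hγ, _, he⟩ := hpow k
      exact ⟨γ, hγ, he⟩
    have hninj : ¬ Function.Injective (fun k : ℕ => c ^ k * τ γ0) := by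
      intro hinj
      exact Set.infinite_of_injective_forall_mem hinj hmaps hfin
    have hτγ0 : τ γ0 ≠ 0 := fun h => hγ00 (hτ0 _ h)
    have hc0 : c ≠ 0 := by
      intro hc0
      obtain ⟨γ, hγ, hn, he⟩ := hpow 1
      rw [hc0] at he
      rw [he] at hn
      simp at hn
      exact hρpos.ne hn
    obtain ⟨k, l, hkl, hne⟩ : ∃ k l : ℕ, c ^ k = c ^ l ∧ k < l := by
      rw [Function.Injective] at hninj
      push Not at hninj
      obtain ⟨k, l, hkl, hne⟩ := hninj
      have := mul_right_cancel₀ hτγ0 hkl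
      rcases lt_or_gt_of_ne hne with h | h
      · exact ⟨k, l, this, h⟩
      · exact ⟨l, k, this.symm, h⟩
    refine ⟨l - k, Nat.sub_pos_of_lt hne, ?_⟩
    simp only [if_neg haj]
    have h1 : c ^ (l - k) = 1 := by
      have : c ^ l = c ^ (l - k) * c ^ k := by
        rw [← pow_add, Nat.sub_add_cancel hne.le]
      rw [this] at hkl
      have h2 : c ^ k ≠ 0 := pow_ne_zero _ hc0
      exact (mul_right_cancel₀ h2 (by rw [one_mul]; exact hkl)).symm
    have h3 : τ ((g (α j) / γ0) ^ (l - k)) = τ 1 := by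
      rw [map_pow, hτω, h1, map_one]
    exact τ.injective h3
  · have h1 : ∀ j, algebraMap K (AlgebraicClosure K) (a j) * (if a j = 0 then 1 else g (α j) / γ0) =
        γ0⁻¹ * g (algebraMap K (AlgebraicClosure K) (a j) * α j) := by
      intro j
      by_cases haj : a j = 0
      · simp [haj]
      · rw [if_neg haj, map_mul, AlgEquiv.commutes]
        field_simp
    show ∑ j, algebraMap K (AlgebraicClosure K) (a j) * (if a j = 0 then 1 else g (α j) / γ0) = 0
    rw [Finset.sum_congr rfl (fun j _ => h1 j), ← Finset.mul_sum, ← map_sum]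
    have := hrel
    rw [show (∑ i, algebraMap K (AlgebraicClosure K) (a i) * α i) = 0 from hrel, map_zero, mul_zero]

end Pool.Agent.Run7.h480.Smyth_NECA
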