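import Pool.Agent.Run7.h446.Smyth.Iface

set_option autoImplicit false

open scoped NumberField
open Finset

namespace Pool.Agent.Run7.h480.Smyth_NECF

open Pool.Agent.Run7.h446.Smyth IsDedekindDomain

theorem exists_aut (K : Type) [Field K] (x y : AlgebraicClosure K)
    (h : minpoly K x = minpoly K y) : ∃ σ : AlgebraicClosure K ≃ₐ[K] AlgebraicClosure K, σ x = y := by
  have h2 : IsConjRoot K y x := isConjRoot_def.2 h.symm
  obtain ⟨σ, hσ⟩ := isConjRoot_iff_exists_algEquiv.1 h2
  exact ⟨σ, hσ⟩

theorem conj_finite (K : Type) [Field K] (x : AlgebraicClosure K) :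
    {γ : AlgebraicClosure K | minpoly K γ = minpoly K x}.Finite := by
  classical
  refine ((minpoly K x).aroots (AlgebraicClosure K)).toFinset.finite_toSet.subset ?_
  intro γ hγ
  have hγ' : minpoly K γ = minpoly K x := hγ
  rw [Finset.mem_coe, Multiset.mem_toFinset, Polynomial.mem_aroots]
  refine ⟨minpoly.ne_zero (Algebra.IsIntegral.isIntegral x), ?_⟩
  rw [← hγ']
  exact minpoly.aeval K γ

theorem main : St_necF := by
  intro K _ _ n a α hn h0 hconj hrel v i
  by_contra hcon
  push Not at hcon
  classical
  have hai : (a i : K) ≠ 0 := by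
    obtain ⟨j, hj⟩ : ∃ j : Fin n, j ≠ i := by
      haveI : Nontrivial (Fin n) := Fin.nontrivial_iff_two_le.2 hn
      exact exists_ne i
    intro h
    have := hcon j hj
    rw [h, map_zero] at this
    exact not_lt_zero this
  let A := (v.valuation K).valuationSubring
  let L := AlgebraicClosure K
  letI : Module A L := Module.compHom L (algebraMap A K)
  have hsm : ∀ (x : A) (y : L), x • y = algebraMap K L (x : K) * y := by
    intro x y
    show (algebraMap A K x) • y = _
    rw [Algebra.smul_def]
    rfl
  let S : Set L := {γ | minpoly K γ = minpoly K (α i)}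
  have hSfin : S.Finite := conj_finite K (α i)
  let N : Submodule A L := Submodule.span A S
  have hN : N.FG := ⟨hSfin.toFinset, by simp [N]⟩
  have hq : ∀ j, j ≠ i → v.valuation K (-((a j : K) / (a i : K))) < 1 := by
    intro j hj
    rw [Valuation.map_neg, map_div₀]
    have := hcon j hj
    exact (div_lt_one₀ (lt_of_le_of_lt zero_le this)).2 this
  have hle : N ≤ (IsLocalRing.maximalIdeal A) • N := by
    rw [Submodule.span_le]
    intro γ hγ
    obtain ⟨h, hh⟩ := exists_aut K (α i) γ (Eq.symm hγ)
    have hrel' : ∑ j, algebraMap K L (a j : K) * h (α j) = 0 := by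
      have := congrArg h hrel
      rw [map_sum, map_zero] at this
      simpa using this
    have hL : algebraMap K L (a i : K) ≠ 0 := by
      intro h
      exact hai ((map_eq_zero _).1 h)
    let q : Fin n → A := fun j => if hj : j ≠ i then
      ⟨-((a j : K) / (a i : K)), ((Valuation.mem_valuationSubring_iff _ _).2 (hq j hj).le)⟩ else 0
    have hqv : ∀ j, j ≠ i → ((q j : A) : K) = -((a j : K) / (a i : K)) := by
      intro j hj
      simp only [q, dif_pos hj]
    have e : γ = ∑ j ∈ univ.erase i, q j • h (α j) := by
      have e1 : ∀ j ∈ univ.erase i, q j • h (α j) =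
          -(algebraMap K L (a i : K))⁻¹ * (algebraMap K L (a j : K) * h (α j)) := by
        intro j hj
        rw [hsm, hqv j (ne_of_mem_erase hj), map_neg, map_div₀]
        ring
      rw [Finset.sum_congr rfl e1, ← Finset.mul_sum]
      have e2 : ∑ j ∈ univ.erase i, algebraMap K L (a j : K) * h (α j) =
          - (algebraMap K L (a i : K) * γ) := by
        rw [← Finset.add_sum_erase _ _ (Finset.mem_univ i), hh] at hrel'
        exact eq_neg_of_add_eq_zero_right hrel'
      rw [e2, neg_mul_neg, ← mul_assoc, inv_mul_cancel₀ hL, one_mul]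
    rw [e]
    refine Submodule.sum_mem _ fun j hj => Submodule.smul_mem_smul ?_ ?_
    · have hji := ne_of_mem_erase hj
      rw [IsLocalRing.mem_maximalIdeal, mem_nonunits_iff]
      intro hu
      obtain ⟨u, hu⟩ := isUnit_iff_exists_inv.1 hu
      have h1 := congrArg (fun x : A => v.valuation K (x : K)) hu
      have h2 : v.valuation K (u : K) ≤ 1 := (Valuation.mem_valuationSubring_iff _ _).1 u.2
      have h3 := hq j hji
      simp only [MulMemClass.coe_mul, OneMemClass.coe_one, map_one, map_mul] at h1
      rw [hqv j hji] at h1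
      have h4 : v.valuation K (-((a j : K) / (a i : K))) * v.valuation K (u : K) < 1 :=
        mul_lt_one_of_lt_of_le h3 h2
      exact absurd h1 h4.ne
    · apply Submodule.subset_span
      show minpoly K (h (α j)) = minpoly K (α i)
      rw [minpoly.algEquiv_eq]
      exact hconj _ _
  have hbot := Submodule.eq_bot_of_le_smul_of_le_jacobson_bot _ N hN hle
    (IsLocalRing.maximalIdeal_le_jacobson _)
  have hmem : α i ∈ N := Submodule.subset_span rfl
  rw [hbot, Submodule.mem_bot] at hmem
  exact h0 i hmem

end Pool.Agent.Run7.h480.Smyth_NECF
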